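import Pool.Agent.Work.MP_a7fe73_nl.Interface

set_option autoImplicit false

namespace JON
open scoped Classical
open Finset

theorem ABL.cb_succ {V : Type} (A : Finset V) (pos : V → ℕ) (i : ℕ) :
    cb A pos (i + 1) = cb A pos i + (A.filter (fun w => pos w = i)).card := by
  unfold cb
  rw [← card_union_of_disjoint]
  · congr 1
    ext w
    simp only [mem_filter, mem_union]
    constructor
    · rintro ⟨h1, h2⟩
      rcases Nat.lt_succ_iff_lt_or_eq.1 h2 with h | h
      · exact Or.inl ⟨h1, h⟩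
      · exact Or.inr ⟨h1, h⟩
    · rintro (⟨h1, h2⟩ | ⟨h1, h2⟩)
      · exact ⟨h1, by omega⟩
      · exact ⟨h1, by omega⟩
  · rw [disjoint_left]
    intro w h1 h2
    rw [mem_filter] at h1 h2
    omega

theorem ABL.card_T {V : Type} (A : Finset V) (pos : V → ℕ) (L : ℕ) (T : Finset ℕ)
    (hT : T ⊆ range L) : ((A.filter (fun w => pos w ∈ T)).card : ℤ) =
      ∑ i ∈ range L, (if i ∈ T then (1 : ℤ) else 0) * ((cb A pos (i + 1) : ℤ) - cb A pos i) := by
  have h1 : (A.filter (fun w => pos w ∈ T)).card =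
      ∑ i ∈ T, ((A.filter (fun w => pos w ∈ T)).filter (fun w => pos w = i)).card := by
    apply card_eq_sum_card_fiberwise
    intro w hw
    exact (mem_filter.1 hw).2
  have h2 : ∀ i ∈ T, ((A.filter (fun w => pos w ∈ T)).filter (fun w => pos w = i)).card =
      (A.filter (fun w => pos w = i)).card := by
    intro i hi
    congr 1
    ext w
    simp only [mem_filter]
    constructor
    · rintro ⟨⟨h1, _⟩, h3⟩
      exact ⟨h1, h3⟩
    · rintro ⟨h1, h3⟩
      exact ⟨⟨h1, by rw [h3]; exact hi⟩, h3⟩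
  rw [h1, sum_congr rfl h2]
  push_cast
  have h3 : ∑ i ∈ range L, (if i ∈ T then (1 : ℤ) else 0) * ((cb A pos (i + 1) : ℤ) - cb A pos i) =
      ∑ i ∈ T, ((cb A pos (i + 1) : ℤ) - cb A pos i) := by
    rw [← sum_subset hT]
    · apply sum_congr rfl
      intro i hi
      rw [if_pos hi, one_mul]
    · intro i _ hi
      rw [if_neg hi, zero_mul]
  rw [h3]
  apply sum_congr rfl
  intro i _
  rw [ABL.cb_succ]
  push_cast
  ring

theorem ABL.parts (t d : ℕ → ℤ) (n : ℕ) : ∑ i ∈ range n, t i * (d (i + 1) - d i) =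
    ∑ i ∈ range n, d (i + 1) * (t i - t (i + 1)) + t n * d n - t 0 * d 0 := by
  induction n with
  | zero => simp
  | succ n ih =>
    rw [sum_range_succ, sum_range_succ, ih]
    ring

theorem p_ABL : Stmt_ABL := by
  intro V X Y pos L T hT hB
  have hX := ABL.card_T X pos L T hT
  have hY := ABL.card_T Y pos L T hT
  have hp := ABL.parts (fun i => if i ∈ T then (1 : ℤ) else 0)
    (fun i => (cb X pos i : ℤ) - cb Y pos i) L
  have hL : L ∉ T := fun h => by
    have := hT h
    rw [mem_range] at this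
    omega
  have h0 : ∀ A : Finset V, cb A pos 0 = 0 := by
    intro A
    unfold cb
    rw [card_eq_zero, filter_eq_empty_iff]
    intro w _
    omega
  simp only [if_neg hL, h0] at hp
  have hsub : (((X.filter (fun w => pos w ∈ T)).card : ℤ) -
      ((Y.filter (fun w => pos w ∈ T)).card : ℤ)) =
      ∑ i ∈ range L, (if i ∈ T then (1 : ℤ) else 0) *
        (((cb X pos (i + 1) : ℤ) - cb Y pos (i + 1)) - ((cb X pos i : ℤ) - cb Y pos i)) := by
    rw [hX, hY, ← sum_sub_distrib]
    apply sum_congr rfl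
    intro i _
    ring
  rw [hp] at hsub
  have hbd : -((bd L T).card : ℤ) ≤ ∑ i ∈ range L, ((cb X pos (i + 1) : ℤ) - cb Y pos (i + 1)) *
      ((if i ∈ T then (1 : ℤ) else 0) - (if i + 1 ∈ T then (1 : ℤ) else 0)) := by
    have h1 : ((bd L T).card : ℤ) = ∑ i ∈ range L, if ¬ (i ∈ T ↔ i + 1 ∈ T) then (1 : ℤ) else 0 := by
      unfold bd
      rw [card_filter]
      push_cast
      rfl
    rw [h1, ← sum_neg_distrib]
    apply sum_le_sum
    intro i _
    have hb := hB (i + 1)
    have hb1 : (cb Y pos (i + 1) : ℤ) ≤ cb X pos (i + 1) + 1 := by exact_mod_cast hb.1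
    have hb2 : (cb X pos (i + 1) : ℤ) ≤ cb Y pos (i + 1) + 1 := by exact_mod_cast hb.2
    by_cases hi : i ∈ T <;> by_cases hj : i + 1 ∈ T <;> simp [hi, hj] <;> linarith
  have : -((bd L T).card : ℤ) ≤ ((X.filter (fun w => pos w ∈ T)).card : ℤ) -
      ((Y.filter (fun w => pos w ∈ T)).card : ℤ) := by
    rw [hsub]
    linarith
  omega

end JON
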