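import Pool.Agent.Work.MP_a7fe73_nl.Interface

set_option autoImplicit false
set_option linter.unusedSectionVars false

namespace JON
open scoped Classical
open Finset

theorem ASB_mem_Sp {V : Type} {m : ℕ} {g : ℕ → Fin 4 → V} {X Y Q U W1 W2 : Finset V} {v : V} :
    v ∈ Sp m g X Y Q U W1 W2 ↔
      v ∈ hubV m g ∨ v ∈ X ∨ v ∈ Y ∨ v ∈ Q ∨ v ∈ U ∨ v ∈ W1 ∨ v ∈ W2 := by
  unfold Sp
  simp only [mem_union]

theorem ASB_hin_sub {V : Type} {m : ℕ} {g : ℕ → Fin 4 → V} (hm : 1 ≤ m) {v : V} (h : v ∈ hin m g) :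
    v ∈ hubV m g := by
  rw [mem_hin] at h
  rw [mem_hubV]
  rcases h with h | ⟨i, hi, h⟩
  · exact ⟨0, by omega, 0, h.symm⟩
  · exact ⟨i, hi, 1, h⟩

theorem p_ASB : Stmt_ASB := by
  intro V _ D m g X Y Q U W1 W2 f1 f2 F psi1 psi2 psi σ hA h1 h2 h3 h4 h5
  -- the image of a tail of the first linkage
  have a1 : ∀ v, v ∈ hout m g ∨ v ∈ W1 → σ v ∈ Sp m g X Y Q U W1 W2 ∧ D.Adj v (σ v) := by
    intro v hv
    rw [h3 v hv]
    refine ⟨?_, hA.l1.arc v hv⟩
    rw [ASB_mem_Sp]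
    rcases hA.l1.maps v hv with h | h
    · tauto
    · rw [mem_union] at h
      tauto
  have a2 : ∀ v, v ∈ X ∪ Q ∨ v ∈ W2 → σ v ∈ Sp m g X Y Q U W1 W2 ∧ D.Adj v (σ v) := by
    intro v hv
    rw [h4 v hv]
    refine ⟨?_, hA.l2.arc v hv⟩
    rw [ASB_mem_Sp]
    rcases hA.l2.maps v hv with h | h
    · tauto
    · exact Or.inl (ASB_hin_sub hA.hm h)
  have a3 : ∀ v, v ∈ Y ∨ v ∈ U → σ v ∈ Sp m g X Y Q U W1 W2 ∧ D.Adj v (σ v) := by
    intro v hv
    rw [h5 v hv]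
    refine ⟨?_, (hA.Fm v hv).2⟩
    rw [ASB_mem_Sp]
    rcases (hA.Fm v hv).1 with h | h
    · tauto
    · tauto
  have a4 : ∀ v ∈ hubV m g, σ v ∈ Sp m g X Y Q U W1 W2 ∧ D.Adj v (σ v) := by
    intro v hv
    obtain ⟨i, hi, c, hc⟩ := mem_hubV.1 hv
    subst hc
    have harcs := hA.hub.arcs i hi
    fin_cases c
    · show σ (g i 0) ∈ _ ∧ D.Adj (g i 0) (σ (g i 0))
      rw [(h1 i hi).1]
      exact ⟨ASB_mem_Sp.2 (Or.inl (mem_hubV.2 ⟨i, hi, 2, rfl⟩)), harcs.1⟩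
    · show σ (g i 1) ∈ _ ∧ D.Adj (g i 1) (σ (g i 1))
      rw [(h1 i hi).2]
      exact ⟨ASB_mem_Sp.2 (Or.inl (mem_hubV.2 ⟨i, hi, 3, rfl⟩)), harcs.2.2.2⟩
    · show σ (g i 2) ∈ _ ∧ D.Adj (g i 2) (σ (g i 2))
      by_cases hi1 : i + 1 < m
      · rw [h2 i hi1]
        exact ⟨ASB_mem_Sp.2 (Or.inl (mem_hubV.2 ⟨i + 1, hi1, 0, rfl⟩)), hA.hub.link i hi1⟩
      · have him : i = m - 1 := by omega
        refine a1 _ (Or.inl (mem_hout.2 (Or.inl ?_)))
        rw [him]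
    · show σ (g i 3) ∈ _ ∧ D.Adj (g i 3) (σ (g i 3))
      exact a1 _ (Or.inl (mem_hout.2 (Or.inr ⟨i, hi, rfl⟩)))
  refine ⟨?_, ?_⟩
  · intro v hv
    rw [ASB_mem_Sp] at hv
    rcases hv with h | h | h | h | h | h | h
    · exact a4 v h
    · exact a2 v (Or.inl (mem_union_left _ h))
    · exact a3 v (Or.inl h)
    · exact a2 v (Or.inl (mem_union_right _ h))
    · exact a3 v (Or.inr h)
    · exact a1 v (Or.inr h)
    · exact a2 v (Or.inr h)
  · have step : ∀ v, (∃ h ∈ hubV m g, σ.SameCycle (σ v) h) → ∃ h ∈ hubV m g, σ.SameCycle v h := by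
      rintro v ⟨h, hh, hs⟩
      exact ⟨h, hh, (Equiv.Perm.sameCycle_apply_left).1 hs⟩
    have c1 : ∀ (n : ℕ) (v : V), psi2 v = n → v ∈ X ∪ Q ∨ v ∈ W2 →
        ∃ h ∈ hubV m g, σ.SameCycle v h := by
      intro n
      induction n using Nat.strong_induction_on with
      | _ n ih =>
        intro v hn hv
        apply step
        rw [h4 v hv]
        rcases hA.l2.maps v hv with h | h
        · exact ih (psi2 (f2 v)) (hn ▸ hA.l2.dec v hv) (f2 v) rfl (Or.inr h)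
        · exact ⟨f2 v, ASB_hin_sub hA.hm h, Equiv.Perm.SameCycle.refl _ _⟩
    have c2 : ∀ (n : ℕ) (v : V), psi v = n → v ∈ U → ∃ h ∈ hubV m g, σ.SameCycle v h := by
      intro n
      induction n using Nat.strong_induction_on with
      | _ n ih =>
        intro v hn hv
        apply step
        rw [h5 v (Or.inr hv)]
        rcases (hA.Fm v (Or.inr hv)).1 with h | h
        · exact ih (psi (F v)) (hn ▸ hA.Fd v hv h) (F v) rfl h
        · exact c1 _ _ rfl (Or.inl (mem_union_left _ h))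
    have c3 : ∀ v ∈ Y, ∃ h ∈ hubV m g, σ.SameCycle v h := by
      intro v hv
      apply step
      rw [h5 v (Or.inl hv)]
      rcases (hA.Fm v (Or.inl hv)).1 with h | h
      · exact c2 _ _ rfl h
      · exact c1 _ _ rfl (Or.inl (mem_union_left _ h))
    have c4 : ∀ (n : ℕ) (v : V), psi1 v = n → v ∈ hout m g ∨ v ∈ W1 →
        ∃ h ∈ hubV m g, σ.SameCycle v h := by
      intro n
      induction n using Nat.strong_induction_on with
      | _ n ih =>
        intro v hn hv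
        apply step
        rw [h3 v hv]
        rcases hA.l1.maps v hv with h | h
        · exact ih (psi1 (f1 v)) (hn ▸ hA.l1.dec v hv) (f1 v) rfl (Or.inr h)
        · rw [mem_union] at h
          rcases h with h | h
          · exact c3 _ h
          · exact c1 _ _ rfl (Or.inl (mem_union_right _ h))
    intro v hv
    rw [ASB_mem_Sp] at hv
    rcases hv with h | h | h | h | h | h | h
    · exact ⟨v, h, Equiv.Perm.SameCycle.refl _ _⟩
    · exact c1 _ _ rfl (Or.inl (mem_union_left _ h))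
    · exact c3 v h
    · exact c1 _ _ rfl (Or.inl (mem_union_right _ h))
    · exact c2 _ _ rfl h
    · exact c4 _ _ rfl (Or.inr h)
    · exact c1 _ _ rfl (Or.inr h)

end JON

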