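import Pool.Agent.Work.MP_a7fe73_nl.Interface
import Pool.Agent.Work.MP_a7fe73_sq.Circ

set_option autoImplicit false
set_option linter.unusedSectionVars false

/-! Block ASC: merging the circuits with the switches. -/

namespace JON
open scoped Classical
open Finset

noncomputable section

namespace ASC

private theorem same_apply {V : Type} (σ : Equiv.Perm V) (x y : V) (h : σ x = y) : σ.SameCycle x y := by
  rw [← h]
  exact Equiv.Perm.sameCycle_apply_right.2 (Equiv.Perm.SameCycle.refl _ _)

end ASC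

theorem p_ASC : Stmt_ASC := by
  intro V _ D m g S σ hub hm hsub hS hsw hlk hall
  have hmem : ∀ i < m, ∀ c, g i c ∈ S := fun i hi c => hsub (mem_hubV.2 ⟨i, hi, c, rfl⟩)
  have himg : S.image σ = S := by
    refine eq_of_subset_of_card_le ?_ ?_
    · intro x hx
      obtain ⟨y, hy, rfl⟩ := mem_image.1 hx
      exact (hS y hy).1
    · rw [card_image_of_injective _ σ.injective]
  have hnot : ∀ v, v ∉ S → σ v ∉ S := by
    intro v hv h
    rw [← himg] at h
    obtain ⟨w, hw, hwv⟩ := mem_image.1 h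
    rw [σ.injective hwv] at hw
    exact hv hw
  let D' : Digraph V := ⟨fun u v => (u ∈ S ∧ v ∈ S ∧ D.Adj u v) ∨ (u ∉ S ∧ v ∉ S)⟩
  have harc : ∀ v, D'.Adj v (σ v) := by
    intro v
    by_cases hv : v ∈ S
    · exact Or.inl ⟨hv, (hS v hv).1, (hS v hv).2⟩
    · exact Or.inr ⟨hv, hnot v hv⟩
  obtain ⟨τ, h1, -, h3, h4⟩ := Pool.A7S.merge_all (D := D') σ harc (fun k => g k 0) (fun k => g k 1)
    (range m)
    (by
      intro k hk l hl
      rw [mem_range] at hk hl
      refine ⟨fun h => (hub.inj k hk l hl _ _ h).1, fun h => (hub.inj k hk l hl _ _ h).1, fun h => ?_⟩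
      exact absurd (hub.inj k hk l hl _ _ h).2 (by decide))
    (by
      intro k hk
      rw [mem_range] at hk
      refine ⟨Or.inl ⟨hmem k hk 0, ?_, ?_⟩, Or.inl ⟨hmem k hk 1, ?_, ?_⟩⟩
      · rw [(hsw k hk).2]; exact hmem k hk 3
      · rw [(hsw k hk).2]; exact (hub.arcs k hk).2.1
      · rw [(hsw k hk).1]; exact hmem k hk 2
      · rw [(hsw k hk).1]; exact (hub.arcs k hk).2.2.1)
  refine ⟨τ, ?_, ?_⟩
  · intro v hv
    rcases h1 v with h | h
    · exact ⟨h.2.1, h.2.2⟩
    · exact absurd hv h.1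
  · have hz : ∀ i, i < m → τ.SameCycle (g 0 0) (g i 0) := by
      intro i
      induction i with
      | zero => exact fun _ => Equiv.Perm.SameCycle.refl _ _
      | succ i ih =>
        intro hi
        refine (ih (by omega)).trans ?_
        exact (h4 _ _ (ASC.same_apply σ _ _ (hsw i (by omega)).1)).trans
          (h4 _ _ (ASC.same_apply σ _ _ (hlk i hi)))
    have hh : ∀ i < m, ∀ c, τ.SameCycle (g 0 0) (g i c) := by
      intro i hi c
      have e0 := hz i hi
      have e1 : τ.SameCycle (g 0 0) (g i 1) := e0.trans (h3 i (mem_range.2 hi))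
      fin_cases c
      · exact e0
      · exact e1
      · exact e0.trans (h4 _ _ (ASC.same_apply σ _ _ (hsw i hi).1))
      · exact e1.trans (h4 _ _ (ASC.same_apply σ _ _ (hsw i hi).2))
    have hv0 : ∀ v ∈ S, τ.SameCycle (g 0 0) v := by
      intro v hv
      obtain ⟨h, hh1, hh2⟩ := hall v hv
      obtain ⟨i, hi, c, rfl⟩ := mem_hubV.1 hh1
      exact (hh i hi c).trans (h4 _ _ hh2.symm)
    intro u hu v hv
    exact (hv0 u hu).symm.trans (hv0 v hv)

end

end JON
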