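import Pool.Agent.Work.MP_a7fe73_nl.Interface

set_option autoImplicit false

/-! Block ASM of MP_a7fe73_nl: the assembly lemma -/

open scoped Classical

namespace JON
open Finset

theorem p_ASM (hA : Stmt_ASA) (hB : Stmt_ASB) (hC : Stmt_ASC) : Stmt_ASM := by
  intro V _ D m g X Y Q U W1 W2 f1 f2 F psi1 psi2 psi hasm
  obtain ⟨σ, h1, h2, h3, h4, h5⟩ := hA V D m g X Y Q U W1 W2 f1 f2 F psi1 psi2 psi hasm
  obtain ⟨ha, hc⟩ := hB V D m g X Y Q U W1 W2 f1 f2 F psi1 psi2 psi σ hasm h1 h2 h3 h4 h5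
  exact hC V D m g (Sp m g X Y Q U W1 W2) σ hasm.hub hasm.hm
    (by unfold Sp; exact subset_union_left) ha h1 h2 hc

end JON
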