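import Pool.Agent.Work.MP_a7fe73_nl.Interface

set_option autoImplicit false

namespace JON
open scoped Classical
open Finset

namespace BAL

variable {V : Type} {N : ℕ}

theorem one (W A B : Finset V) (pos : V → ℕ) (sl : V → Fin N)
    (hA : A ⊆ W) (hB : B ⊆ W)
    (mono : ∀ w ∈ W, ∀ w' ∈ W, sl w < sl w' → pos w < pos w')
    (sur : ∀ i, ∃ w ∈ A, sl w = i) (inj : ∀ w ∈ B, ∀ w' ∈ B, sl w = sl w' → w = w') (n : ℕ) :
    cb B pos n ≤ cb A pos n + 1 := by
  unfold cb
  set Bn := B.filter (fun w => pos w < n) with hBn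
  set An := A.filter (fun w => pos w < n) with hAn
  have h1 : (Bn.image sl).card = Bn.card := by
    refine card_image_of_injOn ?_
    intro w hw w' hw' h
    exact inj w (mem_filter.1 hw).1 w' (mem_filter.1 hw').1 h
  have h2 : (An.image sl).card ≤ An.card := card_image_le
  have key : ∀ i ∈ Bn.image sl \ An.image sl, ∀ i' ∈ Bn.image sl \ An.image sl, ¬ i < i' := by
    intro i hi i' hi' hlt
    obtain ⟨hi'1, -⟩ := mem_sdiff.1 hi'
    obtain ⟨-, hi2⟩ := mem_sdiff.1 hi
    obtain ⟨y, hy, hyi⟩ := mem_image.1 hi'1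
    obtain ⟨x, hx, hxi⟩ := sur i
    obtain ⟨hyB, hyn⟩ := mem_filter.1 hy
    have h3 : pos x < pos y := mono x (hA hx) y (hB hyB) (by rw [hxi, hyi]; exact hlt)
    exact hi2 (mem_image.2 ⟨x, mem_filter.2 ⟨hx, by omega⟩, hxi⟩)
  have h3 : (Bn.image sl \ An.image sl).card ≤ 1 := by
    rw [card_le_one]
    intro i hi i' hi'
    by_contra hne
    rcases lt_or_gt_of_ne hne with h | h
    · exact key i hi i' hi' h
    · exact key i' hi' i hi h
  have h4 : (Bn.image sl).card ≤ (Bn.image sl \ An.image sl).card + (An.image sl).card :=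
    card_le_card_sdiff_add_card
  omega

theorem card_eq (A : Finset V) (sl : V → Fin N) (sur : ∀ i, ∃ w ∈ A, sl w = i)
    (inj : ∀ w ∈ A, ∀ w' ∈ A, sl w = sl w' → w = w') : A.card = N := by
  have h1 : (A.image sl).card = A.card := by
    refine card_image_of_injOn ?_
    intro w hw w' hw' h
    exact inj w hw w' hw' h
  have h2 : A.image sl = univ := by
    ext i
    simp only [mem_image, mem_univ, iff_true]
    exact sur i
  rw [← h1, h2, card_univ, Fintype.card_fin]

end BAL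

theorem p_BAL : Stmt_BAL := by
  intro V W pos N sl par om hs
  have surX : ∀ i, ∃ w ∈ TX W sl par om, sl w = i := by
    intro i
    obtain ⟨w, hw, h1, h2⟩ := hs.sur i (om i)
    exact ⟨w, mem_TX.2 ⟨hw, by rw [h1, h2]⟩, h1⟩
  have surY : ∀ i, ∃ w ∈ TY W sl par om, sl w = i := by
    intro i
    obtain ⟨w, hw, h1, h2⟩ := hs.sur i (om i + 1)
    refine ⟨w, mem_TY.2 ⟨hw, ?_⟩, h1⟩
    rw [h1, h2]
    intro h
    have h3 : ∀ x : Fin 2, x ≠ x + 1 := by decide
    exact h3 _ h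
  have injX : ∀ w ∈ TX W sl par om, ∀ w' ∈ TX W sl par om, sl w = sl w' → w = w' := by
    intro w hw w' hw' h
    obtain ⟨h1, h2⟩ := mem_TX.1 hw
    obtain ⟨h3, h4⟩ := mem_TX.1 hw'
    exact hs.inj w h1 w' h3 h (by rw [← h2, ← h4, h])
  have injY : ∀ w ∈ TY W sl par om, ∀ w' ∈ TY W sl par om, sl w = sl w' → w = w' := by
    intro w hw w' hw' h
    obtain ⟨h1, h2⟩ := mem_TY.1 hw
    obtain ⟨h3, h4⟩ := mem_TY.1 hw'
    refine hs.inj w h1 w' h3 h ?_
    rw [h] at h2
    have h5 : ∀ x y z : Fin 2, x ≠ y → x ≠ z → y = z := by decide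
    exact h5 _ _ _ h2 h4
  have subX : TX W sl par om ⊆ W := fun w hw => (mem_TX.1 hw).1
  have subY : TY W sl par om ⊆ W := fun w hw => (mem_TY.1 hw).1
  refine ⟨?_, ?_, BAL.card_eq _ sl surX injX, BAL.card_eq _ sl surY injY, ?_⟩
  · rw [disjoint_left]
    intro w hw hw'
    exact (mem_TY.1 hw').2 (mem_TX.1 hw).2
  · ext w
    rw [mem_union, mem_TX, mem_TY]
    tauto
  · intro n
    exact ⟨BAL.one W _ _ pos sl subX subY hs.mono surX injY n,
      BAL.one W _ _ pos sl subY subX hs.mono surY injX n⟩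

end JON
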