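import Pool.Agent.Work.MP_a7fe73_nl.Interface2

/-! # MP_a7fe73_co, near linear: block BD2 -/

set_option autoImplicit false

open scoped Classical

namespace JON

open Finset

/-- labellings which are bad at the unlabelled vertices -/
noncomputable def BD2.G1 {V : Type} [Fintype V] (D : Digraph V) (R : Finset V) (b k x : ℕ)
    (l : Fin b) (I J : Finset V) : Finset (V → Fin b) :=
  univ.filter (fun om => 2 * b * x ≤ (Rst D R I J).card ∧
    ((Rst D R I J).filter (fun v => om v = l)).card < k)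

/-- labellings which are bad at a family of connectors -/
noncomputable def BD2.G2 {V : Type} [Fintype V] (b k x : ℕ)
    (con : V → V → Finset V → Finset V → Finset (V × V))
    (l : Fin b) (I J : Finset V) (u v : V) : Finset (V → Fin b) :=
  univ.filter (fun om => 2 * b ^ 2 * x ≤ (con u v I J).card ∧
    ((con u v I J).filter (fun p => ∀ z ∈ e2 u v p, om z = l)).card < k)

theorem BD2.one1 (hCTB : Stmt_CTB) {V : Type} [Fintype V] (D : Digraph V) (R : Finset V)
    (b k x : ℕ) (hb : 1 ≤ b) (l : Fin b) (I J : Finset V) :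
    2 ^ x * (BD2.G1 D R b k x l I J).card ≤ 2 ^ k * b ^ Fintype.card V := by
  by_cases h : 2 * b * x ≤ (Rst D R I J).card
  · have h1 := hCTB V V b 1 (fun _ => l) univ (Rst D R I J) (fun v => {v}) hb
      (fun j _ => (card_singleton j).le)
      (fun i _ j _ hij => disjoint_singleton.mpr hij)
      (fun om _ j _ => mem_univ _) k x (by rw [pow_one]; exact h)
    have h2 : (univ : Finset (V → Fin b)).card = b ^ Fintype.card V := by
      rw [card_univ, Fintype.card_fun, Fintype.card_fin]
    rw [h2] at h1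
    refine le_trans (Nat.mul_le_mul_left _ (card_le_card ?_)) h1
    intro om hom
    unfold BD2.G1 at hom
    rw [mem_filter] at hom ⊢
    refine ⟨mem_univ _, ?_⟩
    have h4 : (Rst D R I J).filter (fun j => ∀ y ∈ ({j} : Finset V), om y = l) =
        (Rst D R I J).filter (fun v => om v = l) := by
      apply filter_congr
      intro v _
      simp only [mem_singleton, forall_eq]
    rw [h4]
    exact hom.2.2
  · have h1 : BD2.G1 D R b k x l I J = ∅ := by
      unfold BD2.G1
      rw [filter_eq_empty_iff]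
      intro om _ h2
      exact h h2.1
    rw [h1, card_empty, mul_zero]
    exact Nat.zero_le _

theorem BD2.one2 (hCTB : Stmt_CTB) {V : Type} [Fintype V] (b k x : ℕ)
    (con : V → V → Finset V → Finset V → Finset (V × V)) (hb : 1 ≤ b)
    (hdis : ∀ u v I J, ∀ p ∈ con u v I J, ∀ p' ∈ con u v I J, p ≠ p' →
      Disjoint (e2 u v p) (e2 u v p'))
    (l : Fin b) (I J : Finset V) (u v : V) :
    2 ^ x * (BD2.G2 b k x con l I J u v).card ≤ 2 ^ k * b ^ Fintype.card V := by
  by_cases h : 2 * b ^ 2 * x ≤ (con u v I J).card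
  · have h1 := hCTB V (V × V) b 2 (fun _ => l) univ (con u v I J) (fun p => e2 u v p) hb
      (fun p _ => (card_le_card sdiff_subset).trans card_le_two)
      (fun p hp p' hp' hne => hdis u v I J p hp p' hp' hne)
      (fun om _ j _ => mem_univ _) k x h
    have h2 : (univ : Finset (V → Fin b)).card = b ^ Fintype.card V := by
      rw [card_univ, Fintype.card_fun, Fintype.card_fin]
    rw [h2] at h1
    refine le_trans (Nat.mul_le_mul_left _ (card_le_card ?_)) h1
    intro om hom
    unfold BD2.G2 at hom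
    rw [mem_filter] at hom ⊢
    exact ⟨mem_univ _, hom.2.2⟩
  · have h1 : BD2.G2 b k x con l I J u v = ∅ := by
      unfold BD2.G2
      rw [filter_eq_empty_iff]
      intro om _ h2
      exact h h2.1
    rw [h1, card_empty, mul_zero]
    exact Nat.zero_le _

/-- Block BD2. -/
theorem p_BD2 (hCTB : Stmt_CTB) (hSUB : Stmt_SUB) : Stmt_BD2 := by
  intro V _ D R Z b a k x con hb hdis
  obtain ⟨P, hP⟩ : ∃ P, P = R.powerset.filter (fun C => C.card ≤ a) := ⟨_, rfl⟩
  obtain ⟨M, hM⟩ : ∃ M, M = 2 ^ k * b ^ Fintype.card V := ⟨_, rfl⟩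
  have hsub : (univ : Finset (V → Fin b)).filter (Bad D R Z b a k x con) ⊆
      (univ : Finset (Fin b)).biUnion (fun l => P.biUnion (fun I => P.biUnion (fun J =>
        BD2.G1 D R b k x l I J ∪ Z.biUnion (fun u => Z.biUnion (fun v =>
          BD2.G2 b k x con l I J u v))))) := by
    intro om hom
    rw [mem_filter] at hom
    obtain ⟨l, I, hI, hIa, J, hJ, hJa, h⟩ := hom.2
    rw [mem_biUnion]
    refine ⟨l, mem_univ _, ?_⟩
    rw [mem_biUnion]
    refine ⟨I, by rw [hP, mem_filter, mem_powerset]; exact ⟨hI, hIa⟩, ?_⟩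
    rw [mem_biUnion]
    refine ⟨J, by rw [hP, mem_filter, mem_powerset]; exact ⟨hJ, hJa⟩, ?_⟩
    rw [mem_union]
    rcases h with ⟨h1, h2⟩ | ⟨u, hu, v, hv, h1, h2⟩
    · left
      unfold BD2.G1
      rw [mem_filter]
      exact ⟨mem_univ _, h1, h2⟩
    · right
      rw [mem_biUnion]
      refine ⟨u, hu, ?_⟩
      rw [mem_biUnion]
      refine ⟨v, hv, ?_⟩
      unfold BD2.G2
      rw [mem_filter]
      exact ⟨mem_univ _, h1, by convert h2⟩
  have hone : ∀ (l : Fin b) (I J : Finset V), 2 ^ x * (BD2.G1 D R b k x l I J ∪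
      Z.biUnion (fun u => Z.biUnion (fun v => BD2.G2 b k x con l I J u v))).card ≤
      (1 + Z.card ^ 2) * M := by
    intro l I J
    have h1 : (BD2.G1 D R b k x l I J ∪
        Z.biUnion (fun u => Z.biUnion (fun v => BD2.G2 b k x con l I J u v))).card ≤
        (BD2.G1 D R b k x l I J).card + ∑ u ∈ Z, ∑ v ∈ Z, (BD2.G2 b k x con l I J u v).card := by
      refine (card_union_le _ _).trans (Nat.add_le_add_left ?_ _)
      refine card_biUnion_le.trans (sum_le_sum fun u _ => ?_)
      exact card_biUnion_le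
    have h2 : 2 ^ x * ∑ u ∈ Z, ∑ v ∈ Z, (BD2.G2 b k x con l I J u v).card ≤
        ∑ _u ∈ Z, ∑ _v ∈ Z, M := by
      rw [mul_sum]
      refine sum_le_sum fun u _ => ?_
      rw [mul_sum]
      refine sum_le_sum fun v _ => ?_
      rw [hM]
      exact BD2.one2 hCTB b k x con hb hdis l I J u v
    rw [sum_const, sum_const, smul_eq_mul, smul_eq_mul] at h2
    have h3 := BD2.one1 hCTB D R b k x hb l I J
    rw [← hM] at h3
    calc 2 ^ x * (BD2.G1 D R b k x l I J ∪
          Z.biUnion (fun u => Z.biUnion (fun v => BD2.G2 b k x con l I J u v))).card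
        ≤ 2 ^ x * ((BD2.G1 D R b k x l I J).card +
          ∑ u ∈ Z, ∑ v ∈ Z, (BD2.G2 b k x con l I J u v).card) := Nat.mul_le_mul_left _ h1
      _ = 2 ^ x * (BD2.G1 D R b k x l I J).card +
          2 ^ x * ∑ u ∈ Z, ∑ v ∈ Z, (BD2.G2 b k x con l I J u v).card := Nat.mul_add _ _ _
      _ ≤ M + Z.card * (Z.card * M) := Nat.add_le_add h3 h2
      _ = (1 + Z.card ^ 2) * M := by ring
  have h1 : ((univ : Finset (V → Fin b)).filter (Bad D R Z b a k x con)).card ≤
      ∑ l : Fin b, ∑ I ∈ P, ∑ J ∈ P, (BD2.G1 D R b k x l I J ∪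
        Z.biUnion (fun u => Z.biUnion (fun v => BD2.G2 b k x con l I J u v))).card := by
    refine (card_le_card hsub).trans ?_
    refine card_biUnion_le.trans (sum_le_sum fun l _ => ?_)
    refine card_biUnion_le.trans (sum_le_sum fun I _ => ?_)
    exact card_biUnion_le
  have h2 : 2 ^ x * ∑ l : Fin b, ∑ I ∈ P, ∑ J ∈ P, (BD2.G1 D R b k x l I J ∪
        Z.biUnion (fun u => Z.biUnion (fun v => BD2.G2 b k x con l I J u v))).card ≤
      ∑ _l : Fin b, ∑ _I ∈ P, ∑ _J ∈ P, (1 + Z.card ^ 2) * M := by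
    rw [mul_sum]
    refine sum_le_sum fun l _ => ?_
    rw [mul_sum]
    refine sum_le_sum fun I _ => ?_
    rw [mul_sum]
    exact sum_le_sum fun J _ => hone l I J
  rw [sum_const, sum_const, sum_const, card_univ, Fintype.card_fin, smul_eq_mul, smul_eq_mul,
    smul_eq_mul] at h2
  have h3 := hSUB V R a
  rw [← hP] at h3
  rw [← hM]
  calc 2 ^ x * ((univ : Finset (V → Fin b)).filter (Bad D R Z b a k x con)).card
      ≤ 2 ^ x * ∑ l : Fin b, ∑ I ∈ P, ∑ J ∈ P, (BD2.G1 D R b k x l I J ∪
        Z.biUnion (fun u => Z.biUnion (fun v => BD2.G2 b k x con l I J u v))).card :=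
        Nat.mul_le_mul_left _ h1
    _ ≤ _ := h2
    _ ≤ b * ((R.card + 1) ^ a * ((R.card + 1) ^ a * ((1 + Z.card ^ 2) * M))) :=
        Nat.mul_le_mul_left _ (Nat.mul_le_mul h3 (Nat.mul_le_mul_right _ h3))
    _ = _ := by ring

end JON
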