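import Pool.Agent.Work.MP_a7fe73_nl.Interface3

set_option autoImplicit false

open scoped Classical

namespace JON

open Finset

theorem BD3.ovw_grun (hGRA : Stmt_GRA) {V : Type} (D : Digraph V) (b l : ℕ) (L : List V)
    (om t : V → Fin b) (e : Finset V) (h : Disjoint e (grun D l om L).E) :
    grun D l (ovw om t e) L = grun D l om L := by
  refine hGRA V D b l om (ovw om t e) L fun y hy j _ => ?_
  have h1 : y ∉ e := fun h2 => (Finset.disjoint_left.1 h h2) hy
  have h2 : ovw om t e y = om y := by
    unfold ovw
    rw [if_neg h1]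
  rw [h2]

theorem BD3.fib (hCTB : Stmt_CTB) (hGRA : Stmt_GRA) {V ι : Type} [Fintype V] (D : Digraph V)
    (b l d : ℕ) (L : List V) (t : V → Fin b) (Jf : Gst V → Finset ι) (e : ι → Finset V)
    (hb : 1 ≤ b) (hed : ∀ st, ∀ j ∈ Jf st, (e j).card ≤ d)
    (hdis : ∀ st, ∀ i ∈ Jf st, ∀ j ∈ Jf st, i ≠ j → Disjoint (e i) (e j))
    (hE : ∀ st, ∀ j ∈ Jf st, Disjoint (e j) st.E) (k x : ℕ) :
    2 ^ x * ((univ : Finset (V → Fin b)).filter (fun om =>
      2 * b ^ d * x ≤ (Jf (grun D l om L)).card ∧
      ((Jf (grun D l om L)).filter (fun j => ∀ y ∈ e j, om y = t y)).card < k)).card ≤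
    2 ^ k * b ^ Fintype.card V := by
  set Bd := (univ : Finset (V → Fin b)).filter (fun om =>
      2 * b ^ d * x ≤ (Jf (grun D l om L)).card ∧
      ((Jf (grun D l om L)).filter (fun j => ∀ y ∈ e j, om y = t y)).card < k) with hBd
  have h1 : Bd.card = ∑ st ∈ (univ : Finset (V → Fin b)).image (fun om => grun D l om L),
      (Bd.filter (fun om => grun D l om L = st)).card :=
    card_eq_sum_card_fiberwise (fun om _ => by
      rw [Finset.mem_coe]
      exact mem_image_of_mem _ (mem_univ _))
  have h2 : (univ : Finset (V → Fin b)).card =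
      ∑ st ∈ (univ : Finset (V → Fin b)).image (fun om => grun D l om L),
      ((univ : Finset (V → Fin b)).filter (fun om => grun D l om L = st)).card :=
    card_eq_sum_card_fiberwise (fun om _ => by
      rw [Finset.mem_coe]
      exact mem_image_of_mem _ (mem_univ _))
  have h3 : (univ : Finset (V → Fin b)).card = b ^ Fintype.card V := by
    rw [card_univ, Fintype.card_fun, Fintype.card_fin]
  rw [← h3, h1, h2, mul_sum, mul_sum]
  apply sum_le_sum
  intro st _
  by_cases hx : 2 * b ^ d * x ≤ (Jf st).card
  · have h4 := hCTB V ι b d t ((univ : Finset (V → Fin b)).filter (fun om => grun D l om L = st))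
      (Jf st) e hb (hed st) (hdis st) (fun om hom j hj => by
        rw [mem_filter] at hom ⊢
        refine ⟨mem_univ _, ?_⟩
        rw [BD3.ovw_grun hGRA D b l L om t (e j) (by rw [hom.2]; exact hE st j hj)]
        exact hom.2) k x hx
    refine (Nat.mul_le_mul_left _ (card_le_card ?_)).trans h4
    intro om hom
    rw [mem_filter, hBd, mem_filter] at hom
    obtain ⟨⟨-, -, h5⟩, h6⟩ := hom
    rw [h6] at h5
    rw [mem_filter, mem_filter]
    exact ⟨⟨mem_univ _, h6⟩, h5⟩
  · have h4 : Bd.filter (fun om => grun D l om L = st) = ∅ := by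
      rw [filter_eq_empty_iff]
      intro om hom h6
      rw [hBd, mem_filter, h6] at hom
      exact hx hom.2.1
    rw [h4, card_empty, mul_zero]
    exact Nat.zero_le _

theorem p_BD3 (hSTB : Stmt_STB) (hCTB : Stmt_CTB) (hGRA : Stmt_GRA) : Stmt_BD3 := by
  intro V _ D R b l k m x u v con hlb hcE hcd
  have hb : 1 ≤ b := by omega
  let t : Fin b := ⟨3 * l, hlb⟩
  have ht : ∀ y : Fin b, y = t ↔ y.val = 3 * l := fun y => Fin.ext_iff
  -- first event
  have e1 := hSTB V b t (fun om => (grun D l om R.toList).E) m x (2 * b * x) hb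
    (fun om om' h => by
      have h1 : grun D l om' R.toList = grun D l om R.toList :=
        hGRA V D b l om om' R.toList fun y hy j _ => by rw [h y hy]
      show (grun D l om' R.toList).E = (grun D l om R.toList).E
      rw [h1]) le_rfl
  -- second event
  have e2' := BD3.fib hCTB hGRA D b l 1 R.toList (fun _ => t)
    (fun st => Rst D (R \ st.E) st.I st.J) (fun y : V => ({y} : Finset V)) hb
    (fun st j _ => by rw [card_singleton])
    (fun st i _ j _ hij => by rw [disjoint_singleton]; exact hij)
    (fun st j hj => by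
      rw [disjoint_singleton_left]
      exact (mem_sdiff.1 (mem_Rst.1 hj).1).2) k x
  -- third event
  have e3' := BD3.fib hCTB hGRA D b l 2 R.toList (fun _ => t)
    (fun st => con u v st.I st.J st.E) (fun p : V × V => e2 u v p) hb
    (fun st p _ => by
      unfold e2
      exact (card_le_card sdiff_subset).trans card_le_two)
    (fun st p hp p' hp' hpp => hcd st.I st.J st.E p hp p' hp' hpp)
    (fun st p hp => hcE st.I st.J st.E p hp) k x
  refine (Nat.mul_le_mul_left _ ((card_le_card ?_).trans ((card_union_le _ _).trans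
    (Nat.add_le_add_right (card_union_le _ _) _)))).trans (b := 2 ^ x *
      ((((univ : Finset (V → Fin b)).filter (fun om =>
        2 * b * x ≤ ((fun om => (grun D l om R.toList).E) om).card ∧
        (((fun om => (grun D l om R.toList).E) om).filter (fun y => om y = t)).card ≤ m)).card +
      ((univ : Finset (V → Fin b)).filter (fun om =>
        2 * b ^ 1 * x ≤ ((fun st : Gst V => Rst D (R \ st.E) st.I st.J)
          (grun D l om R.toList)).card ∧
        (((fun st : Gst V => Rst D (R \ st.E) st.I st.J) (grun D l om R.toList)).filter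
          (fun j => ∀ y ∈ (fun y : V => ({y} : Finset V)) j, om y = (fun _ => t) y)).card < k)).card) +
      ((univ : Finset (V → Fin b)).filter (fun om =>
        2 * b ^ 2 * x ≤ ((fun st : Gst V => con u v st.I st.J st.E)
          (grun D l om R.toList)).card ∧
        (((fun st : Gst V => con u v st.I st.J st.E) (grun D l om R.toList)).filter
          (fun j => ∀ y ∈ (fun p : V × V => e2 u v p) j, om y = (fun _ => t) y)).card < k)).card)) ?_
  · intro om hom
    rw [mem_filter] at hom
    obtain ⟨-, h1, h2⟩ := hom
    rw [mem_union, mem_union, mem_filter, mem_filter, mem_filter]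
    rcases h2 with h2 | ⟨h2, h3⟩ | ⟨h2, h3⟩
    · left
      left
      refine ⟨mem_univ _, h2, ?_⟩
      simpa only [ht] using h1
    · left
      right
      refine ⟨mem_univ _, by rw [pow_one]; exact h2, ?_⟩
      simpa only [mem_singleton, forall_eq, ht] using h3
    · right
      refine ⟨mem_univ _, h2, ?_⟩
      simp only [← ht] at h3
      convert h3
  · rw [mul_add, mul_add]
    refine (Nat.add_le_add (Nat.add_le_add e1 e2') e3').trans (le_of_eq ?_)
    ring

end JON
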