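import Pool.Agent.Work.MP_a7fe73_nl.Interface

/-! # MP_a7fe73_co, near linear: block BDC -/

set_option autoImplicit false

namespace JON
open scoped Classical
open Finset

theorem BDC_inj {L : ℕ} {T T' : Finset ℕ} (hT : T ⊆ range L) (hT' : T' ⊆ range L)
    (h : bd L T = bd L T') : T = T' := by
  have key : ∀ j ≤ L, (L - j ∈ T ↔ L - j ∈ T') := by
    intro j
    induction j with
    | zero =>
      intro _
      have h1 : L - 0 ∉ T := fun hm => by
        have := mem_range.1 (hT hm)
        omega
      have h2 : L - 0 ∉ T' := fun hm => by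
        have := mem_range.1 (hT' hm)
        omega
      exact ⟨fun hm => absurd hm h1, fun hm => absurd hm h2⟩
    | succ j ih =>
      intro hj
      have h1 := ih (by omega)
      have e : L - (j + 1) + 1 = L - j := by omega
      have h2 : L - (j + 1) ∈ bd L T ↔ L - (j + 1) ∈ bd L T' := by rw [h]
      rw [mem_bd, mem_bd, e] at h2
      have h3 : L - (j + 1) < L := by omega
      tauto
  ext i
  by_cases hi : i ≤ L
  · have := key (L - i) (by omega)
    have e : L - (L - i) = i := by omega
    rwa [e] at this
  · constructor
    · intro hm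
      have := mem_range.1 (hT hm)
      omega
    · intro hm
      have := mem_range.1 (hT' hm)
      omega

/-- Block BDC. -/
theorem p_BDC (hS : Stmt_SUB) : Stmt_BDC := by
  intro L r
  have h1 := hS ℕ (range L) r
  rw [card_range] at h1
  refine le_trans (card_le_card_of_injOn (bd L) ?_ ?_) h1
  · intro T hT
    have hT' := mem_filter.1 (mem_coe.1 hT)
    refine mem_coe.2 (mem_filter.2 ⟨?_, hT'.2⟩)
    rw [mem_powerset]
    intro i hi
    exact mem_range.2 (mem_bd.1 hi).1
  · intro T hT T' hT' h
    have h2 := mem_filter.1 (mem_coe.1 hT)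
    have h3 := mem_filter.1 (mem_coe.1 hT')
    exact BDC_inj (mem_powerset.1 h2.1) (mem_powerset.1 h3.1) h

end JON
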