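import Pool.Agent.Work.MP_a7fe73_nl.Interface

/-! # Block CHE (helper12): cherries of G -/

set_option autoImplicit false

open scoped Classical
open Finset

namespace JON

theorem p_CHE : Stmt_CHE := by
  intro V D a T hT hcard
  obtain ⟨M, hM, hmax⟩ : ∃ M ∈ T.powerset.filter (fun S => Stab D S),
      ∀ S ∈ T.powerset.filter (fun S => Stab D S), S.card ≤ M.card := by
    apply Finset.exists_max_image
    refine ⟨∅, ?_⟩
    rw [mem_filter]
    refine ⟨Finset.empty_mem_powerset T, ?_⟩
    intro u hu
    simp at hu
  rw [mem_filter, mem_powerset] at hM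
  obtain ⟨hMT, hMs⟩ := hM
  have hMa := hT M hMT hMs
  have hex : ∀ y ∈ T \ M, ∃ q ∈ M, Dg D q y := by
    intro y hy
    rw [mem_sdiff] at hy
    by_contra hcon
    push Not at hcon
    have hst : Stab D (insert y M) := by
      intro u hu v hv huv
      rw [mem_insert] at hu hv
      rcases hu with rfl | hu
      · rcases hv with rfl | hv
        · exact huv.irrefl
        · exact hcon v hv huv.symm
      · rcases hv with rfl | hv
        · exact hcon u hu huv
        · exact hMs u hu v hv huv
    have h1 := hmax (insert y M) (by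
      rw [mem_filter, mem_powerset]
      exact ⟨Finset.insert_subset hy.1 hMT, hst⟩)
    rw [card_insert_of_notMem hy.2] at h1
    omega
  choose! f hf using hex
  have hc : M.card < (T \ M).card := by
    rw [card_sdiff_of_subset hMT]
    omega
  obtain ⟨r, hr, s, hs, hrs, hfe⟩ := Finset.exists_ne_map_eq_of_card_lt_of_maps_to hc
    (f := f) (fun y hy => (hf y hy).1)
  refine ⟨f r, hMT (hf r hr).1, r, (mem_sdiff.1 hr).1, s, (mem_sdiff.1 hs).1, hrs, (hf r hr).2, ?_⟩
  rw [hfe]
  exact (hf s hs).2

end JON
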