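import Pool.Agent.Work.MP_a7fe73_nl.Interface3

/-! Block CL3 (helper76): first stage for many vertices, linear connectivity.  Modelled on B_CLB (helper83). -/

set_option autoImplicit false
set_option linter.unusedSectionVars false

namespace JON
open scoped Classical
open Finset

theorem p_CL3 (hCLA : Stmt_CLA) (hHUB : Stmt_HUB) (hHC : Stmt_HCARD) (hROBS : Stmt_ROBS)
    (hSP3 : Stmt_SP3) (hRLK : Stmt_RLK) (hSHL : Stmt_SHL) (hMID : Stmt_MID) : Stmt_CL3 := by
  intro V _ D a k hKS hA ha hk hV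
  obtain ⟨X, J, O, AI, hdis, hXJO, hAI, hX1, hXa, stX, stJ, mxX, mxJ, hcod⟩ :=
    hCLA V D a (22 * a ^ 2) hA ha (Nat.mul_pos (by norm_num) (pow_pos (Nat.lt_of_lt_of_le Nat.zero_lt_one ha) 2))
      (by
        have h1 : 1024 * a ^ 3 * (22 * a ^ 2) = 22528 * a ^ 5 := by ring
        rw [h1]
        exact hV)
  simp only [List.pairwise_cons, List.mem_cons, List.not_mem_nil, or_false, forall_eq_or_imp,
    forall_eq, IsEmpty.forall_iff, implies_true, List.Pairwise.nil, and_true] at hdis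
  obtain ⟨⟨hXJ, hXO, hXI⟩, ⟨hJO, hJI⟩, hOI⟩ := hdis
  have hcardV := hKS.1
  -- the vertex of `Q`
  obtain ⟨z0, hz0⟩ : ∃ z0, z0 ∉ X ∪ (J ∪ (O ∪ AI)) := by
    by_contra hcon
    push Not at hcon
    have h1 : (univ : Finset V).card ≤ (X ∪ (J ∪ (O ∪ AI))).card :=
      card_le_card fun v _ => hcon v
    have h2 := card_union_le X (J ∪ (O ∪ AI))
    have h3 := card_union_le J (O ∪ AI)
    have h4 := card_union_le O AI
    rw [card_univ] at h1
    omega
  simp only [mem_union, not_or] at hz0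
  obtain ⟨hz1, hz2, hz3, hz4⟩ := hz0
  have hQc : ({z0} : Finset V).card = 1 := card_singleton z0
  have hXQ : Disjoint X {z0} := disjoint_singleton_right.2 hz1
  have hJQ : Disjoint J {z0} := disjoint_singleton_right.2 hz2
  have hOQ : Disjoint O {z0} := disjoint_singleton_right.2 hz3
  have hIQ : Disjoint AI {z0} := disjoint_singleton_right.2 hz4
  set F : Finset V := X ∪ (J ∪ (O ∪ (AI ∪ {z0}))) with hF
  have hXF : X ⊆ F := subset_union_left
  have hJF : J ⊆ F := fun v hv => by simp [hF, hv]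
  have hOF : O ⊆ F := fun v hv => by simp [hF, hv]
  have hIF : AI ⊆ F := fun v hv => by simp [hF, hv]
  have hQF : {z0} ⊆ F := fun v hv => by rw [mem_singleton] at hv; simp [hF, hv]
  have hFc : F.card ≤ 3 * X.card + 1 := by
    have h2 := card_union_le X (J ∪ (O ∪ (AI ∪ {z0})))
    have h3 := card_union_le J (O ∪ (AI ∪ {z0}))
    have h4 := card_union_le O (AI ∪ {z0})
    have h5 := card_union_le AI ({z0} : Finset V)
    rw [hQc] at h5
    rw [hF]
    omega
  obtain ⟨g, hg, hgF⟩ := hHUB V D a k X.card F hKS hA hX1 (by omega)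
  obtain ⟨hoc, hic, hoi, hoV, hiV, hVc⟩ := hHC V D X.card g hg hX1
  set Z : Finset V := hubV X.card g ∪ F with hZ
  have hHZ : hubV X.card g ⊆ Z := subset_union_left
  have hFZ : F ⊆ Z := subset_union_right
  have hZc : Z.card ≤ 8 * a := by
    have := card_union_le (hubV X.card g) F
    rw [hZ]
    omega
  have hZc' : Z.card ≤ 7 * a + 1 := by
    have := card_union_le (hubV X.card g) F
    rw [hZ]
    omega
  have hRob : Rob D Z univ k := hROBS V D k Z hKS
  obtain ⟨Vs, hVs1, hVs2, hVs3⟩ := hSP3 V D Z univ 3 a (X.card + 1) (30 * a) k hA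
    (subset_univ Z) (by norm_num) (by omega) (by omega) hRob
  have hZV : ∀ i, Disjoint Z (Vs i) := fun i =>
    (disjoint_sdiff (s := Z) (t := univ)).mono_right (hVs1 i)
  have hhX : Disjoint (hubV X.card g) X := hgF.mono_right hXF
  have hhJ : Disjoint (hubV X.card g) J := hgF.mono_right hJF
  have hhO : Disjoint (hubV X.card g) O := hgF.mono_right hOF
  have hhI : Disjoint (hubV X.card g) AI := hgF.mono_right hIF
  have hhQ : Disjoint (hubV X.card g) {z0} := hgF.mono_right hQF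
  have hJOQ : (J ∪ O ∪ {z0}).card = X.card + 1 := by
    rw [card_union_of_disjoint (disjoint_union_left.2 ⟨hJQ, hOQ⟩),
      card_union_of_disjoint hJO, hQc, hXJO]
  have hXQc : (X ∪ {z0}).card = X.card + 1 := by
    rw [card_union_of_disjoint hXQ, hQc]
  -- the linkages
  have hd1 : Disjoint (hout X.card g) (J ∪ O ∪ {z0}) := by
    rw [disjoint_union_right, disjoint_union_right]
    exact ⟨⟨hhJ.mono_left hoV, hhO.mono_left hoV⟩, hhQ.mono_left hoV⟩
  have hs1 : J ∪ O ∪ {z0} ⊆ Z :=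
    union_subset (union_subset (hJF.trans hFZ) (hOF.trans hFZ)) (hQF.trans hFZ)
  obtain ⟨W1', hW1', f1', psi1', hL1'⟩ := hRLK V D Z (Vs 0) (hout X.card g) ((J ∪ O) ∪ {z0})
    (X.card + 1) (hZV 0) (hVs3 0) (hoV.trans hHZ) hs1 hd1 (by rw [hoc, hJOQ]) (by rw [hoc])
  obtain ⟨W1, hW1s, f1, psi1, hL1, hW1c⟩ := hSHL V D a (hout X.card g) ((J ∪ O) ∪ {z0}) W1' f1'
    psi1' hA hd1 (((hZV 0).mono_left (hoV.trans hHZ)).mono_right hW1')
    (((hZV 0).mono_left hs1).mono_right hW1') (by rw [hoc, hJOQ]) hL1'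
  have hW1 : W1 ⊆ Vs 0 := hW1s.trans hW1'
  have hd2 : Disjoint (X ∪ {z0}) (hin X.card g) := by
    rw [disjoint_union_left]
    exact ⟨(hhX.mono_left hiV).symm, (hhQ.mono_left hiV).symm⟩
  have hs2 : X ∪ {z0} ⊆ Z := union_subset (hXF.trans hFZ) (hQF.trans hFZ)
  obtain ⟨W2', hW2', f2', psi2', hL2'⟩ := hRLK V D Z (Vs 1) (X ∪ {z0}) (hin X.card g)
    (X.card + 1) (hZV 1) (hVs3 1) hs2 (hiV.trans hHZ) hd2 (by rw [hic, hXQc]) (by rw [hXQc])
  obtain ⟨W2, hW2s, f2, psi2, hL2, hW2c⟩ := hSHL V D a (X ∪ {z0}) (hin X.card g) W2' f2'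
    psi2' hA hd2 (((hZV 1).mono_left hs2).mono_right hW2')
    (((hZV 1).mono_left (hiV.trans hHZ)).mono_right hW2') (by rw [hic, hXQc]) hL2'
  have hW2 : W2 ⊆ Vs 1 := hW2s.trans hW2'
  obtain ⟨W3', hW3', f3', psi3', hL3'⟩ := hRLK V D Z (Vs 2) AI X
    (X.card + 1) (hZV 2) (hVs3 2) (hIF.trans hFZ) (hXF.trans hFZ) hXI.symm hAI (by omega)
  obtain ⟨W3, hW3s, f3, psi3, hL3, hW3c⟩ := hSHL V D a AI X W3' f3' psi3' hA hXI.symm
    (((hZV 2).mono_left (hIF.trans hFZ)).mono_right hW3')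
    (((hZV 2).mono_left (hXF.trans hFZ)).mono_right hW3') hAI hL3'
  have hW3 : W3 ⊆ Vs 2 := hW3s.trans hW3'
  rw [hoc] at hW1c
  rw [hXQc] at hW2c
  rw [hAI] at hW3c
  -- the set `Om`
  obtain ⟨Om, hOm⟩ : ∃ Om : Finset V, Om = Z ∪ (W1 ∪ (W2 ∪ W3)) := ⟨_, rfl⟩
  have hZO : Z ⊆ Om := by
    rw [hOm]
    exact subset_union_left
  have hWO : W1 ∪ (W2 ∪ W3) ⊆ Om := by
    rw [hOm]
    exact subset_union_right
  have hW1O : W1 ⊆ Om := subset_union_left.trans hWO
  have hW2O : W2 ⊆ Om := (subset_union_left.trans subset_union_right).trans hWO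
  have hW3O : W3 ⊆ Om := (subset_union_right.trans subset_union_right).trans hWO
  have haa : a ≤ a ^ 2 := by
    rw [pow_two]
    exact Nat.le_mul_of_pos_right a ha
  have hWb : ∀ n, n ≤ X.card + 1 → 2 * a * n ≤ 4 * a ^ 2 := by
    intro n hn
    have h1 : 2 * a * n ≤ 2 * a * (2 * a) := Nat.mul_le_mul_left _ (by omega)
    have h2 : 2 * a * (2 * a) = 4 * a ^ 2 := by ring
    omega
  have hOmc : Om.card ≤ 20 * a ^ 2 := by
    have h1 := card_union_le Z (W1 ∪ (W2 ∪ W3))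
    have h2 := card_union_le W1 (W2 ∪ W3)
    have h3 := card_union_le W2 W3
    have h4 := hWb (X.card + 1) le_rfl
    have h5 := hWb X.card (by omega)
    rw [hOm]
    omega
  obtain ⟨mid, hmid1, hmid2⟩ := hMID V D O AI Om (by
    intro o ho i hi
    have h1 := hcod o ho i hi
    have h2 : O.card * AI.card ≤ a * a := Nat.mul_le_mul (by omega) (by omega)
    have h3 : a * a = a ^ 2 := by ring
    omega)
  -- disjointness from the linkages
  have hSW : ∀ S ⊆ Z, Disjoint S W1 ∧ Disjoint S W2 ∧ Disjoint S W3 := fun S hS =>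
    ⟨((hZV 0).mono_left hS).mono_right hW1, ((hZV 1).mono_left hS).mono_right hW2,
      ((hZV 2).mono_left hS).mono_right hW3⟩
  have h12 : Disjoint W1 W2 := ((hVs2 0 1 (by decide)).mono_left hW1).mono_right hW2
  have h13 : Disjoint W1 W3 := ((hVs2 0 2 (by decide)).mono_left hW1).mono_right hW3
  have h23 : Disjoint W2 W3 := ((hVs2 1 2 (by decide)).mono_left hW2).mono_right hW3
  obtain ⟨a1, a2, a3⟩ := hSW _ hHZ
  obtain ⟨b1, b2, b3⟩ := hSW _ (hXF.trans hFZ)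
  obtain ⟨c1, c2, c3⟩ := hSW _ (hJF.trans hFZ)
  obtain ⟨d1, d2, d3⟩ := hSW _ (hOF.trans hFZ)
  obtain ⟨e1, e2, e3⟩ := hSW _ (hIF.trans hFZ)
  obtain ⟨q1, q2, q3⟩ := hSW _ (hQF.trans hFZ)
  refine ⟨X.card, g, X, J, O, AI, {z0}, W1, W2, W3, Om, f1, f2, f3, psi1, psi2, psi3, mid, ?_⟩
  refine ⟨hX1, hg, ?_, ?_, hXJO, hAI, stX, stJ, mxX, mxJ, hL1, hL2, hL3, hmid1, hmid2⟩
  · simp only [List.pairwise_cons, List.mem_cons, List.not_mem_nil, or_false, forall_eq_or_imp,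
      forall_eq, IsEmpty.forall_iff, implies_true, List.Pairwise.nil, and_true]
    exact ⟨⟨hhX, hhJ, hhO, hhQ, a1, a2, hhI, a3⟩, ⟨hXJ, hXO, hXQ, b1, b2, hXI, b3⟩,
      ⟨hJO, hJQ, c1, c2, hJI, c3⟩, ⟨hOQ, d1, d2, hOI, d3⟩, ⟨q1, q2, hIQ.symm, q3⟩,
      ⟨h12, e1.symm, h13⟩, ⟨e2.symm, h23⟩, e3⟩
  · refine union_subset (hHZ.trans hZO) (union_subset ((hXF.trans hFZ).trans hZO) (union_subset
      ((hJF.trans hFZ).trans hZO) (union_subset ((hOF.trans hFZ).trans hZO) (union_subset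
      ((hQF.trans hFZ).trans hZO) (union_subset hW1O (union_subset
      hW2O (union_subset ((hIF.trans hFZ).trans hZO) hW3O)))))))

end JON
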