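import Pool.Agent.Work.MP_a7fe73_nl.Interface

/-!
# Block CLA
-/

set_option autoImplicit false

namespace JON
open scoped Classical
open Finset

theorem p_CLA (hDRC : Stmt_DRC) : Stmt_CLA := by
  intro V _ D a Dl hA ha hDl hn
  -- a maximum stable set
  obtain ⟨X, hX, hXmax⟩ := Finset.exists_max_image
    ((univ : Finset (Finset V)).filter (fun S => Stab D S)) Finset.card
    ⟨∅, by
      rw [mem_filter]
      refine ⟨mem_univ _, ?_⟩
      intro u hu
      simp at hu⟩
  rw [mem_filter] at hX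
  have hXm : ∀ S : Finset V, Stab D S → S.card ≤ X.card := fun S hS =>
    hXmax S (by rw [mem_filter]; exact ⟨mem_univ _, hS⟩)
  obtain ⟨J, hJ, hJmax⟩ := Finset.exists_max_image
    ((univ : Finset (Finset V)).filter (fun S => Stab D S ∧ Disjoint S X)) Finset.card
    ⟨∅, by
      rw [mem_filter]
      refine ⟨mem_univ _, ?_, by simp⟩
      intro u hu
      simp at hu⟩
  rw [mem_filter] at hJ
  have hJm : ∀ S : Finset V, Stab D S → Disjoint S X → S.card ≤ J.card := fun S hS hd =>
    hJmax S (by rw [mem_filter]; exact ⟨mem_univ _, hS, hd⟩)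
  have hXa : X.card ≤ a := hA X hX.2
  have hJX : J.card ≤ X.card := hXm J hJ.2.1
  have hV : 0 < Fintype.card V := by
    have h1 : 1 ≤ a ^ 3 := Nat.one_le_pow _ _ ha
    have h2 : 1024 * 1 * 1 ≤ 1024 * a ^ 3 * Dl := Nat.mul_le_mul (Nat.mul_le_mul le_rfl h1) hDl
    omega
  obtain ⟨v0⟩ := Fintype.card_pos_iff.1 hV
  have hX1 : 1 ≤ X.card := by
    have h1 := hXm {v0} (by
      intro u hu v hv h
      rw [mem_singleton] at hu hv
      rw [hu, hv] at h
      exact h.irrefl)
    rwa [card_singleton] at h1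
  obtain ⟨A0, hA0c, hA0⟩ := hDRC V D a Dl (4 * a) hA ha hDl (by omega) (by
    refine le_trans (le_of_eq ?_) hn
    ring)
  set A := A0 \ (X ∪ J) with hAdef
  have hAc : 2 * a ≤ A.card := by
    have h1 : A0.card - (X ∪ J).card ≤ A.card := Finset.le_card_sdiff (X ∪ J) A0
    have h2 : (X ∪ J).card ≤ X.card + J.card := card_union_le _ _
    omega
  obtain ⟨O, hOA, hOc⟩ := Finset.exists_subset_card_eq (s := A) (n := X.card - J.card) (by omega)
  obtain ⟨AI, hAI, hAIc⟩ := Finset.exists_subset_card_eq (s := A \ O) (n := X.card) (by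
    rw [card_sdiff_of_subset hOA]
    omega)
  have hOX : ∀ x ∈ O, x ∈ A0 ∧ x ∉ X ∧ x ∉ J := by
    intro x hx
    have := hOA hx
    rw [hAdef, mem_sdiff, mem_union, not_or] at this
    exact this
  have hAX : ∀ x ∈ AI, (x ∈ A0 ∧ x ∉ X ∧ x ∉ J) ∧ x ∉ O := by
    intro x hx
    have h1 := hAI hx
    rw [mem_sdiff] at h1
    have := h1.1
    rw [hAdef, mem_sdiff, mem_union, not_or] at this
    exact ⟨this, h1.2⟩
  refine ⟨X, J, O, AI, ?_, by omega, hAIc, hX1, hXa, hX.2, hJ.2.1, hXm, hJm, ?_⟩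
  · simp only [List.pairwise_cons, List.mem_cons, List.not_mem_nil, or_false, forall_eq_or_imp,
      forall_eq, List.Pairwise.nil, and_true, IsEmpty.forall_iff, implies_true]
    refine ⟨⟨hJ.2.2.symm, ?_, ?_⟩, ⟨?_, ?_⟩, ?_⟩
    · rw [Finset.disjoint_left]
      intro x h1 h2
      exact (hOX x h2).2.1 h1
    · rw [Finset.disjoint_left]
      intro x h1 h2
      exact (hAX x h2).1.2.1 h1
    · rw [Finset.disjoint_left]
      intro x h1 h2
      exact (hOX x h2).2.2 h1
    · rw [Finset.disjoint_left]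
      intro x h1 h2
      exact (hAX x h2).1.2.2 h1
    · rw [Finset.disjoint_left]
      intro x h1 h2
      exact (hAX x h2).2 h1
  · intro o ho l hl
    apply hA0 o (hOX o ho).1 l (hAX l hl).1.1
    intro h
    rw [h] at ho
    exact (hAX l hl).2 ho

end JON
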