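import Pool.Agent.Work.MP_a7fe73_nl.Interface

set_option autoImplicit false

namespace JON
open scoped Classical
open Finset

noncomputable section

/-- CLC: many vertices, last stage -/
theorem p_CLC (hPSI : Stmt_PSI) (hFAN : Stmt_FAN) (hHLL : Stmt_HLL) (hASM : Stmt_ASM) : Stmt_CLC := by
  intro V _ D m g X J O AI Q W1 W2 W3 Om f1 f2 f3 psi1 psi2 psi3 mid hs
  have hd := hs.dis
  simp only [List.pairwise_cons, List.mem_cons, forall_eq_or_imp, List.not_mem_nil, false_imp_iff,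
    implies_true, and_true, List.Pairwise.nil] at hd
  obtain ⟨⟨d1, d2, d3, d4, d5, d6, d7, d8⟩, ⟨e1, e2, e3, e4, e5, e6, e7⟩, ⟨a1, a2, a3, a4, a5, a6⟩,
    ⟨b1, b2, b3, b4, b5⟩, ⟨c1, c2, c3, c4⟩, ⟨g1, g2, g3⟩, ⟨i1, i2⟩, j1⟩ := hd
  obtain ⟨U, hU⟩ : ∃ U : Finset V, U = univ \ (hubV m g ∪ (X ∪ (J ∪ (O ∪ (Q ∪ (W1 ∪ W2)))))) := ⟨_, rfl⟩
  have mU : ∀ v, v ∈ U ↔ v ∉ hubV m g ∧ v ∉ X ∧ v ∉ J ∧ v ∉ O ∧ v ∉ Q ∧ v ∉ W1 ∧ v ∉ W2 := by
    intro v
    rw [hU]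
    simp only [mem_sdiff, mem_univ, true_and, mem_union, not_or]
  have AIU : AI ⊆ U := by
    intro v hv
    rw [mU]
    exact ⟨disjoint_right.1 d7 hv, disjoint_right.1 e6 hv, disjoint_right.1 a5 hv, disjoint_right.1 b4 hv,
      disjoint_right.1 c3 hv, disjoint_right.1 g2 hv, disjoint_right.1 i1 hv⟩
  have W3U : W3 ⊆ U := by
    intro v hv
    rw [mU]
    exact ⟨disjoint_right.1 d8 hv, disjoint_right.1 e7 hv, disjoint_right.1 a6 hv, disjoint_right.1 b5 hv,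
      disjoint_right.1 c4 hv, disjoint_right.1 g3 hv, disjoint_right.1 i2 hv⟩
  have hOm : ∀ v, v ∉ Om → v ∈ U ∧ v ∉ AI ∧ v ∉ W3 := by
    intro v hv
    have hv' : v ∉ hubV m g ∪ (X ∪ (J ∪ (O ∪ (Q ∪ (W1 ∪ (W2 ∪ (AI ∪ W3))))))) := fun h => hv (hs.sub h)
    simp only [mem_union, not_or] at hv'
    obtain ⟨h1, h2, h3, h4, h5, h6, h7, h8, h9⟩ := hv'
    exact ⟨(mU v).2 ⟨h1, h2, h3, h4, h5, h6, h7⟩, h8, h9⟩
  have XU : Disjoint X U := disjoint_left.2 fun v hv hv2 => ((mU v).1 hv2).2.1 hv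
  have JU : Disjoint J U := disjoint_left.2 fun v hv hv2 => ((mU v).1 hv2).2.2.1 hv
  have OU : Disjoint O U := disjoint_left.2 fun v hv hv2 => ((mU v).1 hv2).2.2.2.1 hv
  have QU : Disjoint Q U := disjoint_left.2 fun v hv hv2 => ((mU v).1 hv2).2.2.2.2.1 hv
  have UW1 : Disjoint U W1 := disjoint_right.2 fun v hv hv2 => ((mU v).1 hv2).2.2.2.2.2.1 hv
  have UW2 : Disjoint U W2 := disjoint_right.2 fun v hv hv2 => ((mU v).1 hv2).2.2.2.2.2.2 hv
  have HU : Disjoint (hubV m g) U := disjoint_left.2 fun v hv hv2 => ((mU v).1 hv2).1 hv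
  -- the potential
  obtain ⟨Bb, hBb⟩ : ∃ Bb : ℕ, ∀ v, psi3 v < Bb :=
    ⟨univ.sup psi3 + 1, fun v => Nat.lt_succ_of_le (Finset.le_sup (f := psi3) (mem_univ v))⟩
  obtain ⟨psi0, hpsi0⟩ : ∃ psi0 : V → ℕ, psi0 = fun v => if v ∈ AI ∨ v ∈ W3 then psi3 v else
      if v ∉ Om then Bb else 0 := ⟨_, rfl⟩
  have p1 : ∀ v, v ∈ AI ∨ v ∈ W3 → psi0 v = psi3 v := by
    intro v hv
    rw [hpsi0]
    simp only [hv, if_true]
  have p2 : ∀ v, v ∉ Om → psi0 v = Bb := by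
    intro v hv
    have h := hOm v hv
    have h' : ¬ (v ∈ AI ∨ v ∈ W3) := by
      rintro (h1 | h1)
      · exact h.2.1 h1
      · exact h.2.2 h1
    rw [hpsi0]
    simp only [h', if_false, hv, not_false_eq_true, if_true]
  obtain ⟨psi, pinj, pmono⟩ := hPSI V psi0
  -- the fans
  have hfan : ∀ o ∈ O, ∀ S : Finset V, o ∈ S → X.card ≤ (NS D X U psi S ∩ X).card + (BS D X U psi S).card := by
    intro o ho S hoS
    obtain ⟨h, hh⟩ : ∃ h : V → V, ∀ l ∈ AI, h (mid o l) = l := by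
      refine ⟨fun z => if hz : ∃ l ∈ AI, mid o l = z then hz.choose else z, ?_⟩
      intro l hl
      have hz : ∃ l' ∈ AI, mid o l' = mid o l := ⟨l, hl, rfl⟩
      simp only [dif_pos hz]
      exact (hs.midi o ho _ hz.choose_spec.1 o ho l hl hz.choose_spec.2).2
    have hM : ∀ z ∈ AI.image (mid o), z ∉ Om ∧ D.Adj o z ∧ h z ∈ AI ∧ D.Adj z (h z) ∧ mid o (h z) = z := by
      intro z hz
      rw [mem_image] at hz
      obtain ⟨l, hl, rfl⟩ := hz
      obtain ⟨k1, k2, k3⟩ := hs.midm o ho l hl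
      rw [hh l hl]
      exact ⟨k1, k2.2.1, hl, k3.2.1, rfl⟩
    refine hFAN V D X (J ∪ O) U AI W3 (AI.image (mid o)) psi f3 h o S ?_ XU ?_ (mem_union_right _ ho) hoS AIU W3U
      j1 ?_ ?_ ?_ ?_ ?_ ?_ ?_ ?_
    · rw [disjoint_union_right]
      exact ⟨e1, e2⟩
    · rw [disjoint_union_left]
      exact ⟨JU, OU⟩
    · intro v hv
      refine ⟨hs.l3.maps v hv, hs.l3.arc v hv, ?_⟩
      intro hfU
      apply pmono
      have hf : f3 v ∈ W3 := by
        rcases hs.l3.maps v hv with h' | h'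
        · exact h'
        · exact absurd hfU (disjoint_left.1 XU h')
      rw [p1 _ (Or.inr hf), p1 _ hv]
      exact hs.l3.dec v hv
    · exact hs.l3.inj
    · intro z hz
      exact (hOm z (hM z hz).1).1
    · rw [disjoint_left]
      intro z hz
      exact (hOm z (hM z hz).1).2.1
    · rw [disjoint_left]
      intro z hz
      exact (hOm z (hM z hz).1).2.2
    · rw [card_image_of_injOn, hs.cA]
      intro l hl l' hl' he
      exact (hs.midi o ho l hl o ho l' hl' he).2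
    · intro z hz
      obtain ⟨k1, k2, k3, k4, k5⟩ := hM z hz
      refine ⟨k2, k3, k4, pmono _ _ ?_⟩
      rw [p1 _ (Or.inl k3), p2 _ k1]
      exact hBb _
    · intro z hz z' hz' he
      rw [← (hM z hz).2.2.2.2, ← (hM z' hz').2.2.2.2, he]
  -- the matching
  obtain ⟨F, Fm, Fi, Fd⟩ := hHLL V D X J O U psi (by
    simp only [List.pairwise_cons, List.mem_cons, forall_eq_or_imp, List.not_mem_nil, false_imp_iff,
      implies_true, and_true, List.Pairwise.nil]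
    exact ⟨⟨e1, e2, XU⟩, ⟨a1, JU⟩, OU⟩) hs.cX (fun u _ v _ he => pinj he) hs.stX hs.stJ hs.mxX hs.mxJ hfan
  have hAsm : Asm D m g X (J ∪ O) Q U W1 W2 f1 f2 F psi1 psi2 psi :=
    { hm := hs.hm
      hub := hs.hub
      dis := by
        simp only [List.pairwise_cons, List.mem_cons, forall_eq_or_imp, List.not_mem_nil, false_imp_iff,
          implies_true, and_true, List.Pairwise.nil, disjoint_union_left, disjoint_union_right]
        exact ⟨⟨d1, ⟨d2, d3⟩, d4, HU, d5, d6⟩, ⟨⟨e1, e2⟩, e3, XU, e4, e5⟩, ⟨⟨a2, b1⟩, ⟨JU, OU⟩, ⟨a3, b2⟩, a4, b3⟩,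
          ⟨QU, c1, c2⟩, ⟨UW1, UW2⟩, g1⟩
      l1 := hs.l1
      l2 := hs.l2
      Fm := Fm
      Fi := Fi
      Fd := Fd }
  obtain ⟨τ, t1, t2⟩ := hASM V D m g X (J ∪ O) Q U W1 W2 f1 f2 F psi1 psi2 psi hAsm
  have hSp : ∀ v, v ∈ Sp m g X (J ∪ O) Q U W1 W2 := by
    intro v
    by_contra hv
    unfold Sp at hv
    simp only [mem_union, not_or] at hv
    obtain ⟨h1, h2, ⟨h3, h4⟩, h5, h6, h7, h8⟩ := hv
    exact h6 ((mU v).2 ⟨h1, h2, h3, h4, h5, h7, h8⟩)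
  exact ⟨τ, fun u v => t2 u (hSp u) v (hSp v), fun v => (t1 v (hSp v)).2⟩

end

end JON
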