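import Pool.Agent.Work.MP_a7fe73_nl.Interface2

set_option autoImplicit false
set_option linter.unusedSectionVars false

/-! # Block CO2 (helper59): many disjoint connectors -/

namespace JON
open scoped Classical
open Finset

noncomputable section

namespace CO2

private theorem card_e2 {V : Type} (u v : V) (p : V × V) : (e2 u v p).card ≤ 2 :=
  (card_le_card sdiff_subset).trans card_le_two

private theorem AP_sub {V : Type} {D : Digraph V} {R I J : Finset V} {w : V}
    (h : w ∈ AP D R I J) : w ∈ R := (mem_NB.1 (mem_AP.1 h).1).1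

end CO2

open JON.CO2 in
theorem p_CO2 : Stmt_CO2 := by
  intro V D Z Om K u v I J hZ hrob hu hv huv hnadj
  obtain ⟨R, hR⟩ : ∃ R, R = Om \ Z := ⟨_, rfl⟩
  rw [← hR]
  have hRO : ∀ x ∈ R, x ∈ Om ∧ x ∉ Z := by
    intro x hx
    rw [hR, mem_sdiff] at hx
    exact hx
  obtain ⟨E, hE, hmax⟩ := Finset.exists_max_image ((Om ×ˢ Om).powerset.filter fun E =>
      (∀ p ∈ E, D.Adj p.1 p.2 ∧ (p.1 = u ∨ p.1 ∈ AP D R I J) ∧ (p.2 = v ∨ p.2 ∈ AP D R J I)) ∧
      ∀ p ∈ E, ∀ p' ∈ E, p ≠ p' → Disjoint (e2 u v p) (e2 u v p')) Finset.card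
    ⟨∅, by simp⟩
  rw [mem_filter, mem_powerset] at hE
  obtain ⟨hEO, hcon, hdis⟩ := hE
  refine ⟨E, hcon, hdis, ?_⟩
  by_contra hbig
  push Not at hbig
  obtain ⟨Rem, hRem⟩ : ∃ Rem, Rem = (Rst D R I J ∪ (Z \ {u, v})) ∪ E.biUnion (e2 u v) := ⟨_, rfl⟩
  have hc1 : (E.biUnion (e2 u v)).card ≤ E.card * 2 :=
    card_biUnion_le_card_mul _ _ _ fun p _ => card_e2 u v p
  have hcard : Rem.card < K := by
    have h1 := card_union_le (Rst D R I J ∪ (Z \ {u, v})) (E.biUnion (e2 u v))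
    have h2 := card_union_le (Rst D R I J) (Z \ {u, v})
    have h3 : (Z \ {u, v}).card ≤ Z.card := card_le_card sdiff_subset
    rw [← hRem] at h1
    omega
  have hmemR : ∀ x, x ∈ Rem ↔ x ∈ Rst D R I J ∨ (x ∈ Z ∧ x ≠ u ∧ x ≠ v) ∨
      ∃ p ∈ E, x ∈ e2 u v p := by
    intro x
    rw [hRem, mem_union, mem_union, mem_biUnion, mem_sdiff, mem_insert, mem_singleton]
    tauto
  have hu' : u ∉ Rem := by
    rw [hmemR]
    rintro (h | h | ⟨p, hp, h⟩)
    · exact (hRO u (mem_Rst.1 h).1).2 hu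
    · exact h.2.1 rfl
    · exact (mem_e2.1 h).2.1 rfl
  have hv' : v ∉ Rem := by
    rw [hmemR]
    rintro (h | h | ⟨p, hp, h⟩)
    · exact (hRO v (mem_Rst.1 h).1).2 hv
    · exact h.2.2 rfl
    · exact (mem_e2.1 h).2.2 rfl
  obtain ⟨w, hw, hwv⟩ := hrob u hu v hv huv Rem hcard hu' hv'
  have hLv : ¬ (v = u ∨ v ∈ AP D R I J) := by
    rintro (h | h)
    · exact huv h.symm
    · exact (hRO v (AP_sub h)).2 hv
  -- the step
  obtain ⟨x, y, hxy, hLx, hLy, hx, hy⟩ : ∃ x y, D.Adj x y ∧ (x = u ∨ x ∈ AP D R I J) ∧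
      ¬ (y = u ∨ y ∈ AP D R I J) ∧ (x = u ∨ (x ∈ Om ∧ x ∉ Rem)) ∧
      (y = v ∨ (y ∈ Om ∧ y ∉ Rem)) := by
    by_contra hno
    push Not at hno
    have hall : ∀ z, Relation.ReflTransGen (fun a b => D.Adj a b ∧ (b ∈ Om ∧ b ∉ Rem)) u z →
        (z = u ∨ z ∈ AP D R I J) ∧ (z = u ∨ (z ∈ Om ∧ z ∉ Rem)) := by
      intro z hz
      induction hz with
      | refl => exact ⟨Or.inl rfl, Or.inl rfl⟩
      | tail hab hbc ih =>
        rename_i b c
        refine ⟨?_, Or.inr hbc.2⟩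
        by_contra hLc
        have h1 := hno b c hbc.1 ih.1 (by tauto) ih.2
        exact hbc.2.2 (h1.2 hbc.2.1)
    obtain ⟨h1, h2⟩ := hall w hw
    have h3 := hno w v hwv h1 (by tauto) h2
    exact h3.1 rfl
  have hy' : y = v ∨ y ∈ AP D R J I := by
    by_cases hyv : y = v
    · exact Or.inl hyv
    · right
      obtain ⟨h1, h2⟩ := hy.resolve_left hyv
      rw [hmemR] at h2
      have hyZ : y ∉ Z := by
        intro h3
        exact h2 (Or.inr (Or.inl ⟨h3, fun h4 => hLy (Or.inl h4), hyv⟩))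
      have hyR : y ∈ R := by
        rw [hR, mem_sdiff]
        exact ⟨h1, hyZ⟩
      have h3 : y ∉ Rst D R I J := fun h => h2 (Or.inl h)
      rw [mem_Rst] at h3
      by_contra h4
      exact h3 ⟨hyR, fun h => hLy (Or.inr h), h4⟩
  have hne : ∃ z, z ∈ e2 u v (x, y) := by
    by_cases h1 : x = u
    · by_cases h2 : y = v
      · rw [h1, h2] at hxy
        exact (hnadj hxy).elim
      · have h3 := hRO y (AP_sub (hy'.resolve_left h2))
        refine ⟨y, mem_e2.2 ⟨Or.inr rfl, ?_, h2⟩⟩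
        rintro rfl
        exact h3.2 hu
    · have h3 := hRO x (AP_sub (hLx.resolve_left h1))
      refine ⟨x, mem_e2.2 ⟨Or.inl rfl, h1, ?_⟩⟩
      rintro rfl
      exact h3.2 hv
  have hdj : ∀ p ∈ E, Disjoint (e2 u v (x, y)) (e2 u v p) := by
    intro p hp
    rw [disjoint_left]
    intro z hz hzp
    have h1 := mem_e2.1 hz
    have h2 : z ∈ Rem := (hmemR z).2 (Or.inr (Or.inr ⟨p, hp, hzp⟩))
    rcases h1.1 with h3 | h3
    · have h4 : z = x := h3
      subst h4
      rcases hx with h5 | h5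
      · exact h1.2.1 h5
      · exact h5.2 h2
    · have h4 : z = y := h3
      subst h4
      rcases hy with h5 | h5
      · exact h1.2.2 h5
      · exact h5.2 h2
  have hnE : (x, y) ∉ E := by
    intro h
    obtain ⟨z, hz⟩ := hne
    exact (disjoint_left.1 (hdj _ h)) hz hz
  have hxO : x ∈ Om := by
    rcases hLx with h | h
    · rw [h]
      exact hZ hu
    · exact (hRO x (AP_sub h)).1
  have hyO : y ∈ Om := by
    rcases hy' with h | h
    · rw [h]
      exact hZ hv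
    · exact (hRO y (AP_sub h)).1
  have hins : insert (x, y) E ∈ ((Om ×ˢ Om).powerset.filter fun E =>
      (∀ p ∈ E, D.Adj p.1 p.2 ∧ (p.1 = u ∨ p.1 ∈ AP D R I J) ∧ (p.2 = v ∨ p.2 ∈ AP D R J I)) ∧
      ∀ p ∈ E, ∀ p' ∈ E, p ≠ p' → Disjoint (e2 u v p) (e2 u v p')) := by
    rw [mem_filter, mem_powerset]
    refine ⟨?_, ?_, ?_⟩
    · intro p hp
      rcases mem_insert.1 hp with rfl | hp
      · exact mem_product.2 ⟨hxO, hyO⟩
      · exact hEO hp
    · intro p hp
      rcases mem_insert.1 hp with rfl | hp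
      · exact ⟨hxy, hLx, hy'⟩
      · exact hcon p hp
    · intro p hp p' hp' hpp
      rcases mem_insert.1 hp with rfl | hp
      · rcases mem_insert.1 hp' with rfl | hp'
        · exact (hpp rfl).elim
        · exact hdj p' hp'
      · rcases mem_insert.1 hp' with rfl | hp'
        · exact (hdj p hp).symm
        · exact hdis p hp p' hp' hpp
  have h1 := hmax _ hins
  rw [card_insert_of_notMem hnE] at h1
  omega

end

end JON
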