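import Pool.Agent.Work.MP_a7fe73_nl.Interface

set_option autoImplicit false
set_option linter.unusedSectionVars false

namespace JON
open scoped Classical
open Finset

theorem p_CSC (hRLK : Stmt_RLK) (hSPN : Stmt_SPN) (hTYP : Stmt_TYP) (hHCARD : Stmt_HCARD) :
    Stmt_CSC := by
  intro V _ D l W Q M N gw g0 g1 Vs hl hV hS
  have hN := hS.hN
  obtain ⟨c1, c2, c3, c4, c5, -⟩ := hHCARD V D (2 * N - 1) g1 hS.hub1 (by omega)
  set Z : Finset V := hubV (N + Q.card - 1) g0 ∪ (hubV (2 * N - 1) g1 ∪ (W ∪ (Q ∪ M))) with hZ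
  obtain ⟨d0, hd0⟩ := List.pairwise_cons.1 hS.dis
  obtain ⟨d1, hd1⟩ := List.pairwise_cons.1 hd0
  have dM : Disjoint (hubV (2 * N - 1) g1) M := d1 M (by simp)
  have hubZ : hubV (2 * N - 1) g1 ⊆ Z := by
    intro v hv
    rw [hZ]
    simp only [mem_union]
    tauto
  have MZ : M ⊆ Z := by
    intro v hv
    rw [hZ]
    simp only [mem_union]
    tauto
  have z3 : Disjoint Z (Vs 3) := hS.vz 3
  have z4 : Disjoint Z (Vs 4) := hS.vz 4
  obtain ⟨W3, hW3, f3, psi3, lk3⟩ := hRLK V D Z (Vs 3) (hout (2 * N - 1) g1) M (2 * N + Q.card)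
    z3 (hS.rob 3) (c4.trans hubZ) MZ (disjoint_of_subset_left c4 dM)
    (by rw [c1, hS.cM]; omega) (by rw [c1]; omega)
  obtain ⟨W4, hW4, f4, psi4, lk4⟩ := hRLK V D Z (Vs 4) M (hin (2 * N - 1) g1) (2 * N + Q.card)
    z4 (hS.rob 4) MZ (c5.trans hubZ) (disjoint_of_subset_right c5 dM.symm)
    (by rw [c2, hS.cM]; omega) (by rw [hS.cM]; omega)
  obtain ⟨c, L, s1, s2, s3, s4⟩ := hSPN V D (2 * N - 1) g1 M W3 W4 f3 f4 psi3 psi4 (by omega)
    hS.hub1 (by
      refine List.pairwise_cons.2 ⟨?_, List.pairwise_cons.2 ⟨?_, List.pairwise_cons.2 ⟨?_,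
        List.pairwise_cons.2 ⟨?_, List.Pairwise.nil⟩⟩⟩⟩
      · intro A hA
        simp only [List.mem_cons, List.not_mem_nil, or_false] at hA
        rcases hA with rfl | rfl | rfl
        · exact dM
        · exact disjoint_of_subset_left hubZ (disjoint_of_subset_right hW3 z3)
        · exact disjoint_of_subset_left hubZ (disjoint_of_subset_right hW4 z4)
      · intro A hA
        simp only [List.mem_cons, List.not_mem_nil, or_false] at hA
        rcases hA with rfl | rfl
        · exact disjoint_of_subset_left MZ (disjoint_of_subset_right hW3 z3)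
        · exact disjoint_of_subset_left MZ (disjoint_of_subset_right hW4 z4)
      · intro A hA
        simp only [List.mem_cons, List.not_mem_nil, or_false] at hA
        subst hA
        exact disjoint_of_subset_left hW3 (disjoint_of_subset_right hW4
          (hS.vd 3 4 (by decide)))
      · intro A hA
        simp at hA) lk3 lk4
  have hL : L ≤ Fintype.card V := by
    have h1 := Finset.card_le_card_of_injOn (s := range L) (t := (univ : Finset V)) c
      (fun i _ => Finset.mem_coe.2 (mem_univ _)) (by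
        intro i hi j hj hij
        exact s1 i (mem_range.1 (Finset.mem_coe.1 hi)) j (mem_range.1 (Finset.mem_coe.1 hj)) hij)
    rw [card_range] at h1
    exact h1
  have hpos : ∀ w, ∃ i, w ∈ W → i < L ∧ c i = gw w := by
    intro w
    by_cases hw : w ∈ W
    · obtain ⟨i, hi, hi2⟩ := s3 (gw w) (hS.gwM w hw).1
      exact ⟨i, fun _ => ⟨hi, hi2⟩⟩
    · exact ⟨0, fun h => absurd h hw⟩
  choose pos hpos using hpos
  have hinj : ∀ w ∈ W, ∀ w' ∈ W, pos w = pos w' → w = w' := by
    intro w hw w' hw' h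
    apply hS.gwi w hw w' hw'
    rw [← (hpos w hw).2, ← (hpos w' hw').2, h]
  obtain ⟨X, Y, t1, t2, t3, t4, t5, t6⟩ := hTYP V D W (univ \ (W ∪ Q)) pos L N (70 * l) l hN
    hS.cW hinj hL hl hV le_rfl (by
      intro R hR hst
      apply hS.lev R _ hst
      rw [Finset.disjoint_left]
      intro v hv
      have h1 := hR hv
      rw [mem_sdiff] at h1
      exact h1.2)
  refine ⟨X, Y, c, L, pos, t1, t2, t3, t4, t5, ?_, ?_, s1, s4, ?_, ?_⟩
  · rw [← Finset.union_assoc, t2]
    exact t6
  · intro i hi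
    have h1 := s2 i hi
    simp only [mem_union] at h1 ⊢
    rcases h1 with h1 | h1 | h1 | h1
    · exact Or.inl h1
    · exact Or.inr (Or.inl h1)
    · exact Or.inr (Or.inr (Or.inl (hW3 h1)))
    · exact Or.inr (Or.inr (Or.inr (hW4 h1)))
  · intro w hw
    rw [t2] at hw
    refine ⟨(hpos w hw).1, ?_⟩
    rw [(hpos w hw).2]
    exact (hS.gwM w hw).2
  · intro w hw w' hw' h
    rw [t2] at hw hw'
    exact hinj w hw w' hw' h

end JON
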