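import Pool.Agent.Work.MP_a7fe73_nl.Interface

set_option autoImplicit false

/-! Block CSD (helper53): second stage of the case of few vertices. -/

namespace JON
open scoped Classical
open Finset

theorem p_CSD (hCSC : Stmt_CSC) (hRLK : Stmt_RLK) (hHCARD : Stmt_HCARD) : Stmt_CSD := by
  intro V _ D l W Q M N gw g0 g1 Vs hl hV hS
  obtain ⟨X, Y, c, L, pos, hXY, hXYW, hX, hY, hbal, hstar, hc1, hc2, hc3, hpo, hpi⟩ :=
    hCSC V D l W Q M N gw g0 g1 Vs hl hV hS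
  have hN := hS.hN
  have hQ := hS.cQ
  have hm : 1 ≤ N + Q.card - 1 := by omega
  obtain ⟨o1, o2, _, o4, o5, _⟩ := hHCARD V D _ g0 hS.hub0 hm
  obtain ⟨H0, hH0⟩ : ∃ H0 : Finset V, H0 = hubV (N + Q.card - 1) g0 := ⟨_, rfl⟩
  obtain ⟨H1, hH1⟩ : ∃ H1 : Finset V, H1 = hubV (2 * N - 1) g1 := ⟨_, rfl⟩
  have hdis := hS.dis
  have hvz := hS.vz
  have hrob := hS.rob
  have hvd := hS.vd
  rw [← hH0, ← hH1] at hdis hvz hrob
  rw [← hH0] at o4 o5
  rw [← hH1] at hc1
  have hXW : X ⊆ W := by rw [← hXYW]; exact subset_union_left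
  have hYW : Y ⊆ W := by rw [← hXYW]; exact subset_union_right
  simp only [List.pairwise_cons, List.mem_cons, List.not_mem_nil, or_false, forall_eq_or_imp,
    forall_eq, false_imp_iff, implies_true, and_true, List.Pairwise.nil] at hdis
  obtain ⟨⟨d01, d0W, d0Q, d0M⟩, ⟨d1W, d1Q, d1M⟩, ⟨dWQ, dWM⟩, dQM⟩ := hdis
  obtain ⟨Z, hZ⟩ : ∃ Z : Finset V, Z = H0 ∪ (H1 ∪ (W ∪ (Q ∪ M))) := ⟨_, rfl⟩
  rw [← hZ] at hvz hrob
  have z0 : H0 ⊆ Z := by rw [hZ]; exact subset_union_left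
  have z1 : H1 ⊆ Z := by
    rw [hZ]; exact subset_union_left.trans subset_union_right
  have zW : W ⊆ Z := by
    rw [hZ]; exact (subset_union_left.trans subset_union_right).trans subset_union_right
  have zQ : Q ⊆ Z := by
    rw [hZ]
    exact ((subset_union_left.trans subset_union_right).trans subset_union_right).trans
      subset_union_right
  have zM : M ⊆ Z := by
    rw [hZ]
    exact ((subset_union_right.trans subset_union_right).trans subset_union_right).trans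
      subset_union_right
  have dXQ : Disjoint X Q := dWQ.mono_left hXW
  have dYQ : Disjoint Y Q := dWQ.mono_left hYW
  have cYQ : (Y ∪ Q).card = N + Q.card := by rw [card_union_of_disjoint dYQ, hY]
  have cXQ : (X ∪ Q).card = N + Q.card := by rw [card_union_of_disjoint dXQ, hX]
  obtain ⟨W1, hW1, f1, psi1, l1⟩ := hRLK V D Z (Vs 0) (hout (N + Q.card - 1) g0) (Y ∪ Q)
    (2 * N + Q.card) (hvz 0) (hrob 0) (o4.trans z0) (union_subset (hYW.trans zW) zQ)
    (by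
      rw [disjoint_union_right]
      exact ⟨(d0W.mono_left o4).mono_right hYW, d0Q.mono_left o4⟩)
    (by rw [o1, cYQ]; omega) (by rw [o1]; omega)
  obtain ⟨W2, hW2, f2, psi2, l2⟩ := hRLK V D Z (Vs 1) (X ∪ Q) (hin (N + Q.card - 1) g0)
    (2 * N + Q.card) (hvz 1) (hrob 1) (union_subset (hXW.trans zW) zQ) (o5.trans z0)
    (by
      rw [disjoint_union_left]
      exact ⟨((d0W.mono_left o5).mono_right hXW).symm, (d0Q.mono_left o5).symm⟩)
    (by rw [o2, cXQ]; omega) (by rw [cXQ]; omega)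
  obtain ⟨WL, hWL, f3, psi3, l3⟩ := hRLK V D Z (Vs 2) Y X
    (2 * N + Q.card) (hvz 2) (hrob 2) (hYW.trans zW) (hXW.trans zW) hXY.symm
    (by rw [hX, hY]) (by rw [hY]; omega)
  have dZ0 : Disjoint Z W1 := (hvz 0).mono_right hW1
  have dZ1 : Disjoint Z W2 := (hvz 1).mono_right hW2
  have dZ2 : Disjoint Z WL := (hvz 2).mono_right hWL
  have d12 : Disjoint W1 W2 := ((hvd 0 1 (by decide)).mono_left hW1).mono_right hW2
  have d13 : Disjoint W1 WL := ((hvd 0 2 (by decide)).mono_left hW1).mono_right hWL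
  have d23 : Disjoint W2 WL := ((hvd 1 2 (by decide)).mono_left hW2).mono_right hWL
  refine ⟨X, Y, W1, W2, WL, f1, f2, f3, psi1, psi2, psi3, c, L, pos, ?_⟩
  refine ⟨hm, hS.hub0, ?_, ?_, l1, l2, l3, hc2, hc3, hpo, hpi, hbal, by rw [hX, hY], hstar⟩
  · rw [← hH0]
    simp only [List.pairwise_cons, List.mem_cons, List.not_mem_nil, or_false, forall_eq_or_imp,
      forall_eq, false_imp_iff, implies_true, and_true, List.Pairwise.nil]
    exact ⟨⟨d0W.mono_right hXW, d0W.mono_right hYW, d0Q, dZ0.mono_left z0, dZ1.mono_left z0,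
        dZ2.mono_left z0⟩,
      ⟨hXY, dXQ, dZ0.mono_left (hXW.trans zW), dZ1.mono_left (hXW.trans zW),
        dZ2.mono_left (hXW.trans zW)⟩,
      ⟨dYQ, dZ0.mono_left (hYW.trans zW), dZ1.mono_left (hYW.trans zW),
        dZ2.mono_left (hYW.trans zW)⟩,
      ⟨dZ0.mono_left zQ, dZ1.mono_left zQ, dZ2.mono_left zQ⟩, ⟨d12, d13⟩, d23⟩
  · intro i hi hmem
    rw [← hH0] at hmem
    have h1 : H0 ∪ (X ∪ (Y ∪ (Q ∪ (W1 ∪ (W2 ∪ WL))))) ⊆
        H0 ∪ (W ∪ (Q ∪ (Vs 0 ∪ (Vs 1 ∪ Vs 2)))) := by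
      intro v hv
      simp only [mem_union] at hv ⊢
      rcases hv with h | h | h | h | h | h | h
      · exact Or.inl h
      · exact Or.inr (Or.inl (hXW h))
      · exact Or.inr (Or.inl (hYW h))
      · exact Or.inr (Or.inr (Or.inl h))
      · exact Or.inr (Or.inr (Or.inr (Or.inl (hW1 h))))
      · exact Or.inr (Or.inr (Or.inr (Or.inr (Or.inl (hW2 h)))))
      · exact Or.inr (Or.inr (Or.inr (Or.inr (Or.inr (hWL h)))))
    have h2 : Disjoint (H1 ∪ (M ∪ (Vs 3 ∪ Vs 4))) (H0 ∪ (W ∪ (Q ∪ (Vs 0 ∪ (Vs 1 ∪ Vs 2))))) := by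
      simp only [disjoint_union_left, disjoint_union_right]
      exact ⟨⟨d01.symm, d0M.symm, ((hvz 3).mono_left z0).symm, ((hvz 4).mono_left z0).symm⟩,
        ⟨d1W, dWM.symm, ((hvz 3).mono_left zW).symm, ((hvz 4).mono_left zW).symm⟩,
        ⟨d1Q, dQM.symm, ((hvz 3).mono_left zQ).symm, ((hvz 4).mono_left zQ).symm⟩,
        ⟨(hvz 0).mono_left z1, (hvz 0).mono_left zM, hvd 3 0 (by decide), hvd 4 0 (by decide)⟩,
        ⟨(hvz 1).mono_left z1, (hvz 1).mono_left zM, hvd 3 1 (by decide), hvd 4 1 (by decide)⟩,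
        ⟨(hvz 2).mono_left z1, (hvz 2).mono_left zM, hvd 3 2 (by decide), hvd 4 2 (by decide)⟩⟩
    exact Finset.disjoint_left.1 h2 (hc1 i hi) (h1 hmem)

end JON
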