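import Pool.Agent.Work.MP_a7fe73_nl.Interface

set_option autoImplicit false
set_option linter.unusedSectionVars false

/-! Block CSE: few vertices, third stage.  helper79. -/

namespace JON
open scoped Classical
open Finset

theorem p_CSE (hpsi : Stmt_PSI) (hhls : Stmt_HLS) (hasm : Stmt_ASM) : Stmt_CSE := by
  intro V _ D m g X Y Q W1 W2 WL f1 f2 f3 psi1 psi2 psi3 c L pos hS
  obtain ⟨hm, hub, dis, cdis, l1, l2, l3, ci, ca, po, pi, bal, cXY, star⟩ := hS
  obtain ⟨U, hU⟩ : ∃ U : Finset V, U = univ \ (hubV m g ∪ (X ∪ (Y ∪ (Q ∪ (W1 ∪ W2))))) := ⟨_, rfl⟩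
  have memU : ∀ v, v ∈ U ↔ v ∉ hubV m g ∧ v ∉ X ∧ v ∉ Y ∧ v ∉ Q ∧ v ∉ W1 ∧ v ∉ W2 := by
    intro v
    rw [hU]
    simp only [mem_sdiff, mem_univ, true_and, mem_union, not_or]
  simp only [List.pairwise_cons, List.forall_mem_cons, List.not_mem_nil, IsEmpty.forall_iff, implies_true,
    and_true, List.Pairwise.nil] at dis
  obtain ⟨⟨dhX, dhY, dhQ, dh1, dh2, dhL⟩, ⟨dXY, dXQ, dX1, dX2, dXL⟩, ⟨dYQ, dY1, dY2, dYL⟩,
    ⟨dQ1, dQ2, dQL⟩, ⟨d12, d1L⟩, d2L⟩ := dis
  -- disjointness from U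
  have duh : Disjoint (hubV m g) U := by
    rw [Finset.disjoint_left]
    intro v h1 h2
    exact ((memU v).1 h2).1 h1
  have duX : Disjoint X U := by
    rw [Finset.disjoint_left]
    intro v h1 h2
    exact ((memU v).1 h2).2.1 h1
  have duY : Disjoint Y U := by
    rw [Finset.disjoint_left]
    intro v h1 h2
    exact ((memU v).1 h2).2.2.1 h1
  have duQ : Disjoint Q U := by
    rw [Finset.disjoint_left]
    intro v h1 h2
    exact ((memU v).1 h2).2.2.2.1 h1
  have du1 : Disjoint U W1 := by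
    rw [Finset.disjoint_left]
    intro v h1 h2
    exact ((memU v).1 h1).2.2.2.2.1 h2
  have du2 : Disjoint U W2 := by
    rw [Finset.disjoint_left]
    intro v h1 h2
    exact ((memU v).1 h1).2.2.2.2.2 h2
  have hWU : WL ⊆ U := by
    intro v hv
    rw [memU]
    exact ⟨fun h => Finset.disjoint_left.1 dhL h hv, fun h => Finset.disjoint_left.1 dXL h hv,
      fun h => Finset.disjoint_left.1 dYL h hv, fun h => Finset.disjoint_left.1 dQL h hv,
      fun h => Finset.disjoint_left.1 d1L h hv, fun h => Finset.disjoint_left.1 d2L h hv⟩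
  have hcd : ∀ i < L, c i ∈ U ∧ c i ∉ WL := by
    intro i hi
    have h := cdis i hi
    simp only [mem_union, not_or] at h
    obtain ⟨a1, a2, a3, a4, a5, a6, a7⟩ := h
    exact ⟨(memU _).2 ⟨a1, a2, a3, a4, a5, a6⟩, a7⟩
  -- the potential
  obtain ⟨psi0, hpsi0⟩ : ∃ psi0 : V → ℕ, psi0 = fun v => if v ∈ WL then psi3 v else
      if h : ∃ i, i < L ∧ c i = v then L - h.choose else 0 := ⟨_, rfl⟩
  have p1 : ∀ v ∈ WL, psi0 v = psi3 v := by
    intro v hv
    rw [hpsi0]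
    exact if_pos hv
  have p2 : ∀ i < L, psi0 (c i) = L - i := by
    intro i hi
    have h : ∃ j, j < L ∧ c j = c i := ⟨i, hi, rfl⟩
    have h1 : psi0 (c i) = L - h.choose := by
      rw [hpsi0]
      show (if c i ∈ WL then psi3 (c i) else if h : ∃ j, j < L ∧ c j = c i then L - h.choose else 0) = _
      rw [if_neg (hcd i hi).2, dif_pos h]
    rw [h1, ci _ h.choose_spec.1 _ hi h.choose_spec.2]
  obtain ⟨psi, hinj, hmono⟩ := hpsi V psi0
  have hspine : Spine D U psi c L := by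
    refine ⟨ci, fun i hi => (hcd i hi).1, fun i hi => ⟨ca i hi, ?_⟩⟩
    apply hmono
    rw [p2 i (by omega), p2 (i + 1) hi]
    omega
  have hstar : Star D U X Y pos L := by
    intro R hR
    apply star R
    intro v hv
    have h := (memU v).1 (hR hv)
    simp only [mem_sdiff, mem_univ, true_and, mem_union, not_or]
    exact ⟨h.2.1, h.2.2.1, h.2.2.2.1⟩
  obtain ⟨F, F1, F2, F3⟩ := hhls V D X Y U WL psi f3 c L pos dXY duX duY (fun u _ v _ h => hinj h) hWU
    (fun v hv => ⟨l3.maps v hv, l3.arc v hv⟩) l3.inj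
    (fun v hv hfv => by
      apply hmono
      rw [p1 _ hfv, p1 v hv]
      exact l3.dec v (Or.inr hv))
    hspine (fun i hi => (hcd i hi).2) po pi bal hstar
  have hA : Asm D m g X Y Q U W1 W2 f1 f2 F psi1 psi2 psi := by
    refine ⟨hm, hub, ?_, l1, l2, F1, F2, F3⟩
    simp only [List.pairwise_cons, List.forall_mem_cons, List.not_mem_nil, IsEmpty.forall_iff, implies_true,
      and_true, List.Pairwise.nil]
    exact ⟨⟨dhX, dhY, dhQ, duh, dh1, dh2⟩, ⟨dXY, dXQ, duX, dX1, dX2⟩, ⟨dYQ, duY, dY1, dY2⟩,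
      ⟨duQ, dQ1, dQ2⟩, ⟨du1, du2⟩, d12⟩
  obtain ⟨τ, t1, t2⟩ := hasm V D m g X Y Q U W1 W2 f1 f2 F psi1 psi2 psi hA
  have hall : ∀ v, v ∈ Sp m g X Y Q U W1 W2 := by
    intro v
    unfold Sp
    simp only [mem_union, memU]
    tauto
  exact ⟨τ, fun u v => t2 u (hall u) v (hall v), fun v => (t1 v (hall v)).2⟩

end JON
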