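import Pool.Agent.Work.MP_a7fe73_nl.Interface

set_option autoImplicit false

open scoped Classical

namespace JON

open Finset

theorem CTB.pow_bound (M x n : ℕ) (hM : 2 ≤ M) (hn : M * x ≤ n) :
    (1 - 1 / (M : ℝ)) ^ n ≤ (1 / 2 : ℝ) ^ x := by
  have hMR : (2 : ℝ) ≤ M := by exact_mod_cast hM
  have h0 : 0 ≤ 1 - 1 / (M : ℝ) := by
    have h1 : 1 / (M : ℝ) ≤ 1 / 2 := one_div_le_one_div_of_le (by norm_num) hMR
    linarith
  have h1 : 1 - 1 / (M : ℝ) ≤ 1 := by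
    have : 0 ≤ 1 / (M : ℝ) := by positivity
    linarith
  have h2 : (1 - 1 / (M : ℝ)) ^ M ≤ 1 / 2 := by
    have h3 : 1 - 1 / (M : ℝ) ≤ Real.exp (-(1 / (M : ℝ))) := by
      have := Real.add_one_le_exp (-(1 / (M : ℝ)))
      linarith
    have h4 : (1 - 1 / (M : ℝ)) ^ M ≤ Real.exp (-(1 / (M : ℝ))) ^ M := pow_le_pow_left₀ h0 h3 M
    rw [← Real.exp_nat_mul] at h4
    have h5 : (M : ℝ) * -(1 / (M : ℝ)) = -1 := by
      field_simp
    rw [h5, Real.exp_neg] at h4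
    refine h4.trans ?_
    have h6 := Real.exp_one_gt_d9
    rw [one_div]
    exact inv_anti₀ (by norm_num) (by linarith)
  calc (1 - 1 / (M : ℝ)) ^ n ≤ (1 - 1 / (M : ℝ)) ^ (M * x) := pow_le_pow_of_le_one h0 h1 hn
    _ = ((1 - 1 / (M : ℝ)) ^ M) ^ x := pow_mul _ _ _
    _ ≤ (1 / 2 : ℝ) ^ x := pow_le_pow_left₀ (pow_nonneg h0 _) h2 x

theorem p_CTB (hCTA : Stmt_CTA) : Stmt_CTB := by
  intro U ι _ b d t F J e hb hed hdis hcl k x hx
  have h := hCTA U ι b d t F J e hb hed hdis hcl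
  have hM : 2 ≤ 2 * b ^ d := by
    have : 1 ≤ b ^ d := Nat.one_le_pow _ _ hb
    omega
  have hp := CTB.pow_bound (2 * b ^ d) x J.card hM hx
  push_cast at hp
  set Bad := F.filter (fun om => (J.filter (fun j => ∀ y ∈ e j, om y = t y)).card < k) with hBad
  have h1 : (Bad.card : ℝ) * (1 / 2 : ℝ) ^ k ≤
      ∑ om ∈ F, (1 / 2 : ℝ) ^ (J.filter (fun j => ∀ y ∈ e j, om y = t y)).card := by
    calc (Bad.card : ℝ) * (1 / 2 : ℝ) ^ k = ∑ _om ∈ Bad, (1 / 2 : ℝ) ^ k := by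
          rw [sum_const, nsmul_eq_mul]
      _ ≤ ∑ om ∈ Bad, (1 / 2 : ℝ) ^ (J.filter (fun j => ∀ y ∈ e j, om y = t y)).card := by
          apply sum_le_sum
          intro om hom
          rw [hBad, mem_filter] at hom
          exact pow_le_pow_of_le_one (by norm_num) (by norm_num) hom.2.le
      _ ≤ ∑ om ∈ F, (1 / 2 : ℝ) ^ (J.filter (fun j => ∀ y ∈ e j, om y = t y)).card := by
          apply sum_le_sum_of_subset_of_nonneg (filter_subset _ _)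
          intro om _ _
          positivity
  have h2 : (Bad.card : ℝ) * (1 / 2 : ℝ) ^ k ≤ (F.card : ℝ) * (1 / 2 : ℝ) ^ x :=
    (h1.trans h).trans (mul_le_mul_of_nonneg_left hp (Nat.cast_nonneg _))
  have h3 : (2 : ℝ) ^ x * (Bad.card : ℝ) ≤ (2 : ℝ) ^ k * (F.card : ℝ) := by
    have e1 : ∀ n : ℕ, (2 : ℝ) ^ n * (1 / 2 : ℝ) ^ n = 1 := by
      intro n
      rw [← mul_pow]
      norm_num
    have e2 := mul_le_mul_of_nonneg_left h2 (show (0 : ℝ) ≤ 2 ^ k * 2 ^ x by positivity)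
    have e3 : (2 : ℝ) ^ k * 2 ^ x * ((Bad.card : ℝ) * (1 / 2 : ℝ) ^ k) =
        2 ^ x * Bad.card * (2 ^ k * (1 / 2 : ℝ) ^ k) := by ring
    have e4 : (2 : ℝ) ^ k * 2 ^ x * ((F.card : ℝ) * (1 / 2 : ℝ) ^ x) =
        2 ^ k * F.card * (2 ^ x * (1 / 2 : ℝ) ^ x) := by ring
    rw [e3, e4, e1, e1, mul_one, mul_one] at e2
    exact e2
  exact_mod_cast h3

end JON
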