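import Pool.Agent.Work.MP_a7fe73_nl.Interface

set_option autoImplicit false
set_option linter.unusedSectionVars false

/-! Block DEG: out-degrees of a k-strong digraph. -/

namespace JON
open scoped Classical
open Finset

noncomputable section

theorem p_DEG : Stmt_DEG := by
  intro V _ D k hK v
  by_contra hcon
  push Not at hcon
  obtain ⟨hcard, hX⟩ := hK
  have hvX : v ∉ outN D v := by
    rw [mem_outN]
    exact fun h => h.1 rfl
  have h1 : (insert v (outN D v)).card < (univ : Finset V).card := by
    rw [card_insert_of_notMem hvX, card_univ]
    omega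
  obtain ⟨u, -, hu⟩ := exists_mem_notMem_of_card_lt_card h1
  rw [mem_insert, not_or] at hu
  have h2 := hX (outN D v) hcon v u hvX hu.2
  apply hu.1
  clear hu h1
  induction h2 with
  | refl => rfl
  | tail _ hab ih =>
    rename_i a b
    by_contra hb
    obtain ⟨-, hb1, hadj⟩ := hab
    apply hb1
    rw [mem_outN]
    subst ih
    exact ⟨hb, hadj⟩

end

end JON
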