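import Pool.Agent.Work.MP_a7fe73_nl.Interface

set_option autoImplicit false
set_option linter.unusedSectionVars false

/-! Block DRA: a vertex whose G-neighbourhood is large and has few bad pairs. -/

namespace JON
open scoped Classical
open Finset

noncomputable section

theorem DRA.sum_bad {V : Type} [Fintype V] (D : Digraph V) (Dl : ℕ) :
    ∑ v : V, ((((univ : Finset V).filter (fun w => Dg D v w)) ×ˢ
      ((univ : Finset V).filter (fun w => Dg D v w))).filter
      (fun p => p.1 ≠ p.2 ∧ codeg D p.1 p.2 < Dl)).card ≤ Fintype.card V * Fintype.card V * Dl := by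
  have h1 : ∀ v : V, ((((univ : Finset V).filter (fun w => Dg D v w)) ×ˢ
      ((univ : Finset V).filter (fun w => Dg D v w))).filter
      (fun p => p.1 ≠ p.2 ∧ codeg D p.1 p.2 < Dl)).card =
      ∑ p : V × V, if (Dg D v p.1 ∧ Dg D v p.2) ∧ (p.1 ≠ p.2 ∧ codeg D p.1 p.2 < Dl) then 1 else 0 := by
    intro v
    rw [← Finset.card_filter]
    congr 1
    ext p
    simp only [mem_filter, mem_product, mem_univ, true_and]
  rw [Finset.sum_congr rfl (fun v _ => h1 v), Finset.sum_comm]
  have h2 : ∀ p : V × V, (∑ v : V, if (Dg D v p.1 ∧ Dg D v p.2) ∧ (p.1 ≠ p.2 ∧ codeg D p.1 p.2 < Dl)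
      then 1 else 0) ≤ Dl := by
    intro p
    rw [← Finset.card_filter]
    by_cases hp : p.1 ≠ p.2 ∧ codeg D p.1 p.2 < Dl
    · refine le_trans (Finset.card_le_card ?_) hp.2.le
      intro v hv
      rw [mem_filter] at hv ⊢
      exact ⟨mem_univ _, hv.2.1.1.symm, hv.2.1.2.symm⟩
    · rw [Finset.filter_false_of_mem]
      · simp
      · intro v _ h
        exact hp h.2
  calc _ ≤ ∑ _p : V × V, Dl := Finset.sum_le_sum (fun p _ => h2 p)
    _ = Fintype.card V * Fintype.card V * Dl := by
      rw [Finset.sum_const, Finset.card_univ, Fintype.card_prod, smul_eq_mul]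

theorem p_DRA (hLOW : Stmt_LOW) : Stmt_DRA := by
  intro V _ D a Dl hA ha hn
  have hdl : 1 ≤ Fintype.card V / (4 * a) := by
    rw [Nat.one_le_div_iff (by omega)]
    exact hn
  have hlow := hLOW V D a (Fintype.card V / (4 * a)) hA hdl
  have hmul : 4 * a * (Fintype.card V / (4 * a)) ≤ Fintype.card V := Nat.mul_div_le _ _
  have hsum := Finset.card_filter_add_card_filter_not (s := (univ : Finset V))
    (fun v => ((univ : Finset V).filter (fun w => Dg D v w)).card < Fintype.card V / (4 * a))
  rw [Finset.card_univ] at hsum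
  generalize hdef : Fintype.card V / (4 * a) = dl at *
  by_contra hcon
  push Not at hcon
  have hbad : ∀ v ∈ (univ : Finset V).filter
      (fun v => ¬ ((univ : Finset V).filter (fun w => Dg D v w)).card < dl),
      2 * Fintype.card V * Dl + 1 ≤ ((((univ : Finset V).filter (fun w => Dg D v w)) ×ˢ
      ((univ : Finset V).filter (fun w => Dg D v w))).filter
      (fun p => p.1 ≠ p.2 ∧ codeg D p.1 p.2 < Dl)).card := by
    intro v hv
    rw [mem_filter] at hv
    exact hcon v (not_lt.mp hv.2)
  have h1 := Finset.card_nsmul_le_sum _ _ _ hbad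
  have h2 := le_trans h1 (Finset.sum_le_sum_of_subset (Finset.subset_univ _))
  have h3 := le_trans h2 (DRA.sum_bad D Dl)
  rw [smul_eq_mul] at h3
  set H := ((univ : Finset V).filter
      (fun v => ¬ ((univ : Finset V).filter (fun w => Dg D v w)).card < dl)).card with hH
  set L := ((univ : Finset V).filter
      (fun v => ((univ : Finset V).filter (fun w => Dg D v w)).card < dl)).card with hL
  have h4 : Fintype.card V + 1 ≤ 2 * H := by
    have : 2 * ((a + 1) * dl) ≤ 4 * a * dl := by nlinarith
    omega
  generalize Fintype.card V = n at *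
  have h5 : (n + 1) * (n * Dl) ≤ 2 * H * (n * Dl) := Nat.mul_le_mul_right _ h4
  have h6 : 1 ≤ H := by omega
  nlinarith

end

end JON
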