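import Pool.Agent.Work.MP_a7fe73_nl.Interface

set_option autoImplicit false

namespace JON
open scoped Classical
open Finset

theorem DRC_codeg_symm {V : Type} [Fintype V] (D : Digraph V) (x y : V) : codeg D x y = codeg D y x := by
  unfold codeg
  congr 1
  ext v
  simp only [mem_filter, mem_univ, true_and]
  tauto

theorem p_DRC (hDRA : Stmt_DRA) (hGRD : Stmt_GRD) : Stmt_DRC := by
  intro V _ D a Dl s hA ha hDl hs hn
  have ha2 : 1 ≤ a ^ 2 := Nat.one_le_pow _ _ ha
  have haa : a ≤ a ^ 2 := by nlinarith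
  have hDs : 1 ≤ Dl * s := Nat.mul_pos hDl hs
  have h256 : 256 * a ^ 2 ≤ Fintype.card V := by
    calc 256 * a ^ 2 ≤ 256 * a ^ 2 * (Dl * s) := Nat.le_mul_of_pos_right _ hDs
      _ = 256 * a ^ 2 * Dl * s := by ring
      _ ≤ _ := hn
  have h4a : 4 * a ≤ Fintype.card V := by nlinarith
  obtain ⟨v, hv1, hv2⟩ := hDRA V D a Dl hA ha h4a
  set N : Finset V := (univ : Finset V).filter (fun w => Dg D v w) with hN
  set n := Fintype.card V with hnn
  set bt := 16 * a * Dl with hbt
  have hbt1 : 1 ≤ bt := by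
    rw [hbt]; exact Nat.mul_pos (Nat.mul_pos (by norm_num) ha) hDl
  set Hi : Finset V := N.filter (fun x => bt ≤ (N.filter (fun y => y ≠ x ∧ codeg D x y < Dl)).card) with hHi
  have hHisub : Hi ⊆ N := filter_subset _ _
  have hcount : ((N ×ˢ N).filter (fun p => p.1 ≠ p.2 ∧ codeg D p.1 p.2 < Dl)).card
      = ∑ x ∈ N, (N.filter (fun y => y ≠ x ∧ codeg D x y < Dl)).card := by
    rw [card_filter, sum_product]
    refine sum_congr rfl fun x _ => ?_
    rw [card_filter]
    refine sum_congr rfl fun y _ => ?_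
    by_cases h : x ≠ y ∧ codeg D x y < Dl
    · rw [if_pos h, if_pos ⟨h.1.symm, h.2⟩]
    · rw [if_neg h, if_neg (fun h' => h ⟨h'.1.symm, h'.2⟩)]
  have hHib : Hi.card * bt ≤ 2 * n * Dl := by
    refine le_trans ?_ hv2
    rw [hcount]
    calc Hi.card * bt = ∑ x ∈ Hi, bt := by rw [sum_const, smul_eq_mul]
      _ ≤ ∑ x ∈ Hi, (N.filter (fun y => y ≠ x ∧ codeg D x y < Dl)).card :=
          sum_le_sum fun x hx => (mem_filter.mp hx).2
      _ ≤ _ := sum_le_sum_of_subset hHisub
  have h8 : 8 * a * Hi.card ≤ n := by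
    have h1 : (8 * a * Hi.card) * (2 * Dl) ≤ n * (2 * Dl) := by
      calc (8 * a * Hi.card) * (2 * Dl) = Hi.card * bt := by rw [hbt]; ring
        _ ≤ 2 * n * Dl := hHib
        _ = n * (2 * Dl) := by ring
    exact Nat.le_of_mul_le_mul_right h1 (by omega)
  set X : Finset V := N \ Hi with hX
  have hXc : X.card = N.card - Hi.card := by rw [hX, card_sdiff_of_subset hHisub]
  have hdiv : n < (n / (4 * a) + 1) * (4 * a) := by
    have := Nat.lt_div_mul_add (a := n) (b := 4 * a) (by omega)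
    nlinarith
  have h16X : n ≤ 16 * a * X.card := by
    have e1 : n / (4 * a) ≤ X.card + Hi.card := by omega
    have e2 : n < (X.card + Hi.card + 1) * (4 * a) :=
      lt_of_lt_of_le hdiv (Nat.mul_le_mul_right _ (by omega))
    have e3 : 16 * a ≤ n := by nlinarith
    nlinarith
  have hsX : s * bt ≤ X.card := by
    have h1 : 16 * a * (s * bt) ≤ 16 * a * X.card := by
      calc 16 * a * (s * bt) = 256 * a ^ 2 * Dl * s := by rw [hbt]; ring
        _ ≤ n := hn
        _ ≤ _ := h16X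
    exact Nat.le_of_mul_le_mul_left h1 (by omega)
  obtain ⟨bad, hbad⟩ : ∃ b : V → V → Prop, ∀ x y, b x y ↔ codeg D x y < Dl :=
    ⟨fun x y => codeg D x y < Dl, fun _ _ => Iff.rfl⟩
  have hXN : X ⊆ N := by rw [hX]; exact sdiff_subset
  obtain ⟨A, hAX, hAc, hAb⟩ := hGRD V X bad bt s
    (fun x y h => by rw [hbad] at h ⊢; rw [DRC_codeg_symm]; exact h) hbt1 (fun x hx => by
      have hx2 : x ∈ N ∧ x ∉ Hi := by rw [hX, mem_sdiff] at hx; exact hx
      have hx3 : ¬ bt ≤ (N.filter (fun y => y ≠ x ∧ codeg D x y < Dl)).card := fun h =>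
        hx2.2 (mem_filter.mpr ⟨hx2.1, h⟩)
      refine lt_of_le_of_lt ?_ (not_le.mp hx3)
      refine card_le_card (fun z hz => ?_)
      rw [mem_filter, hbad] at hz
      rw [mem_filter]
      exact ⟨hXN hz.1, hz.2⟩) hsX
  exact ⟨A, hAc, fun x hx y hy hxy => not_lt.mp (fun h => hAb x hx y hy hxy ((hbad x y).mpr h))⟩

end JON
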