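import Pool.Agent.Work.MP_a7fe73_nl.Interface

set_option autoImplicit false
set_option linter.unusedSectionVars false

namespace JON
open scoped Classical
open Finset

noncomputable section

/-- outside neighbours -/
def DUL_N {V : Type} [Fintype V] (D : Digraph V) (Lv K : Finset V) : Finset V :=
  (univ : Finset V).filter (fun v => v ∉ Lv ∧ ∃ w ∈ K, Dg D w v)

theorem mem_DUL_N {V : Type} [Fintype V] {D : Digraph V} {Lv K : Finset V} {v : V} :
    v ∈ DUL_N D Lv K ↔ v ∉ Lv ∧ ∃ w ∈ K, Dg D w v := by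
  unfold DUL_N; simp

theorem p_DUL (hHALL : Stmt_HALL) : Stmt_DUL := by
  intro V _ D Lv
  obtain ⟨K, hK, hmax⟩ := exists_max_image Lv.powerset
    (fun K => (K.card : ℤ) - ((DUL_N D Lv K).card : ℤ)) ⟨∅, by simp⟩
  rw [mem_powerset] at hK
  have hmax' : ∀ K' ⊆ Lv, (K'.card : ℤ) - ((DUL_N D Lv K').card : ℤ) ≤
      (K.card : ℤ) - ((DUL_N D Lv K).card : ℤ) := fun K' h => hmax K' (mem_powerset.2 h)
  have hemp : DUL_N D Lv ∅ = ∅ := by
    ext v
    rw [mem_DUL_N]
    simp
  refine ⟨K, hK, DUL_N D Lv K, ?_, ?_, ?_, ?_⟩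
  · rw [Finset.disjoint_left]
    intro v hv
    exact (mem_DUL_N.1 hv).1
  · have h := hmax' ∅ (Finset.empty_subset _)
    rw [hemp, Finset.card_empty] at h
    push_cast at h
    omega
  · intro v hv hw
    exact mem_DUL_N.2 ⟨hv, hw⟩
  · obtain ⟨F, hF, hFi⟩ := hHALL V (Dg D) (Lv \ K) (univ \ (Lv ∪ DUL_N D Lv K)) (by
      intro S hS
      have hSK : Disjoint K S := by
        rw [Finset.disjoint_left]
        intro v hv hv'
        exact (mem_sdiff.1 (hS hv')).2 hv
      have hSL : K ∪ S ⊆ Lv := by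
        intro v hv
        rcases mem_union.1 hv with h | h
        · exact hK h
        · exact (mem_sdiff.1 (hS h)).1
      have h := hmax' (K ∪ S) hSL
      have hN : DUL_N D Lv (K ∪ S) = DUL_N D Lv K ∪
          img (Dg D) (univ \ (Lv ∪ DUL_N D Lv K)) S := by
        ext v
        rw [mem_union, mem_DUL_N, mem_DUL_N, mem_img, mem_sdiff, mem_union, mem_DUL_N]
        constructor
        · rintro ⟨hv, w, hw, hwv⟩
          by_cases hv' : ∃ w ∈ K, Dg D w v
          · exact Or.inl ⟨hv, hv'⟩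
          · right
            rcases mem_union.1 hw with h | h
            · exact absurd ⟨w, h, hwv⟩ hv'
            · refine ⟨⟨mem_univ _, ?_⟩, w, h, hwv⟩
              rintro (h1 | h1)
              · exact hv h1
              · exact hv' h1.2
        · rintro (⟨hv, w, hw, hwv⟩ | ⟨⟨_, hv⟩, w, hw, hwv⟩)
          · exact ⟨hv, w, mem_union_left _ hw, hwv⟩
          · refine ⟨fun h1 => hv (Or.inl h1), w, mem_union_right _ hw, hwv⟩
      have hNc : (DUL_N D Lv (K ∪ S)).card = (DUL_N D Lv K).card +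
          (img (Dg D) (univ \ (Lv ∪ DUL_N D Lv K)) S).card := by
        rw [hN]
        apply card_union_of_disjoint
        rw [Finset.disjoint_left]
        intro v hv hv'
        rw [mem_img, mem_sdiff, mem_union] at hv'
        exact hv'.1.2 (Or.inr hv)
      rw [hNc, card_union_of_disjoint hSK] at h
      push_cast at h
      omega)
    refine ⟨F, ?_, ?_⟩
    · intro w hw hwK
      obtain ⟨h1, h2⟩ := hF w (mem_sdiff.2 ⟨hw, hwK⟩)
      rw [mem_sdiff, mem_union] at h1
      exact ⟨fun h => h1.2 (Or.inl h), fun h => h1.2 (Or.inr h), h2⟩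
    · intro w hw w' hw' hwK hwK' h
      exact hFi w (mem_sdiff.2 ⟨hw, hwK⟩) w' (mem_sdiff.2 ⟨hw', hwK'⟩) h

end

end JON
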