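import Pool.Agent.Work.MP_a7fe73_nl.Interface

set_option autoImplicit false

namespace JON
open scoped Classical
open Finset

theorem p_FAN : Stmt_FAN := by
  intro V D X Y U AI W3 M psi f h o S hXY hXU hYU hoY hoS hAI hW3 hAW hf hfi hMU hMA hMW hcard hM hMi
  obtain ⟨N, hN⟩ : ∃ N, N = NS D X U psi S := ⟨_, rfl⟩
  have memN : ∀ v, v ∈ N ↔ (v ∈ U ∨ v ∈ X) ∧ ∃ s ∈ S, D.Adj s v ∧ (s ∈ U → v ∈ U → psi v < psi s) := by
    intro v
    rw [hN, mem_NS]
  have memB : ∀ v, v ∈ BS D X U psi S ↔ (v ∈ N ∧ v ∈ U) ∧ v ∉ S := by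
    intro v
    rw [hN, mem_BS]
  rw [← hN]
  have hXU' : ∀ v ∈ X, v ∉ U := fun v hv => Finset.disjoint_left.1 hXU hv
  have hoU : o ∉ U := Finset.disjoint_left.1 hYU hoY
  have hM' : ∀ v ∈ M, v ∉ AI ∧ v ∉ W3 := fun v hv =>
    ⟨Finset.disjoint_left.1 hMA hv, Finset.disjoint_left.1 hMW hv⟩
  have hAW' : ∀ v ∈ AI, v ∉ W3 := fun v hv => Finset.disjoint_left.1 hAW hv
  -- the injection
  have h1 : ((S ∩ M) ∪ (S ∩ (AI ∪ W3))).card ≤ ((N ∩ (AI ∪ W3)) ∪ (N ∩ X)).card := by
    apply Finset.card_le_card_of_injOn (fun v => if v ∈ M then h v else f v)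
    · intro v hv
      have hv := Finset.mem_coe.1 hv
      apply Finset.mem_coe.2
      by_cases hvM : v ∈ M
      · simp only [if_pos hvM]
        obtain ⟨k1, k2, k3, k4⟩ := hM v hvM
        have hvS : v ∈ S := by
          rcases Finset.mem_union.1 hv with hv | hv
          · exact (Finset.mem_inter.1 hv).1
          · exact (Finset.mem_inter.1 hv).1
        exact Finset.mem_union.2 (Or.inl (Finset.mem_inter.2 ⟨(memN _).2 ⟨Or.inl (hAI k2), v, hvS, k3,
          fun _ _ => k4⟩, Finset.mem_union.2 (Or.inl k2)⟩))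
      · simp only [if_neg hvM]
        have hv2 : v ∈ S ∩ (AI ∪ W3) := by
          rcases Finset.mem_union.1 hv with hv | hv
          · exact absurd (Finset.mem_inter.1 hv).2 hvM
          · exact hv
        obtain ⟨hvS, hv3⟩ := Finset.mem_inter.1 hv2
        obtain ⟨k1, k2, k3⟩ := hf v (Finset.mem_union.1 hv3)
        rcases k1 with k1 | k1
        · exact Finset.mem_union.2 (Or.inl (Finset.mem_inter.2 ⟨(memN _).2 ⟨Or.inl (hW3 k1), v, hvS, k2,
            fun _ hu => k3 hu⟩, Finset.mem_union.2 (Or.inr k1)⟩))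
        · exact Finset.mem_union.2 (Or.inr (Finset.mem_inter.2 ⟨(memN _).2 ⟨Or.inr k1, v, hvS, k2,
            fun _ hu => k3 hu⟩, k1⟩))
    · intro u hu v hv huv
      have hu := Finset.mem_coe.1 hu
      have hv := Finset.mem_coe.1 hv
      have key : ∀ z, z ∈ (S ∩ M) ∪ (S ∩ (AI ∪ W3)) → z ∉ M → z ∈ AI ∨ z ∈ W3 := by
        intro z hz hzM
        rcases Finset.mem_union.1 hz with hz | hz
        · exact absurd (Finset.mem_inter.1 hz).2 hzM
        · exact Finset.mem_union.1 (Finset.mem_inter.1 hz).2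
      have key2 : ∀ z z', z ∈ M → (z' ∈ AI ∨ z' ∈ W3) → h z ≠ f z' := by
        intro z z' hz hz' heq
        have k2 := (hM z hz).2.1
        rcases (hf z' hz').1 with k | k
        · rw [← heq] at k
          exact hAW' _ k2 k
        · rw [← heq] at k
          exact hXU' _ k (hAI k2)
      by_cases huM : u ∈ M
      · by_cases hvM : v ∈ M
        · simp only [if_pos huM, if_pos hvM] at huv
          exact hMi u huM v hvM huv
        · simp only [if_pos huM, if_neg hvM] at huv
          exact absurd huv (key2 u v huM (key v hv hvM))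
      · by_cases hvM : v ∈ M
        · simp only [if_neg huM, if_pos hvM] at huv
          exact absurd huv.symm (key2 v u hvM (key u hu huM))
        · simp only [if_neg huM, if_neg hvM] at huv
          exact hfi u v (key u hu huM) (key v hv hvM) huv
  rw [Finset.card_union_of_disjoint, Finset.card_union_of_disjoint] at h1
  rotate_left
  · rw [Finset.disjoint_left]
    intro v h2 h3
    have h4 := Finset.mem_union.1 (Finset.mem_inter.1 h2).2
    have h5 := (Finset.mem_inter.1 h3).2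
    rcases h4 with h4 | h4
    · exact hXU' v h5 (hAI h4)
    · exact hXU' v h5 (hW3 h4)
  · rw [Finset.disjoint_left]
    intro v h2 h3
    have h4 := Finset.mem_union.1 (Finset.mem_inter.1 h3).2
    have h5 := (Finset.mem_inter.1 h2).2
    rcases h4 with h4 | h4
    · exact (hM' v h5).1 h4
    · exact (hM' v h5).2 h4
  have h2 : ((M \ S) ∪ ((N ∩ (AI ∪ W3)) \ S)).card ≤ (BS D X U psi S).card := by
    apply Finset.card_le_card
    intro v hv
    rw [memB]
    rcases Finset.mem_union.1 hv with hv | hv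
    · obtain ⟨h3, h4⟩ := Finset.mem_sdiff.1 hv
      obtain ⟨k1, k2, k3, k4⟩ := hM v h3
      exact ⟨⟨(memN v).2 ⟨Or.inl (hMU h3), o, hoS, k1, fun hU => absurd hU hoU⟩, hMU h3⟩, h4⟩
    · obtain ⟨h3, h4⟩ := Finset.mem_sdiff.1 hv
      obtain ⟨h5, h6⟩ := Finset.mem_inter.1 h3
      refine ⟨⟨h5, ?_⟩, h4⟩
      rcases Finset.mem_union.1 h6 with h6 | h6
      · exact hAI h6
      · exact hW3 h6
  rw [Finset.card_union_of_disjoint] at h2
  rotate_left
  · rw [Finset.disjoint_left]
    intro v h3 h4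
    have h5 := Finset.mem_union.1 (Finset.mem_inter.1 (Finset.mem_sdiff.1 h4).1).2
    have h6 := hM' v (Finset.mem_sdiff.1 h3).1
    rcases h5 with h5 | h5
    · exact h6.1 h5
    · exact h6.2 h5
  have h3 := Finset.card_sdiff_add_card_inter M S
  rw [Finset.inter_comm M S] at h3
  have h4 := Finset.card_sdiff_add_card_inter (N ∩ (AI ∪ W3)) S
  have h5 : ((N ∩ (AI ∪ W3)) ∩ S).card ≤ (S ∩ (AI ∪ W3)).card := by
    apply Finset.card_le_card
    intro v hv
    obtain ⟨h6, h7⟩ := Finset.mem_inter.1 hv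
    exact Finset.mem_inter.2 ⟨h7, (Finset.mem_inter.1 h6).2⟩
  omega

end JON
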