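import Pool.Agent.Work.MP_a7fe73_nl.Interface3

set_option autoImplicit false

/-! Block FI3 of MP_a7fe73_nl: the theorem for permutations, final form (after B_FI2) -/

open scoped Classical

namespace JON
open Finset

theorem p_FI3 (h1 : Stmt_CB2) (h2 : Stmt_CSD) (h3 : Stmt_CSE) (h4 : Stmt_CL3) (h5 : Stmt_CLC) : Stmt_FI3 := by
  intro V _ D a k hk hA ha hak hor
  by_cases hV : 22528 * a ^ 5 ≤ Fintype.card V
  · obtain ⟨m, g, X, J, O, AI, Q, W1, W2, W3, Om, f1, f2, f3, psi1, psi2, psi3, mid, hS⟩ :=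
      h4 V D a k hk hA ha hak hV
    exact h5 V D m g X J O AI Q W1 W2 W3 Om f1 f2 f3 psi1 psi2 psi3 mid hS
  · have hak2 := hor.resolve_left hV
    have hl1 : 1 ≤ Nat.clog 2 (a + 1) := Nat.clog_pos (by norm_num) (by omega)
    have hl2 : a + 1 ≤ 2 ^ Nat.clog 2 (a + 1) := Nat.le_pow_clog (by norm_num) _
    generalize Nat.clog 2 (a + 1) = l at hak2 hl1 hl2
    have hV' : Fintype.card V + 1 ≤ 2 ^ (20 * l) := by
      have e1 : a ^ 5 ≤ (2 ^ l) ^ 5 := Nat.pow_le_pow_left (by omega) 5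
      have e2 : (2 ^ l) ^ 5 = 2 ^ (5 * l) := by rw [← pow_mul, mul_comm]
      have e3 : 2 ^ 15 * 2 ^ (5 * l) ≤ 2 ^ (20 * l) := by
        rw [← pow_add]
        exact Nat.pow_le_pow_right (by norm_num) (by omega)
      have e4 : 22528 * a ^ 5 ≤ 2 ^ 15 * 2 ^ (5 * l) := by
        rw [← e2]
        exact Nat.mul_le_mul (by norm_num) e1
      omega
    have hl20 : 1 ≤ 20 * l := by omega
    have hq : 26000 * (20 * l) * a ≤ k := by
      refine le_trans (le_of_eq ?_) hak2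
      ring
    obtain ⟨W, Q, M, N, gw, g0, g1, Vs, hS⟩ := h1 V D a k (20 * l) hk hA ha hl20 hV' hq
    obtain ⟨X, Y, W1, W2, WL, f1, f2, f3, psi1, psi2, psi3, c, L, pos, hT⟩ :=
      h2 V D (20 * l) W Q M N gw g0 g1 Vs hl20 hV' hS
    exact h3 V D _ g0 X Y Q W1 W2 WL f1 f2 f3 psi1 psi2 psi3 c L pos hT

end JON
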