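import Pool.Agent.Work.MP_a7fe73_nl.Interface3

set_option autoImplicit false

open scoped Classical

namespace JON

open Finset

theorem GRA.snoc {V : Type} (D : Digraph V) {b : ℕ} (l : ℕ) (om : V → Fin b) (L : List V) (y : V) :
    grun D l om (L ++ [y]) = gstep D l om (grun D l om L) y := by
  unfold grun
  rw [List.foldl_append]
  rfl

theorem GRA.sub {V : Type} (D : Digraph V) {b : ℕ} (l : ℕ) (om : V → Fin b) (st : Gst V) (y : V) :
    st.E ⊆ (gstep D l om st y).E := by
  unfold gstep
  by_cases h : dom D st y
  · rw [if_pos h]
  · rw [if_neg h]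
    exact subset_insert _ _

theorem p_GRA : Stmt_GRA := by
  intro V D b l om om' L
  induction L using List.reverseRecOn with
  | nil =>
    intro _
    rfl
  | append_singleton L y ih =>
    intro h
    rw [GRA.snoc] at h
    rw [GRA.snoc, GRA.snoc]
    have h1 := ih (fun z hz => h z (GRA.sub D l om _ y hz))
    rw [h1]
    obtain ⟨st, hst⟩ : ∃ st, grun D l om L = st := ⟨_, rfl⟩
    rw [hst]
    rw [hst] at h
    by_cases hd : dom D st y
    · unfold gstep
      rw [if_pos hd, if_pos hd]
    · have hy : y ∈ (gstep D l om st y).E := by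
        unfold gstep
        rw [if_neg hd]
        exact mem_insert_self _ _
      have h2 := h y hy
      have k0 : (om' y).val = 3 * l ↔ (om y).val = 3 * l := h2 0 (by norm_num)
      have k1 := h2 1 (by norm_num)
      have k2 := h2 2 (by norm_num)
      unfold gstep
      rw [if_neg hd, if_neg hd, if_congr k0 rfl rfl, if_congr k1 rfl rfl, if_congr k2 rfl rfl]

end JON
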