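import Pool.Agent.Work.MP_a7fe73_nl.Interface3

set_option autoImplicit false

open scoped Classical

namespace JON

open Finset

theorem GRB.snoc {V : Type} (D : Digraph V) {b : ℕ} (l : ℕ) (om : V → Fin b) (L : List V) (y : V) :
    grun D l om (L ++ [y]) = gstep D l om (grun D l om L) y := by
  unfold grun
  rw [List.foldl_append]
  rfl

theorem GRB.mem {V : Type} (f : V → ℕ) (c : ℕ) (A E : Finset V) (y : V)
    (h : ∀ z, z ∈ A ↔ z ∈ E ∧ f z = c) (z : V) :
    z ∈ (if f y = c then insert y A else A) ↔ z ∈ insert y E ∧ f z = c := by
  by_cases hy : f y = c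
  · rw [if_pos hy, mem_insert, mem_insert, h]
    constructor
    · rintro (rfl | ⟨h1, h2⟩)
      · exact ⟨Or.inl rfl, hy⟩
      · exact ⟨Or.inr h1, h2⟩
    · rintro ⟨rfl | h1, h2⟩
      · exact Or.inl rfl
      · exact Or.inr ⟨h1, h2⟩
  · rw [if_neg hy, h, mem_insert]
    constructor
    · rintro ⟨h1, h2⟩
      exact ⟨Or.inr h1, h2⟩
    · rintro ⟨rfl | h1, h2⟩
      · exact absurd h2 hy
      · exact ⟨h1, h2⟩

theorem GRB.sub {V : Type} (p : Prop) [Decidable p] (A : Finset V) (y : V) :
    A ⊆ (if p then insert y A else A) := by
  by_cases h : p
  · rw [if_pos h]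
    exact subset_insert _ _
  · rw [if_neg h]

theorem GRB.sup {V : Type} (p : Prop) [Decidable p] (A : Finset V) (y : V) :
    (if p then insert y A else A) ⊆ insert y A := by
  by_cases h : p
  · rw [if_pos h]
  · rw [if_neg h]
    exact subset_insert _ _

theorem p_GRB : Stmt_GRB := by
  intro V D b l om L
  induction L using List.reverseRecOn with
  | nil =>
    have h : grun D l om [] = ⟨∅, ∅, ∅, ∅⟩ := rfl
    rw [h]
    refine ⟨?_, ?_, ?_, ?_, ?_, ?_⟩
    · intro y hy
      exact absurd hy List.not_mem_nil
    · intro y hy
      exact absurd hy (notMem_empty y)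
    · intro y
      exact ⟨fun h1 => absurd h1 (notMem_empty y), fun h1 => absurd h1.1 (notMem_empty y)⟩
    · intro y
      exact ⟨fun h1 => absurd h1 (notMem_empty y), fun h1 => absurd h1.1 (notMem_empty y)⟩
    · intro y
      exact ⟨fun h1 => absurd h1 (notMem_empty y), fun h1 => absurd h1.1 (notMem_empty y)⟩
    · intro u hu
      rw [union_self] at hu
      exact absurd hu (notMem_empty u)
  | append_singleton L y ih =>
    rw [GRB.snoc]
    obtain ⟨st, hst⟩ : ∃ st, grun D l om L = st := ⟨_, rfl⟩
    rw [hst] at ih ⊢
    obtain ⟨h1, h2, h3, h4, h5, h6⟩ := ih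
    by_cases hd : dom D st y
    · have hg : gstep D l om st y = st := by
        unfold gstep
        rw [if_pos hd]
      rw [hg]
      refine ⟨?_, ?_, h3, h4, h5, h6⟩
      · intro z hz
        rw [List.mem_append, List.mem_singleton] at hz
        rcases hz with hz | rfl
        · exact h1 z hz
        · exact Or.inr hd
      · intro z hz
        exact List.mem_append_left _ (h2 z hz)
    · have hg : gstep D l om st y = ⟨if (om y).val = 3 * l then insert y st.I else st.I,
          if (om y).val = 3 * l + 1 then insert y st.J else st.J,
          if (om y).val = 3 * l + 2 then insert y st.C else st.C, insert y st.E⟩ := by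
        unfold gstep
        rw [if_neg hd]
      rw [hg]
      refine ⟨?_, ?_, ?_, ?_, ?_, ?_⟩
      · intro z hz
        rw [List.mem_append, List.mem_singleton] at hz
        rcases hz with hz | rfl
        · rcases h1 z hz with h | ⟨x, hx, hxz⟩
          · exact Or.inl (mem_insert_of_mem h)
          · right
            refine ⟨x, ?_, hxz⟩
            rcases hx with hx | hx
            · exact Or.inl (GRB.sub ((om y).val = 3 * l) st.I y hx)
            · exact Or.inr (GRB.sub ((om y).val = 3 * l + 1) st.J y hx)
        · exact Or.inl (mem_insert_self _ _)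
      · intro z hz
        rw [List.mem_append, List.mem_singleton]
        rcases mem_insert.mp hz with rfl | hz
        · exact Or.inr rfl
        · exact Or.inl (h2 z hz)
      · exact GRB.mem (fun z => (om z).val) (3 * l) st.I st.E y h3
      · exact GRB.mem (fun z => (om z).val) (3 * l + 1) st.J st.E y h4
      · exact GRB.mem (fun z => (om z).val) (3 * l + 2) st.C st.E y h5
      · have hsub : (if (om y).val = 3 * l then insert y st.I else st.I) ∪
            (if (om y).val = 3 * l + 1 then insert y st.J else st.J) ⊆
            insert y (st.I ∪ st.J) := by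
          intro z hz
          rcases mem_union.mp hz with hz | hz
          · rcases mem_insert.mp (GRB.sup _ _ _ hz) with rfl | hz
            · exact mem_insert_self _ _
            · exact mem_insert_of_mem (mem_union_left _ hz)
          · rcases mem_insert.mp (GRB.sup _ _ _ hz) with rfl | hz
            · exact mem_insert_self _ _
            · exact mem_insert_of_mem (mem_union_right _ hz)
        intro u hu v hv huv
        rcases mem_insert.mp (hsub hu) with k1 | k1
        · rcases mem_insert.mp (hsub hv) with k2 | k2
          · rw [k1, k2] at huv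
            exact huv.irrefl
          · rw [k1] at huv
            exact hd ⟨v, mem_union.mp k2, huv.symm⟩
        · rcases mem_insert.mp (hsub hv) with k2 | k2
          · rw [k2] at huv
            exact hd ⟨u, mem_union.mp k1, huv⟩
          · exact h6 u k1 v k2 huv

end JON
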