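import Pool.Agent.Work.MP_a7fe73_nl.Interface

set_option autoImplicit false
set_option linter.unusedSectionVars false

/-! Block HALL (row MP_a7fe73_co): the theorem of Hall for finite sets. -/

open scoped Classical
open Finset

namespace JON

theorem p_HALL : Stmt_HALL := by
  intro V r A B h
  have key : ∀ s : Finset {v : V // v ∈ A}, s.card ≤ (s.biUnion fun v => B.filter (r v.1)).card := by
    intro s
    have h1 : s.map (Function.Embedding.subtype _) ⊆ A := by
      intro v hv
      rw [mem_map] at hv
      obtain ⟨w, _, rfl⟩ := hv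
      exact w.2
    have h2 := h _ h1
    rw [card_map] at h2
    refine h2.trans (card_le_card ?_)
    intro x hx
    rw [mem_img] at hx
    obtain ⟨hxB, w, hw, hr⟩ := hx
    rw [mem_map] at hw
    obtain ⟨w', hw', rfl⟩ := hw
    rw [mem_biUnion]
    exact ⟨w', hw', mem_filter.2 ⟨hxB, hr⟩⟩
  obtain ⟨f, hf1, hf2⟩ := (Finset.all_card_le_biUnion_card_iff_exists_injective
    (fun v : {v : V // v ∈ A} => B.filter (r v.1))).1 key
  refine ⟨fun v => if hv : v ∈ A then f ⟨v, hv⟩ else v, ?_, ?_⟩
  · intro v hv
    have h3 := hf2 ⟨v, hv⟩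
    rw [mem_filter] at h3
    simp only [dif_pos hv]
    exact h3
  · intro u hu v hv huv
    simp only [dif_pos hu, dif_pos hv] at huv
    exact congrArg Subtype.val (hf1 huv)

end JON
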