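import Pool.Agent.Work.MP_a7fe73_nl.Interface

set_option autoImplicit false

namespace JON
open scoped Classical
open Finset

theorem p_HCARD : Stmt_HCARD := by
  intro V D m g hH hm
  have hinj := hH.inj
  have h1 : ((range m).image fun i => g i 3).card = m := by
    rw [Finset.card_image_of_injOn, Finset.card_range]
    intro i hi j hj hij
    exact (hinj i (Finset.mem_range.1 hi) j (Finset.mem_range.1 hj) 3 3 hij).1
  have h2 : ((range m).image fun i => g i 1).card = m := by
    rw [Finset.card_image_of_injOn, Finset.card_range]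
    intro i hi j hj hij
    exact (hinj i (Finset.mem_range.1 hi) j (Finset.mem_range.1 hj) 1 1 hij).1
  refine ⟨?_, ?_, ?_, ?_, ?_, ?_⟩
  · unfold hout
    rw [Finset.card_insert_of_notMem, h1]
    intro h
    obtain ⟨i, hi, h3⟩ := Finset.mem_image.1 h
    have h4 := (hinj i (Finset.mem_range.1 hi) (m - 1) (by omega) 3 2 h3).2
    exact absurd h4 (by decide)
  · unfold hin
    rw [Finset.card_insert_of_notMem, h2]
    intro h
    obtain ⟨i, hi, h3⟩ := Finset.mem_image.1 h
    have h4 := (hinj i (Finset.mem_range.1 hi) 0 (by omega) 1 0 h3).2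
    exact absurd h4 (by decide)
  · rw [Finset.disjoint_left]
    intro v h3 h4
    rw [mem_hout] at h3
    rw [mem_hin] at h4
    rcases h3 with h3 | ⟨i, hi, h3⟩
    · rcases h4 with h4 | ⟨j, hj, h4⟩
      · have h5 := (hinj (m - 1) (by omega) 0 (by omega) 2 0 (h3.symm.trans h4)).2
        exact absurd h5 (by decide)
      · have h5 := (hinj (m - 1) (by omega) j hj 2 1 (h3.symm.trans h4.symm)).2
        exact absurd h5 (by decide)
    · rcases h4 with h4 | ⟨j, hj, h4⟩
      · have h5 := (hinj i hi 0 (by omega) 3 0 (h3.trans h4)).2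
        exact absurd h5 (by decide)
      · have h5 := (hinj i hi j hj 3 1 (h3.trans h4.symm)).2
        exact absurd h5 (by decide)
  · intro v h3
    rw [mem_hout] at h3
    rw [mem_hubV]
    rcases h3 with h3 | ⟨i, hi, h3⟩
    · exact ⟨m - 1, by omega, 2, h3.symm⟩
    · exact ⟨i, hi, 3, h3⟩
  · intro v h3
    rw [mem_hin] at h3
    rw [mem_hubV]
    rcases h3 with h3 | ⟨i, hi, h3⟩
    · exact ⟨0, by omega, 0, h3.symm⟩
    · exact ⟨i, hi, 1, h3⟩
  · unfold hubV
    rw [Finset.card_biUnion]
    · have h3 : ∀ i ∈ range m, ((univ : Finset (Fin 4)).image (g i)).card = 4 := by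
        intro i hi
        rw [Finset.card_image_of_injective]
        · simp
        · intro c d hcd
          exact (hinj i (Finset.mem_range.1 hi) i (Finset.mem_range.1 hi) c d hcd).2
      rw [Finset.sum_congr rfl h3, Finset.sum_const, Finset.card_range, smul_eq_mul, mul_comm]
    · intro i hi j hj hij
      rw [Function.onFun, Finset.disjoint_left]
      intro v h3 h4
      obtain ⟨c, _, h5⟩ := Finset.mem_image.1 h3
      obtain ⟨d, _, h6⟩ := Finset.mem_image.1 h4
      exact hij (hinj i (Finset.mem_range.1 hi) j (Finset.mem_range.1 hj) c d (h5.trans h6.symm)).1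

end JON
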