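import Pool.Agent.Work.MP_a7fe73_nl.Interface

set_option autoImplicit false

namespace JON
open scoped Classical
open Finset

theorem HLL.stab_union {V : Type} {D : Digraph V} {S T : Finset V} (hS : Stab D S) (hT : Stab D T)
    (h : ∀ u ∈ S, ∀ v ∈ T, ¬ Dg D u v) : Stab D (S ∪ T) := by
  intro u hu v hv huv
  rcases Finset.mem_union.1 hu with hu | hu
  · rcases Finset.mem_union.1 hv with hv | hv
    · exact hS u hu v hv huv
    · exact h u hu v hv huv
  · rcases Finset.mem_union.1 hv with hv | hv
    · exact h v hv u hu huv.symm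
    · exact hT u hu v hv huv

theorem p_HLL (hHALL : Stmt_HALL) (hHSA : Stmt_HSA) : Stmt_HLL := by
  intro V D X J O U psi hdis hcard hpsi hX hJ hmX hmJ hfan
  simp only [List.pairwise_cons, List.mem_cons, List.not_mem_nil, or_false, forall_eq_or_imp,
    forall_eq, List.Pairwise.nil, and_true, IsEmpty.forall_iff, implies_true] at hdis
  obtain ⟨⟨hXJ, hXO, hXU⟩, ⟨hJO, hJU⟩, hOU⟩ := hdis
  have hXY : Disjoint X (J ∪ O) := Finset.disjoint_union_right.2 ⟨hXJ, hXO⟩
  have hYU : Disjoint (J ∪ O) U := Finset.disjoint_union_left.2 ⟨hJU, hOU⟩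
  obtain ⟨F, hF1, hF2⟩ := hHALL V (MG D U psi) ((J ∪ O) ∪ U) (U ∪ X) (by
    intro S hS
    change S.card ≤ (NS D X U psi S).card
    have hS' : ∀ s ∈ S, s ∈ J ∪ O ∨ s ∈ U := fun s hs => Finset.mem_union.1 (hS hs)
    obtain ⟨hR, hid⟩ := hHSA V D X (J ∪ O) U psi S hXY hXU hYU hpsi hS'
    have hJU' : ∀ v ∈ J, v ∉ U := fun v hv => Finset.disjoint_left.1 hJU hv
    have hXU' : ∀ v ∈ X, v ∉ U := fun v hv => Finset.disjoint_left.1 hXU hv
    have e1 : ∀ u ∈ S ∩ J, ∀ v ∈ RS D X U psi S, ¬ Dg D u v := by
      intro u hu v hv huv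
      rw [mem_RS] at hv
      apply hv.2
      rw [mem_NS]
      exact ⟨Or.inl hv.1.2, u, (Finset.mem_inter.1 hu).1, huv.2.1,
        fun h => absurd h (hJU' u (Finset.mem_inter.1 hu).2)⟩
    have e2 : Stab D (S ∩ J) := hJ.mono Finset.inter_subset_right
    have hRU : RS D X U psi S ⊆ U := fun v hv => (mem_RS.1 hv).1.2
    have hRS : RS D X U psi S ⊆ S := fun v hv => (mem_RS.1 hv).1.1
    have d1 : Disjoint (S ∩ J) (RS D X U psi S) :=
      Finset.disjoint_of_subset_left Finset.inter_subset_right (Finset.disjoint_of_subset_right hRU hJU)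
    by_cases hO : ∃ o ∈ O, o ∈ S
    · obtain ⟨o, hoO, hoS⟩ := hO
      have h1 := hfan o hoO S hoS
      have h2 := hmJ ((S ∩ J) ∪ RS D X U psi S) (HLL.stab_union e2 hR e1) (by
        apply Finset.disjoint_union_left.2
        exact ⟨Finset.disjoint_of_subset_left Finset.inter_subset_right hXJ.symm,
          Finset.disjoint_of_subset_left hRU hXU.symm⟩)
      rw [Finset.card_union_of_disjoint d1] at h2
      have h3 : (S ∩ (J ∪ O)).card ≤ (S ∩ J).card + O.card := by
        rw [Finset.inter_union_distrib_left]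
        refine (Finset.card_union_le _ _).trans ?_
        exact Nat.add_le_add_left (Finset.card_le_card Finset.inter_subset_right) _
      omega
    · push Not at hO
      have h0 : S ∩ (J ∪ O) = S ∩ J := by
        ext v
        simp only [Finset.mem_inter, Finset.mem_union]
        constructor
        · rintro ⟨h1, h2 | h2⟩
          · exact ⟨h1, h2⟩
          · exact absurd h1 (hO v h2)
        · rintro ⟨h1, h2⟩
          exact ⟨h1, Or.inl h2⟩
      rw [h0] at hid
      have e3 : Stab D (X \ NS D X U psi S) := hX.mono Finset.sdiff_subset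
      have e4 : ∀ u ∈ (S ∩ J) ∪ RS D X U psi S, ∀ v ∈ X \ NS D X U psi S, ¬ Dg D u v := by
        intro u hu v hv huv
        have huS : u ∈ S := by
          rcases Finset.mem_union.1 hu with h | h
          · exact (Finset.mem_inter.1 h).1
          · exact hRS h
        rw [Finset.mem_sdiff] at hv
        apply hv.2
        rw [mem_NS]
        exact ⟨Or.inr hv.1, u, huS, huv.2.1, fun _ h => absurd h (hXU' v hv.1)⟩
      have h1 := hmX (((S ∩ J) ∪ RS D X U psi S) ∪ (X \ NS D X U psi S))
        (HLL.stab_union (HLL.stab_union e2 hR e1) e3 e4)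
      have d2 : Disjoint ((S ∩ J) ∪ RS D X U psi S) (X \ NS D X U psi S) := by
        apply Finset.disjoint_union_left.2
        exact ⟨Finset.disjoint_of_subset_left Finset.inter_subset_right
          (Finset.disjoint_of_subset_right Finset.sdiff_subset hXJ.symm),
          Finset.disjoint_of_subset_left hRU (Finset.disjoint_of_subset_right Finset.sdiff_subset hXU.symm)⟩
      rw [Finset.card_union_of_disjoint d2, Finset.card_union_of_disjoint d1] at h1
      have h2 := Finset.card_sdiff_add_card_inter X (NS D X U psi S)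
      rw [Finset.inter_comm X] at h2
      omega)
  refine ⟨F, ?_, ?_, ?_⟩
  · intro v hv
    obtain ⟨h1, h2⟩ := hF1 v (Finset.mem_union.2 hv)
    exact ⟨Finset.mem_union.1 h1, h2.1⟩
  · intro u v hu hv huv
    exact hF2 u (Finset.mem_union.2 hu) v (Finset.mem_union.2 hv) huv
  · intro v hv hFv
    obtain ⟨h1, h2⟩ := hF1 v (Finset.mem_union.2 (Or.inr hv))
    exact h2.2 hv hFv

end JON
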