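import Pool.Agent.Work.MP_a7fe73_nl.Interface

set_option autoImplicit false
set_option linter.unusedSectionVars false

/-! Block HLS: the matching lemma for few vertices. -/

namespace JON
open scoped Classical
open Finset

noncomputable section

theorem p_HLS (hHALL : Stmt_HALL) (hHSA : Stmt_HSA) (hHSB : Stmt_HSB) (hHSC : Stmt_HSC) (hHSD : Stmt_HSD) :
    Stmt_HLS := by
  intro V D X Y U WL psi f c L pos hXY hXU hYU hpsi hWL hf1 hf2 hf3 hSp hcW hpos1 hpos2 hBal hStar
  have key : ∀ S ⊆ Y ∪ U, S.card ≤ (img (MG D U psi) (U ∪ X) S).card := by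
    intro S hS
    by_contra hlt
    push Not at hlt
    change (NS D X U psi S).card < S.card at hlt
    have hS' : ∀ s ∈ S, s ∈ Y ∨ s ∈ U := fun s hs => mem_union.mp (hS hs)
    obtain ⟨hst, hid⟩ := hHSA V D X Y U psi S hXY hXU hYU hpsi hS'
    have hB := hHSB V D X Y U WL psi f S hXY hXU hYU hWL hf1 hf2 hf3
    have hC := hHSC V D X U psi c L S hSp
    have hDD := hHSD V D X Y U psi c L pos S hXY hXU hYU hSp hpos1 hpos2 hBal
    have hdis : Disjoint (onc c L (BS D X U psi S)) (BS D X U psi S ∩ WL) := by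
      rw [Finset.disjoint_left]
      intro v hv hv'
      obtain ⟨_, i, hi, rfl⟩ := mem_onc.mp hv
      exact hcW i hi (mem_inter.mp hv').2
    have hsub : onc c L (BS D X U psi S) ∪ (BS D X U psi S ∩ WL) ⊆ BS D X U psi S := by
      intro v hv
      rcases mem_union.mp hv with h | h
      · exact (mem_onc.mp h).1
      · exact (mem_inter.mp h).1
    have hcard := Finset.card_le_card hsub
    rw [Finset.card_union_of_disjoint hdis] at hcard
    have hRU : RS D X U psi S ⊆ U := fun v hv => (mem_RS.mp hv).1.2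
    have hne : (RS D X U psi S).Nonempty := by
      rw [← Finset.card_pos]
      omega
    have htc : tc c L S ⊆ range L := Finset.filter_subset _ _
    have hst3 := hStar (RS D X U psi S) hRU hst hne (tc c L S) htc (by omega)
    omega
  obtain ⟨F, hF1, hF2⟩ := hHALL V (MG D U psi) (Y ∪ U) (U ∪ X) key
  refine ⟨F, ?_, ?_, ?_⟩
  · intro v hv
    obtain ⟨h1, h2⟩ := hF1 v (mem_union.mpr hv)
    exact ⟨mem_union.mp h1, h2.1⟩
  · intro u v hu hv h
    exact hF2 u (mem_union.mpr hu) v (mem_union.mpr hv) h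
  · intro v hv hFv
    exact (hF1 v (mem_union_right _ hv)).2.2 hv hFv

end

end JON
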