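import Pool.Agent.Work.MP_a7fe73_nl.Interface

set_option autoImplicit false

/-! Block HSA of MP_a7fe73_nl: the identity for violating sets -/

open scoped Classical

namespace JON
open Finset

theorem p_HSA : Stmt_HSA := by
  intro V D X Y U psi S hXY hXU hYU hpsi hS
  constructor
  · intro u hu v hv h
    rw [mem_RS] at hu hv
    have hne : psi u ≠ psi v := fun e => h.1 (hpsi u hu.1.2 v hv.1.2 e)
    rcases lt_or_gt_of_ne hne with h1 | h1
    · exact hu.2 (mem_NS.2 ⟨Or.inl hu.1.2, v, hv.1.1, h.2.2, fun _ _ => h1⟩)
    · exact hv.2 (mem_NS.2 ⟨Or.inl hv.1.2, u, hu.1.1, h.2.1, fun _ _ => h1⟩)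
  · have e2 : (NS D X U psi S ∩ U).card =
        (NS D X U psi S ∩ U ∩ S).card + (BS D X U psi S).card :=
      (card_inter_add_card_sdiff (NS D X U psi S ∩ U) S).symm
    have e4 : (S ∩ U).card = (S ∩ U ∩ NS D X U psi S).card + (RS D X U psi S).card :=
      (card_inter_add_card_sdiff (S ∩ U) (NS D X U psi S)).symm
    have e1 : (NS D X U psi S).card = (NS D X U psi S ∩ X).card + (NS D X U psi S ∩ U).card := by
      rw [← card_union_of_disjoint]
      · congr 1
        ext v
        rw [mem_union, mem_inter, mem_inter]
        have h1 : v ∈ NS D X U psi S → v ∈ U ∨ v ∈ X := fun hv => (mem_NS.1 hv).1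
        tauto
      · exact (hXU.mono inter_subset_right inter_subset_right)
    have e3 : S.card = (S ∩ Y).card + (S ∩ U).card := by
      rw [← card_union_of_disjoint]
      · congr 1
        ext v
        rw [mem_union, mem_inter, mem_inter]
        have h1 := hS v
        tauto
      · exact (hYU.mono inter_subset_right inter_subset_right)
    have e5 : NS D X U psi S ∩ U ∩ S = S ∩ U ∩ NS D X U psi S := by
      ext v
      simp only [mem_inter]
      tauto
    rw [e5] at e2
    omega

end JON
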