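import Pool.Agent.Work.MP_a7fe73_nl.Interface

set_option autoImplicit false

/-! Block HSB of MP_a7fe73_nl: the linkage bounds the number of tails -/

open scoped Classical

namespace JON
open Finset

theorem p_HSB : Stmt_HSB := by
  intro V D X Y U WL psi f S hXY hXU hYU hWU hf hfi hfd
  have hYU' : ∀ v, v ∈ Y → v ∈ U → False := fun v h1 h2 => (disjoint_left.mp hYU) h1 h2
  have hXU' : ∀ v, v ∈ X → v ∈ U → False := fun v h1 h2 => (disjoint_left.mp hXU) h1 h2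
  have hdis : Disjoint (S ∩ Y) (S ∩ WL) := by
    rw [disjoint_left]
    intro v h1 h2
    exact hYU' v (mem_inter.mp h1).2 (hWU (mem_inter.mp h2).2)
  have hcard : ((S ∩ Y) ∪ (S ∩ WL)).card = (S ∩ Y).card + (S ∩ WL).card := card_union_of_disjoint hdis
  have hin : ∀ v ∈ (S ∩ Y) ∪ (S ∩ WL), (v ∈ Y ∨ v ∈ WL) ∧ v ∈ S := by
    intro v hv
    rcases mem_union.mp hv with h | h
    · exact ⟨Or.inl (mem_inter.mp h).2, (mem_inter.mp h).1⟩
    · exact ⟨Or.inr (mem_inter.mp h).2, (mem_inter.mp h).1⟩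
  have himg : (((S ∩ Y) ∪ (S ∩ WL)).image f).card = ((S ∩ Y) ∪ (S ∩ WL)).card := by
    apply card_image_of_injOn
    intro u hu v hv huv
    exact hfi u v (hin u hu).1 (hin v hv).1 huv
  have hsub : ((S ∩ Y) ∪ (S ∩ WL)).image f ⊆ (NS D X U psi S ∩ WL) ∪ (NS D X U psi S ∩ X) := by
    intro h hh
    obtain ⟨v, hv, rfl⟩ := mem_image.mp hh
    obtain ⟨hv1, hvS⟩ := hin v hv
    obtain ⟨hfv, hadj⟩ := hf v hv1
    rcases hfv with h1 | h1
    · refine mem_union_left _ (mem_inter.mpr ⟨mem_NS.mpr ⟨Or.inl (hWU h1), v, hvS, hadj, ?_⟩, h1⟩)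
      intro hvU _
      rcases hv1 with h2 | h2
      · exact (hYU' v h2 hvU).elim
      · exact hfd v h2 h1
    · refine mem_union_right _ (mem_inter.mpr ⟨mem_NS.mpr ⟨Or.inr h1, v, hvS, hadj, ?_⟩, h1⟩)
      intro _ h3
      exact (hXU' _ h1 h3).elim
  have h1 := card_le_card hsub
  have h2 : ((NS D X U psi S ∩ WL) ∪ (NS D X U psi S ∩ X)).card ≤
      (NS D X U psi S ∩ WL).card + (NS D X U psi S ∩ X).card := card_union_le _ _
  have h3 : NS D X U psi S ∩ WL ⊆ (S ∩ WL) ∪ (BS D X U psi S ∩ WL) := by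
    intro v hv
    obtain ⟨ha, hb⟩ := mem_inter.mp hv
    by_cases hS : v ∈ S
    · exact mem_union_left _ (mem_inter.mpr ⟨hS, hb⟩)
    · exact mem_union_right _ (mem_inter.mpr ⟨mem_BS.mpr ⟨⟨ha, hWU hb⟩, hS⟩, hb⟩)
  have h4 := (card_le_card h3).trans (card_union_le _ _)
  omega

end JON
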