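import Pool.Agent.Work.MP_a7fe73_nl.Interface

set_option autoImplicit false
set_option linter.unusedSectionVars false

namespace JON
open scoped Classical
open Finset

noncomputable section

/-- starts are at most as many as ends -/
theorem HSC_tel (L : ℕ) (T : Finset ℕ) (hT : L ∉ T) :
    ((range L).filter (fun i => i ∉ T ∧ i + 1 ∈ T)).card ≤
      ((range L).filter (fun i => i ∈ T ∧ i + 1 ∉ T)).card := by
  have h := Finset.sum_range_sub (fun i => if i ∈ T then (1 : ℤ) else 0) L
  have h2 : ∑ i ∈ range L, ((if i + 1 ∈ T then (1 : ℤ) else 0) - (if i ∈ T then (1 : ℤ) else 0)) =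
      ∑ i ∈ range L, ((if (i ∉ T ∧ i + 1 ∈ T) then (1 : ℤ) else 0) -
        (if (i ∈ T ∧ i + 1 ∉ T) then (1 : ℤ) else 0)) := by
    apply Finset.sum_congr rfl
    intro i _
    by_cases h1 : i ∈ T <;> by_cases h2 : i + 1 ∈ T <;> simp [h1, h2]
  rw [h2, Finset.sum_sub_distrib, Finset.sum_boole, Finset.sum_boole, if_neg hT] at h
  have h3 : (0 : ℤ) ≤ if 0 ∈ T then 1 else 0 := by split_ifs <;> norm_num
  have h4 : (((range L).filter (fun i => i ∉ T ∧ i + 1 ∈ T)).card : ℤ) ≤
      (((range L).filter (fun i => i ∈ T ∧ i + 1 ∉ T)).card : ℤ) := by linarith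
  exact_mod_cast h4

theorem p_HSC : Stmt_HSC := by
  intro V D X U psi c L S hsp
  have hL : L ∉ tc c L S := by
    rw [mem_tc]
    intro h
    omega
  have h1 := HSC_tel L (tc c L S) hL
  have h2 : (bd L (tc c L S)).card ≤
      ((range L).filter (fun i => i ∉ tc c L S ∧ i + 1 ∈ tc c L S)).card +
      ((range L).filter (fun i => i ∈ tc c L S ∧ i + 1 ∉ tc c L S)).card := by
    refine le_trans (Finset.card_le_card ?_) (Finset.card_union_le _ _)
    intro i hi
    rw [mem_bd] at hi
    rw [mem_union, mem_filter, mem_filter, mem_range]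
    obtain ⟨hi1, hi2⟩ := hi
    by_cases h3 : i ∈ tc c L S
    · right
      exact ⟨hi1, h3, fun h => hi2 ⟨fun _ => h, fun _ => h3⟩⟩
    · left
      refine ⟨hi1, h3, ?_⟩
      by_contra h
      exact hi2 ⟨fun h' => absurd h' h3, fun h' => absurd h' h⟩
  have h3 : (((range L).filter (fun i => i ∈ tc c L S ∧ i + 1 ∉ tc c L S)).filter
      (fun i => i + 1 < L)).card ≤ (onc c L (BS D X U psi S)).card := by
    apply Finset.card_le_card_of_injOn (fun i => c (i + 1))
    · intro i hi
      rw [Finset.mem_coe, mem_filter, mem_filter, mem_range] at hi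
      obtain ⟨⟨hi1, hi2, hi3⟩, hi4⟩ := hi
      rw [Finset.mem_coe, mem_onc, mem_BS, mem_NS]
      rw [mem_tc] at hi2 hi3
      have hU := hsp.mem (i + 1) hi4
      obtain ⟨ha, hp⟩ := hsp.arc i hi4
      exact ⟨⟨⟨⟨Or.inl hU, c i, hi2.2, ha, fun _ _ => hp⟩, hU⟩, fun h => hi3 ⟨hi4, h⟩⟩, i + 1, hi4, rfl⟩
    · intro i hi j hj hij
      rw [Finset.mem_coe, mem_filter] at hi hj
      have := hsp.inj (i + 1) hi.2 (j + 1) hj.2 hij
      omega
  have h4 : ((range L).filter (fun i => i ∈ tc c L S ∧ i + 1 ∉ tc c L S)).card ≤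
      (((range L).filter (fun i => i ∈ tc c L S ∧ i + 1 ∉ tc c L S)).filter
      (fun i => i + 1 < L)).card + 1 := by
    refine le_trans (Finset.card_le_card (t := insert (L - 1)
      (((range L).filter (fun i => i ∈ tc c L S ∧ i + 1 ∉ tc c L S)).filter
      (fun i => i + 1 < L))) ?_) (Finset.card_insert_le _ _)
    intro i hi
    rw [mem_insert, mem_filter]
    by_cases h5 : i + 1 < L
    · exact Or.inr ⟨hi, h5⟩
    · left
      rw [mem_filter, mem_range] at hi
      omega
  omega

end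

end JON
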