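import Pool.Agent.Work.MP_a7fe73_nl.Interface

set_option autoImplicit false
set_option linter.unusedSectionVars false

namespace JON
open scoped Classical
open Finset

theorem p_HSD (hABL : Stmt_ABL) : Stmt_HSD := by
  intro V D X Y U psi c L pos S hXY hXU hYU hsp hpos hinj hbal
  have hT : tc c L S ⊆ range L := by
    intro i hi
    rw [mem_tc] at hi
    exact mem_range.2 hi.1
  have habl := hABL V X Y pos L (tc c L S) hT hbal
  -- X
  have h1 : (X.filter (fun w => pos w ∈ tc c L S)).card +
      (X.filter (fun w => pos w ∉ tc c L S ∧ ∃ r ∈ RS D X U psi S, Dg D w r)).card ≤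
      (NS D X U psi S ∩ X).card := by
    rw [← card_union_of_disjoint]
    · refine card_le_card ?_
      intro x hx
      rw [mem_union, mem_filter, mem_filter] at hx
      rw [mem_inter, mem_NS]
      rcases hx with ⟨hxX, hxT⟩ | ⟨hxX, hxT, r, hr, hd⟩
      · have hxU : x ∉ U := fun h => (Finset.disjoint_left.1 hXU hxX h)
        rw [mem_tc] at hxT
        refine ⟨⟨Or.inr hxX, c (pos x), hxT.2, (hpos x (mem_union_left _ hxX)).2.2.2, ?_⟩, hxX⟩
        intro _ h
        exact absurd h hxU
      · have hxU : x ∉ U := fun h => (Finset.disjoint_left.1 hXU hxX h)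
        rw [mem_RS] at hr
        refine ⟨⟨Or.inr hxX, r, hr.1.1, hd.2.2, ?_⟩, hxX⟩
        intro _ h
        exact absurd h hxU
    · rw [Finset.disjoint_left]
      intro x hx hx'
      rw [mem_filter] at hx hx'
      exact hx'.2.1 hx.2
  -- mismatches
  have h2 : (mis D X Y (RS D X U psi S) pos (tc c L S)).card ≤
      (X.filter (fun w => pos w ∉ tc c L S ∧ ∃ r ∈ RS D X U psi S, Dg D w r)).card +
      (Y.filter (fun w => pos w ∈ tc c L S ∧ ∃ r ∈ RS D X U psi S, Dg D w r)).card := by
    refine le_trans (card_le_card ?_) (card_union_le _ _)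
    intro w hw
    rw [mem_mis] at hw
    rw [mem_union, mem_filter, mem_filter]
    obtain ⟨hr, h | h⟩ := hw
    · exact Or.inl ⟨h.1, h.2, hr⟩
    · exact Or.inr ⟨h.1, h.2, hr⟩
  -- tails on Y outside T
  have h3 : ((S ∩ Y).filter (fun w => pos w ∉ tc c L S)).card ≤ (onc c L (BS D X U psi S)).card := by
    refine card_le_card_of_injOn (fun w => c (pos w)) ?_ ?_
    · intro y hy
      have hy' := mem_filter.1 (Finset.mem_coe.1 hy)
      obtain ⟨hy1, hy2⟩ := hy'
      rw [mem_inter] at hy1
      have hp := hpos y (mem_union_right _ hy1.2)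
      have hyU : y ∉ U := fun h => (Finset.disjoint_left.1 hYU hy1.2 h)
      refine Finset.mem_coe.2 ?_
      rw [mem_onc, mem_BS, mem_NS]
      refine ⟨⟨⟨⟨Or.inl (hsp.mem _ hp.1), y, hy1.1, hp.2.2.1, fun h => absurd h hyU⟩, hsp.mem _ hp.1⟩,
        ?_⟩, pos y, hp.1, rfl⟩
      intro h
      exact hy2 (mem_tc.2 ⟨hp.1, h⟩)
    · intro y hy y' hy' hc
      have hy1 := mem_filter.1 (Finset.mem_coe.1 hy)
      have hy1' := mem_filter.1 (Finset.mem_coe.1 hy')
      have hyY := (mem_inter.1 hy1.1).2
      have hyY' := (mem_inter.1 hy1'.1).2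
      have hp := hpos y (mem_union_right _ hyY)
      have hp' := hpos y' (mem_union_right _ hyY')
      exact hinj y (mem_union_right _ hyY) y' (mem_union_right _ hyY')
        (hsp.inj _ hp.1 _ hp'.1 hc)
  -- tails on Y inside T
  have h4 : ((S ∩ Y).filter (fun w => pos w ∈ tc c L S)).card +
      (Y.filter (fun w => pos w ∈ tc c L S ∧ ∃ r ∈ RS D X U psi S, Dg D w r)).card ≤
      (Y.filter (fun w => pos w ∈ tc c L S)).card := by
    rw [← card_union_of_disjoint]
    · refine card_le_card ?_
      intro y hy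
      rw [mem_union, mem_filter, mem_filter, mem_inter] at hy
      rw [mem_filter]
      rcases hy with h | h
      · exact ⟨h.1.2, h.2⟩
      · exact ⟨h.1, h.2.1⟩
    · rw [Finset.disjoint_left]
      intro y hy hy'
      rw [mem_filter, mem_inter] at hy
      rw [mem_filter] at hy'
      obtain ⟨hyY, _, r, hr, hd⟩ := hy'
      have hyU : y ∉ U := fun h => (Finset.disjoint_left.1 hYU hyY h)
      rw [mem_RS] at hr
      apply hr.2
      rw [mem_NS]
      exact ⟨Or.inl hr.1.2, y, hy.1.1, hd.2.1, fun h => absurd h hyU⟩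
  have h5 := card_filter_add_card_filter_not (s := S ∩ Y) (fun w => pos w ∈ tc c L S)
  omega

end JON

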