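import Pool.Agent.Work.MP_a7fe73_nl.Interface
set_option autoImplicit false

/-! Block HUB: hubs exist. -/

namespace JON
open scoped Classical
open Finset

namespace HUB

theorem inj4 {V : Type} {p q r s : V} (h1 : p ≠ q) (h2 : p ≠ r) (h3 : p ≠ s) (h4 : q ≠ r)
    (h5 : q ≠ s) (h6 : r ≠ s) : ∀ c d : Fin 4,
    (![p, q, r, s] : Fin 4 → V) c = (![p, q, r, s] : Fin 4 → V) d → c = d := by
  intro c d
  fin_cases c <;> fin_cases d <;> simp [h1, h2, h3, h4, h5, h6, h1.symm, h2.symm, h3.symm,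
    h4.symm, h5.symm, h6.symm]

theorem all4 {V : Type} {p q r s : V} {P : V → Prop} (h1 : P p) (h2 : P q) (h3 : P r) (h4 : P s) :
    ∀ c : Fin 4, P ((![p, q, r, s] : Fin 4 → V) c) := by
  intro c
  fin_cases c
  · exact h1
  · exact h2
  · exact h3
  · exact h4

theorem gad (hDEG : Stmt_DEG) (hCHE : Stmt_CHE) {V : Type} [Fintype V] {D : Digraph V} {a k : ℕ}
    (hK : KS D k) (hA : Alp D a) (p : V) (used : Finset V) (h : used.card + 2 * a < k) :
    ∃ q r s : V, (q ∉ used ∧ q ≠ p) ∧ (r ∉ used ∧ r ≠ p) ∧ (s ∉ used ∧ s ≠ p) ∧ q ≠ r ∧ q ≠ s ∧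
      r ≠ s ∧ D.Adj p r ∧ D.Adj p s ∧ D.Adj q r ∧ D.Adj q s := by
  have h1 := hDEG V D k hK p
  have h2 : (outN D p).card - used.card ≤ (outN D p \ used).card := Finset.le_card_sdiff _ _
  obtain ⟨q, hq, r, hr, s, hs, hrs, hqr, hqs⟩ := hCHE V D a (outN D p \ used)
    (fun S _ hS => hA S hS) (by omega)
  rw [mem_sdiff, mem_outN] at hq hr hs
  exact ⟨q, r, s, ⟨hq.2, hq.1.1⟩, ⟨hr.2, hr.1.1⟩, ⟨hs.2, hs.1.1⟩, hqr.1, hqs.1, hrs, hr.1.2,
    hs.1.2, hqr.2.1, hqs.2.1⟩

theorem hubV_card {V : Type} (m : ℕ) (g : ℕ → Fin 4 → V) : (hubV m g).card ≤ m * 4 := by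
  unfold hubV
  have h := Finset.card_biUnion_le_card_mul (range m) (fun i => univ.image (g i)) 4
    (fun i _ => le_trans Finset.card_image_le (by simp))
  rwa [card_range] at h

end HUB

theorem p_HUB (hDEG : Stmt_DEG) (hCHE : Stmt_CHE) : Stmt_HUB := by
  intro V _ D a k m F hK hA hm hk
  have key : ∀ j : ℕ, j + 1 ≤ m → ∃ g : ℕ → Fin 4 → V, Hub D (j + 1) g ∧
      Disjoint (hubV (j + 1) g) F := by
    intro j
    induction j with
    | zero =>
      intro _
      obtain ⟨p, hp⟩ : ∃ p, p ∉ F := by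
        by_contra hcon
        push Not at hcon
        have h1 : F = univ := Finset.eq_univ_iff_forall.2 hcon
        have h2 := hK.1
        rw [← Finset.card_univ, ← h1] at h2
        omega
      obtain ⟨q, r, s, hq, hr, hs, hqr, hqs, hrs, a1, a2, a3, a4⟩ :=
        HUB.gad hDEG hCHE hK hA p F (by omega)
      refine ⟨fun _ => ![p, q, r, s], ⟨?_, ?_, ?_⟩, ?_⟩
      · intro i hi i' hi' c d h
        exact ⟨by omega, HUB.inj4 hq.2.symm hr.2.symm hs.2.symm hqr hqs hrs c d h⟩
      · intro i _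
        exact ⟨a1, a2, a3, a4⟩
      · intro i hi
        omega
      · rw [Finset.disjoint_left]
        intro v hv
        rw [mem_hubV] at hv
        obtain ⟨i, _, c, rfl⟩ := hv
        exact HUB.all4 (P := fun v => v ∉ F) hp hq.1 hr.1 hs.1 c
    | succ j ih =>
      intro hj
      obtain ⟨g, hg, hgF⟩ := ih (by omega)
      have hcard : (F ∪ hubV (j + 1) g).card ≤ F.card + (j + 1) * 4 :=
        le_trans (Finset.card_union_le _ _) (Nat.add_le_add_left (HUB.hubV_card _ _) _)
      obtain ⟨p, hp⟩ : ∃ p, p ∈ outN D (g j 2) \ (F ∪ hubV (j + 1) g) := by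
        rw [← Finset.Nonempty]
        have h1 := hDEG V D k hK (g j 2)
        have h2 := Finset.le_card_sdiff (F ∪ hubV (j + 1) g) (outN D (g j 2))
        rw [← Finset.card_pos]
        omega
      rw [mem_sdiff, mem_outN] at hp
      obtain ⟨q, r, s, hq, hr, hs, hqr, hqs, hrs, a1, a2, a3, a4⟩ :=
        HUB.gad hDEG hCHE hK hA p (F ∪ hubV (j + 1) g) (by omega)
      have hnew : ∀ c : Fin 4, (![p, q, r, s] : Fin 4 → V) c ∉ F ∪ hubV (j + 1) g :=
        HUB.all4 (P := fun v => v ∉ F ∪ hubV (j + 1) g) hp.2 hq.1 hr.1 hs.1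
      have hold : ∀ i, i < j + 1 → ∀ c, g i c ∈ F ∪ hubV (j + 1) g := fun i hi c =>
        mem_union_right _ (mem_hubV.2 ⟨i, hi, c, rfl⟩)
      refine ⟨fun i => if i = j + 1 then ![p, q, r, s] else g i, ⟨?_, ?_, ?_⟩, ?_⟩
      · intro i hi i' hi' c d h
        by_cases h1 : i = j + 1
        · by_cases h2 : i' = j + 1
          · rw [if_pos h1, if_pos h2] at h
            exact ⟨by omega, HUB.inj4 hq.2.symm hr.2.symm hs.2.symm hqr hqs hrs c d h⟩
          · rw [if_pos h1, if_neg h2] at h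
            exact absurd (hold i' (by omega) d) (h ▸ hnew c)
        · by_cases h2 : i' = j + 1
          · rw [if_neg h1, if_pos h2] at h
            exact absurd (hold i (by omega) c) (h ▸ hnew d)
          · rw [if_neg h1, if_neg h2] at h
            exact hg.inj i (by omega) i' (by omega) c d h
      · intro i hi
        by_cases h1 : i = j + 1
        · rw [if_pos h1]
          exact ⟨a1, a2, a3, a4⟩
        · rw [if_neg h1]
          exact hg.arcs i (by omega)
      · intro i hi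
        by_cases h1 : i = j
        · rw [if_neg (by omega), if_pos (by omega), h1]
          exact hp.1.2
        · rw [if_neg (by omega), if_neg (by omega)]
          exact hg.link i (by omega)
      · rw [Finset.disjoint_left]
        intro v hv
        rw [mem_hubV] at hv
        obtain ⟨i, hi, c, hc⟩ := hv
        by_cases h1 : i = j + 1
        · rw [if_pos h1] at hc
          intro hvF
          exact hnew c (hc ▸ mem_union_left _ hvF)
        · rw [if_neg h1] at hc
          exact Finset.disjoint_left.1 hgF (mem_hubV.2 ⟨i, by omega, c, hc⟩)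
  obtain ⟨g, h1, h2⟩ := key (m - 1) (by omega)
  have h3 : m - 1 + 1 = m := by omega
  rw [h3] at h1 h2
  exact ⟨g, h1, h2⟩

end JON
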