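import Pool.Agent.Work.MP_a7fe73_nl.Interface

/-! # Block LINKC (helper55): removing the closed circuits -/

set_option autoImplicit false

open scoped Classical

namespace JON

open Finset

namespace LINKC

variable {V : Type}

/-- `v` is reached from `A` through `W` -/
def Rch (A W : Finset V) (h : V → V) (v : V) : Prop :=
  ∃ a ∈ A, ∃ j : ℕ, (∀ i, 1 ≤ i → i ≤ j → h^[i] a ∈ W) ∧ h^[j] a = v

theorem rch_iff {A W : Finset V} {h : V → V} {v : V} :
    Rch A W h v ↔ v ∈ A ∨ v ∈ W.filter (fun w => Rch A W h w) := by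
  constructor
  · intro hv
    obtain ⟨a, ha, j, hg, hj⟩ := hv
    rcases Nat.eq_zero_or_pos j with h0 | h0
    · subst h0
      left
      rw [← hj]
      exact ha
    · right
      rw [mem_filter]
      refine ⟨?_, a, ha, j, hg, hj⟩
      rw [← hj]
      exact hg j h0 le_rfl
  · rintro (hv | hv)
    · exact ⟨v, hv, 0, fun i h1 h2 => absurd (h1.trans h2) (by omega), rfl⟩
    · rw [mem_filter] at hv
      exact hv.2

theorem rch_mem {A W : Finset V} {h : V → V} {v : V} (hv : Rch A W h v) : v ∈ A ∨ v ∈ W := by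
  rcases rch_iff.1 hv with h1 | h1
  · exact Or.inl h1
  · exact Or.inr (mem_filter.1 h1).1

end LINKC

open LINKC in
theorem p_LINKC : Stmt_LINKC := by
  intro V D A B W h hAB hAW hBW hmap hinj
  have hd1 : ∀ v, v ∈ A → v ∈ B → False := fun v h1 h2 => Finset.disjoint_left.1 hAB h1 h2
  have hd2 : ∀ v, v ∈ A → v ∈ W → False := fun v h1 h2 => Finset.disjoint_left.1 hAW h1 h2
  have hd3 : ∀ v, v ∈ B → v ∈ W → False := fun v h1 h2 => Finset.disjoint_left.1 hBW h1 h2
  -- one more step
  have hstep : ∀ a ∈ A, ∀ j : ℕ, (∀ i, 1 ≤ i → i ≤ j → h^[i] a ∈ W) → h^[j + 1] a ∈ W →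
      ∀ i, 1 ≤ i → i ≤ j + 1 → h^[i] a ∈ W := by
    intro a _ j hg h1 i h2 h3
    rcases Nat.lt_or_ge j i with h4 | h4
    · have : i = j + 1 := by omega
      rw [this]; exact h1
    · exact hg i h2 h4
  have hmaps : ∀ v, Rch A W h v → Rch A W h (h v) ∨ h v ∈ B := by
    intro v hv
    rcases (hmap v (rch_mem hv)).1 with h1 | h1
    · left
      obtain ⟨a, ha, j, hg, hj⟩ := hv
      have h2 : h^[j + 1] a = h v := by rw [Function.iterate_succ_apply', hj]
      exact ⟨a, ha, j + 1, hstep a ha j hg (by rw [h2]; exact h1), h2⟩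
    · exact Or.inr h1
  have hfix : ∀ v, Rch A W h v → h v ≠ v := by
    intro v hv hfx
    have key : ∀ (j : ℕ) (a : V), a ∈ A → (∀ i, 1 ≤ i → i ≤ j → h^[i] a ∈ W) → h^[j] a = v →
        a = v := by
      intro j
      induction j with
      | zero => intro a _ _ h1; exact h1
      | succ j ih =>
        intro a ha hg h1
        have hg' : ∀ i, 1 ≤ i → i ≤ j → h^[i] a ∈ W := fun i h2 h3 => hg i h2 (by omega)
        refine ih a ha hg' ?_
        rw [Function.iterate_succ_apply'] at h1
        refine hinj _ _ (rch_mem ⟨a, ha, j, hg', rfl⟩) (rch_mem hv) ?_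
        rw [h1, hfx]
    have hvA : v ∈ A := by
      obtain ⟨a, ha, j, hg, hj⟩ := hv
      rw [← key j a ha hg hj]
      exact ha
    rcases (hmap v (Or.inl hvA)).1 with h1 | h1
    · rw [hfx] at h1; exact hd2 v hvA h1
    · rw [hfx] at h1; exact hd1 v hvA h1
  -- the iterates reach B
  have hreach : ∀ v, Rch A W h v → ∃ n, h^[n] v ∈ B := by
    intro v hv
    by_contra hcon
    push Not at hcon
    obtain ⟨a, ha, j, hg, hj⟩ := hv
    have hall : ∀ k : ℕ, ∀ i, 1 ≤ i → i ≤ j + k → h^[i] a ∈ W := by
      intro k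
      induction k with
      | zero => exact hg
      | succ k ih =>
        refine hstep a ha (j + k) ih ?_
        rw [Function.iterate_succ_apply']
        rcases (hmap _ (rch_mem ⟨a, ha, j + k, ih, rfl⟩)).1 with h1 | h1
        · exact h1
        · exfalso
          apply hcon (k + 1)
          rw [← hj, ← Function.iterate_add_apply]
          have e : k + 1 + j = j + k + 1 := by ring
          rw [e, Function.iterate_succ_apply']
          exact h1
    have hallW : ∀ i, 1 ≤ i → h^[i] a ∈ W := fun i hi => hall i i hi (by omega)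
    have hallR : ∀ i, h^[i] a ∈ A ∨ h^[i] a ∈ W := by
      intro i
      rcases Nat.eq_zero_or_pos i with h0 | h0
      · subst h0; exact Or.inl ha
      · exact Or.inr (hallW i h0)
    have hcan : ∀ i d : ℕ, h^[i] a = h^[i + d] a → a = h^[d] a := by
      intro i
      induction i with
      | zero =>
        intro d h1
        rw [zero_add] at h1
        exact h1
      | succ i ih =>
        intro d h1
        refine ih d ?_
        have e : i + 1 + d = (i + d) + 1 := by ring
        rw [e, Function.iterate_succ_apply', Function.iterate_succ_apply'] at h1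
        exact hinj _ _ (hallR i) (hallR (i + d)) h1
    have hnotinj : ¬ Function.Injective (fun i : ℕ => (⟨h^[i + 1] a, hallW _ (by omega)⟩ : W)) :=
      not_injective_infinite_finite _
    rw [Function.not_injective_iff] at hnotinj
    obtain ⟨i, i', h1, h2⟩ := hnotinj
    have h3 : h^[i + 1] a = h^[i' + 1] a := congrArg Subtype.val h1
    have hfin : ∀ p q : ℕ, p < q → h^[p + 1] a = h^[q + 1] a → False := by
      intro p q hpq h4
      have e : q + 1 = p + 1 + (q - p) := by omega
      rw [e] at h4
      have h5 := hcan (p + 1) (q - p) h4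
      have h6 := hallW (q - p) (by omega)
      rw [← h5] at h6
      exact hd2 a ha h6
    rcases Nat.lt_or_ge i i' with h4 | h4
    · exact hfin i i' h4 h3
    · exact hfin i' i (lt_of_le_of_ne h4 (Ne.symm h2)) h3.symm
  refine ⟨W.filter (fun w => Rch A W h w), Finset.filter_subset _ _,
    fun v => if hv : ∃ n, h^[n] v ∈ B then Nat.find hv else 0, ?_⟩
  constructor
  · intro v hv
    rcases hmaps v (rch_iff.2 hv) with h1 | h1
    · rcases rch_iff.1 h1 with h2 | h2
      · rcases (hmap v (rch_mem (rch_iff.2 hv))).1 with h3 | h3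
        · exact absurd h3 (fun h3 => hd2 _ h2 h3)
        · exact Or.inr h3
      · exact Or.inl h2
    · exact Or.inr h1
  · intro u v hu hv huv
    exact hinj u v (rch_mem (rch_iff.2 hu)) (rch_mem (rch_iff.2 hv)) huv
  · intro v hv
    rcases (hmap v (rch_mem (rch_iff.2 hv))).2 with h1 | h1
    · exact absurd h1 (hfix v (rch_iff.2 hv))
    · exact h1
  · intro v hv
    have hr := rch_iff.2 hv
    have hex := hreach v hr
    have hnB : v ∉ B := by
      rcases rch_mem hr with h1 | h1
      · exact fun h2 => hd1 v h1 h2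
      · exact fun h2 => hd3 v h2 h1
    show (if hv : ∃ n, h^[n] (h v) ∈ B then Nat.find hv else 0) <
      (if hv : ∃ n, h^[n] v ∈ B then Nat.find hv else 0)
    rw [dif_pos hex]
    have hspec := Nat.find_spec hex
    have hpos : Nat.find hex ≠ 0 := by
      intro h0
      rw [h0] at hspec
      exact hnB hspec
    obtain ⟨m, hm⟩ := Nat.exists_eq_succ_of_ne_zero hpos
    rw [hm, Nat.succ_eq_add_one, Function.iterate_succ_apply] at hspec
    rw [dif_pos ⟨m, hspec⟩, hm]
    exact Nat.lt_succ_of_le (Nat.find_min' _ hspec)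

end JON
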