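import Pool.Agent.Work.MP_a7fe73_nl.Interface

set_option autoImplicit false

/-! Block LINKH: the matching behind the theorem of Menger -/

namespace JON
open scoped Classical
open Finset

/-- the condition of Hall -/
theorem LINKH_hall {V : Type} (D : Digraph V) (A B W : Finset V) (hAB : Disjoint A B)
    (hBW : Disjoint B W)
    (H : ∀ C : Finset V, C.card < A.card → ∃ u ∈ A, ∃ v ∈ B, u ∉ C ∧ v ∉ C ∧
      Thru D (fun z => z ∈ W ∧ z ∉ C) u v) (S : Finset V) (hS : S ⊆ A ∪ W) :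
    S.card ≤ (img (fun t h => t = h ∨ D.Adj t h) (W ∪ B) S).card := by
  by_contra hlt
  rw [not_le] at hlt
  set Nn : Finset V := img (fun t h => t = h ∨ D.Adj t h) (W ∪ B) S with hNn
  have hmem : ∀ h, h ∈ Nn ↔ (h ∈ W ∨ h ∈ B) ∧ ∃ s ∈ S, s = h ∨ D.Adj s h := by
    intro h
    rw [hNn, mem_img, mem_union]
  -- the set which should separate
  have h1 : (Nn \ S).card + (Nn ∩ S).card = Nn.card := card_sdiff_add_card_inter Nn S
  have h2 : (S ∩ W).card ≤ (Nn ∩ S).card := by
    apply card_le_card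
    intro s hs
    rw [mem_inter] at hs
    rw [mem_inter]
    exact ⟨(hmem s).2 ⟨Or.inl hs.2, s, hs.1, Or.inl rfl⟩, hs.1⟩
  have h3 : S.card ≤ (A ∩ S).card + (S ∩ W).card := by
    have hsub : S ⊆ (A ∩ S) ∪ (S ∩ W) := by
      intro s hs
      rcases mem_union.1 (hS hs) with h | h
      · exact mem_union_left _ (mem_inter.2 ⟨h, hs⟩)
      · exact mem_union_right _ (mem_inter.2 ⟨hs, h⟩)
    exact (card_le_card hsub).trans (card_union_le _ _)
  have h4 : (A \ S).card + (A ∩ S).card = A.card := card_sdiff_add_card_inter A S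
  have h5 : ((Nn \ S) ∪ (A \ S)).card ≤ (Nn \ S).card + (A \ S).card := card_union_le _ _
  obtain ⟨u, hu, v, hv, huC, hvC, x, hux, hxv⟩ := H ((Nn \ S) ∪ (A \ S)) (by omega)
  have huS : u ∈ S := by
    by_contra h
    exact huC (mem_union_right _ (mem_sdiff.2 ⟨hu, h⟩))
  have hxS : x ∈ S := by
    clear hxv
    induction hux with
    | refl => exact huS
    | tail _ hab ih =>
      by_contra h
      exact hab.2.2 (mem_union_left _ (mem_sdiff.2
        ⟨(hmem _).2 ⟨Or.inl hab.2.1, _, ih, Or.inr hab.1⟩, h⟩))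
  have hvS : v ∉ S := by
    intro h
    rcases mem_union.1 (hS h) with h' | h'
    · exact (disjoint_left.1 hAB) h' hv
    · exact (disjoint_left.1 hBW) hv h'
  exact hvC (mem_union_left _ (mem_sdiff.2 ⟨(hmem v).2 ⟨Or.inr hv, x, hxS, Or.inr hxv⟩, hvS⟩))

/-- Block LINKH. -/
theorem p_LINKH (hHALL : Stmt_HALL) : Stmt_LINKH := by
  intro V D A B W hAB _ hBW H
  obtain ⟨F, hF, hinj⟩ := hHALL V (fun t h => t = h ∨ D.Adj t h) (A ∪ W) (W ∪ B)
    (fun S hS => LINKH_hall D A B W hAB hBW H S hS)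
  refine ⟨F, ?_, ?_⟩
  · intro v hv
    obtain ⟨h1, h2⟩ := hF v (mem_union.2 hv)
    refine ⟨mem_union.1 h1, ?_⟩
    rcases h2 with h | h
    · exact Or.inl h.symm
    · exact Or.inr h
  · intro u v hu hv h
    exact hinj u (mem_union.2 hu) v (mem_union.2 hv) h

end JON
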