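import Pool.Agent.Work.MP_a7fe73_nl.Interface

set_option autoImplicit false

/-! Block LOW of MP_a7fe73_nl: few vertices of low G-degree -/

open scoped Classical

namespace JON
open Finset

theorem p_LOW (hG : Stmt_GRD) : Stmt_LOW := by
  intro V _ D a dl hA hd
  by_contra hcon
  rw [not_lt] at hcon
  obtain ⟨A, hAX, hAc, hAn⟩ := hG V
    ((univ : Finset V).filter (fun v => ((univ : Finset V).filter (fun w => Dg D v w)).card < dl))
    (Dg D) dl (a + 1) (fun x y h => h.symm) hd
    (by
      intro x hx
      refine lt_of_le_of_lt (card_le_card ?_) (mem_filter.mp hx).2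
      intro y hy
      exact mem_filter.mpr ⟨mem_univ _, (mem_filter.mp hy).2.2⟩) hcon
  have hst : Stab D A := by
    intro u hu v hv h
    exact hAn u hu v hv h.1 h
  have := hA A hst
  omega

end JON
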