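import Pool.Agent.Work.MP_a7fe73_nl.Interface

set_option autoImplicit false

namespace JON
open scoped Classical
open Finset

/-- MID: the middle vertices -/
theorem p_MID : Stmt_MID := by
  intro V _ D O A Om hcod
  let t : {p : V × V // p ∈ O ×ˢ A} → Finset V := fun p =>
    univ.filter (fun v => v ∉ Om ∧ Dg D p.1.1 v ∧ Dg D v p.1.2)
  have hbig : ∀ p : {p : V × V // p ∈ O ×ˢ A}, O.card * A.card ≤ (t p).card := by
    intro p
    obtain ⟨ho, hl⟩ := mem_product.mp p.2
    have h1 := hcod _ ho _ hl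
    have h2 : (univ.filter (fun v => Dg D p.1.1 v ∧ Dg D p.1.2 v)) ⊆ Om ∪ t p := by
      intro v hv
      obtain ⟨_, h3, h4⟩ := mem_filter.mp hv
      by_cases hvO : v ∈ Om
      · exact mem_union_left _ hvO
      · exact mem_union_right _ (mem_filter.mpr ⟨mem_univ _, hvO, h3, h4.symm⟩)
    have h3 := (card_le_card h2).trans (card_union_le _ _)
    unfold codeg at h1
    omega
  have hHall : ∀ s : Finset {p : V × V // p ∈ O ×ˢ A}, s.card ≤ (s.biUnion t).card := by
    intro s
    rcases s.eq_empty_or_nonempty with rfl | ⟨p, hp⟩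
    · simp
    · have h1 : s.card ≤ (O ×ˢ A).card := by
        have := card_le_univ s
        rwa [Fintype.card_coe] at this
      rw [card_product] at h1
      exact h1.trans ((hbig p).trans (card_le_card (subset_biUnion_of_mem t hp)))
  obtain ⟨f, hinj, hf⟩ := (Finset.all_card_le_biUnion_card_iff_exists_injective t).mp hHall
  refine ⟨fun o l => if h : (o, l) ∈ O ×ˢ A then f ⟨(o, l), h⟩ else o, ?_, ?_⟩
  · intro o ho l hl
    have h : (o, l) ∈ O ×ˢ A := mem_product.mpr ⟨ho, hl⟩
    simp only [dif_pos h]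
    exact (mem_filter.mp (hf ⟨(o, l), h⟩)).2
  · intro o ho l hl o' ho' l' hl' he
    have h : (o, l) ∈ O ×ˢ A := mem_product.mpr ⟨ho, hl⟩
    have h' : (o', l') ∈ O ×ˢ A := mem_product.mpr ⟨ho', hl'⟩
    simp only [dif_pos h, dif_pos h'] at he
    have h2 := hinj he
    have h3 := congrArg Subtype.val h2
    exact ⟨congrArg Prod.fst h3, congrArg Prod.snd h3⟩

end JON
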