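import Pool.Agent.Work.MP_a7fe73_nl.Interface

set_option autoImplicit false

namespace JON
open scoped Classical
open Finset

noncomputable section

/-- PRE: the sets W and Q -/
theorem p_PRE (h1 : Stmt_LEV) (h2 : Stmt_DUL) : Stmt_PRE := by
  intro V _ D a T ha hT hc
  obtain ⟨Lv, hLc, hLv⟩ := h1 V D a T ha
  obtain ⟨K, hKL, Q', hQL, hQK, hQN, g, hg, hgi⟩ := h2 V D Lv
  have hKc : K.card ≤ Lv.card := card_le_card hKL
  have hLQ : (Lv ∪ Q').card < Fintype.card V := by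
    have := card_union_le Lv Q'
    omega
  obtain ⟨v, hv⟩ : ∃ v, v ∉ Lv ∪ Q' := by
    by_contra hcon
    push Not at hcon
    have : Lv ∪ Q' = univ := eq_univ_iff_forall.2 hcon
    rw [this, card_univ] at hLQ
    exact lt_irrefl _ hLQ
  rw [mem_union, not_or] at hv
  have hv1 : T ≤ (nbr D Lv {v}).card := by
    have h := hLv {v} (disjoint_singleton_left.2 hv.1) (by
      intro x hx y hy hxy
      rw [mem_singleton] at hx hy
      subst hx
      rw [hy] at hxy
      exact hxy.irrefl)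
    simpa using h
  have hsub : nbr D Lv {v} ⊆ Lv \ K := by
    intro w hw
    rw [mem_nbr] at hw
    obtain ⟨hwL, r, hr, hd⟩ := hw
    rw [mem_singleton] at hr
    rw [hr] at hd
    rw [mem_sdiff]
    exact ⟨hwL, fun hwK => hv.2 (hQN _ hv.1 ⟨w, hwK, hd⟩)⟩
  have hs : T ≤ (Lv \ K).card := hv1.trans (card_le_card hsub)
  have hs2 : (Lv \ K).card ≤ Lv.card := card_le_card sdiff_subset
  obtain ⟨N, hN1, hN2, hN3⟩ : ∃ N, 1 ≤ N ∧ 2 * N + 1 ≤ (Lv \ K).card ∧ (Lv \ K).card ≤ 2 * N + 2 := by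
    refine ⟨((Lv \ K).card - 1) / 2, ?_, ?_, ?_⟩ <;> omega
  obtain ⟨W, hWW, hWc⟩ := exists_subset_card_eq (show 2 * N ≤ (Lv \ K).card by omega)
  have hPc : ((Lv \ K) \ W).card = (Lv \ K).card - 2 * N := by
    rw [card_sdiff_of_subset hWW, hWc]
  have hWm : ∀ w ∈ W, w ∈ Lv ∧ w ∉ K := fun w hw => mem_sdiff.1 (hWW hw)
  refine ⟨W, K ∪ (Q' ∪ ((Lv \ K) \ W)), N, g, ?_, hWc, hN1, ?_, ?_, ?_, ?_, ?_, ?_⟩
  · rw [disjoint_left]
    intro w hw hw2
    rw [mem_union, mem_union, mem_sdiff] at hw2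
    rcases hw2 with h | h | h
    · exact (hWm w hw).2 h
    · exact disjoint_left.1 hQL h (hWm w hw).1
    · exact h.2 hw
  · omega
  · have : ((Lv \ K) \ W).card ≤ (K ∪ (Q' ∪ ((Lv \ K) \ W))).card :=
      card_le_card (fun x hx => mem_union_right _ (mem_union_right _ hx))
    omega
  · have e1 := card_union_le K (Q' ∪ ((Lv \ K) \ W))
    have e2 := card_union_le Q' ((Lv \ K) \ W)
    omega
  · intro w hw
    obtain ⟨g1, g2, g3⟩ := hg w (hWm w hw).1 (hWm w hw).2
    refine ⟨fun h => g1 (hWm _ h).1, ?_, g3⟩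
    rw [mem_union, mem_union, mem_sdiff, mem_sdiff]
    rintro (h | h | h)
    · exact g1 (hKL h)
    · exact g2 h
    · exact g1 h.1.1
  · intro w hw w' hw' he
    exact hgi w (hWm w hw).1 w' (hWm w' hw').1 (hWm w hw).2 (hWm w' hw').2 he
  · intro R hR hSt
    rw [disjoint_left] at hR
    have hRL : ∀ r ∈ R, r ∉ Lv := by
      intro r hr hrL
      apply hR hr
      by_cases hrK : r ∈ K
      · exact mem_union_right _ (mem_union_left _ hrK)
      · by_cases hrW : r ∈ W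
        · exact mem_union_left _ hrW
        · exact mem_union_right _ (mem_union_right _ (mem_union_right _
            (mem_sdiff.2 ⟨mem_sdiff.2 ⟨hrL, hrK⟩, hrW⟩)))
    have hRQ : ∀ r ∈ R, r ∉ Q' := fun r hr hrQ =>
      hR hr (mem_union_right _ (mem_union_right _ (mem_union_left _ hrQ)))
    have h := hLv R (disjoint_left.2 hRL) hSt
    have hsub2 : nbr D Lv R ⊆ nbr D W R ∪ ((Lv \ K) \ W) := by
      intro w hw
      rw [mem_nbr] at hw
      obtain ⟨hwL, r, hr, hd⟩ := hw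
      have hwK : w ∉ K := fun hwK => hRQ r hr (hQN r (hRL r hr) ⟨w, hwK, hd⟩)
      by_cases hwW : w ∈ W
      · exact mem_union_left _ (mem_nbr.2 ⟨hwW, r, hr, hd⟩)
      · exact mem_union_right _ (mem_sdiff.2 ⟨mem_sdiff.2 ⟨hwL, hwK⟩, hwW⟩)
    have e1 := card_le_card hsub2
    have e2 := card_union_le (nbr D W R) ((Lv \ K) \ W)
    omega

end

end JON
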