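import Pool.Agent.Work.MP_a7fe73_nl.Interface

set_option autoImplicit false

open scoped Classical

namespace JON

open Finset

theorem p_PSI : Stmt_PSI := by
  intro V _ psi0
  obtain ⟨e, he⟩ : ∃ e : V → ℕ, Function.Injective e ∧ ∀ v, e v < Fintype.card V + 1 := by
    refine ⟨fun v => (Fintype.equivFin V v).val, ?_, ?_⟩
    · intro u v huv
      exact (Fintype.equivFin V).injective (Fin.ext huv)
    · intro v
      exact Nat.lt_succ_of_lt (Fintype.equivFin V v).isLt
  obtain ⟨hinj, hlt⟩ := he
  obtain ⟨n, hn⟩ : ∃ n, Fintype.card V + 1 = n := ⟨_, rfl⟩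
  rw [hn] at hlt
  have hn0 : 0 < n := by omega
  refine ⟨fun v => psi0 v * n + e v, ?_, ?_⟩
  · intro u v huv
    have huv' : psi0 u * n + e u = psi0 v * n + e v := huv
    have h1 : (psi0 u * n + e u) % n = (psi0 v * n + e v) % n := by rw [huv']
    rw [Nat.mul_add_mod_self_right, Nat.mul_add_mod_self_right, Nat.mod_eq_of_lt (hlt u),
      Nat.mod_eq_of_lt (hlt v)] at h1
    exact hinj h1
  · intro u v huv
    have h1 : (psi0 u + 1) * n ≤ psi0 v * n := Nat.mul_le_mul_right n huv
    have h2 := hlt u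
    have h3 : (psi0 u + 1) * n = psi0 u * n + n := by ring
    show psi0 u * n + e u < psi0 v * n + e v
    omega

end JON
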