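import Pool.Agent.Work.MP_a7fe73_nl.Interface

/-! # Block PTC (helper12): a circuit cut open -/

set_option autoImplicit false

open scoped Classical
open Finset

namespace JON

theorem p_PTC : Stmt_PTC := by
  intro V _ D τ S hS h1 h2
  obtain ⟨v₀, hv₀⟩ := hS
  have hcyc : τ.IsCycleOn (S : Set V) := by
    refine ⟨?_, fun x hx y hy => h2 x hx y hy⟩
    have hmaps : Set.MapsTo τ (S : Set V) (S : Set V) := fun x hx => (h1 x hx).1
    have hinj : Set.InjOn τ (S : Set V) := τ.injective.injOn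
    exact ⟨hmaps, hinj, S.surjOn_of_injOn_of_card_le τ hmaps hinj le_rfl⟩
  have hmem : ∀ i : ℕ, (τ ^ i) v₀ ∈ S := by
    intro i
    induction i with
    | zero => simpa using hv₀
    | succ i ih =>
      rw [pow_succ', Equiv.Perm.mul_apply]
      exact (h1 _ ih).1
  refine ⟨fun i => (τ ^ i) v₀, ?_, fun i _ => hmem i, ?_, ?_⟩
  · intro i hi j hj hij
    have h3 := (hcyc.pow_apply_eq_pow_apply hv₀).1 hij
    exact Nat.ModEq.eq_of_lt_of_lt h3 hi hj
  · intro v hv
    exact hcyc.exists_pow_eq hv₀ hv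
  · intro i _
    show D.Adj ((τ ^ i) v₀) ((τ ^ (i + 1)) v₀)
    rw [pow_succ', Equiv.Perm.mul_apply]
    exact (h1 _ (hmem i)).2

end JON
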