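import Pool.Agent.Work.MP_a7fe73_nl.Interface

/-! # MP_a7fe73_co, near linear: block RLK -/

set_option autoImplicit false

namespace JON
open scoped Classical
open Finset

/-- Block RLK. -/
theorem p_RLK (hH : Stmt_LINKH) (hC : Stmt_LINKC) : Stmt_RLK := by
  intro V D Z W A B k hZW hrob hAZ hBZ hAB hcard hk
  have hAW : Disjoint A W := disjoint_of_subset_left hAZ hZW
  have hBW : Disjoint B W := disjoint_of_subset_left hBZ hZW
  obtain ⟨h, h1, h2⟩ := hH V D A B W hAB hAW hBW (by
    intro C hC'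
    obtain ⟨u, hu, huC⟩ := exists_mem_notMem_of_card_lt_card hC'
    obtain ⟨v, hv, hvC⟩ := exists_mem_notMem_of_card_lt_card (hcard ▸ hC' : C.card < B.card)
    have hne : u ≠ v := by
      rintro rfl
      exact disjoint_left.1 hAB hu hv
    exact ⟨u, hu, v, hv, huC, hvC,
      hrob u (hAZ hu) v (hBZ hv) hne C (lt_of_lt_of_le hC' hk) huC hvC⟩)
  obtain ⟨W', hW', psi, hL⟩ := hC V D A B W h hAB hAW hBW h1 h2
  exact ⟨W', hW', h, psi, hL⟩

end JON
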