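import Pool.Agent.Work.MP_a7fe73_nl.Interface

set_option autoImplicit false

open scoped Classical

namespace JON

open Finset

theorem ROBS.lift {V : Type} [Fintype V] (D : Digraph V) (C : Finset V) (u x : V)
    (h : Relation.ReflTransGen (fun a b => a ∉ C ∧ b ∉ C ∧ D.Adj a b) u x) :
    Relation.ReflTransGen (fun a b => D.Adj a b ∧ (b ∈ (univ : Finset V) ∧ b ∉ C)) u x := by
  induction h with
  | refl => exact Relation.ReflTransGen.refl
  | tail _ hab ih => exact ih.tail ⟨hab.2.2, Finset.mem_univ _, hab.2.1⟩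

theorem p_ROBS : Stmt_ROBS := by
  intro V _ D k Z hK u _ v _ huv C hC hu hv
  have h := hK.2 C hC u v hu hv
  rcases Relation.ReflTransGen.cases_tail h with h1 | ⟨x, hx, hxv⟩
  · exact absurd h1.symm huv
  · exact ⟨x, ROBS.lift D C u x hx, hxv.2.2⟩

end JON
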