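import Pool.Agent.Work.MP_a7fe73_nl.Interface2

set_option autoImplicit false
set_option linter.unusedSectionVars false

namespace JON
open scoped Classical
open Finset

namespace SD2

/-- a stable subset of maximal cardinality dominates -/
theorem dominating {V : Type} (D : Digraph V) (a : ℕ) (hA : Alp D a) (P : Finset V) :
    ∃ I ⊆ P, I.card ≤ a ∧ ∀ y ∈ P, y ∈ I ∨ ∃ x ∈ I, Dg D x y := by
  have hne : (P.powerset.filter (Stab D)).Nonempty :=
    ⟨∅, mem_filter.2 ⟨empty_mem_powerset P, fun u hu => absurd hu (notMem_empty u)⟩⟩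
  obtain ⟨I, hI, hmax⟩ := exists_max_image (P.powerset.filter (Stab D)) card hne
  rw [mem_filter, mem_powerset] at hI
  refine ⟨I, hI.1, hA I hI.2, fun y hy => ?_⟩
  by_contra hcon
  push Not at hcon
  have h1 : Stab D (insert y I) := by
    intro u hu v hv huv
    rcases mem_insert.1 hu with h | h
    · rcases mem_insert.1 hv with h' | h'
      · rw [h, h'] at huv
        exact huv.irrefl
      · rw [h] at huv
        exact hcon.2 v h' huv.symm
    · rcases mem_insert.1 hv with h' | h'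
      · rw [h'] at huv
        exact hcon.2 u h huv
      · exact hI.2 u h v h' huv
  have h2 := hmax (insert y I) (mem_filter.2 ⟨mem_powerset.2 (insert_subset hy hI.1), h1⟩)
  rw [card_insert_of_notMem hcon.1] at h2
  omega

end SD2

theorem p_SD2 : Stmt_SD2 := by
  intro V D Z Om b a k x K1 con om l hA hZ hcon hK hBad u hu v hv huv C hC huC hvC
  by_contra hnot
  obtain ⟨R, hR⟩ : ∃ R, R = Om \ Z := ⟨_, rfl⟩
  rw [← hR] at hcon hBad hnot
  obtain ⟨Vl, hVl⟩ : ∃ Vl, Vl = lab om R l := ⟨_, rfl⟩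
  rw [← hVl] at hnot
  have hVR : ∀ z, z ∈ Vl ↔ z ∈ R ∧ om z = l := by
    intro z
    rw [hVl, mem_lab]
  have huR : u ∉ R := by
    rw [hR, mem_sdiff]
    exact fun h => h.2 hu
  have hvR : v ∉ R := by
    rw [hR, mem_sdiff]
    exact fun h => h.2 hv
  have hadj : ¬ D.Adj u v := fun h => hnot (Thru.of_adj h)
  set Rch : V → Prop := fun y =>
    Relation.ReflTransGen (fun a b => D.Adj a b ∧ (b ∈ Vl ∧ b ∉ C)) u y with hRch
  obtain ⟨PP, hPP⟩ : ∃ PP, PP = Vl.filter (fun y => y ∉ C ∧ Rch y) := ⟨_, rfl⟩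
  obtain ⟨QQ, hQQ⟩ : ∃ QQ, QQ = Vl.filter (fun y => y ∉ C ∧ ¬ Rch y) := ⟨_, rfl⟩
  have mPP : ∀ y, y ∈ PP ↔ y ∈ Vl ∧ y ∉ C ∧ Rch y := fun y => by rw [hPP, mem_filter]
  have mQQ : ∀ y, y ∈ QQ ↔ y ∈ Vl ∧ y ∉ C ∧ ¬ Rch y := fun y => by rw [hQQ, mem_filter]
  have hreach : ∀ x, x = u ∨ x ∈ PP → Rch x := by
    rintro x (h | h)
    · subst h
      exact Relation.ReflTransGen.refl
    · exact ((mPP x).1 h).2.2
  have F1 : ∀ x y, x = u ∨ x ∈ PP → D.Adj x y → y ∈ Vl → y ∉ C → y ∈ PP := by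
    intro x y hx hxy hy hyC
    exact (mPP y).2 ⟨hy, hyC, (hreach x hx).tail ⟨hxy, hy, hyC⟩⟩
  have F2 : ∀ x, x = u ∨ x ∈ PP → ¬ D.Adj x v := fun x hx hxv => hnot ⟨x, hreach x hx, hxv⟩
  obtain ⟨I, hIP, hIa, hId⟩ := SD2.dominating D a hA PP
  obtain ⟨J, hJQ, hJa, hJd⟩ := SD2.dominating D a hA QQ
  have F4 : ∀ y ∈ PP, y ∈ AP D R I J := by
    intro y hy
    have hyV := ((mPP y).1 hy).1
    have hyR := ((hVR y).1 hyV).1
    rw [mem_AP, mem_NB, mem_NB]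
    refine ⟨⟨hyR, hId y hy⟩, ?_⟩
    rintro ⟨_, h | ⟨z, hz, hzy⟩⟩
    · exact ((mQQ y).1 (hJQ h)).2.2 ((mPP y).1 hy).2.2
    · have h2 := (mQQ z).1 (hJQ hz)
      exact h2.2.2 ((mPP z).1 (F1 y z (Or.inr hy) hzy.2.2 h2.1 h2.2.1)).2.2
  have F5 : ∀ y ∈ QQ, y ∈ AP D R J I := by
    intro y hy
    have hy' := (mQQ y).1 hy
    have hyR := ((hVR y).1 hy'.1).1
    rw [mem_AP, mem_NB, mem_NB]
    refine ⟨⟨hyR, hJd y hy⟩, ?_⟩
    rintro ⟨_, h | ⟨z, hz, hzy⟩⟩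
    · exact hy'.2.2 ((mPP y).1 (hIP h)).2.2
    · exact hy'.2.2 ((mPP y).1 (F1 z y (Or.inr (hIP hz)) hzy.2.1 hy'.1 hy'.2.1)).2.2
  have hcase : ∀ w, w ∈ Vl → w ∉ C → w ∈ PP ∨ w ∈ QQ := by
    intro w hw hwC
    by_cases h : Rch w
    · exact Or.inl ((mPP w).2 ⟨hw, hwC, h⟩)
    · exact Or.inr ((mQQ w).2 ⟨hw, hwC, h⟩)
  have F6 : ((Rst D R I J).filter (fun v => om v = l)).card < k := by
    refine lt_of_le_of_lt (card_le_card ?_) hC
    intro w hw
    rw [mem_filter, mem_Rst] at hw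
    by_contra hwC
    rcases hcase w ((hVR w).2 ⟨hw.1.1, hw.2⟩) hwC with h | h
    · exact hw.1.2.1 (F4 w h)
    · exact hw.1.2.2 (F5 w h)
  have hIR : I ⊆ R := fun z hz => ((hVR z).1 ((mPP z).1 (hIP hz)).1).1
  have hJR : J ⊆ R := fun z hz => ((hVR z).1 ((mQQ z).1 (hJQ hz)).1).1
  have F7 : (Rst D R I J).card < 2 * b * x := by
    by_contra hcon'
    push Not at hcon'
    exact hBad ⟨l, I, hIR, hIa, J, hJR, hJa, Or.inl ⟨hcon', F6⟩⟩
  have spec := hcon u hu v hv huv hadj I J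
  have hbig := spec.big
  have hE : 2 * b ^ 2 * x ≤ (con u v I J).card := by
    have e1 : 4 * b ^ 2 * x = 2 * (2 * b ^ 2 * x) := by ring
    omega
  have hk : k ≤ ((con u v I J).filter (fun p => ∀ z ∈ e2 u v p, om z = l)).card := by
    by_contra hlt
    push Not at hlt
    exact hBad ⟨l, I, hIR, hIa, J, hJR, hJa, Or.inr ⟨u, hu, v, hv, hE, hlt⟩⟩
  have hz : ∀ p ∈ (con u v I J).filter (fun p => ∀ z ∈ e2 u v p, om z = l),
      ∃ z ∈ e2 u v p, z ∈ C := by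
    intro p hp
    rw [mem_filter] at hp
    obtain ⟨c1, c2, c3⟩ := spec.con p hp.1
    by_contra hcon'
    push Not at hcon'
    have hR1 : ∀ z, z ∈ R → z ≠ u ∧ z ≠ v := fun z hz =>
      ⟨fun h => huR (h ▸ hz), fun h => hvR (h ▸ hz)⟩
    have hAPR : ∀ (A B : Finset V) z, z ∈ AP D R A B → z ∈ R := fun A B z hz =>
      (mem_NB.1 (mem_AP.1 hz).1).1
    have hx : p.1 = u ∨ p.1 ∈ PP := by
      rcases c2 with h | h
      · exact Or.inl h
      · have h1 := hAPR _ _ _ h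
        have h2 : p.1 ∈ e2 u v p := mem_e2.2 ⟨Or.inl rfl, hR1 _ h1⟩
        rcases hcase p.1 ((hVR _).2 ⟨h1, hp.2 _ h2⟩) (hcon' _ h2) with h3 | h3
        · exact Or.inr h3
        · exact absurd (mem_AP.1 h).1 (mem_AP.1 (F5 _ h3)).2
    rcases c3 with h | h
    · rw [h] at c1
      exact F2 _ hx c1
    · have h1 := hAPR _ _ _ h
      have h2 : p.2 ∈ e2 u v p := mem_e2.2 ⟨Or.inr rfl, hR1 _ h1⟩
      have h3 := F1 _ _ hx c1 ((hVR _).2 ⟨h1, hp.2 _ h2⟩) (hcon' _ h2)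
      exact (mem_AP.1 (F4 _ h3)).2 (mem_AP.1 h).1
  have hle : ((con u v I J).filter (fun p => ∀ z ∈ e2 u v p, om z = l)).card ≤ C.card := by
    have : Nonempty V := ⟨u⟩
    choose! zf hzf1 hzf2 using hz
    refine card_le_card_of_injOn zf ?_ ?_
    · intro p hp
      exact Finset.mem_coe.2 (hzf2 p (Finset.mem_coe.1 hp))
    · intro p hp p' hp' he
      by_contra hne
      have h1 := Finset.mem_coe.1 hp
      have h1' := Finset.mem_coe.1 hp'
      have hd := spec.dis p (mem_filter.1 h1).1 p' (mem_filter.1 h1').1 hne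
      have h2 := hzf1 p h1
      have h2' := hzf1 p' h1'
      rw [he] at h2
      exact Finset.disjoint_left.1 hd h2 h2'
  omega

end JON
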