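import Pool.Agent.Work.MP_a7fe73_nl.Interface3

set_option autoImplicit false
set_option linter.unusedSectionVars false

namespace JON
open scoped Classical
open Finset

theorem p_SD3 (hGRA : Stmt_GRA) (hGRB : Stmt_GRB) : Stmt_SD3 := by
  intro V D Z Om q a k x K1 con om0 l hA hZ hcon hK hRob
  obtain ⟨R, hR⟩ : ∃ R, R = Om \ Z := ⟨_, rfl⟩
  rw [← hR] at hcon hRob
  obtain ⟨Vl, hVl⟩ : ∃ Vl, Vl = lab om0 R l := ⟨_, rfl⟩
  rw [← hVl] at hRob
  have hVR : ∀ z, z ∈ Vl ↔ z ∈ R ∧ om0 z = l := by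
    intro z
    rw [hVl, mem_lab]
  unfold Rob at hRob
  push Not at hRob
  obtain ⟨u, hu, v, hv, huv, C, hC, huC, hvC, hnot⟩ := hRob
  refine ⟨u, hu, v, hv, ?_⟩
  rw [← hR]
  have huR : u ∉ R := by
    rw [hR, mem_sdiff]
    exact fun h => h.2 hu
  have hvR : v ∉ R := by
    rw [hR, mem_sdiff]
    exact fun h => h.2 hv
  have hadj : ¬ D.Adj u v := fun h => hnot (Thru.of_adj h)
  set Rch : V → Prop := fun y =>
    Relation.ReflTransGen (fun a b => D.Adj a b ∧ (b ∈ Vl ∧ b ∉ C)) u y with hRch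
  obtain ⟨PP, hPP⟩ : ∃ PP, PP = Vl.filter (fun y => y ∉ C ∧ Rch y) := ⟨_, rfl⟩
  obtain ⟨QQ, hQQ⟩ : ∃ QQ, QQ = Vl.filter (fun y => y ∉ C ∧ ¬ Rch y) := ⟨_, rfl⟩
  have mPP : ∀ y, y ∈ PP ↔ y ∈ Vl ∧ y ∉ C ∧ Rch y := fun y => by rw [hPP, mem_filter]
  have mQQ : ∀ y, y ∈ QQ ↔ y ∈ Vl ∧ y ∉ C ∧ ¬ Rch y := fun y => by rw [hQQ, mem_filter]
  have hreach : ∀ x, x = u ∨ x ∈ PP → Rch x := by
    rintro x (h | h)
    · subst h
      exact Relation.ReflTransGen.refl
    · exact ((mPP x).1 h).2.2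
  have F1 : ∀ x y, x = u ∨ x ∈ PP → D.Adj x y → y ∈ Vl → y ∉ C → y ∈ PP := by
    intro x y hx hxy hy hyC
    exact (mPP y).2 ⟨hy, hyC, (hreach x hx).tail ⟨hxy, hy, hyC⟩⟩
  have F2 : ∀ x, x = u ∨ x ∈ PP → ¬ D.Adj x v := fun x hx hxv => hnot ⟨x, hreach x hx, hxv⟩
  have hcase : ∀ w, w ∈ Vl → w ∉ C → w ∈ PP ∨ w ∈ QQ := by
    intro w hw hwC
    by_cases h : Rch w
    · exact Or.inl ((mPP w).2 ⟨hw, hwC, h⟩)
    · exact Or.inr ((mQQ w).2 ⟨hw, hwC, h⟩)
  have hPQ : ∀ w, w ∈ PP → w ∈ QQ → False := fun w h1 h2 => ((mQQ w).1 h2).2.2 ((mPP w).1 h1).2.2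
  -- the fine labelling
  obtain ⟨c0, hc0⟩ : ∃ c0 : V → Fin 3, c0 = fun y => if y ∈ PP then 0 else if y ∈ QQ then 1 else 2 := ⟨_, rfl⟩
  have hc00 : ∀ y, (c0 y).val = 0 ↔ y ∈ PP := by
    intro y
    rw [hc0]
    by_cases h1 : y ∈ PP
    · simp [h1]
    · by_cases h2 : y ∈ QQ
      · simp [h1, h2]
      · simp [h1, h2]
  have hc01 : ∀ y, (c0 y).val = 1 → y ∈ QQ := by
    intro y
    rw [hc0]
    by_cases h1 : y ∈ PP
    · simp [h1]
    · by_cases h2 : y ∈ QQ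
      · simp [h1, h2]
      · simp [h1, h2]
  have hc02 : ∀ y, (c0 y).val = 2 → y ∉ PP ∧ y ∉ QQ := by
    intro y
    rw [hc0]
    by_cases h1 : y ∈ PP
    · simp [h1]
    · by_cases h2 : y ∈ QQ
      · simp [h1, h2]
      · simp [h1, h2]
  have hlt : ∀ y, 3 * (om0 y).val + (c0 y).val < 3 * q := by
    intro y
    have h1 := (om0 y).isLt
    have h2 := (c0 y).isLt
    omega
  obtain ⟨om1, hom1⟩ : ∃ om1 : V → Fin (3 * q), om1 = fun y => ⟨3 * (om0 y).val + (c0 y).val, hlt y⟩ := ⟨_, rfl⟩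
  have hom1v : ∀ y, (om1 y).val = 3 * (om0 y).val + (c0 y).val := fun y => by rw [hom1]
  obtain ⟨st, hst⟩ : ∃ st, st = grun D l.val om1 R.toList := ⟨_, rfl⟩
  have hB := hGRB V D (3 * q) l.val om1 R.toList
  rw [← hst] at hB
  obtain ⟨B1, B2, B3, B4, B5, B6⟩ := hB
  have hER : st.E ⊆ R := fun y hy => mem_toList.1 (B2 y hy)
  have hval : ∀ y, ∀ j < 3, (om1 y).val = 3 * l.val + j → om0 y = l ∧ (c0 y).val = j := by
    intro y j hj h
    rw [hom1v] at h
    have h2 := (c0 y).isLt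
    refine ⟨Fin.ext ?_, ?_⟩ <;> omega
  have hIP : ∀ y ∈ st.I, y ∈ PP := by
    intro y hy
    have h1 := (B3 y).1 hy
    exact (hc00 y).1 (hval y 0 (by omega) (by rw [h1.2]; rfl)).2
  have hJQ : ∀ y ∈ st.J, y ∈ QQ := by
    intro y hy
    have h1 := (B4 y).1 hy
    exact hc01 y (hval y 1 (by omega) h1.2).2
  have hCC : ∀ y ∈ st.C, y ∈ C := by
    intro y hy
    have h1 := (B5 y).1 hy
    have h2 := hval y 2 (by omega) h1.2
    have h3 := hc02 y h2.2
    by_contra h4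
    rcases hcase y ((hVR y).2 ⟨hER h1.1, h2.1⟩) h4 with h | h
    · exact h3.1 h
    · exact h3.2 h
  have hIJa : (st.I ∪ st.J).card ≤ a := hA _ B6
  have hCk : st.C.card ≤ k := le_trans (card_le_card hCC) hC.le
  refine ⟨st.I ∪ st.J ∪ st.C, c0, le_trans (card_union_le _ _) (by omega), ?_⟩
  intro om hq hH
  -- the procedure gives the same result
  have hrun : grun D l.val om R.toList = st := by
    rw [hst]
    apply hGRA V D (3 * q) l.val om1 om R.toList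
    rw [← hst]
    intro y hy j hj
    by_cases h0 : om0 y = l
    · have hHy : y ∈ st.I ∪ st.J ∪ st.C := by
        have h2 := (c0 y).isLt
        have h3 : (om1 y).val = 3 * l.val + (c0 y).val := by rw [hom1v, h0]
        rw [mem_union, mem_union]
        have h4 : (c0 y).val = 0 ∨ (c0 y).val = 1 ∨ (c0 y).val = 2 := by omega
        rcases h4 with h4 | h4 | h4
        · refine Or.inl (Or.inl ((B3 y).2 ⟨hy, ?_⟩))
          rw [h3, h4]
          rfl
        · refine Or.inl (Or.inr ((B4 y).2 ⟨hy, ?_⟩))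
          rw [h3, h4]
        · refine Or.inr ((B5 y).2 ⟨hy, ?_⟩)
          rw [h3, h4]
      have h5 := hH y hHy
      have h6 := hq y
      have h7 : (om y).val = (om1 y).val := by
        rw [hom1v, ← h6, ← h5]
        exact (Nat.div_add_mod _ _).symm
      rw [h7]
    · have h6 := hq y
      have h8 : (om0 y).val ≠ l.val := fun h => h0 (Fin.ext h)
      have h9 := hom1v y
      have h10 := (c0 y).isLt
      constructor
      · intro h
        omega
      · intro h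
        omega
  unfold Bad3
  rw [hrun]
  have hom0 : ∀ y, (om y).val = 3 * l.val → om0 y = l := by
    intro y h
    have h1 := hq y
    exact Fin.ext (by omega)
  -- labels on the exposed set
  have hEI : st.E.filter (fun y => (om y).val = 3 * l.val) ⊆ st.I := by
    intro y hy
    rw [mem_filter] at hy
    have h0 := hom0 y hy.2
    have h2 := (c0 y).isLt
    have h3 : (om1 y).val = 3 * l.val + (c0 y).val := by rw [hom1v, h0]
    have h4 : (c0 y).val = 0 ∨ (c0 y).val = 1 ∨ (c0 y).val = 2 := by omega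
    have hm : y ∈ st.I ∪ st.J ∪ st.C → (c0 y).val = 0 := by
      intro h
      rw [← hH y h, hy.2]
      omega
    rcases h4 with h4 | h4 | h4
    · exact (B3 y).2 ⟨hy.1, by rw [h3, h4]; rfl⟩
    · have := hm (by
        rw [mem_union, mem_union]
        exact Or.inl (Or.inr ((B4 y).2 ⟨hy.1, by rw [h3, h4]⟩)))
      omega
    · have := hm (by
        rw [mem_union, mem_union]
        exact Or.inr ((B5 y).2 ⟨hy.1, by rw [h3, h4]⟩))
      omega
  have hIa : st.I.card ≤ a := le_trans (card_le_card subset_union_left) hIJa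
  refine ⟨le_trans (card_le_card hEI) (by omega), ?_⟩
  by_cases hE : 2 * (3 * q) * x ≤ st.E.card
  · exact Or.inl hE
  refine Or.inr ?_
  push Not at hE
  have hdom : ∀ y, y ∈ R → y ∉ st.E → dom D st y := by
    intro y hy hyE
    rcases B1 y (mem_toList.2 hy) with h | h
    · exact absurd h hyE
    · exact h
  have hIE : ∀ y, y ∉ st.E → y ∉ st.I := fun y hy h => hy ((B3 y).1 h).1
  have hJE : ∀ y, y ∉ st.E → y ∉ st.J := fun y hy h => hy ((B4 y).1 h).1
  by_cases hRs : 2 * (3 * q) * x ≤ (Rst D (R \ st.E) st.I st.J).card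
  · refine Or.inl ⟨hRs, lt_of_le_of_lt (card_le_card ?_) hC⟩
    intro y hy
    rw [mem_filter, mem_Rst, mem_AP, mem_AP] at hy
    obtain ⟨⟨hyR, hy1, hy2⟩, hyl⟩ := hy
    have hyR' := mem_sdiff.1 hyR
    have hyV : y ∈ Vl := (hVR y).2 ⟨hyR'.1, hom0 y hyl⟩
    by_contra hyC
    have hNB : y ∈ NB D (R \ st.E) st.I ∧ y ∈ NB D (R \ st.E) st.J := by
      obtain ⟨z, hz, hzy⟩ := hdom y hyR'.1 hyR'.2
      rcases hz with hz | hz
      · have h1 : y ∈ NB D (R \ st.E) st.I := mem_NB.2 ⟨hyR, Or.inr ⟨z, hz, hzy⟩⟩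
        refine ⟨h1, ?_⟩
        by_contra h2
        exact hy1 ⟨h1, h2⟩
      · have h1 : y ∈ NB D (R \ st.E) st.J := mem_NB.2 ⟨hyR, Or.inr ⟨z, hz, hzy⟩⟩
        refine ⟨?_, h1⟩
        by_contra h2
        exact hy2 ⟨h1, h2⟩
    rw [mem_NB, mem_NB] at hNB
    obtain ⟨⟨_, hn1⟩, ⟨_, hn2⟩⟩ := hNB
    rcases hn1 with h | ⟨i, hi, hiy⟩
    · exact hIE y hyR'.2 h
    rcases hn2 with h | ⟨j, hj, hjy⟩
    · exact hJE y hyR'.2 h
    have h1 : y ∈ PP := F1 i y (Or.inr (hIP i hi)) hiy.2.1 hyV hyC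
    have h2 := hJQ j hj
    have h3 := (mQQ j).1 h2
    exact hPQ j (F1 y j (Or.inr h1) hjy.2.2 h3.1 h3.2.1) h2
  refine Or.inr ?_
  push Not at hRs
  have spec := hcon u hu v hv huv hadj st.I st.J st.E hER
  have hbig := spec.big
  have hEc : 2 * (3 * q) ^ 2 * x ≤ (con u v st.I st.J st.E).card := by
    have e1 : 36 * q ^ 2 * x = 2 * (2 * (3 * q) ^ 2 * x) := by ring
    have e2 : 12 * q * x = 2 * (2 * (3 * q) * x) := by ring
    omega
  refine ⟨hEc, ?_⟩
  have hz : ∀ p ∈ (con u v st.I st.J st.E).filter (fun p => ∀ z ∈ e2 u v p, (om z).val = 3 * l.val),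
      ∃ z ∈ e2 u v p, z ∈ C := by
    intro p hp
    rw [mem_filter] at hp
    obtain ⟨c1, c2, c3⟩ := spec.con p hp.1
    by_contra hcon'
    push Not at hcon'
    have hR1 : ∀ z, z ∈ R → z ≠ u ∧ z ≠ v := fun z hz =>
      ⟨fun h => huR (h ▸ hz), fun h => hvR (h ▸ hz)⟩
    have hAPR : ∀ (A B : Finset V) z, z ∈ AP D (R \ st.E) A B → z ∈ R ∧ z ∉ st.E := fun A B z hz =>
      mem_sdiff.1 (mem_NB.1 (mem_AP.1 hz).1).1
    have hx : p.1 = u ∨ p.1 ∈ PP := by
      rcases c2 with h | h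
      · exact Or.inl h
      · have h1 := hAPR _ _ _ h
        have h2 : p.1 ∈ e2 u v p := mem_e2.2 ⟨Or.inl rfl, hR1 _ h1.1⟩
        have h3 : p.1 ∈ Vl := (hVR _).2 ⟨h1.1, hom0 _ (hp.2 _ h2)⟩
        rcases (mem_NB.1 (mem_AP.1 h).1).2 with h4 | ⟨i, hi, hi2⟩
        · exact absurd h4 (hIE _ h1.2)
        · exact Or.inr (F1 i _ (Or.inr (hIP i hi)) hi2.2.1 h3 (hcon' _ h2))
    rcases c3 with h | h
    · rw [h] at c1
      exact F2 _ hx c1
    · have h1 := hAPR _ _ _ h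
      have h2 : p.2 ∈ e2 u v p := mem_e2.2 ⟨Or.inr rfl, hR1 _ h1.1⟩
      have h3 := F1 _ _ hx c1 ((hVR _).2 ⟨h1.1, hom0 _ (hp.2 _ h2)⟩) (hcon' _ h2)
      rcases (mem_NB.1 (mem_AP.1 h).1).2 with h4 | ⟨j, hj, hj2⟩
      · exact hJE _ h1.2 h4
      · have h5 := hJQ j hj
        have h6 := (mQQ j).1 h5
        exact hPQ j (F1 _ j (Or.inr h3) hj2.2.2 h6.1 h6.2.1) h5
  have hle : ((con u v st.I st.J st.E).filter
      (fun p => ∀ z ∈ e2 u v p, (om z).val = 3 * l.val)).card ≤ C.card := by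
    have : Nonempty V := ⟨u⟩
    choose! zf hzf1 hzf2 using hz
    refine card_le_card_of_injOn zf ?_ ?_
    · intro p hp
      exact Finset.mem_coe.2 (hzf2 p (Finset.mem_coe.1 hp))
    · intro p hp p' hp' he
      by_contra hne
      have h1 := Finset.mem_coe.1 hp
      have h1' := Finset.mem_coe.1 hp'
      have hd := spec.dis p (mem_filter.1 h1).1 p' (mem_filter.1 h1').1 hne
      have h2 := hzf1 p h1
      have h2' := hzf1 p' h1'
      rw [he] at h2
      exact Finset.disjoint_left.1 hd h2 h2'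
  exact lt_of_le_of_lt hle hC

end JON
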