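import Pool.Agent.Work.MP_a7fe73_nl.Interface3

/-! # Block SHL (helper29): short linkages -/

set_option autoImplicit false
set_option linter.unusedSectionVars false

namespace JON
open scoped Classical
open Finset

/-- every vertex of A is led to B -/
theorem SHL.reach {V : Type} {D : Digraph V} {A B W : Finset V} {f : V → V} {psi : V → ℕ}
    (hL : Lk D A B W f psi) {x : V} (hx : x ∈ A) : ∃ r, f^[r] x ∈ B := by
  by_contra hcon
  push Not at hcon
  have key : ∀ i, (f^[i] x ∈ A ∨ f^[i] x ∈ W) ∧ psi (f^[i] x) + i ≤ psi x := by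
    intro i
    induction i with
    | zero => exact ⟨Or.inl hx, by simp⟩
    | succ i ih =>
      have h1 : f^[i + 1] x = f (f^[i] x) := Function.iterate_succ_apply' f i x
      have h2 := hL.maps _ ih.1
      have h3 := hL.dec _ ih.1
      have h4 := hcon (i + 1)
      rw [h1] at h4 ⊢
      refine ⟨Or.inr ?_, by omega⟩
      rcases h2 with h2 | h2
      · exact h2
      · exact absurd h2 h4
  have := (key (psi x + 1)).2
  omega

/-- the chain of predecessors -/
theorem SHL.pred {V : Type} {D : Digraph V} {A B W : Finset V} {f : V → V} {psi : V → ℕ}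
    (hAW : Disjoint A W) (hBW : Disjoint B W) (hc : A.card = B.card)
    (hL : Lk D A B W f psi) : ∀ (n : ℕ) (w : V), w ∈ W → W.sup psi - psi w = n →
    ∃ x ∈ A, ∃ i, 1 ≤ i ∧ w = f^[i] x ∧ ∀ j, 1 ≤ j → j ≤ i → f^[j] x ∈ W := by
  have hsur : ∀ w ∈ W, ∃ p ∈ A ∪ W, f p = w := by
    intro w hw
    have h1 : (A ∪ W).image f ⊆ B ∪ W := by
      intro y hy
      obtain ⟨p, hp, rfl⟩ := mem_image.1 hy
      rw [mem_union] at hp ⊢
      exact (hL.maps p hp).symm
    have h2 : ((A ∪ W).image f).card = (A ∪ W).card := by
      apply card_image_of_injOn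
      intro u hu v hv huv
      rw [mem_coe, mem_union] at hu hv
      exact hL.inj u v hu hv huv
    have h3 : (A ∪ W).image f = B ∪ W := by
      apply eq_of_subset_of_card_le h1
      rw [h2, card_union_of_disjoint hAW, card_union_of_disjoint hBW, hc]
    have h4 : w ∈ (A ∪ W).image f := by
      rw [h3, mem_union]; exact Or.inr hw
    obtain ⟨p, hp, hpw⟩ := mem_image.1 h4
    exact ⟨p, hp, hpw⟩
  intro n
  induction n using Nat.strong_induction_on with
  | _ n ih =>
    intro w hw hn
    obtain ⟨p, hp, hpw⟩ := hsur w hw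
    rw [mem_union] at hp
    have hdec := hL.dec p hp
    rcases hp with hp | hp
    · refine ⟨p, hp, 1, le_refl _, hpw.symm, ?_⟩
      intro j hj1 hj2
      have : j = 1 := by omega
      subst this
      show f p ∈ W
      rw [hpw]; exact hw
    · have hle : psi p ≤ W.sup psi := le_sup hp
      rw [hpw] at hdec
      obtain ⟨x, hx, i, hi, hxi, hall⟩ := ih (W.sup psi - psi p) (by omega) p hp rfl
      have h5 : f^[i + 1] x = w := by
        rw [Function.iterate_succ_apply', ← hxi, hpw]
      refine ⟨x, hx, i + 1, by omega, h5.symm, ?_⟩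
      intro j hj1 hj2
      rcases Nat.lt_or_ge i j with h | h
      · have : j = i + 1 := by omega
        rw [this, h5]; exact hw
      · exact hall j hj1 h

theorem p_SHL (hSHM : Stmt_SHM) : Stmt_SHL := by
  intro V D a A B W f psi hA hAB hAW hBW hc hL
  -- minimal choice
  have hex : ∃ n, ∃ W' ⊆ W, W'.card = n ∧ ∃ (f' : V → V) (psi' : V → ℕ), Lk D A B W' f' psi' :=
    ⟨W.card, W, Subset.refl _, rfl, f, psi, hL⟩
  obtain ⟨W0, hW0, hW0c, f0, psi0, hL0⟩ := Nat.find_spec hex
  have hmin : ∀ W' ⊆ W0, W'.card < W0.card → ∀ (f' : V → V) (psi' : V → ℕ), ¬ Lk D A B W' f' psi' := by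
    intro W' hW' hlt f' psi' hL'
    rw [hW0c] at hlt
    exact Nat.find_min hex hlt ⟨W', hW'.trans hW0, rfl, f', psi', hL'⟩
  have hAW0 : Disjoint A W0 := hAW.mono_right hW0
  have hBW0 : Disjoint B W0 := hBW.mono_right hW0
  refine ⟨W0, hW0, f0, psi0, hL0, ?_⟩
  clear hL
  -- the lengths
  have hr : ∀ x ∈ A, ∃ r, f0^[r] x ∈ B ∧ (∀ i, 1 ≤ i → i < r → f0^[i] x ∈ W0) ∧ r ≤ 2 * a := by
    intro x hx
    have hre := SHL.reach hL0 hx
    set r := Nat.find hre with hrdef
    have hrB : f0^[r] x ∈ B := Nat.find_spec hre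
    have hrm : ∀ i, i < r → f0^[i] x ∉ B := fun i hi => Nat.find_min hre hi
    have hmem : ∀ i, i < r → (f0^[i] x ∈ A ∨ f0^[i] x ∈ W0) := by
      intro i
      induction i with
      | zero => intro _; exact Or.inl hx
      | succ i ih =>
        intro hi
        have h1 : f0^[i + 1] x = f0 (f0^[i] x) := Function.iterate_succ_apply' f0 i x
        have h2 := hL0.maps _ (ih (by omega))
        rw [← h1] at h2
        rcases h2 with h2 | h2
        · exact Or.inr h2
        · exact absurd h2 (hrm _ hi)
    have hW : ∀ i, 1 ≤ i → i < r → f0^[i] x ∈ W0 := by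
      intro i hi1 hi2
      obtain ⟨j, rfl⟩ : ∃ j, i = j + 1 := ⟨i - 1, by omega⟩
      have h1 : f0^[j + 1] x = f0 (f0^[j] x) := Function.iterate_succ_apply' f0 j x
      have h2 := hL0.maps _ (hmem j (by omega))
      rw [← h1] at h2
      rcases h2 with h2 | h2
      · exact h2
      · exact absurd h2 (hrm _ hi2)
    have hpsi : ∀ i j, i < j → j ≤ r → psi0 (f0^[j] x) < psi0 (f0^[i] x) := by
      intro i j
      induction j with
      | zero => intro h; omega
      | succ j ih =>
        intro hij hjr
        have h1 : f0^[j + 1] x = f0 (f0^[j] x) := Function.iterate_succ_apply' f0 j x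
        have h2 := hL0.dec _ (hmem j (by omega))
        rw [← h1] at h2
        rcases Nat.lt_or_ge i j with h | h
        · exact h2.trans (ih h (by omega))
        · have : i = j := by omega
          rw [this]; exact h2
    have harc : ∀ i j, i + 2 ≤ j → j ≤ r → ¬ D.Adj (f0^[i] x) (f0^[j] x) := by
      intro i j hij hjr hadj
      have hit : ∀ m, f0^[m] (f0^[i] x) = f0^[m + i] x := fun m => (Function.iterate_add_apply f0 m i x).symm
      have hj' : f0^[j - i] (f0^[i] x) = f0^[j] x := by
        rw [hit]; congr 2; omega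
      obtain ⟨W', hW', hlt, f', hL'⟩ := hSHM V D A B W0 f0 psi0 (f0^[i] x) (j - i) hAB hAW0 hBW0 hL0
        (hmem i (by omega)) (by omega) (by
          intro m hm1 hm2
          rw [hit]
          exact hW _ (by omega) (by omega)) (by
          rw [hj']
          rcases Nat.lt_or_ge j r with h | h
          · exact Or.inl (hW j (by omega) h)
          · have : j = r := by omega
            rw [this]; exact Or.inr hrB) (by rw [hj']; exact hadj)
      exact hmin W' hW' hlt f' psi0 hL'
    have hst : Stab D ((range (r / 2 + 1)).image (fun i => f0^[2 * i] x)) := by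
      intro u hu v hv hd
      obtain ⟨i, hi, rfl⟩ := mem_image.1 hu
      obtain ⟨j, hj, rfl⟩ := mem_image.1 hv
      rw [mem_range] at hi hj
      obtain ⟨hne, h1, h2⟩ := hd
      rcases Nat.lt_trichotomy i j with h | h | h
      · exact harc (2 * i) (2 * j) (by omega) (by omega) h1
      · exact hne (by rw [h])
      · exact harc (2 * j) (2 * i) (by omega) (by omega) h2
    have hcard : ((range (r / 2 + 1)).image (fun i => f0^[2 * i] x)).card = r / 2 + 1 := by
      rw [card_image_of_injOn, card_range]
      intro i hi j hj hij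
      rw [mem_coe, mem_range] at hi hj
      have hij' : f0^[2 * i] x = f0^[2 * j] x := hij
      rcases Nat.lt_trichotomy i j with h | h | h
      · have := hpsi (2 * i) (2 * j) (by omega) (by omega)
        rw [hij'] at this; omega
      · exact h
      · have := hpsi (2 * j) (2 * i) (by omega) (by omega)
        rw [hij'] at this; omega
    have := hA _ hst
    rw [hcard] at this
    exact ⟨r, hrB, hW, by omega⟩
  choose! r hrB hrW hra using hr
  have hcov : W0 ⊆ A.biUnion (fun x => (range (r x)).image (fun i => f0^[i] x)) := by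
    intro w hw
    obtain ⟨x, hx, i, hi, hxi, hall⟩ := SHL.pred hAW0 hBW0 hc hL0 _ w hw rfl
    rw [mem_biUnion]
    refine ⟨x, hx, mem_image.2 ⟨i, mem_range.2 ?_, hxi.symm⟩⟩
    by_contra hlt
    rw [not_lt] at hlt
    have h0 : r x ≠ 0 := by
      intro h0
      have h1 := hrB x hx
      rw [h0] at h1
      exact (Finset.disjoint_left.1 hAB hx) h1
    exact (Finset.disjoint_left.1 hBW0 (hrB x hx)) (hall (r x) (by omega) hlt)
  calc W0.card ≤ (A.biUnion (fun x => (range (r x)).image (fun i => f0^[i] x))).card := card_le_card hcov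
    _ ≤ ∑ x ∈ A, ((range (r x)).image (fun i => f0^[i] x)).card := card_biUnion_le
    _ ≤ ∑ _x ∈ A, 2 * a := by
        apply sum_le_sum
        intro x hx
        calc _ ≤ (range (r x)).card := card_image_le
          _ = r x := card_range _
          _ ≤ 2 * a := hra x hx
    _ = 2 * a * A.card := by rw [sum_const, smul_eq_mul, mul_comm]

end JON
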