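import Pool.Agent.Work.MP_a7fe73_nl.Interface3

/-! # Block SHM (helper55): shortcuts in a linkage -/

set_option autoImplicit false

open scoped Classical

namespace JON

open Finset

theorem p_SHM : Stmt_SHM := by
  intro V D A B W f psi x j hAB hAW hBW hL hx hj hin hlast hadj
  have hd2 : ∀ v, v ∈ A → v ∈ W → False := fun v h1 h2 => Finset.disjoint_left.1 hAW h1 h2
  have hmem : ∀ i, i < j → f^[i] x ∈ A ∨ f^[i] x ∈ W := by
    intro i hi
    rcases Nat.eq_zero_or_pos i with h0 | h0
    · subst h0; exact hx
    · exact Or.inr (hin i h0 hi)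
  have hstep : ∀ i, i < j → psi (f^[i + 1] x) < psi (f^[i] x) := by
    intro i hi
    rw [Function.iterate_succ_apply']
    exact hL.dec _ (hmem i hi)
  have hlt : ∀ i i', i < i' → i' ≤ j → psi (f^[i'] x) < psi (f^[i] x) := by
    intro i i' h
    induction i' with
    | zero => omega
    | succ i' ih =>
      intro h'
      have h1 := hstep i' (by omega)
      rcases Nat.lt_or_ge i i' with h2 | h2
      · exact h1.trans (ih h2 (by omega))
      · have : i = i' := by omega
        subst this
        exact h1
  let Rm : Finset V := (range (j - 1)).image (fun i => f^[i + 1] x)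
  have hRm : ∀ v, v ∈ Rm ↔ ∃ i, 1 ≤ i ∧ i < j ∧ f^[i] x = v := by
    intro v
    rw [Finset.mem_image]
    constructor
    · rintro ⟨i, hi, rfl⟩
      rw [Finset.mem_range] at hi
      exact ⟨i + 1, by omega, by omega, rfl⟩
    · rintro ⟨i, h1, h2, rfl⟩
      refine ⟨i - 1, Finset.mem_range.2 (by omega), ?_⟩
      have : i - 1 + 1 = i := by omega
      show f^[i - 1 + 1] x = f^[i] x
      rw [this]
  have hnot : ∀ v, v ∈ A ∨ v ∈ W \ Rm → v ∉ Rm := by
    rintro v (hv | hv) hv'
    · obtain ⟨i, h1, h2, rfl⟩ := (hRm v).1 hv'
      exact hd2 _ hv (hin i h1 h2)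
    · exact (Finset.mem_sdiff.1 hv).2 hv'
  have hW : ∀ v, v ∈ A ∨ v ∈ W \ Rm → v ∈ A ∨ v ∈ W := by
    rintro v (hv | hv)
    · exact Or.inl hv
    · exact Or.inr (Finset.mem_sdiff.1 hv).1
  have hjR : f^[j] x ∉ Rm := by
    intro h
    obtain ⟨i, h1, h2, h3⟩ := (hRm _).1 h
    have h4 := hlt i j h2 le_rfl
    rw [h3] at h4
    exact lt_irrefl _ h4
  have hfj : f^[j] x = f (f^[j - 1] x) := by
    rw [← Function.iterate_succ_apply' f (j - 1) x]
    congr 1
    omega
  refine ⟨W \ Rm, Finset.sdiff_subset, ?_, Function.update f x (f^[j] x), ?_⟩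
  · refine Finset.card_lt_card ⟨Finset.sdiff_subset, fun hsub => ?_⟩
    have h1 : f^[1] x ∈ W := hin 1 le_rfl (by omega)
    have h2 : f^[1] x ∈ Rm := (hRm _).2 ⟨1, le_rfl, by omega, rfl⟩
    exact (Finset.mem_sdiff.1 (hsub h1)).2 h2
  · constructor
    · intro v hv
      by_cases hvx : v = x
      · subst hvx
        rw [Function.update_self]
        rcases hlast with h | h
        · exact Or.inl (Finset.mem_sdiff.2 ⟨h, hjR⟩)
        · exact Or.inr h
      · rw [Function.update_of_ne hvx]
        rcases hL.maps v (hW v hv) with h | h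
        · left
          refine Finset.mem_sdiff.2 ⟨h, fun hR => ?_⟩
          obtain ⟨i, h1, h2, h3⟩ := (hRm _).1 hR
          obtain ⟨i', rfl⟩ : ∃ i', i = i' + 1 := ⟨i - 1, by omega⟩
          rw [Function.iterate_succ_apply'] at h3
          have h4 := hL.inj _ _ (hmem i' (by omega)) (hW v hv) h3
          rcases Nat.eq_zero_or_pos i' with h0 | h0
          · subst h0
            exact hvx h4.symm
          · exact hnot v hv ((hRm v).2 ⟨i', h0, by omega, h4⟩)
        · exact Or.inr h
    · have key : ∀ v, v ∈ A ∨ v ∈ W \ Rm → f^[j] x = f v → False := by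
        intro v hv h
        rw [hfj] at h
        have h1 := hL.inj _ _ (hmem (j - 1) (by omega)) (hW v hv) h
        exact hnot v hv ((hRm v).2 ⟨j - 1, by omega, by omega, h1⟩)
      intro u v hu hv huv
      by_cases hux : u = x
      · by_cases hvx : v = x
        · rw [hux, hvx]
        · exfalso
          rw [hux, Function.update_self, Function.update_of_ne hvx] at huv
          exact key v hv huv
      · by_cases hvx : v = x
        · exfalso
          rw [hvx, Function.update_self, Function.update_of_ne hux] at huv
          exact key u hu huv.symm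
        · rw [Function.update_of_ne hux, Function.update_of_ne hvx] at huv
          exact hL.inj u v (hW u hu) (hW v hv) huv
    · intro v hv
      by_cases hvx : v = x
      · subst hvx
        rw [Function.update_self]
        exact hadj
      · rw [Function.update_of_ne hvx]
        exact hL.arc v (hW v hv)
    · intro v hv
      by_cases hvx : v = x
      · subst hvx
        rw [Function.update_self]
        exact hlt 0 j (by omega) le_rfl
      · rw [Function.update_of_ne hvx]
        exact hL.dec v (hW v hv)

end JON
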