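import Pool.Agent.Work.MP_a7fe73_nl.Interface

set_option autoImplicit false

namespace JON
open scoped Classical
open Finset

/-- SLT: slots exist -/
theorem p_SLT : Stmt_SLT := by
  intro V W pos N hN hW hinj
  let rk : V → ℕ := fun w => (W.filter (fun w' => pos w' < pos w)).card
  have hmono : ∀ w ∈ W, ∀ w' ∈ W, pos w < pos w' → rk w < rk w' := by
    intro w hw w' hw' h
    refine card_lt_card ?_
    refine (ssubset_iff_of_subset ?_).mpr ⟨w, mem_filter.mpr ⟨hw, h⟩, ?_⟩
    · intro z hz
      obtain ⟨h1, h2⟩ := mem_filter.mp hz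
      exact mem_filter.mpr ⟨h1, h2.trans h⟩
    · intro h2
      exact lt_irrefl _ (mem_filter.mp h2).2
  have hlt : ∀ w ∈ W, rk w < 2 * N := by
    intro w hw
    rw [← hW]
    refine card_lt_card ?_
    refine (ssubset_iff_of_subset (filter_subset _ _)).mpr ⟨w, hw, ?_⟩
    intro h2
    exact lt_irrefl _ (mem_filter.mp h2).2
  have hrinj : ∀ w ∈ W, ∀ w' ∈ W, rk w = rk w' → w = w' := by
    intro w hw w' hw' h
    rcases lt_trichotomy (pos w) (pos w') with h1 | h1 | h1
    · have := hmono w hw w' hw' h1; omega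
    · exact hinj w hw w' hw' h1
    · have := hmono w' hw' w hw h1; omega
  have hsur : ∀ n < 2 * N, ∃ w ∈ W, rk w = n := by
    have himg : W.image rk = range (2 * N) := by
      refine eq_of_subset_of_card_le ?_ ?_
      · intro n hn
        obtain ⟨w, hw, rfl⟩ := mem_image.mp hn
        exact mem_range.mpr (hlt w hw)
      · rw [card_range, card_image_of_injOn (fun w hw w' hw' h => hrinj w hw w' hw' h), hW]
    intro n hn
    have : n ∈ W.image rk := by rw [himg]; exact mem_range.mpr hn
    obtain ⟨w, hw, h⟩ := mem_image.mp this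
    exact ⟨w, hw, h⟩
  have hmod : ∀ w, rk w / 2 % N < N := fun w => Nat.mod_lt _ (by omega)
  have hsl : ∀ w ∈ W, rk w / 2 % N = rk w / 2 := by
    intro w hw
    have := hlt w hw
    exact Nat.mod_eq_of_lt (by omega)
  refine ⟨fun w => ⟨rk w / 2 % N, hmod w⟩, fun w => ⟨rk w % 2, Nat.mod_lt _ (by norm_num)⟩, ?_, ?_, ?_⟩
  · intro w hw w' hw' h1 h2
    have h1' := congrArg Fin.val h1
    have h2' := congrArg Fin.val h2
    simp only at h1' h2'
    rw [hsl w hw, hsl w' hw'] at h1'
    refine hrinj w hw w' hw' ?_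
    omega
  · intro i p
    obtain ⟨w, hw, h⟩ := hsur (2 * i.val + p.val) (by have := i.2; have := p.2; omega)
    refine ⟨w, hw, ?_, ?_⟩
    · refine Fin.ext ?_
      simp only
      rw [hsl w hw, h]
      have := p.2
      omega
    · refine Fin.ext ?_
      simp only
      rw [h]
      have := p.2
      omega
  · intro w hw w' hw' h
    have h1 : rk w / 2 % N < rk w' / 2 % N := h
    rw [hsl w hw, hsl w' hw'] at h1
    rcases lt_trichotomy (pos w) (pos w') with h2 | h2 | h2
    · exact h2
    · have := hinj w hw w' hw' h2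
      subst this
      exact absurd h1 (lt_irrefl _)
    · have := hmono w' hw' w hw h2
      omega

end JON
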