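import Pool.Agent.Work.MP_a7fe73_nl.Interface2

/-! # Block SP2 (helper12; after the code of B_SPL): random splitting with one union bound over stable sets -/

set_option autoImplicit false
set_option linter.unusedSectionVars false

namespace JON
open scoped Classical
open Finset

theorem SP2.num (q k a l x r z : ℕ) (hr : r ≤ 2 ^ l) (hz : z ≤ 2 ^ l)
    (hx : k + l * (2 * a + 2) + q + 3 ≤ x) :
    q * r ^ (2 * a) * (1 + z ^ 2) * 2 ^ k < 2 ^ x := by
  have h1 : r ^ (2 * a) ≤ 2 ^ (l * (2 * a)) := by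
    calc r ^ (2 * a) ≤ (2 ^ l) ^ (2 * a) := Nat.pow_le_pow_left hr _
      _ = 2 ^ (l * (2 * a)) := by rw [← pow_mul]
  have h2 : 1 + z ^ 2 ≤ 2 ^ (2 * l + 1) := by
    have a1 : z ^ 2 ≤ (2 ^ l) ^ 2 := Nat.pow_le_pow_left hz _
    have a2 : 1 ≤ (2 ^ l) ^ 2 := Nat.one_le_pow _ _ (by positivity)
    have a3 : 2 ^ (2 * l + 1) = 2 * (2 ^ l) ^ 2 := by
      rw [pow_succ, ← pow_mul]
      ring
    rw [a3]
    omega
  have h3 : q < 2 ^ q := Nat.lt_two_pow_self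
  calc q * r ^ (2 * a) * (1 + z ^ 2) * 2 ^ k
      ≤ q * 2 ^ (l * (2 * a)) * 2 ^ (2 * l + 1) * 2 ^ k := by gcongr
    _ = q * (2 ^ (l * (2 * a)) * 2 ^ (2 * l + 1) * 2 ^ k) := by ring
    _ < 2 ^ q * (2 ^ (l * (2 * a)) * 2 ^ (2 * l + 1) * 2 ^ k) :=
        Nat.mul_lt_mul_of_pos_right h3 (by positivity)
    _ = 2 ^ (k + l * (2 * a + 2) + q + 1) := by
        rw [← pow_add, ← pow_add, ← pow_add]; congr 1; ring
    _ ≤ 2 ^ x := Nat.pow_le_pow_right (by norm_num) (by omega)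

theorem p_SP2 (hCO2 : Stmt_CO2) (hBD2 : Stmt_BD2) (hSD2 : Stmt_SD2) : Stmt_SP2 := by
  intro V _ D Z Om q a k l x K1 hA hZ hq hOm hx hK1 hRob
  have hcon : ∀ (u v : V) (I J : Finset V), ∃ E : Finset (V × V),
      ((u ∈ Z ∧ v ∈ Z ∧ u ≠ v ∧ ¬ D.Adj u v) → CS2 D (Om \ Z) Z K1 u v I J E) ∧
      (¬ (u ∈ Z ∧ v ∈ Z ∧ u ≠ v ∧ ¬ D.Adj u v) → E = ∅) := by
    intro u v I J
    by_cases h : u ∈ Z ∧ v ∈ Z ∧ u ≠ v ∧ ¬ D.Adj u v
    · obtain ⟨E, hE⟩ := hCO2 V D Z Om K1 u v I J hZ hRob h.1 h.2.1 h.2.2.1 h.2.2.2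
      exact ⟨E, fun _ => hE, fun h' => absurd h h'⟩
    · exact ⟨∅, fun h' => absurd h' h, fun _ => rfl⟩
  choose con hcon1 hcon2 using hcon
  have hB := hBD2 V D (Om \ Z) Z q a k x con hq (by
    intro u v I J p hp p' hp' hne
    by_cases h : u ∈ Z ∧ v ∈ Z ∧ u ≠ v ∧ ¬ D.Adj u v
    · exact (hcon1 u v I J h).dis p hp p' hp' hne
    · rw [hcon2 u v I J h] at hp
      exact absurd hp (notMem_empty _))
  have hRc : (Om \ Z).card + 1 ≤ 2 ^ l := by
    have := card_le_card (sdiff_subset : Om \ Z ⊆ Om)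
    omega
  have hZc : Z.card ≤ 2 ^ l := by
    have := card_le_card hZ
    omega
  have hnum := SP2.num q k a l x ((Om \ Z).card + 1) Z.card hRc hZc hx
  obtain ⟨om, hom⟩ : ∃ om : V → Fin q, ¬ Bad D (Om \ Z) Z q a k x con om := by
    by_contra hcontra
    push Not at hcontra
    have h1 : (univ : Finset (V → Fin q)).filter (Bad D (Om \ Z) Z q a k x con) = univ := by
      rw [filter_eq_self]
      intro om _
      exact hcontra om
    rw [h1, card_univ, Fintype.card_fun, Fintype.card_fin] at hB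
    have h3 : 0 < q ^ Fintype.card V := by positivity
    have h4 : 2 ^ x * q ^ Fintype.card V ≤
        (q * ((Om \ Z).card + 1) ^ (2 * a) * (1 + Z.card ^ 2) * 2 ^ k) * q ^ Fintype.card V := by
      calc 2 ^ x * q ^ Fintype.card V ≤ _ := hB
        _ = _ := by ring
    have h5 := Nat.le_of_mul_le_mul_right h4 h3
    omega
  refine ⟨fun i => lab om (Om \ Z) i, ?_, ?_, ?_⟩
  · intro i v hv
    exact (mem_lab.1 hv).1
  · intro i j hij
    rw [Finset.disjoint_left]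
    intro v hv hv'
    exact hij ((mem_lab.1 hv).2.symm.trans (mem_lab.1 hv').2)
  · intro i
    refine hSD2 V D Z Om q a k x K1 con om i hA hZ ?_ hK1 hom
    intro u hu v hv hne hadj I J
    exact hcon1 u v I J ⟨hu, hv, hne, hadj⟩

end JON
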