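import Pool.Agent.Work.MP_a7fe73_nl.Interface3

/-! # Block SP3 (helper29; after the code of B_SP2): random splitting without logarithm -/

set_option autoImplicit false
set_option linter.unusedSectionVars false

namespace JON
open scoped Classical
open Finset

theorem SP3.num (q z m x k : ℕ) (hk : k ≤ m) (hx : 3 * m + 2 * z + q + 2 ≤ x) :
    3 ^ m * (q * z ^ 2 * (2 ^ m + 2 * 2 ^ k)) < 2 ^ x := by
  have h0 : 2 ^ m + 2 * 2 ^ k ≤ 3 * 2 ^ m := by
    have := Nat.pow_le_pow_right (show 0 < 2 by norm_num) hk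
    omega
  have h1 : z ^ 2 ≤ 2 ^ (2 * z) := by
    have : z ≤ 2 ^ z := Nat.lt_two_pow_self.le
    calc z ^ 2 ≤ (2 ^ z) ^ 2 := Nat.pow_le_pow_left this 2
      _ = 2 ^ (2 * z) := by rw [← pow_mul, mul_comm]
  have h2 : q ≤ 2 ^ q := Nat.lt_two_pow_self.le
  have h3 : 3 ^ m * 2 ^ m ≤ 2 ^ (3 * m) := by
    calc 3 ^ m * 2 ^ m = 6 ^ m := by rw [← mul_pow]; norm_num
      _ ≤ 8 ^ m := Nat.pow_le_pow_left (by norm_num) m
      _ = 2 ^ (3 * m) := by rw [pow_mul]; norm_num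
  calc 3 ^ m * (q * z ^ 2 * (2 ^ m + 2 * 2 ^ k))
      ≤ 3 ^ m * (2 ^ q * 2 ^ (2 * z) * (3 * 2 ^ m)) := by gcongr
    _ = 3 * ((3 ^ m * 2 ^ m) * 2 ^ q * 2 ^ (2 * z)) := by ring
    _ ≤ 3 * (2 ^ (3 * m) * 2 ^ q * 2 ^ (2 * z)) := by gcongr
    _ < 4 * (2 ^ (3 * m) * 2 ^ q * 2 ^ (2 * z)) :=
        Nat.mul_lt_mul_of_pos_right (by norm_num) (by positivity)
    _ = 2 ^ (3 * m + 2 * z + q + 2) := by
        rw [pow_add, pow_add, pow_add]; ring
    _ ≤ 2 ^ x := Nat.pow_le_pow_right (by norm_num) hx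

theorem SP3.rob {V : Type} {D : Digraph V} {Z Om E : Finset V} {K1 : ℕ} (hRob : Rob D Z Om K1)
    (hE : E ⊆ Om \ Z) : Rob D Z (Om \ E) (K1 - E.card) := by
  intro u hu v hv hne C hC huC hvC
  have hcard : (C ∪ E).card < K1 := by
    have := card_union_le C E
    omega
  have huE : u ∉ E := fun h => (mem_sdiff.1 (hE h)).2 hu
  have hvE : v ∉ E := fun h => (mem_sdiff.1 (hE h)).2 hv
  refine (hRob u hu v hv hne (C ∪ E) hcard ?_ ?_).mono ?_
  · rw [mem_union]; tauto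
  · rw [mem_union]; tauto
  · rintro z ⟨hz1, hz2⟩
    rw [mem_union] at hz2
    exact ⟨mem_sdiff.2 ⟨hz1, fun h => hz2 (Or.inr h)⟩, fun h => hz2 (Or.inl h)⟩

theorem p_SP3 (hCO2 : Stmt_CO2) (hBD3 : Stmt_BD3) (hSD3 : Stmt_SD3) (hCT3 : Stmt_CT3) : Stmt_SP3 := by
  intro V _ D Z Om q a k x K1 hA hZ hq hx hK1 hRob
  have hcon : ∀ (u v : V) (I J E : Finset V), ∃ F : Finset (V × V),
      ((u ∈ Z ∧ v ∈ Z ∧ u ≠ v ∧ ¬ D.Adj u v ∧ E ⊆ Om \ Z) →
        CS2 D ((Om \ Z) \ E) Z (K1 - E.card) u v I J F) ∧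
      (¬ (u ∈ Z ∧ v ∈ Z ∧ u ≠ v ∧ ¬ D.Adj u v ∧ E ⊆ Om \ Z) → F = ∅) := by
    intro u v I J E
    by_cases h : u ∈ Z ∧ v ∈ Z ∧ u ≠ v ∧ ¬ D.Adj u v ∧ E ⊆ Om \ Z
    · have hZE : Z ⊆ Om \ E := by
        intro z hz
        exact mem_sdiff.2 ⟨hZ hz, fun hzE => (mem_sdiff.1 (h.2.2.2.2 hzE)).2 hz⟩
      obtain ⟨F, hF⟩ := hCO2 V D Z (Om \ E) (K1 - E.card) u v I J hZE (SP3.rob hRob h.2.2.2.2)
        h.1 h.2.1 h.2.2.1 h.2.2.2.1
      rw [sdiff_right_comm] at hF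
      exact ⟨F, fun _ => hF, fun h' => absurd h h'⟩
    · exact ⟨∅, fun h' => absurd h' h, fun _ => rfl⟩
  choose con hcon1 hcon2 using hcon
  have hdE : ∀ u v I J E, ∀ p ∈ con u v I J E, Disjoint (e2 u v p) E := by
    intro u v I J E p hp
    by_cases h : u ∈ Z ∧ v ∈ Z ∧ u ≠ v ∧ ¬ D.Adj u v ∧ E ⊆ Om \ Z
    · obtain ⟨-, h1, h2⟩ := (hcon1 u v I J E h).con p hp
      rw [Finset.disjoint_left]
      intro z hz hzE
      obtain ⟨hz1, hzu, hzv⟩ := mem_e2.1 hz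
      rcases hz1 with rfl | rfl
      · rcases h1 with h1 | h1
        · exact hzu h1
        · exact (mem_sdiff.1 (mem_NB.1 (mem_AP.1 h1).1).1).2 hzE
      · rcases h2 with h2 | h2
        · exact hzv h2
        · exact (mem_sdiff.1 (mem_NB.1 (mem_AP.1 h2).1).1).2 hzE
    · rw [hcon2 u v I J E h] at hp
      exact absurd hp (notMem_empty _)
  have hdis : ∀ u v I J E, ∀ p ∈ con u v I J E, ∀ p' ∈ con u v I J E, p ≠ p' →
      Disjoint (e2 u v p) (e2 u v p') := by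
    intro u v I J E p hp p' hp' hne
    by_cases h : u ∈ Z ∧ v ∈ Z ∧ u ≠ v ∧ ¬ D.Adj u v ∧ E ⊆ Om \ Z
    · exact (hcon1 u v I J E h).dis p hp p' hp' hne
    · rw [hcon2 u v I J E h] at hp
      exact absurd hp (notMem_empty _)
  set n := Fintype.card V with hn
  obtain ⟨P, hPd⟩ : ∃ P : (V → Fin q) → Prop, ∀ om0, P om0 ↔
      ∃ l : Fin q, ¬ Rob D Z (lab om0 (Om \ Z) l) k := ⟨_, fun _ => Iff.rfl⟩
  obtain ⟨F, hFd⟩ : ∃ F : (V → Fin (3 * q)) → Prop, ∀ om, F om ↔ ∃ l : Fin q, ∃ u ∈ Z, ∃ v ∈ Z,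
      Bad3 D (Om \ Z) (3 * q) l.val k (a + k) x u v con om := ⟨_, fun _ => Iff.rfl⟩
  -- the bad fine labellings
  have hF : 2 ^ x * ((univ : Finset (V → Fin (3 * q))).filter F).card ≤
      q * Z.card ^ 2 * (2 ^ (a + k) + 2 * 2 ^ k) * (3 * q) ^ n := by
    have hsub : ((univ : Finset (V → Fin (3 * q))).filter F) ⊆
        ((univ : Finset (Fin q)) ×ˢ (Z ×ˢ Z)).biUnion (fun t => (univ : Finset (V → Fin (3 * q))).filter
          (Bad3 D (Om \ Z) (3 * q) t.1.val k (a + k) x t.2.1 t.2.2 con)) := by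
      intro om hom
      obtain ⟨l, u, hu, v, hv, hb⟩ := (hFd om).1 (mem_filter.1 hom).2
      rw [mem_biUnion]
      exact ⟨(l, u, v), mem_product.2 ⟨mem_univ _, mem_product.2 ⟨hu, hv⟩⟩, mem_filter.2 ⟨mem_univ _, hb⟩⟩
    calc 2 ^ x * _ ≤ 2 ^ x * (((univ : Finset (Fin q)) ×ˢ (Z ×ˢ Z)).biUnion
          (fun t => (univ : Finset (V → Fin (3 * q))).filter
          (Bad3 D (Om \ Z) (3 * q) t.1.val k (a + k) x t.2.1 t.2.2 con))).card := by
          gcongr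
      _ ≤ 2 ^ x * ∑ t ∈ (univ : Finset (Fin q)) ×ˢ (Z ×ˢ Z), ((univ : Finset (V → Fin (3 * q))).filter
          (Bad3 D (Om \ Z) (3 * q) t.1.val k (a + k) x t.2.1 t.2.2 con)).card := by
          gcongr
          exact card_biUnion_le
      _ = ∑ t ∈ (univ : Finset (Fin q)) ×ˢ (Z ×ˢ Z), 2 ^ x * ((univ : Finset (V → Fin (3 * q))).filter
          (Bad3 D (Om \ Z) (3 * q) t.1.val k (a + k) x t.2.1 t.2.2 con)).card := by
          rw [mul_sum]
      _ ≤ ∑ _t ∈ (univ : Finset (Fin q)) ×ˢ (Z ×ˢ Z), (2 ^ (a + k) + 2 * 2 ^ k) * (3 * q) ^ n := by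
          apply sum_le_sum
          intro t _
          exact hBD3 V D (Om \ Z) (3 * q) t.1.val k (a + k) x t.2.1 t.2.2 con
            (by have := t.1.isLt; omega) (fun I J E => hdE _ _ I J E) (fun I J E => hdis _ _ I J E)
      _ = q * Z.card ^ 2 * (2 ^ (a + k) + 2 * 2 ^ k) * (3 * q) ^ n := by
          rw [sum_const, card_product, card_product, card_univ, Fintype.card_fin, smul_eq_mul]
          ring
  -- the coarse labellings with a part that is not robust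
  have hP := hCT3 V q (a + k) P F (by
      intro om0 h0
      obtain ⟨l, hl⟩ := (hPd om0).1 h0
      obtain ⟨u, hu, v, hv, H, c0, hH, hb⟩ := hSD3 V D Z Om q a k x K1 con om0 l hA hZ (by
        intro u hu v hv hne hadj I J E hE
        exact hcon1 u v I J E ⟨hu, hv, hne, hadj, hE⟩) hK1 hl
      exact ⟨H, c0, hH, fun om h1 h2 => (hFd om).2 ⟨l, u, hu, v, hv, hb om h1 h2⟩⟩)
  obtain ⟨om, hom⟩ : ∃ om : V → Fin q, ¬ P om := by
    by_contra hcontra
    push Not at hcontra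
    have h1 : (univ : Finset (V → Fin q)).filter P = univ := by
      rw [filter_eq_self]
      intro om _
      exact hcontra om
    rw [h1, card_univ, Fintype.card_fun, Fintype.card_fin, ← hn] at hP
    have hq0 : 0 < q := hq
    have h3 : 0 < (3 * q) ^ n := by positivity
    have h4 : 2 ^ x * (3 * q) ^ n ≤
        (3 ^ (a + k) * (q * Z.card ^ 2 * (2 ^ (a + k) + 2 * 2 ^ k))) * (3 * q) ^ n := by
      calc 2 ^ x * (3 * q) ^ n = 2 ^ x * (3 ^ n * q ^ n) := by rw [mul_pow]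
        _ ≤ 2 ^ x * (3 ^ (a + k) * ((univ : Finset (V → Fin (3 * q))).filter F).card) :=
            Nat.mul_le_mul_left _ hP
        _ = 3 ^ (a + k) * (2 ^ x * ((univ : Finset (V → Fin (3 * q))).filter F).card) := by ring
        _ ≤ 3 ^ (a + k) * (q * Z.card ^ 2 * (2 ^ (a + k) + 2 * 2 ^ k) * (3 * q) ^ n) :=
            Nat.mul_le_mul_left _ hF
        _ = _ := by ring
    have h5 := Nat.le_of_mul_le_mul_right h4 h3
    have h6 := SP3.num q Z.card (a + k) x k (Nat.le_add_left k a) (by omega)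
    omega
  rw [hPd] at hom
  push Not at hom
  refine ⟨fun i => lab om (Om \ Z) i, ?_, ?_, ?_⟩
  · intro i v hv
    exact (mem_lab.1 hv).1
  · intro i j hij
    rw [Finset.disjoint_left]
    intro v hv hv'
    exact hij ((mem_lab.1 hv).2.symm.trans (mem_lab.1 hv').2)
  · intro i
    exact hom i

end JON
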