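import Pool.Agent.Work.MP_a7fe73_nl.Interface

/-! # MP_a7fe73_co, near linear: block SPN -/

set_option autoImplicit false

namespace JON
open scoped Classical
open Finset

/-- Block SPN. -/
theorem p_SPN (hA : Stmt_ASM) (hP : Stmt_PTC) : Stmt_SPN := by
  intro V _ D m g M W1 W2 f1 f2 psi1 psi2 hm hub hdis l1 l2
  have hd : List.Pairwise Disjoint [hubV m g, (∅ : Finset V), ∅, M, ∅, W1, W2] := by
    simp only [List.pairwise_cons, List.mem_cons, List.not_mem_nil, or_false, forall_eq_or_imp,
      forall_eq, List.Pairwise.nil, and_true] at hdis ⊢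
    simp only [disjoint_empty_left, disjoint_empty_right, true_and, and_true, IsEmpty.forall_iff,
      implies_true]
    tauto
  obtain ⟨τ, h1, h2⟩ := hA V D m g ∅ ∅ M ∅ W1 W2 f1 f2 id psi1 psi2 (fun _ => 0)
    { hm := hm
      hub := hub
      dis := hd
      l1 := by rw [empty_union]; exact l1
      l2 := by rw [empty_union]; exact l2
      Fm := by
        rintro v (hv | hv)
        · exact absurd hv (notMem_empty v)
        · exact absurd hv (notMem_empty v)
      Fi := by
        rintro u v (hu | hu) _ _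
        · exact absurd hu (notMem_empty u)
        · exact absurd hu (notMem_empty u)
      Fd := by
        intro v hv _
        exact absurd hv (notMem_empty v) }
  have hS : Sp m g ∅ ∅ M ∅ W1 W2 = hubV m g ∪ (M ∪ (W1 ∪ W2)) := by
    unfold Sp
    rw [empty_union, empty_union, empty_union]
  rw [hS] at h1 h2
  have hne : (hubV m g ∪ (M ∪ (W1 ∪ W2))).Nonempty :=
    ⟨g 0 0, mem_union_left _ (mem_hubV.2 ⟨0, hm, 0, rfl⟩)⟩
  obtain ⟨c, c1, c2, c3, c4⟩ := hP V D τ _ hne h1 h2
  refine ⟨c, (hubV m g ∪ (M ∪ (W1 ∪ W2))).card, c1, c2, ?_, c4⟩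
  intro v hv
  exact c3 v (mem_union_right _ (mem_union_left _ hv))

end JON
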