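import Pool.Agent.Work.MP_a7fe73_nl.Interface3

set_option autoImplicit false

namespace JON
open scoped Classical
open Finset

theorem STA.prod_w {U : Type} [Fintype U] {b : ℕ} (F : U → Fin b → ℝ) (h : ∀ y, ∑ x, F y x = (b : ℝ)) :
    ∑ om : U → Fin b, ∏ y, F y (om y) = (b : ℝ) ^ Fintype.card U := by
  have h1 := Finset.prod_univ_sum (fun _ : U => (Finset.univ : Finset (Fin b))) F
  rw [Fintype.piFinset_univ] at h1
  rw [← h1, Finset.prod_congr rfl fun y _ => h y, Finset.prod_const, Finset.card_univ]

theorem p_STA : Stmt_STA := by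
  intro U _ b Ex w hb hEx hw
  -- the exchange of the coordinates outside of the self-determined set
  have hmix : ∀ om om' : U → Fin b, Ex (fun y => if y ∈ Ex om then om y else om' y) = Ex om := by
    intro om om'
    apply hEx
    intro y hy
    rw [if_pos hy]
  let Phi : (U → Fin b) × (U → Fin b) → (U → Fin b) × (U → Fin b) := fun p =>
    (fun y => if y ∈ Ex p.1 then p.1 y else p.2 y, fun y => if y ∈ Ex p.1 then p.2 y else p.1 y)
  have hinv : Function.Involutive Phi := by
    rintro ⟨om, om'⟩
    change ((fun y => if y ∈ Ex (fun y => if y ∈ Ex om then om y else om' y) then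
        (if y ∈ Ex om then om y else om' y) else (if y ∈ Ex om then om' y else om y)),
      (fun y => if y ∈ Ex (fun y => if y ∈ Ex om then om y else om' y) then
        (if y ∈ Ex om then om' y else om y) else (if y ∈ Ex om then om y else om' y))) = (om, om')
    rw [hmix]
    refine Prod.ext ?_ ?_
    · funext y
      by_cases hy : y ∈ Ex om
      · simp only [if_pos hy]
      · simp only [if_neg hy]
    · funext y
      by_cases hy : y ∈ Ex om
      · simp only [if_pos hy]
      · simp only [if_neg hy]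
  have hA : ∀ om : U → Fin b, ∑ om' : U → Fin b, ∏ y, (if y ∈ Ex om then (1 : ℝ) else w (om' y)) =
      (b : ℝ) ^ Fintype.card U := by
    intro om
    refine STA.prod_w (fun y x => if y ∈ Ex om then (1 : ℝ) else w x) fun y => ?_
    by_cases hy : y ∈ Ex om
    · simp only [if_pos hy]
      simp
    · simp only [if_neg hy]
      exact hw
  have hB : ∑ p : (U → Fin b) × (U → Fin b), (∏ y ∈ Ex p.1, w (p.1 y)) *
      ∏ y, (if y ∈ Ex p.1 then (1 : ℝ) else w (p.2 y)) =
      ∑ p : (U → Fin b) × (U → Fin b), ∏ y, w (p.1 y) := by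
    refine Fintype.sum_equiv (Function.Involutive.toPerm Phi hinv) _ _ fun p => ?_
    rw [Function.Involutive.coe_toPerm]
    have h1 : ∏ y ∈ Ex p.1, w (p.1 y) = ∏ y, (if y ∈ Ex p.1 then w (p.1 y) else 1) := by
      rw [Finset.prod_ite_mem, Finset.univ_inter]
    rw [h1, ← Finset.prod_mul_distrib]
    refine Finset.prod_congr rfl fun y _ => ?_
    change _ = w (if y ∈ Ex p.1 then p.1 y else p.2 y)
    by_cases hy : y ∈ Ex p.1
    · simp only [if_pos hy, mul_one]
    · simp only [if_neg hy, one_mul]
  rw [Fintype.sum_prod_type, Fintype.sum_prod_type] at hB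
  have hC : ∀ om : U → Fin b, ∑ om' : U → Fin b, (∏ y ∈ Ex om, w (om y)) *
      ∏ y, (if y ∈ Ex om then (1 : ℝ) else w (om' y)) = (∏ y ∈ Ex om, w (om y)) * (b : ℝ) ^ Fintype.card U := by
    intro om
    rw [← Finset.mul_sum, hA]
  rw [Finset.sum_congr rfl fun om _ => hC om, ← Finset.sum_mul] at hB
  have hD : ∑ om : U → Fin b, ∑ _om' : U → Fin b, ∏ y, w (om y) =
      (b : ℝ) ^ Fintype.card U * (b : ℝ) ^ Fintype.card U := by
    have h2 : ∀ om : U → Fin b, ∑ _om' : U → Fin b, ∏ y, w (om y) =
        (∏ y, w (om y)) * (b : ℝ) ^ Fintype.card U := by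
      intro om
      rw [Finset.sum_const, Finset.card_univ, Fintype.card_fun, Fintype.card_fin, nsmul_eq_mul, mul_comm]
      push_cast
      rfl
    rw [Finset.sum_congr rfl fun om _ => h2 om, ← Finset.sum_mul, STA.prod_w (fun _ x => w x) fun _ => hw]
  have hB' : (∑ om : U → Fin b, ∏ y ∈ Ex om, w (om y)) * (b : ℝ) ^ Fintype.card U =
      (b : ℝ) ^ Fintype.card U * (b : ℝ) ^ Fintype.card U := by
    rw [← hD]
    exact hB
  have hpos : (b : ℝ) ^ Fintype.card U ≠ 0 := by
    apply pow_ne_zero
    have : b ≠ 0 := by omega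
    exact_mod_cast this
  exact mul_right_cancel₀ hpos hB'

end JON
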