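import Pool.Agent.Work.MP_a7fe73_nl.Interface3

set_option autoImplicit false

open scoped Classical

namespace JON

open Finset

theorem STB.pow_bound (M x n : ℕ) (hM : 2 ≤ M) (hn : M * x ≤ n) :
    (1 - 1 / (M : ℝ)) ^ n ≤ (1 / 2 : ℝ) ^ x := by
  have hMR : (2 : ℝ) ≤ M := by exact_mod_cast hM
  have h0 : 0 ≤ 1 - 1 / (M : ℝ) := by
    have h1 : 1 / (M : ℝ) ≤ 1 / 2 := one_div_le_one_div_of_le (by norm_num) hMR
    linarith
  have h1 : 1 - 1 / (M : ℝ) ≤ 1 := by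
    have : 0 ≤ 1 / (M : ℝ) := by positivity
    linarith
  have h2 : (1 - 1 / (M : ℝ)) ^ M ≤ 1 / 2 := by
    have h3 : 1 - 1 / (M : ℝ) ≤ Real.exp (-(1 / (M : ℝ))) := by
      have := Real.add_one_le_exp (-(1 / (M : ℝ)))
      linarith
    have h4 : (1 - 1 / (M : ℝ)) ^ M ≤ Real.exp (-(1 / (M : ℝ))) ^ M := pow_le_pow_left₀ h0 h3 M
    rw [← Real.exp_nat_mul] at h4
    have h5 : (M : ℝ) * -(1 / (M : ℝ)) = -1 := by
      field_simp
    rw [h5, Real.exp_neg] at h4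
    refine h4.trans ?_
    have h6 := Real.exp_one_gt_d9
    rw [one_div]
    exact inv_anti₀ (by norm_num) (by linarith)
  calc (1 - 1 / (M : ℝ)) ^ n ≤ (1 - 1 / (M : ℝ)) ^ (M * x) := pow_le_pow_of_le_one h0 h1 hn
    _ = ((1 - 1 / (M : ℝ)) ^ M) ^ x := pow_mul _ _ _
    _ ≤ (1 / 2 : ℝ) ^ x := pow_le_pow_left₀ (pow_nonneg h0 _) h2 x

theorem p_STB (hSTA : Stmt_STA) : Stmt_STB := by
  intro U _ b t Ex m x M hb hEx hxM
  have hbR : (1 : ℝ) ≤ b := by exact_mod_cast hb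
  set r : ℝ := 1 - 1 / (2 * (b : ℝ)) with hr
  have hr0 : 1 / 2 ≤ r := by
    have : 1 / (2 * (b : ℝ)) ≤ 1 / 2 := one_div_le_one_div_of_le (by norm_num) (by linarith)
    linarith
  have hrpos : 0 < r := by linarith
  have hr1 : r ≤ 1 := by
    have : 0 ≤ 1 / (2 * (b : ℝ)) := by positivity
    linarith
  set z : ℝ := 1 / r with hz
  have hz1 : 1 ≤ z := by
    rw [hz, le_div_iff₀ hrpos]; linarith
  have hz0 : 0 < z := by linarith
  let w : Fin b → ℝ := fun y => z * (if y = t then 1 / 2 else 1)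
  have hsum : ∑ y, w y = (b : ℝ) := by
    have h1 : ∑ y : Fin b, (if y = t then (1 / 2 : ℝ) else 1) = b - 1 / 2 := by
      have h2 : ∀ y : Fin b, (if y = t then (1 / 2 : ℝ) else 1) =
          1 - (if y = t then (1 / 2 : ℝ) else 0) := by
        intro y
        split_ifs <;> norm_num
      simp only [h2, sum_sub_distrib, sum_const, card_univ, Fintype.card_fin, nsmul_eq_mul,
        mul_one, sum_ite_eq', mem_univ, if_true]
    show ∑ y : Fin b, z * (if y = t then (1 / 2 : ℝ) else 1) = _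
    rw [← mul_sum, h1, hz, hr]
    have h3 : (1 - 1 / (2 * (b : ℝ))) ≠ 0 := hrpos.ne'
    have h4 : (b : ℝ) - 1 / 2 = b * (1 - 1 / (2 * (b : ℝ))) := by
      field_simp
    rw [h4, mul_comm, mul_assoc, mul_one_div, div_self h3, mul_one]
  have h := hSTA U b Ex w hb hEx hsum
  set Bd := (univ : Finset (U → Fin b)).filter (fun om => M ≤ (Ex om).card ∧
    ((Ex om).filter (fun y => om y = t)).card ≤ m) with hBd
  have hprod : ∀ om : U → Fin b, ∏ y ∈ Ex om, w (om y) =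
      z ^ (Ex om).card * (1 / 2 : ℝ) ^ ((Ex om).filter (fun y => om y = t)).card := by
    intro om
    show ∏ y ∈ Ex om, z * (if om y = t then (1 / 2 : ℝ) else 1) = _
    rw [prod_mul_distrib, prod_const, prod_ite, prod_const, prod_const_one, mul_one]
  have h1 : (Bd.card : ℝ) * (z ^ M * (1 / 2 : ℝ) ^ m) ≤ (b : ℝ) ^ Fintype.card U := by
    rw [← h]
    calc (Bd.card : ℝ) * (z ^ M * (1 / 2 : ℝ) ^ m) = ∑ _om ∈ Bd, z ^ M * (1 / 2 : ℝ) ^ m := by
          rw [sum_const, nsmul_eq_mul]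
      _ ≤ ∑ om ∈ Bd, ∏ y ∈ Ex om, w (om y) := by
          apply sum_le_sum
          intro om hom
          rw [hBd, mem_filter] at hom
          rw [hprod]
          exact mul_le_mul (pow_le_pow_right₀ hz1 hom.2.1)
            (pow_le_pow_of_le_one (by norm_num) (by norm_num) hom.2.2) (by positivity)
            (by positivity)
      _ ≤ ∑ om : U → Fin b, ∏ y ∈ Ex om, w (om y) := by
          apply sum_le_sum_of_subset_of_nonneg (filter_subset _ _)
          intro om _ _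
          rw [hprod]
          positivity
  have hp := STB.pow_bound (2 * b) x M (by omega) hxM
  push_cast at hp
  rw [← hr] at hp
  have hzr : z ^ M * r ^ M = 1 := by
    rw [← mul_pow, hz, one_div_mul_cancel hrpos.ne', one_pow]
  have h2 : (Bd.card : ℝ) * (1 / 2 : ℝ) ^ m ≤ (b : ℝ) ^ Fintype.card U * (1 / 2 : ℝ) ^ x := by
    calc (Bd.card : ℝ) * (1 / 2 : ℝ) ^ m
        = (Bd.card : ℝ) * (z ^ M * (1 / 2 : ℝ) ^ m) * r ^ M := by
          calc (Bd.card : ℝ) * (1 / 2 : ℝ) ^ m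
              = (Bd.card : ℝ) * (1 / 2 : ℝ) ^ m * (z ^ M * r ^ M) := by rw [hzr, mul_one]
            _ = _ := by ring
      _ ≤ (b : ℝ) ^ Fintype.card U * r ^ M :=
          mul_le_mul_of_nonneg_right h1 (pow_nonneg hrpos.le _)
      _ ≤ (b : ℝ) ^ Fintype.card U * (1 / 2 : ℝ) ^ x :=
          mul_le_mul_of_nonneg_left hp (by positivity)
  have h3 : (2 : ℝ) ^ x * (Bd.card : ℝ) ≤ (2 : ℝ) ^ m * (b : ℝ) ^ Fintype.card U := by
    have e1 : ∀ n : ℕ, (2 : ℝ) ^ n * (1 / 2 : ℝ) ^ n = 1 := by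
      intro n
      rw [← mul_pow]
      norm_num
    have e2 := mul_le_mul_of_nonneg_left h2 (show (0 : ℝ) ≤ 2 ^ m * 2 ^ x by positivity)
    have e3 : (2 : ℝ) ^ m * 2 ^ x * ((Bd.card : ℝ) * (1 / 2 : ℝ) ^ m) =
        2 ^ x * Bd.card * (2 ^ m * (1 / 2 : ℝ) ^ m) := by ring
    have e4 : (2 : ℝ) ^ m * 2 ^ x * ((b : ℝ) ^ Fintype.card U * (1 / 2 : ℝ) ^ x) =
        2 ^ m * (b : ℝ) ^ Fintype.card U * (2 ^ x * (1 / 2 : ℝ) ^ x) := by ring
    rw [e3, e4, e1, e1, mul_one, mul_one] at e2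
    exact e2
  exact_mod_cast h3

end JON
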