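import Pool.Agent.Work.MP_a7fe73_nl.Interface

/-! # MP_a7fe73_co, near linear: block SUB -/

set_option autoImplicit false

namespace JON
open scoped Classical
open Finset

/-- Block SUB. -/
theorem p_SUB : Stmt_SUB := by
  intro V R k
  induction k with
  | zero =>
    rw [pow_zero]
    refine card_le_one.2 fun C hC C' hC' => ?_
    rw [mem_filter] at hC hC'
    rw [card_eq_zero.1 (Nat.le_zero.1 hC.2), card_eq_zero.1 (Nat.le_zero.1 hC'.2)]
  | succ k ih =>
    obtain ⟨FF, hFF⟩ : ∃ FF, FF = R.powerset.filter (fun C => C.card ≤ k) := ⟨_, rfl⟩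
    rw [← hFF] at ih
    have hsub : R.powerset.filter (fun C => C.card ≤ k + 1) ⊆
        FF ∪ R.biUnion fun v => FF.image (insert v) := by
      intro C hC
      rw [mem_filter, mem_powerset] at hC
      rw [mem_union]
      by_cases hk : C.card ≤ k
      · left
        rw [hFF, mem_filter, mem_powerset]
        exact ⟨hC.1, hk⟩
      · right
        have hne : C.Nonempty := by
          rw [← card_pos]
          omega
        obtain ⟨v, hv⟩ := hne
        rw [mem_biUnion]
        refine ⟨v, hC.1 hv, ?_⟩
        rw [mem_image]
        refine ⟨C.erase v, ?_, insert_erase hv⟩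
        rw [hFF, mem_filter, mem_powerset]
        refine ⟨(erase_subset v C).trans hC.1, ?_⟩
        rw [card_erase_of_mem hv]
        omega
    have h1 : (R.biUnion fun v => FF.image (insert v)).card ≤ R.card * FF.card :=
      card_biUnion_le_card_mul R _ _ fun v _ => card_image_le
    calc (R.powerset.filter (fun C => C.card ≤ k + 1)).card
        ≤ (FF ∪ R.biUnion fun v => FF.image (insert v)).card := card_le_card hsub
      _ ≤ FF.card + (R.biUnion fun v => FF.image (insert v)).card := card_union_le _ _
      _ ≤ FF.card + R.card * FF.card := Nat.add_le_add_left h1 _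
      _ = (R.card + 1) * FF.card := by ring
      _ ≤ (R.card + 1) * (R.card + 1) ^ k := Nat.mul_le_mul_left _ ih
      _ = (R.card + 1) ^ (k + 1) := by ring

end JON
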