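import Pool.Agent.Work.MP_a7fe73_nl.Interface

set_option autoImplicit false
set_option linter.unusedSectionVars false

/-! Block TYA: types bad for one pair R, T -/

namespace JON
open scoped Classical
open Finset

namespace TYA

theorem fin2 (p : Fin 2) : ∃ τ : Fin 2, τ ≠ p := ⟨p + 1, by revert p; decide⟩

theorem card_le {V : Type} {D : Digraph V} {W : Finset V} {pos : V → ℕ} {N : ℕ} {sl : V → Fin N}
    {par : V → Fin 2} {R : Finset V} (hS : Slots W pos N sl par) :
    (nbr D W R).card ≤ 2 * ((nbr D W R).image sl).card := by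
  apply card_le_mul_card_image
  intro i _
  have h : ((nbr D W R).filter (fun w => sl w = i)).card ≤ (univ : Finset (Fin 2)).card := by
    apply card_le_card_of_injOn par (fun _ _ => mem_coe.2 (mem_univ _))
    intro w hw w' hw' h
    rw [mem_coe, mem_filter, mem_nbr] at hw hw'
    exact hS.inj w hw.1.1 w' hw'.1.1 (hw.2.trans hw'.2.symm) h
  simpa using h

theorem mf {α : Type} (q : α → Prop) (inst : DecidablePred q) (s : Finset α) (i : α)
    (h : i ∈ @filter α q inst s) : i ∈ s ∧ q i := mem_filter.1 h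

end TYA

theorem p_TYA (hB : Stmt_CTB) : Stmt_TYA := by
  intro V D W pos N sl par R T x r hS hx
  have h1 := TYA.card_le (D := D) (R := R) hS
  have h2 : ∀ i : Fin N, ∃ τ : Fin 2, i ∈ (nbr D W R).image sl → ∃ w ∈ nbr D W R, sl w = i ∧
      ((pos w ∉ T ∧ τ = par w) ∨ (pos w ∈ T ∧ τ ≠ par w)) := by
    intro i
    by_cases hi : i ∈ (nbr D W R).image sl
    · obtain ⟨w, hw, hwi⟩ := mem_image.1 hi
      by_cases hp : pos w ∈ T
      · obtain ⟨τ, hτ⟩ := TYA.fin2 (par w)
        exact ⟨τ, fun _ => ⟨w, hw, hwi, Or.inr ⟨hp, hτ⟩⟩⟩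
      · exact ⟨par w, fun _ => ⟨w, hw, hwi, Or.inl ⟨hp, rfl⟩⟩⟩
    · exact ⟨0, fun h => absurd h hi⟩
  choose t ht using h2
  have h3 := hB (Fin N) (Fin N) 2 1 t univ ((nbr D W R).image sl) (fun i => {i}) (by norm_num)
    (fun j _ => by simp) (fun i _ j _ hij => by simpa using hij) (fun _ _ _ _ => mem_univ _)
    r x (by omega)
  have h4 : (univ : Finset (Fin N → Fin 2)).card = 2 ^ N := by simp
  rw [h4] at h3
  refine le_trans (Nat.mul_le_mul_left _ (card_le_card ?_)) h3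
  intro om hom
  rw [mem_filter] at hom ⊢
  refine ⟨mem_univ _, lt_of_le_of_lt ?_ hom.2⟩
  refine le_trans (card_le_card (t := (mis D (TX W sl par om) (TY W sl par om) R pos T).image sl)
    ?_) card_image_le
  intro i hi
  obtain ⟨hi1, hi2⟩ := TYA.mf _ _ _ _ hi
  obtain ⟨w, hw, hwi, h5⟩ := ht i hi1
  have h6 : om i = t i := hi2 i (mem_singleton_self i)
  rw [mem_nbr] at hw
  rw [mem_image]
  refine ⟨w, ?_, hwi⟩
  rw [mem_mis, mem_TX, mem_TY]
  refine ⟨hw.2, ?_⟩
  rcases h5 with ⟨h7, h8⟩ | ⟨h7, h8⟩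
  · left
    exact ⟨⟨hw.1, by rw [hwi, h6, h8]⟩, h7⟩
  · right
    exact ⟨⟨hw.1, by rw [hwi, h6]; exact h8⟩, h7⟩

end JON
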