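import Pool.Agent.Work.MP_a7fe73_nl.Interface

set_option autoImplicit false
set_option linter.unusedSectionVars false

namespace JON
open scoped Classical
open Finset

theorem TYB.geo (n : ℕ) : ∑ r ∈ Finset.Icc 1 n, ((1 : ℝ) / 4) ^ r = (1 - (1 / 4) ^ n) / 3 := by
  induction n with
  | zero => simp
  | succ n ih =>
    rw [Finset.sum_Icc_succ_top (by omega), ih, pow_succ]
    ring

theorem p_TYB (hTYA : Stmt_TYA) (hSUB : Stmt_SUB) (hBDC : Stmt_BDC) : Stmt_TYB := by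
  intro V _ D W U0 pos L N T l sl par hSl hL hl hV hT hR
  by_contra hcon
  push Not at hcon
  set n := Fintype.card V with hn
  let Bad : ℕ → Finset (Fin N → Fin 2) := fun ρ => univ.filter (fun om => ∃ R : Finset V,
    R ⊆ U0 ∧ Stab D R ∧ R.card = ρ ∧ ∃ T' : Finset ℕ, T' ⊆ range L ∧ (bd L T').card ≤ 2 * ρ ∧
      (mis D (TX W sl par om) (TY W sl par om) R pos T').card < 3 * ρ)
  have hbad : ∀ ρ, 1 ≤ ρ → 4 ^ ρ * (Bad ρ).card ≤ 2 ^ N := by
    intro ρ hρ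
    let PR : Finset (Finset V) := ((univ : Finset V).powerset.filter (fun C => C.card ≤ ρ)).filter
      (fun R => R ⊆ U0 ∧ Stab D R ∧ R.card = ρ)
    let PT : Finset (Finset ℕ) := (range L).powerset.filter (fun T => (bd L T).card ≤ 2 * ρ)
    let bb : Finset V × Finset ℕ → Finset (Fin N → Fin 2) := fun p => univ.filter (fun om =>
      (mis D (TX W sl par om) (TY W sl par om) p.1 pos p.2).card < 3 * ρ)
    have h1 : Bad ρ ⊆ (PR ×ˢ PT).biUnion bb := by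
      intro om hom
      obtain ⟨R, r1, r2, r3, T', t1, t2, t3⟩ := (mem_filter.1 hom).2
      rw [mem_biUnion]
      refine ⟨(R, T'), mem_product.2 ⟨?_, ?_⟩, mem_filter.2 ⟨mem_univ _, t3⟩⟩
      · exact mem_filter.2 ⟨mem_filter.2 ⟨mem_powerset.2 (subset_univ _), r3.le⟩, r1, r2, r3⟩
      · exact mem_filter.2 ⟨mem_powerset.2 t1, t2⟩
    have h2 : (Bad ρ).card ≤ ∑ p ∈ PR ×ˢ PT, (bb p).card :=
      (card_le_card h1).trans card_biUnion_le
    have h3 : ∀ p ∈ PR ×ˢ PT, 2 ^ (8 * l * ρ) * (bb p).card ≤ 2 ^ (3 * ρ) * 2 ^ N := by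
      intro p hp
      obtain ⟨hp1, -⟩ := mem_product.1 hp
      obtain ⟨-, q1, q2, q3⟩ := mem_filter.1 hp1
      apply hTYA V D W pos N sl par p.1 p.2 (8 * l * ρ) (3 * ρ) hSl
      have h4 := hR p.1 q1 q2
      rw [q3] at h4
      have h5 : 70 * l * ρ ≤ T * ρ := Nat.mul_le_mul_right _ hT
      have h6 : 1 ≤ l * ρ := Nat.mul_pos hl hρ
      have e1 : 70 * l * ρ = 70 * (l * ρ) := by ring
      have e2 : 8 * (8 * l * ρ) = 64 * (l * ρ) := by ring
      rw [e1] at h5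
      rw [e2]
      omega
    have h4 : (PR ×ˢ PT).card ≤ 2 ^ (3 * l * ρ) := by
      rw [card_product]
      have a1 : PR.card ≤ (n + 1) ^ ρ := by
        refine (card_filter_le _ _).trans ?_
        have := hSUB V (univ : Finset V) ρ
        rw [card_univ] at this
        exact this
      have a2 : PT.card ≤ (n + 1) ^ (2 * ρ) :=
        (hBDC L (2 * ρ)).trans (Nat.pow_le_pow_left (by omega) _)
      calc PR.card * PT.card ≤ (n + 1) ^ ρ * (n + 1) ^ (2 * ρ) := Nat.mul_le_mul a1 a2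
        _ = (n + 1) ^ (3 * ρ) := by rw [← pow_add]; congr 1; ring
        _ ≤ (2 ^ l) ^ (3 * ρ) := Nat.pow_le_pow_left hV _
        _ = 2 ^ (3 * l * ρ) := by rw [← pow_mul]; congr 1; ring
    have h5 : 2 ^ (8 * l * ρ) * (Bad ρ).card ≤ 2 ^ (3 * l * ρ) * (2 ^ (3 * ρ) * 2 ^ N) := by
      calc 2 ^ (8 * l * ρ) * (Bad ρ).card ≤ 2 ^ (8 * l * ρ) * ∑ p ∈ PR ×ˢ PT, (bb p).card :=
            Nat.mul_le_mul_left _ h2
        _ = ∑ p ∈ PR ×ˢ PT, 2 ^ (8 * l * ρ) * (bb p).card := by rw [mul_sum]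
        _ ≤ ∑ _p ∈ PR ×ˢ PT, 2 ^ (3 * ρ) * 2 ^ N := sum_le_sum h3
        _ = (PR ×ˢ PT).card * (2 ^ (3 * ρ) * 2 ^ N) := by rw [sum_const, smul_eq_mul]
        _ ≤ _ := Nat.mul_le_mul_right _ h4
    have h6 : 2 ^ (3 * l * ρ + 3 * ρ) * 4 ^ ρ ≤ 2 ^ (8 * l * ρ) := by
      have e : (4 : ℕ) ^ ρ = 2 ^ (2 * ρ) := by rw [pow_mul]; norm_num
      rw [e, ← pow_add]
      apply Nat.pow_le_pow_right (by norm_num)
      have h7 : ρ ≤ l * ρ := Nat.le_mul_of_pos_left _ hl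
      have e1 : 3 * l * ρ = 3 * (l * ρ) := by ring
      have e2 : 8 * l * ρ = 8 * (l * ρ) := by ring
      rw [e1, e2]
      omega
    have h7 : 2 ^ (3 * l * ρ + 3 * ρ) * (4 ^ ρ * (Bad ρ).card) ≤
        2 ^ (3 * l * ρ + 3 * ρ) * 2 ^ N := by
      calc 2 ^ (3 * l * ρ + 3 * ρ) * (4 ^ ρ * (Bad ρ).card) =
            2 ^ (3 * l * ρ + 3 * ρ) * 4 ^ ρ * (Bad ρ).card := by ring
        _ ≤ 2 ^ (8 * l * ρ) * (Bad ρ).card := Nat.mul_le_mul_right _ h6
        _ ≤ _ := h5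
        _ = _ := by rw [pow_add]; ring
    exact Nat.le_of_mul_le_mul_left h7 (by positivity)
  have hcover : (univ : Finset (Fin N → Fin 2)) ⊆ (Finset.Icc 1 n).biUnion Bad := by
    intro om _
    have h1 := hcon om
    unfold Star at h1
    push Not at h1
    obtain ⟨R, r1, r2, r3, T', t1, t2, t3⟩ := h1
    rw [mem_biUnion]
    refine ⟨R.card, Finset.mem_Icc.2 ⟨card_pos.2 r3, card_le_univ R⟩, ?_⟩
    exact mem_filter.2 ⟨mem_univ _, R, r1, r2, rfl, T', t1, t2, t3⟩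
  have h1 : (2 : ℕ) ^ N ≤ ∑ ρ ∈ Finset.Icc 1 n, (Bad ρ).card := by
    have h2 := (card_le_card hcover).trans card_biUnion_le
    rw [card_univ, Fintype.card_fun, Fintype.card_fin, Fintype.card_fin] at h2
    exact h2
  have h2 : ∀ ρ ∈ Finset.Icc 1 n, ((Bad ρ).card : ℝ) ≤ 2 ^ N * (1 / 4) ^ ρ := by
    intro ρ hρ
    have h3 := hbad ρ (Finset.mem_Icc.1 hρ).1
    have h4 : (4 : ℝ) ^ ρ * ((Bad ρ).card : ℝ) ≤ 2 ^ N := by exact_mod_cast h3
    rw [one_div, inv_pow, ← div_eq_mul_inv, le_div_iff₀ (by positivity)]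
    linarith
  have h3 : (2 : ℝ) ^ N ≤ ∑ ρ ∈ Finset.Icc 1 n, ((Bad ρ).card : ℝ) := by exact_mod_cast h1
  have h4 := h3.trans (sum_le_sum h2)
  rw [← mul_sum, TYB.geo] at h4
  have h5 : (0 : ℝ) < 2 ^ N := by positivity
  have h6 : (0 : ℝ) ≤ (1 / 4) ^ n := by positivity
  nlinarith

end JON
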