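import Pool.Agent.Work.MP_a7fe73_nl.B_LEV
import Pool.Agent.Work.MP_a7fe73_nl.B_HALL
import Pool.Agent.Work.MP_a7fe73_nl.B_DUL
import Pool.Agent.Work.MP_a7fe73_nl.B_PRE
import Pool.Agent.Work.MP_a7fe73_nl.B_DEG
import Pool.Agent.Work.MP_a7fe73_nl.B_CHE
import Pool.Agent.Work.MP_a7fe73_nl.B_HUB
import Pool.Agent.Work.MP_a7fe73_nl.B_CA2
import Pool.Agent.Work.MP_a7fe73_nl.B_ROBS
import Pool.Agent.Work.MP_a7fe73_nl.B_CO2
import Pool.Agent.Work.MP_a7fe73_nl.B_CTA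
import Pool.Agent.Work.MP_a7fe73_nl.B_CTB
import Pool.Agent.Work.MP_a7fe73_nl.B_SUB
import Pool.Agent.Work.MP_a7fe73_nl.B_BD2
import Pool.Agent.Work.MP_a7fe73_nl.B_SD2
import Pool.Agent.Work.MP_a7fe73_nl.B_SP2
import Pool.Agent.Work.MP_a7fe73_nl.B_HCARD
import Pool.Agent.Work.MP_a7fe73_nl.B_CB2
import Pool.Agent.Work.MP_a7fe73_nl.B_LINKH
import Pool.Agent.Work.MP_a7fe73_nl.B_LINKC
import Pool.Agent.Work.MP_a7fe73_nl.B_RLK
import Pool.Agent.Work.MP_a7fe73_nl.B_ASA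
import Pool.Agent.Work.MP_a7fe73_nl.B_ASB
import Pool.Agent.Work.MP_a7fe73_nl.B_ASC
import Pool.Agent.Work.MP_a7fe73_nl.B_ASM
import Pool.Agent.Work.MP_a7fe73_nl.B_PTC
import Pool.Agent.Work.MP_a7fe73_nl.B_SPN
import Pool.Agent.Work.MP_a7fe73_nl.B_SLT
import Pool.Agent.Work.MP_a7fe73_nl.B_BAL
import Pool.Agent.Work.MP_a7fe73_nl.B_TYA
import Pool.Agent.Work.MP_a7fe73_nl.B_BDC
import Pool.Agent.Work.MP_a7fe73_nl.B_TYB
import Pool.Agent.Work.MP_a7fe73_nl.B_TYP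
import Pool.Agent.Work.MP_a7fe73_nl.B_CSC
import Pool.Agent.Work.MP_a7fe73_nl.B_CSD
import Pool.Agent.Work.MP_a7fe73_nl.B_PSI
import Pool.Agent.Work.MP_a7fe73_nl.B_HSA
import Pool.Agent.Work.MP_a7fe73_nl.B_HSB
import Pool.Agent.Work.MP_a7fe73_nl.B_HSC
import Pool.Agent.Work.MP_a7fe73_nl.B_ABL
import Pool.Agent.Work.MP_a7fe73_nl.B_HSD
import Pool.Agent.Work.MP_a7fe73_nl.B_HLS
import Pool.Agent.Work.MP_a7fe73_nl.B_CSE
import Pool.Agent.Work.MP_a7fe73_nl.B_GRD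
import Pool.Agent.Work.MP_a7fe73_nl.B_LOW
import Pool.Agent.Work.MP_a7fe73_nl.B_DRA
import Pool.Agent.Work.MP_a7fe73_nl.B_DRC
import Pool.Agent.Work.MP_a7fe73_nl.B_CLA
import Pool.Agent.Work.MP_a7fe73_nl.B_STA
import Pool.Agent.Work.MP_a7fe73_nl.B_STB
import Pool.Agent.Work.MP_a7fe73_nl.B_GRA
import Pool.Agent.Work.MP_a7fe73_nl.B_BD3
import Pool.Agent.Work.MP_a7fe73_nl.B_GRB
import Pool.Agent.Work.MP_a7fe73_nl.B_SD3
import Pool.Agent.Work.MP_a7fe73_nl.B_CT3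
import Pool.Agent.Work.MP_a7fe73_nl.B_SP3
import Pool.Agent.Work.MP_a7fe73_nl.B_SHM
import Pool.Agent.Work.MP_a7fe73_nl.B_SHL
import Pool.Agent.Work.MP_a7fe73_nl.B_MID
import Pool.Agent.Work.MP_a7fe73_nl.B_CL3
import Pool.Agent.Work.MP_a7fe73_nl.B_FAN
import Pool.Agent.Work.MP_a7fe73_nl.B_HLL
import Pool.Agent.Work.MP_a7fe73_nl.B_CLC
import Pool.Agent.Work.MP_a7fe73_nl.B_FI3

/-! Jackson and Ordaz, connectivity of order a log a, and of order a for many vertices (row MP_a7fe73_co, theorem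
NearLinear): assembly of all blocks. -/

namespace JON

theorem t_LEV : Stmt_LEV := p_LEV 
theorem t_HALL : Stmt_HALL := p_HALL 
theorem t_DUL : Stmt_DUL := p_DUL t_HALL
theorem t_PRE : Stmt_PRE := p_PRE t_LEV t_DUL
theorem t_DEG : Stmt_DEG := p_DEG 
theorem t_CHE : Stmt_CHE := p_CHE 
theorem t_HUB : Stmt_HUB := p_HUB t_DEG t_CHE
theorem t_CA2 : Stmt_CA2 := p_CA2 t_PRE t_HUB
theorem t_ROBS : Stmt_ROBS := p_ROBS 
theorem t_CO2 : Stmt_CO2 := p_CO2 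
theorem t_CTA : Stmt_CTA := p_CTA 
theorem t_CTB : Stmt_CTB := p_CTB t_CTA
theorem t_SUB : Stmt_SUB := p_SUB 
theorem t_BD2 : Stmt_BD2 := p_BD2 t_CTB t_SUB
theorem t_SD2 : Stmt_SD2 := p_SD2 
theorem t_SP2 : Stmt_SP2 := p_SP2 t_CO2 t_BD2 t_SD2
theorem t_HCARD : Stmt_HCARD := p_HCARD 
theorem t_CB2 : Stmt_CB2 := p_CB2 t_CA2 t_ROBS t_SP2 t_HCARD
theorem t_LINKH : Stmt_LINKH := p_LINKH t_HALL
theorem t_LINKC : Stmt_LINKC := p_LINKC 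
theorem t_RLK : Stmt_RLK := p_RLK t_LINKH t_LINKC
theorem t_ASA : Stmt_ASA := p_ASA 
theorem t_ASB : Stmt_ASB := p_ASB 
theorem t_ASC : Stmt_ASC := p_ASC 
theorem t_ASM : Stmt_ASM := p_ASM t_ASA t_ASB t_ASC
theorem t_PTC : Stmt_PTC := p_PTC 
theorem t_SPN : Stmt_SPN := p_SPN t_ASM t_PTC
theorem t_SLT : Stmt_SLT := p_SLT 
theorem t_BAL : Stmt_BAL := p_BAL 
theorem t_TYA : Stmt_TYA := p_TYA t_CTB
theorem t_BDC : Stmt_BDC := p_BDC t_SUB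
theorem t_TYB : Stmt_TYB := p_TYB t_TYA t_SUB t_BDC
theorem t_TYP : Stmt_TYP := p_TYP t_SLT t_BAL t_TYB
theorem t_CSC : Stmt_CSC := p_CSC t_RLK t_SPN t_TYP t_HCARD
theorem t_CSD : Stmt_CSD := p_CSD t_CSC t_RLK t_HCARD
theorem t_PSI : Stmt_PSI := p_PSI 
theorem t_HSA : Stmt_HSA := p_HSA 
theorem t_HSB : Stmt_HSB := p_HSB 
theorem t_HSC : Stmt_HSC := p_HSC 
theorem t_ABL : Stmt_ABL := p_ABL 
theorem t_HSD : Stmt_HSD := p_HSD t_ABL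
theorem t_HLS : Stmt_HLS := p_HLS t_HALL t_HSA t_HSB t_HSC t_HSD
theorem t_CSE : Stmt_CSE := p_CSE t_PSI t_HLS t_ASM
theorem t_GRD : Stmt_GRD := p_GRD 
theorem t_LOW : Stmt_LOW := p_LOW t_GRD
theorem t_DRA : Stmt_DRA := p_DRA t_LOW
theorem t_DRC : Stmt_DRC := p_DRC t_DRA t_GRD
theorem t_CLA : Stmt_CLA := p_CLA t_DRC
theorem t_STA : Stmt_STA := p_STA 
theorem t_STB : Stmt_STB := p_STB t_STA
theorem t_GRA : Stmt_GRA := p_GRA 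
theorem t_BD3 : Stmt_BD3 := p_BD3 t_STB t_CTB t_GRA
theorem t_GRB : Stmt_GRB := p_GRB 
theorem t_SD3 : Stmt_SD3 := p_SD3 t_GRA t_GRB
theorem t_CT3 : Stmt_CT3 := p_CT3 
theorem t_SP3 : Stmt_SP3 := p_SP3 t_CO2 t_BD3 t_SD3 t_CT3
theorem t_SHM : Stmt_SHM := p_SHM 
theorem t_SHL : Stmt_SHL := p_SHL t_SHM
theorem t_MID : Stmt_MID := p_MID 
theorem t_CL3 : Stmt_CL3 := p_CL3 t_CLA t_HUB t_HCARD t_ROBS t_SP3 t_RLK t_SHL t_MID
theorem t_FAN : Stmt_FAN := p_FAN 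
theorem t_HLL : Stmt_HLL := p_HLL t_HALL t_HSA
theorem t_CLC : Stmt_CLC := p_CLC t_PSI t_FAN t_HLL t_ASM
theorem t_FI3 : Stmt_FI3 := p_FI3 t_CB2 t_CSD t_CSE t_CL3 t_CLC

/-- Every k-strong digraph with oriented stability number at most a, where k is at least 12000 a and (there are at least
22528 a^5 vertices or k is at least 520000 a clog (a + 1)), has a permutation with one cycle along arcs. -/
theorem fin3 : Stmt_FI3 := t_FI3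

end JON
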