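import Pool.Agent.Work.MP_a7fe73_nl.Interface

set_option autoImplicit false

open scoped Classical

namespace JON

open Finset

theorem p_ALV : Stmt_ALV := by
  intro V D R S S1 C u v p hu hv hSR hno hcon hS1
  by_contra hne
  push Not at hne
  obtain ⟨hadj, hx, hy⟩ := hcon
  -- facts on the support
  have hec1 : p.1 ≠ u → p.1 ≠ v → p.1 ∉ S \ C → p.1 ∈ S1 ∧ p.1 ∉ C := by
    intro k1 k2 k3
    have hm : p.1 ∈ ec u v (S \ C) p := mem_ec.mpr ⟨Or.inl rfl, k1, k2, k3⟩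
    exact ⟨hS1 _ hm, hne _ hm⟩
  have hec2 : p.2 ≠ u → p.2 ≠ v → p.2 ∉ S \ C → p.2 ∈ S1 ∧ p.2 ∉ C := by
    intro k1 k2 k3
    have hm : p.2 ∈ ec u v (S \ C) p := mem_ec.mpr ⟨Or.inr rfl, k1, k2, k3⟩
    exact ⟨hS1 _ hm, hne _ hm⟩
  have hnu : ∀ z ∈ R, z ≠ u := fun z hz h => hu (h ▸ hz)
  have hnv : ∀ z ∈ R, z ≠ v := fun z hz h => hv (h ▸ hz)
  have hRx : Relation.ReflTransGen (fun a b => D.Adj a b ∧ (b ∈ S ∨ b ∈ S1) ∧ b ∉ C) u p.1 := by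
    rcases hx with hx | ⟨hxR, hlam⟩
    · rw [hx]
    · rcases hlam with hP | ⟨hxS, z, hz, hzx⟩
      · exact (mem_P0.mp hP).2
      · obtain ⟨k1, k2⟩ := hec1 (hnu _ hxR) (hnv _ hxR) hxS
        exact (mem_P0.mp hz).2.tail ⟨hzx.2.2, Or.inr k1, k2⟩
  rcases hy with hy | ⟨hyR, hlam⟩
  · apply hno
    exact ⟨p.1, hRx, hy ▸ hadj⟩
  · rcases hlam with ⟨hyS, hyP⟩ | ⟨hyS, z, hzS, hzP, hyz⟩
    · apply hyP
      rw [mem_sdiff] at hyS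
      exact mem_P0.mpr ⟨hyS, hRx.tail ⟨hadj, Or.inl hyS.1, hyS.2⟩⟩
    · obtain ⟨k1, k2⟩ := hec2 (hnu _ hyR) (hnv _ hyR) hyS
      have hRy := hRx.tail ⟨hadj, Or.inr k1, k2⟩
      apply hzP
      rw [mem_sdiff] at hzS
      exact mem_P0.mpr ⟨hzS, hRy.tail ⟨hyz.2.1, Or.inl hzS.1, hzS.2⟩⟩

end JON
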