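import Pool.Agent.Work.MP_a7fe73_nl.Interface

set_option autoImplicit false
set_option linter.unusedSectionVars false

/-! # Block ASA (helper59): the permutation of the assembly lemma -/

namespace JON
open scoped Classical
open Finset

noncomputable section

namespace ASA

/-- gluing partial injections -/
private theorem gen {V : Type} [Fintype V] (R : ℕ → V → V → Prop) (kP kT : V → ℕ)
    (ha : ∀ u, ∃ k w, R k u w) (hb : ∀ k u w, R k u w → kP u = k)
    (hc : ∀ k u w, R k u w → kT w = k) (hd : ∀ k u w w', R k u w → R k u w' → w = w')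
    (he : ∀ k u v w, R k u w → R k v w → u = v) :
    ∃ σ : Equiv.Perm V, ∀ k u w, R k u w → σ u = w := by
  choose k w hkw using ha
  have h1 : ∀ j u w', R j u w' → w u = w' := by
    intro j u w' h
    have h2 : j = k u := (hb j u w' h).symm.trans (hb _ _ _ (hkw u))
    subst h2
    exact hd _ _ _ _ (hkw u) h
  have hinj : Function.Injective w := by
    intro u v huv
    have h2 := hkw u
    have h3 := hkw v
    rw [← huv] at h3
    have h4 : k u = k v := (hc _ _ _ h2).symm.trans (hc _ _ _ h3)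
    rw [h4] at h2
    exact he _ _ _ _ h2 h3
  refine ⟨Equiv.ofBijective w (Finite.injective_iff_bijective.1 hinj), ?_⟩
  intro j u w' h
  exact h1 j u w' h

section
variable {V : Type} (m : ℕ) (g : ℕ → Fin 4 → V) (X Y Q U W1 W2 : Finset V) (f1 f2 F : V → V)

/-- the graph of the permutation, in seven pieces -/
private def R : ℕ → V → V → Prop
  | 0, u, w => ∃ i < m, u = g i 0 ∧ w = g i 2
  | 1, u, w => ∃ i < m, u = g i 1 ∧ w = g i 3
  | 2, u, w => ∃ i, i + 1 < m ∧ u = g i 2 ∧ w = g (i + 1) 0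
  | 3, u, w => (u ∈ hout m g ∨ u ∈ W1) ∧ w = f1 u
  | 4, u, w => (u ∈ X ∪ Q ∨ u ∈ W2) ∧ w = f2 u
  | 5, u, w => (u ∈ Y ∨ u ∈ U) ∧ w = F u
  | 6, u, w => u ∉ Sp m g X Y Q U W1 W2 ∧ w = u
  | _, _, _ => False

private def kP (v : V) : ℕ :=
  if v ∈ hubV m g then
    (if ∃ i < m, v = g i 0 then 0 else if ∃ i < m, v = g i 1 then 1 else
      if ∃ i, i + 1 < m ∧ v = g i 2 then 2 else 3)
  else (if v ∈ W1 then 3 else if v ∈ X ∪ Q ∨ v ∈ W2 then 4 else if v ∈ Y ∨ v ∈ U then 5 else 6)

private def kT (v : V) : ℕ :=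
  if v ∈ hubV m g then
    (if ∃ i < m, v = g i 2 then 0 else if ∃ i < m, v = g i 3 then 1 else
      if ∃ i, i + 1 < m ∧ v = g (i + 1) 0 then 2 else 4)
  else (if v ∈ W1 ∨ v ∈ Y ∪ Q then 3 else if v ∈ W2 then 4 else if v ∈ U ∨ v ∈ X then 5 else 6)

end

end ASA

open JON.ASA in
theorem p_ASA : Stmt_ASA := by
  intro V _ D m g X Y Q U W1 W2 f1 f2 F psi1 psi2 psi h
  have hm := h.hm
  have inj := h.hub.inj
  have hhub : ∀ i < m, ∀ c, g i c ∈ hubV m g := fun i hi c => mem_hubV.2 ⟨i, hi, c, rfl⟩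
  have hne : ∀ i < m, ∀ j < m, ∀ c d, c ≠ d → g i c ≠ g j d :=
    fun i hi j hj c d hcd e => hcd (inj i hi j hj c d e).2
  have hout' : ∀ v, v ∈ hout m g → v ∈ hubV m g := by
    intro v hv
    rcases mem_hout.1 hv with rfl | ⟨i, hi, rfl⟩
    · exact hhub _ (by omega) _
    · exact hhub _ hi _
  have hin' : ∀ v, v ∈ hin m g → v ∈ hubV m g := by
    intro v hv
    rcases mem_hin.1 hv with rfl | ⟨i, hi, rfl⟩
    · exact hhub _ (by omega) _
    · exact hhub _ hi _
  have hdis := h.dis
  simp only [List.pairwise_cons, List.mem_cons, List.not_mem_nil, or_false, forall_eq_or_imp,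
    forall_eq, IsEmpty.forall_iff, implies_true, List.Pairwise.nil, and_true] at hdis
  obtain ⟨⟨a1, a2, a3, a4, a5, a6⟩, ⟨b2, b3, b4, b5, b6⟩, ⟨c3, c4, c5, c6⟩, ⟨d4, d5, d6⟩,
    ⟨e5, e6⟩, f6⟩ := hdis
  rw [Finset.disjoint_left] at a1 a2 a3 a4 a5 a6 b2 b3 b4 b5 b6 c3 c4 c5 c6 d4 d5 d6 e5 e6 f6
  suffices hs : ∃ σ : Equiv.Perm V, ∀ k u w, R m g X Y Q U W1 W2 f1 f2 F k u w → σ u = w by
    obtain ⟨σ, hσ⟩ := hs
    refine ⟨σ, ?_, ?_, ?_, ?_, ?_⟩
    · intro i hi
      exact ⟨hσ 0 _ _ ⟨i, hi, rfl, rfl⟩, hσ 1 _ _ ⟨i, hi, rfl, rfl⟩⟩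
    · intro i hi
      exact hσ 2 _ _ ⟨i, hi, rfl, rfl⟩
    · intro v hv
      exact hσ 3 _ _ ⟨hv, rfl⟩
    · intro v hv
      exact hσ 4 _ _ ⟨hv, rfl⟩
    · intro v hv
      exact hσ 5 _ _ ⟨hv, rfl⟩
  refine gen (R m g X Y Q U W1 W2 f1 f2 F) (kP m g X Y Q U W1 W2)
    (kT m g X Y Q U W1 W2) ?_ ?_ ?_ ?_ ?_
  · -- every vertex is in a piece
    intro u
    by_cases h1 : u ∈ hubV m g
    · obtain ⟨i, hi, c, rfl⟩ := mem_hubV.1 h1
      have hc : c = 0 ∨ c = 1 ∨ c = 2 ∨ c = 3 := by
        fin_cases c <;> simp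
      rcases hc with rfl | rfl | rfl | rfl
      · exact ⟨0, _, i, hi, rfl, rfl⟩
      · exact ⟨1, _, i, hi, rfl, rfl⟩
      · by_cases h2 : i + 1 < m
        · exact ⟨2, _, i, h2, rfl, rfl⟩
        · refine ⟨3, _, Or.inl (mem_hout.2 (Or.inl ?_)), rfl⟩
          have : i = m - 1 := by omega
          rw [this]
      · exact ⟨3, _, Or.inl (mem_hout.2 (Or.inr ⟨i, hi, rfl⟩)), rfl⟩
    · by_cases h2 : u ∈ W1
      · exact ⟨3, _, Or.inr h2, rfl⟩
      by_cases h3 : u ∈ X ∪ Q ∨ u ∈ W2
      · exact ⟨4, _, h3, rfl⟩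
      by_cases h4 : u ∈ Y ∨ u ∈ U
      · exact ⟨5, _, h4, rfl⟩
      · refine ⟨6, u, ?_, rfl⟩
        unfold Sp
        simp only [mem_union] at h3 ⊢
        tauto
  · -- class of the source
    intro k u w hR
    match k, hR with
    | 0, hR =>
      obtain ⟨i, hi, rfl, rfl⟩ := hR
      unfold kP
      rw [if_pos (hhub i hi 0), if_pos ⟨i, hi, rfl⟩]
    | 1, hR =>
      obtain ⟨i, hi, rfl, rfl⟩ := hR
      unfold kP
      rw [if_pos (hhub i hi 1), if_neg, if_pos ⟨i, hi, rfl⟩]
      rintro ⟨j, hj, e⟩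
      exact hne i hi j hj 1 0 (by decide) e
    | 2, hR =>
      obtain ⟨i, hi, rfl, rfl⟩ := hR
      unfold kP
      rw [if_pos (hhub i (by omega) 2), if_neg, if_neg, if_pos ⟨i, hi, rfl⟩]
      · rintro ⟨j, hj, e⟩
        exact hne i (by omega) j hj 2 1 (by decide) e
      · rintro ⟨j, hj, e⟩
        exact hne i (by omega) j hj 2 0 (by decide) e
    | 3, hR =>
      obtain ⟨h1, rfl⟩ := hR
      unfold kP
      rcases h1 with h1 | h1
      · rw [if_pos (hout' _ h1)]
        rcases mem_hout.1 h1 with rfl | ⟨i, hi, rfl⟩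
        · rw [if_neg, if_neg, if_neg]
          · rintro ⟨j, hj, e⟩
            have := (inj (m - 1) (by omega) j (by omega) 2 2 e).1
            omega
          · rintro ⟨j, hj, e⟩
            exact hne (m - 1) (by omega) j hj 2 1 (by decide) e
          · rintro ⟨j, hj, e⟩
            exact hne (m - 1) (by omega) j hj 2 0 (by decide) e
        · rw [if_neg, if_neg, if_neg]
          · rintro ⟨j, hj, e⟩
            exact hne i hi j (by omega) 3 2 (by decide) e
          · rintro ⟨j, hj, e⟩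
            exact hne i hi j hj 3 1 (by decide) e
          · rintro ⟨j, hj, e⟩
            exact hne i hi j hj 3 0 (by decide) e
      · rw [if_neg (fun h2 => a5 h2 h1), if_pos h1]
    | 4, hR =>
      obtain ⟨h1, rfl⟩ := hR
      unfold kP
      have h2 : u ∉ hubV m g := by
        intro h2
        rcases h1 with h1 | h1
        · rcases mem_union.1 h1 with h1 | h1
          · exact a1 h2 h1
          · exact a3 h2 h1
        · exact a6 h2 h1
      have h3 : u ∉ W1 := by
        intro h2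
        rcases h1 with h1 | h1
        · rcases mem_union.1 h1 with h1 | h1
          · exact b5 h1 h2
          · exact d5 h1 h2
        · exact f6 h2 h1
      rw [if_neg h2, if_neg h3, if_pos h1]
    | 5, hR =>
      obtain ⟨h1, rfl⟩ := hR
      unfold kP
      have h2 : u ∉ hubV m g := by
        intro h2
        rcases h1 with h1 | h1
        · exact a2 h2 h1
        · exact a4 h2 h1
      have h3 : u ∉ W1 := by
        intro h2
        rcases h1 with h1 | h1
        · exact c5 h1 h2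
        · exact e5 h1 h2
      have h4 : ¬ (u ∈ X ∪ Q ∨ u ∈ W2) := by
        intro h2
        rcases h2 with h2 | h2
        · rcases mem_union.1 h2 with h2 | h2
          · rcases h1 with h1 | h1
            · exact b2 h2 h1
            · exact b4 h2 h1
          · rcases h1 with h1 | h1
            · exact c3 h1 h2
            · exact d4 h2 h1
        · rcases h1 with h1 | h1
          · exact c6 h1 h2
          · exact e6 h1 h2
      rw [if_neg h2, if_neg h3, if_neg h4, if_pos h1]
    | 6, hR =>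
      obtain ⟨h1, rfl⟩ := hR
      unfold kP
      unfold Sp at h1
      simp only [mem_union] at h1
      rw [if_neg (by tauto), if_neg (by tauto), if_neg (by rw [mem_union]; tauto),
        if_neg (by tauto)]
    | k + 7, hR => exact hR.elim
  · -- class of the target
    intro k u w hR
    match k, hR with
    | 0, hR =>
      obtain ⟨i, hi, rfl, rfl⟩ := hR
      unfold kT
      rw [if_pos (hhub i hi 2), if_pos ⟨i, hi, rfl⟩]
    | 1, hR =>
      obtain ⟨i, hi, rfl, rfl⟩ := hR
      unfold kT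
      rw [if_pos (hhub i hi 3), if_neg, if_pos ⟨i, hi, rfl⟩]
      rintro ⟨j, hj, e⟩
      exact hne i hi j hj 3 2 (by decide) e
    | 2, hR =>
      obtain ⟨i, hi, rfl, rfl⟩ := hR
      unfold kT
      rw [if_pos (hhub (i + 1) hi 0), if_neg, if_neg, if_pos ⟨i, hi, rfl⟩]
      · rintro ⟨j, hj, e⟩
        exact hne (i + 1) hi j hj 0 3 (by decide) e
      · rintro ⟨j, hj, e⟩
        exact hne (i + 1) hi j hj 0 2 (by decide) e
    | 3, hR =>
      obtain ⟨h1, rfl⟩ := hR
      have h2 := h.l1.maps u h1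
      unfold kT
      have h3 : f1 u ∉ hubV m g := by
        intro h3
        rcases h2 with h2 | h2
        · exact a5 h3 h2
        · rcases mem_union.1 h2 with h2 | h2
          · exact a2 h3 h2
          · exact a3 h3 h2
      rw [if_neg h3, if_pos h2]
    | 4, hR =>
      obtain ⟨h1, rfl⟩ := hR
      have h2 := h.l2.maps u h1
      unfold kT
      rcases h2 with h2 | h2
      · rw [if_neg (fun h3 => a6 h3 h2), if_neg, if_pos h2]
        rintro (h3 | h3)
        · exact f6 h3 h2
        · rcases mem_union.1 h3 with h3 | h3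
          · exact c6 h3 h2
          · exact d6 h3 h2
      · rw [if_pos (hin' _ h2)]
        rcases mem_hin.1 h2 with h3 | ⟨i, hi, h3⟩
        · rw [h3, if_neg, if_neg, if_neg]
          · rintro ⟨j, hj, e⟩
            have := (inj 0 (by omega) (j + 1) hj 0 0 e).1
            omega
          · rintro ⟨j, hj, e⟩
            exact hne 0 (by omega) j hj 0 3 (by decide) e
          · rintro ⟨j, hj, e⟩
            exact hne 0 (by omega) j hj 0 2 (by decide) e
        · rw [← h3, if_neg, if_neg, if_neg]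
          · rintro ⟨j, hj, e⟩
            exact hne i hi (j + 1) hj 1 0 (by decide) e
          · rintro ⟨j, hj, e⟩
            exact hne i hi j hj 1 3 (by decide) e
          · rintro ⟨j, hj, e⟩
            exact hne i hi j hj 1 2 (by decide) e
    | 5, hR =>
      obtain ⟨h1, rfl⟩ := hR
      have h2 := (h.Fm u h1).1
      unfold kT
      have h3 : F u ∉ hubV m g := by
        intro h3
        rcases h2 with h2 | h2
        · exact a4 h3 h2
        · exact a1 h3 h2
      have h4 : ¬ (F u ∈ W1 ∨ F u ∈ Y ∪ Q) := by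
        rintro (h4 | h4)
        · rcases h2 with h2 | h2
          · exact e5 h2 h4
          · exact b5 h2 h4
        · rcases mem_union.1 h4 with h4 | h4
          · rcases h2 with h2 | h2
            · exact c4 h4 h2
            · exact b2 h2 h4
          · rcases h2 with h2 | h2
            · exact d4 h4 h2
            · exact b3 h2 h4
      have h5 : F u ∉ W2 := by
        intro h5
        rcases h2 with h2 | h2
        · exact e6 h2 h5
        · exact b6 h2 h5
      rw [if_neg h3, if_neg h4, if_neg h5, if_pos h2]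
    | 6, hR =>
      obtain ⟨h1, rfl⟩ := hR
      unfold kT
      unfold Sp at h1
      simp only [mem_union] at h1
      rw [if_neg (by tauto), if_neg (by rw [mem_union]; tauto), if_neg (by tauto),
        if_neg (by tauto)]
    | k + 7, hR => exact hR.elim
  · -- functional
    intro k u w w' hR hR'
    match k, hR, hR' with
    | 0, hR, hR' =>
      obtain ⟨i, hi, e1, rfl⟩ := hR
      obtain ⟨j, hj, e2, rfl⟩ := hR'
      rw [(inj i hi j hj 0 0 (e1.symm.trans e2)).1]
    | 1, hR, hR' =>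
      obtain ⟨i, hi, e1, rfl⟩ := hR
      obtain ⟨j, hj, e2, rfl⟩ := hR'
      rw [(inj i hi j hj 1 1 (e1.symm.trans e2)).1]
    | 2, hR, hR' =>
      obtain ⟨i, hi, e1, rfl⟩ := hR
      obtain ⟨j, hj, e2, rfl⟩ := hR'
      rw [(inj i (by omega) j (by omega) 2 2 (e1.symm.trans e2)).1]
    | 3, hR, hR' => exact hR.2.trans hR'.2.symm
    | 4, hR, hR' => exact hR.2.trans hR'.2.symm
    | 5, hR, hR' => exact hR.2.trans hR'.2.symm
    | 6, hR, hR' => exact hR.2.trans hR'.2.symm
    | k + 7, hR, hR' => exact hR.elim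
  · -- injective
    intro k u v w hR hR'
    match k, hR, hR' with
    | 0, hR, hR' =>
      obtain ⟨i, hi, rfl, e1⟩ := hR
      obtain ⟨j, hj, rfl, e2⟩ := hR'
      rw [(inj i hi j hj 2 2 (e1.symm.trans e2)).1]
    | 1, hR, hR' =>
      obtain ⟨i, hi, rfl, e1⟩ := hR
      obtain ⟨j, hj, rfl, e2⟩ := hR'
      rw [(inj i hi j hj 3 3 (e1.symm.trans e2)).1]
    | 2, hR, hR' =>
      obtain ⟨i, hi, rfl, e1⟩ := hR
      obtain ⟨j, hj, rfl, e2⟩ := hR'
      have := (inj (i + 1) hi (j + 1) hj 0 0 (e1.symm.trans e2)).1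
      have h3 : i = j := by omega
      rw [h3]
    | 3, hR, hR' => exact h.l1.inj u v hR.1 hR'.1 (hR.2.symm.trans hR'.2)
    | 4, hR, hR' => exact h.l2.inj u v hR.1 hR'.1 (hR.2.symm.trans hR'.2)
    | 5, hR, hR' => exact h.Fi u v hR.1 hR'.1 (hR.2.symm.trans hR'.2)
    | 6, hR, hR' => exact hR.2.symm.trans hR'.2
    | k + 7, hR, hR' => exact hR.elim

end

end JON
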