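import Pool.Agent.Work.MP_a7fe73_nl.Interface

set_option autoImplicit false

open scoped Classical

namespace JON

open Finset

/-- the set of bad labellings for fixed parameters -/
noncomputable def BDA.G {V : Type} [Fintype V] (D : Digraph V) (R : Finset V) (b k K : ℕ)
    (l : Fin b) (A : Finset V) : Finset (V → Fin b) :=
  univ.filter (fun om => K ≤ (NB D R A).card ∧ ((NB D R A).filter (fun v => om v = l)).card < k)

theorem BDA.one (hCTB : Stmt_CTB) {V : Type} [Fintype V] (D : Digraph V) (R : Finset V)
    (b k x K : ℕ) (hb : 1 ≤ b) (hK : 2 * b * x ≤ K) (l : Fin b) (A : Finset V) :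
    2 ^ x * (BDA.G D R b k K l A).card ≤ 2 ^ k * b ^ Fintype.card V := by
  by_cases h : K ≤ (NB D R A).card
  · have h1 := hCTB V V b 1 (fun _ => l) univ (NB D R A) (fun v => {v}) hb
      (fun j _ => (card_singleton j).le)
      (fun i _ j _ hij => disjoint_singleton.mpr hij)
      (fun om _ j _ => mem_univ _) k x (by rw [pow_one]; omega)
    have h2 : (univ : Finset (V → Fin b)).card = b ^ Fintype.card V := by
      rw [card_univ, Fintype.card_fun, Fintype.card_fin]
    rw [h2] at h1
    have h3 : (BDA.G D R b k K l A).card ≤ ((univ : Finset (V → Fin b)).filter (fun om =>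
        ((NB D R A).filter (fun j => ∀ y ∈ ({j} : Finset V), om y = l)).card < k)).card := by
      apply card_le_card
      intro om hom
      unfold BDA.G at hom
      rw [mem_filter] at hom ⊢
      refine ⟨mem_univ _, ?_⟩
      have h4 : (NB D R A).filter (fun j => ∀ y ∈ ({j} : Finset V), om y = l) =
          (NB D R A).filter (fun v => om v = l) := by
        apply filter_congr
        intro v _
        simp only [mem_singleton, forall_eq]
      rw [h4]
      exact hom.2.2
    exact le_trans (Nat.mul_le_mul_left _ h3) h1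
  · have h1 : BDA.G D R b k K l A = ∅ := by
      unfold BDA.G
      rw [filter_eq_empty_iff]
      intro om _ h2
      exact h h2.1
    rw [h1, card_empty, mul_zero]
    exact Nat.zero_le _

theorem p_BDA (hCTB : Stmt_CTB) (hSUB : Stmt_SUB) : Stmt_BDA := by
  intro V _ D R b a k x K hb hK
  have hsub : (univ : Finset (V → Fin b)).filter (Bad1 D R b a k K) ⊆
      (univ : Finset (Fin b)).biUnion (fun l =>
        (R.powerset.filter (fun C => C.card ≤ a)).biUnion (fun A => BDA.G D R b k K l A)) := by
    intro om hom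
    rw [mem_filter] at hom
    obtain ⟨l, A, hAR, hAa, hKA, hlt⟩ := hom.2
    rw [mem_biUnion]
    refine ⟨l, mem_univ _, ?_⟩
    rw [mem_biUnion]
    refine ⟨A, ?_, ?_⟩
    · rw [mem_filter, mem_powerset]
      exact ⟨hAR, hAa⟩
    · unfold BDA.G
      rw [mem_filter]
      exact ⟨mem_univ _, hKA, hlt⟩
  have h1 : ((univ : Finset (V → Fin b)).filter (Bad1 D R b a k K)).card ≤
      ∑ l : Fin b, ∑ A ∈ R.powerset.filter (fun C => C.card ≤ a), (BDA.G D R b k K l A).card := by
    refine (card_le_card hsub).trans ?_
    refine card_biUnion_le.trans ?_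
    apply sum_le_sum
    intro l _
    exact card_biUnion_le
  have h2 : 2 ^ x * ∑ l : Fin b, ∑ A ∈ R.powerset.filter (fun C => C.card ≤ a),
      (BDA.G D R b k K l A).card ≤
      ∑ _l : Fin b, ∑ _A ∈ R.powerset.filter (fun C => C.card ≤ a),
        2 ^ k * b ^ Fintype.card V := by
    rw [mul_sum]
    apply sum_le_sum
    intro l _
    rw [mul_sum]
    apply sum_le_sum
    intro A _
    exact BDA.one hCTB D R b k x K hb hK l A
  rw [sum_const, sum_const, card_univ, Fintype.card_fin, smul_eq_mul, smul_eq_mul] at h2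
  have h3 := hSUB V R a
  calc 2 ^ x * ((univ : Finset (V → Fin b)).filter (Bad1 D R b a k K)).card
      ≤ 2 ^ x * ∑ l : Fin b, ∑ A ∈ R.powerset.filter (fun C => C.card ≤ a),
        (BDA.G D R b k K l A).card := Nat.mul_le_mul_left _ h1
    _ ≤ _ := h2
    _ ≤ b * ((R.card + 1) ^ a * (2 ^ k * b ^ Fintype.card V)) :=
        Nat.mul_le_mul_left _ (Nat.mul_le_mul_right _ h3)
    _ = _ := by ring

end JON
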