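import Pool.Agent.Work.MP_a7fe73_nl.Interface

set_option autoImplicit false

open scoped Classical

namespace JON

open Finset

/-- the set of bad labellings for fixed parameters -/
noncomputable def BDB.G {V : Type} [Fintype V] (R : Finset V) (b k m : ℕ)
    (con : V → V → Finset V → Finset V → Finset V → Finset (V × V))
    (l0 l1 : Fin b) (u v : V) (C I : Finset V) : Finset (V → Fin b) :=
  univ.filter (fun om => l0 ≠ l1 ∧ m ≤ (con u v (lab om R l0) C I).card ∧
    ((con u v (lab om R l0) C I).filter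
      (fun p => ∀ z ∈ ec u v (lab om R l0 \ C) p, om z = l1)).card < k)

theorem BDB.ec_card {V : Type} (u v : V) (S : Finset V) (p : V × V) : (ec u v S p).card ≤ 2 := by
  unfold ec
  exact (card_filter_le _ _).trans card_le_two

theorem BDB.one (hBDX : Stmt_BDX) {V : Type} [Fintype V] (R : Finset V) (b k x : ℕ)
    (con : V → V → Finset V → Finset V → Finset V → Finset (V × V)) (hb : 1 ≤ b)
    (h1 : ∀ u v S C I, ∀ p ∈ con u v S C I, Disjoint (ec u v (S \ C) p) S)
    (h2 : ∀ u v S C I, ∀ p ∈ con u v S C I, ∀ p' ∈ con u v S C I, p ≠ p' →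
      Disjoint (ec u v (S \ C) p) (ec u v (S \ C) p'))
    (l0 l1 : Fin b) (u v : V) (C I : Finset V) :
    2 ^ x * (BDB.G R b k (2 * b ^ 2 * x) con l0 l1 u v C I).card ≤
      2 ^ k * b ^ Fintype.card V := by
  by_cases h : l0 = l1
  · have h3 : BDB.G R b k (2 * b ^ 2 * x) con l0 l1 u v C I = ∅ := by
      unfold BDB.G
      rw [filter_eq_empty_iff]
      intro om _ h4
      exact h4.1 h
    rw [h3, card_empty, mul_zero]
    exact Nat.zero_le _
  · have h3 := hBDX V R b k x l0 l1 (fun S => con u v S C I) (fun S p => ec u v (S \ C) p) hb h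
      (fun S p hp => ⟨h1 u v S C I p hp, BDB.ec_card u v (S \ C) p⟩)
      (fun S p hp p' hp' hne => h2 u v S C I p hp p' hp' hne)
    refine le_trans (Nat.mul_le_mul_left _ (card_le_card ?_)) h3
    intro om hom
    unfold BDB.G at hom
    rw [mem_filter] at hom ⊢
    exact ⟨mem_univ _, hom.2.2.1, hom.2.2.2⟩

theorem p_BDB (hBDX : Stmt_BDX) (hSUB : Stmt_SUB) : Stmt_BDB := by
  intro V _ R Z b a k x con hb h1 h2
  obtain ⟨A1, hA1⟩ : ∃ A1 : Finset (Finset V), A1 = R.powerset.filter (fun C => C.card ≤ k) :=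
    ⟨_, rfl⟩
  obtain ⟨A2, hA2⟩ : ∃ A2 : Finset (Finset V), A2 = R.powerset.filter (fun C => C.card ≤ a) :=
    ⟨_, rfl⟩
  obtain ⟨T, hT⟩ : ∃ T : Finset (((Fin b × Fin b) × (V × V)) × (Finset V × Finset V)),
      T = (((univ : Finset (Fin b)) ×ˢ (univ : Finset (Fin b))) ×ˢ (Z ×ˢ Z)) ×ˢ (A1 ×ˢ A2) :=
    ⟨_, rfl⟩
  have hsub : (univ : Finset (V → Fin b)).filter (Bad2 R Z b a k (2 * b ^ 2 * x) con) ⊆
      T.biUnion (fun t => BDB.G R b k (2 * b ^ 2 * x) con t.1.1.1 t.1.1.2 t.1.2.1 t.1.2.2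
        t.2.1 t.2.2) := by
    intro om hom
    rw [mem_filter] at hom
    obtain ⟨l0, l1, hl, u, hu, v, hv, C, hC, hCk, I, hI, hIa, hm, hlt⟩ := hom.2
    rw [mem_biUnion]
    refine ⟨(((l0, l1), (u, v)), (C, I)), ?_, ?_⟩
    · rw [hT, mem_product, mem_product, mem_product, mem_product, mem_product, hA1, hA2,
        mem_filter, mem_filter, mem_powerset, mem_powerset]
      exact ⟨⟨⟨mem_univ _, mem_univ _⟩, hu, hv⟩, ⟨hC, hCk⟩, hI, hIa⟩
    · unfold BDB.G
      rw [mem_filter]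
      refine ⟨mem_univ _, hl, hm, lt_of_eq_of_lt (congrArg card ?_) hlt⟩
      ext q
      simp only [mem_filter]
  have h3 : ((univ : Finset (V → Fin b)).filter (Bad2 R Z b a k (2 * b ^ 2 * x) con)).card ≤
      ∑ t ∈ T, (BDB.G R b k (2 * b ^ 2 * x) con t.1.1.1 t.1.1.2 t.1.2.1 t.1.2.2
        t.2.1 t.2.2).card :=
    (card_le_card hsub).trans card_biUnion_le
  have h4 : 2 ^ x * ∑ t ∈ T, (BDB.G R b k (2 * b ^ 2 * x) con t.1.1.1 t.1.1.2 t.1.2.1 t.1.2.2
        t.2.1 t.2.2).card ≤ ∑ _t ∈ T, 2 ^ k * b ^ Fintype.card V := by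
    rw [mul_sum]
    apply sum_le_sum
    intro t _
    exact BDB.one hBDX R b k x con hb h1 h2 _ _ _ _ _ _
  rw [sum_const, smul_eq_mul] at h4
  have hTc : T.card ≤ b ^ 2 * Z.card ^ 2 * (R.card + 1) ^ (k + a) := by
    rw [hT, card_product, card_product, card_product, card_product, card_product, card_univ,
      Fintype.card_fin, pow_add]
    have k1 : A1.card ≤ (R.card + 1) ^ k := by
      rw [hA1]
      exact hSUB V R k
    have k2 : A2.card ≤ (R.card + 1) ^ a := by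
      rw [hA2]
      exact hSUB V R a
    calc b * b * (Z.card * Z.card) * (A1.card * A2.card)
        ≤ b * b * (Z.card * Z.card) * ((R.card + 1) ^ k * (R.card + 1) ^ a) :=
          Nat.mul_le_mul_left _ (Nat.mul_le_mul k1 k2)
      _ = _ := by ring
  calc 2 ^ x * ((univ : Finset (V → Fin b)).filter (Bad2 R Z b a k (2 * b ^ 2 * x) con)).card
      ≤ 2 ^ x * ∑ t ∈ T, (BDB.G R b k (2 * b ^ 2 * x) con t.1.1.1 t.1.1.2 t.1.2.1 t.1.2.2
        t.2.1 t.2.2).card := Nat.mul_le_mul_left _ h3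
    _ ≤ _ := h4
    _ ≤ _ := Nat.mul_le_mul_right _ hTc

end JON
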