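import Pool.Agent.Work.MP_a7fe73_nl.Interface

set_option autoImplicit false

open scoped Classical

namespace JON

open Finset

theorem p_BDX (hCTB : Stmt_CTB) : Stmt_BDX := by
  intro V _ R b k x l0 l1 cf ef hb hl hef hdis
  set P : (V → Fin b) → Prop := fun om => 2 * b ^ 2 * x ≤ (cf (lab om R l0)).card ∧
    ((cf (lab om R l0)).filter (fun p => ∀ z ∈ ef (lab om R l0) p, om z = l1)).card < k with hP
  have hmaps : ∀ T : Finset (V → Fin b), ∀ om ∈ T, lab om R l0 ∈ R.powerset := by
    intro T om _
    rw [mem_powerset]
    unfold lab
    exact filter_subset _ _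
  have hone : ∀ S ∈ R.powerset,
      2 ^ x * ((((univ : Finset (V → Fin b)).filter P).filter
        (fun om => lab om R l0 = S))).card ≤
      2 ^ k * ((univ : Finset (V → Fin b)).filter (fun om => lab om R l0 = S)).card := by
    intro S _
    by_cases hS : 2 * b ^ 2 * x ≤ (cf S).card
    · have h1 := hCTB V (V × V) b 2 (fun _ => l1)
        ((univ : Finset (V → Fin b)).filter (fun om => lab om R l0 = S)) (cf S) (ef S) hb
        (fun p hp => (hef S p hp).2) (fun p hp p' hp' hne => hdis S p hp p' hp' hne)
        (by
          intro om hom p hp
          rw [mem_filter] at hom ⊢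
          refine ⟨mem_univ _, ?_⟩
          ext v
          rw [mem_lab]
          have h2 := hom.2
          have h3 : v ∈ lab om R l0 ↔ v ∈ S := by rw [h2]
          rw [mem_lab] at h3
          unfold ovw
          by_cases hv : v ∈ ef S p
          · rw [if_pos hv]
            have h4 : v ∉ S := Finset.disjoint_left.1 (hef S p hp).1 hv
            constructor
            · rintro ⟨_, h5⟩
              exact absurd h5.symm hl
            · intro h5
              exact absurd h5 h4
          · rw [if_neg hv]
            exact h3) k x hS
      refine le_trans (Nat.mul_le_mul_left _ (card_le_card ?_)) h1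
      intro om hom
      rw [mem_filter, mem_filter] at hom
      obtain ⟨⟨_, h2⟩, h3⟩ := hom
      rw [mem_filter, mem_filter]
      refine ⟨⟨mem_univ _, h3⟩, ?_⟩
      rw [hP] at h2
      rw [h3] at h2
      exact h2.2
    · have h1 : (((univ : Finset (V → Fin b)).filter P).filter
        (fun om => lab om R l0 = S)) = ∅ := by
        rw [filter_eq_empty_iff]
        intro om hom h3
        rw [mem_filter] at hom
        have h2 := hom.2
        rw [hP] at h2
        rw [h3] at h2
        exact hS h2.1
      rw [h1, card_empty, mul_zero]
      exact Nat.zero_le _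
  have hc1 := card_eq_sum_card_fiberwise (f := fun om => lab om R l0)
    (s := (univ : Finset (V → Fin b)).filter P) (t := R.powerset) (hmaps _)
  have hc2 := card_eq_sum_card_fiberwise (f := fun om => lab om R l0)
    (s := (univ : Finset (V → Fin b))) (t := R.powerset) (hmaps _)
  have hu : (univ : Finset (V → Fin b)).card = b ^ Fintype.card V := by
    rw [card_univ, Fintype.card_fun, Fintype.card_fin]
  rw [← hu, hc1, hc2, mul_sum, mul_sum]
  exact sum_le_sum hone

end JON
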