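import Pool.Agent.Work.MP_a7fe73_nl.Interface

/-! Block CLB (helper83): first stage of the case of many vertices -/

set_option autoImplicit false
set_option linter.unusedSectionVars false

namespace JON
open scoped Classical
open Finset

namespace CLB

theorem KS_mono {V : Type} [Fintype V] {D : Digraph V} {k k' : ℕ} (h : KS D k) (hk : k' ≤ k) : KS D k' :=
  ⟨by have := h.1; omega, fun X hX => h.2 X (by omega)⟩

/-- numerical facts -/
theorem num {a l : ℕ} (ha : 1 ≤ a) (hl : a + 1 ≤ 2 ^ l) : 1 ≤ l ∧ a ≤ 2 ^ l := by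
  refine ⟨?_, by omega⟩
  by_contra h
  have : l = 0 := by omega
  subst this
  simp at hl
  omega

theorem num_card {a l : ℕ} (ha : 1 ≤ a) (hl : a + 1 ≤ 2 ^ l) :
    1024 * a ^ 3 * 2 ^ (31 * l) ≤ 2 ^ (44 * l) := by
  obtain ⟨h1, h2⟩ := num ha hl
  have h3 : a ^ 3 ≤ 2 ^ (3 * l) := by
    calc a ^ 3 ≤ (2 ^ l) ^ 3 := Nat.pow_le_pow_left h2 3
      _ = 2 ^ (3 * l) := by rw [← pow_mul, mul_comm]
  have h4 : (1024 : ℕ) ≤ 2 ^ (10 * l) := by
    calc (1024 : ℕ) = 2 ^ 10 := by norm_num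
      _ ≤ 2 ^ (10 * l) := Nat.pow_le_pow_right (by norm_num) (by omega)
  calc 1024 * a ^ 3 * 2 ^ (31 * l) ≤ 2 ^ (10 * l) * 2 ^ (3 * l) * 2 ^ (31 * l) :=
        Nat.mul_le_mul_right _ (Nat.mul_le_mul h4 h3)
    _ = 2 ^ (44 * l) := by rw [← pow_add, ← pow_add]; congr 1; ring

theorem num_om {a l z om : ℕ} (ha : 1 ≤ a) (hl : a + 1 ≤ 2 ^ l) (hz : z ≤ 8 * a)
    (hom : om ≤ z + z ^ 2 * (110000 * a * l * (2 * a))) : om + 1 ≤ 2 ^ (30 * l) := by
  obtain ⟨h1, h2⟩ := num ha hl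
  have hll : l ≤ 2 ^ l := Nat.lt_two_pow_self.le
  have h3 : z ^ 2 ≤ 64 * a ^ 2 := by
    calc z ^ 2 ≤ (8 * a) ^ 2 := Nat.pow_le_pow_left hz 2
      _ = 64 * a ^ 2 := by ring
  have h4 : z ^ 2 * (110000 * a * l * (2 * a)) ≤ 2 ^ (29 * l) := by
    calc z ^ 2 * (110000 * a * l * (2 * a)) ≤ 64 * a ^ 2 * (110000 * a * l * (2 * a)) :=
          Nat.mul_le_mul_right _ h3
      _ = 14080000 * (a ^ 4 * l) := by ring
      _ ≤ 2 ^ 24 * ((2 ^ l) ^ 4 * 2 ^ l) :=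
          Nat.mul_le_mul (by norm_num) (Nat.mul_le_mul (Nat.pow_le_pow_left h2 4) hll)
      _ = 2 ^ (24 + 5 * l) := by rw [← pow_mul, ← pow_add, ← pow_add]; congr 1; ring
      _ ≤ 2 ^ (29 * l) := Nat.pow_le_pow_right (by norm_num) (by omega)
  have h5 : 8 * a + 1 ≤ 2 ^ (29 * l) := by
    calc 8 * a + 1 ≤ 8 * 2 ^ l + 2 ^ l := by
          have := Nat.one_le_two_pow (n := l)
          omega
      _ = 9 * 2 ^ l := by ring
      _ ≤ 2 ^ 4 * 2 ^ l := Nat.mul_le_mul_right _ (by norm_num)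
      _ = 2 ^ (4 + l) := by rw [← pow_add]
      _ ≤ 2 ^ (29 * l) := Nat.pow_le_pow_right (by norm_num) (by omega)
  calc om + 1 ≤ 2 ^ (29 * l) + 2 ^ (29 * l) := by omega
    _ = 2 ^ (29 * l + 1) := by rw [pow_succ]; ring
    _ ≤ 2 ^ (30 * l) := Nat.pow_le_pow_right (by norm_num) (by omega)

theorem num_mid {a l om o i : ℕ} (ha : 1 ≤ a) (hl : a + 1 ≤ 2 ^ l) (hom : om + 1 ≤ 2 ^ (30 * l))
    (ho : o ≤ a) (hi : i ≤ a) : om + o * i ≤ 2 ^ (31 * l) := by
  obtain ⟨h1, h2⟩ := num ha hl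
  have h3 : o * i ≤ 2 ^ (30 * l) := by
    calc o * i ≤ 2 ^ l * 2 ^ l := Nat.mul_le_mul (ho.trans h2) (hi.trans h2)
      _ = 2 ^ (l + l) := by rw [pow_add]
      _ ≤ 2 ^ (30 * l) := Nat.pow_le_pow_right (by norm_num) (by omega)
  calc om + o * i ≤ 2 ^ (30 * l) + 2 ^ (30 * l) := by omega
    _ = 2 ^ (30 * l + 1) := by rw [pow_succ]; ring
    _ ≤ 2 ^ (31 * l) := Nat.pow_le_pow_right (by norm_num) (by omega)

theorem num_spl {a l n z : ℕ} (ha : 1 ≤ a) (hl : 1 ≤ l) (hn : n ≤ a) (hz : z ≤ 8 * a) :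
    (n + 1) + 4 * 3 * ((n + 1) + 30 * l * ((n + 1) + a + 2) + 14) + z +
      16 * 3 ^ 2 * ((n + 1) + 30 * l * ((n + 1) + a + 2) + 14) ≤ 110000 * a * l := by
  have h1 : (n + 1) + 30 * l * ((n + 1) + a + 2) + 14 ≤ 176 * (a * l) := by
    have h2 : 30 * l * ((n + 1) + a + 2) ≤ 30 * l * (5 * a) := Nat.mul_le_mul_left _ (by omega)
    have h3 : 30 * l * (5 * a) = 150 * (a * l) := by ring
    have h4 : a ≤ a * l := Nat.le_mul_of_pos_right a hl
    have h5 : 1 ≤ a * l := Nat.mul_pos ha hl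
    omega
  have h4 : a ≤ a * l := Nat.le_mul_of_pos_right a hl
  have h6 : 110000 * a * l = 110000 * (a * l) := by ring
  rw [h6]
  omega

end CLB

theorem p_CLB (hCLA : Stmt_CLA) (hHUB : Stmt_HUB) (hHC : Stmt_HCARD) (hOME : Stmt_OME)
    (hSPL : Stmt_SPL) (hRLK : Stmt_RLK) (hMID : Stmt_MID) : Stmt_CLB := by
  intro V _ D a k l hKS hA ha hal hk hV
  obtain ⟨hl, hal'⟩ := CLB.num ha hal
  have haal : a ≤ a * l := Nat.le_mul_of_pos_right a hl
  have hK1 : KS D (110000 * a * l) := CLB.KS_mono hKS hk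
  obtain ⟨X, J, O, AI, hdis, hXJO, hAI, hX1, hXa, stX, stJ, mxX, mxJ, hcod⟩ :=
    hCLA V D a (2 ^ (31 * l)) hA ha Nat.one_le_two_pow ((CLB.num_card ha hal).trans hV)
  simp only [List.pairwise_cons, List.mem_cons, List.not_mem_nil, or_false, forall_eq_or_imp,
    forall_eq, IsEmpty.forall_iff, implies_true, List.Pairwise.nil, and_true] at hdis
  obtain ⟨⟨hXJ, hXO, hXI⟩, ⟨hJO, hJI⟩, hOI⟩ := hdis
  have hcardV := hK1.1
  have h110 : 110000 * a * l = 110000 * (a * l) := by ring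
  rw [h110] at hcardV
  -- the vertex of `Q`
  obtain ⟨z0, hz0⟩ : ∃ z0, z0 ∉ X ∪ (J ∪ (O ∪ AI)) := by
    by_contra hcon
    push Not at hcon
    have h1 : (univ : Finset V).card ≤ (X ∪ (J ∪ (O ∪ AI))).card :=
      card_le_card fun v _ => hcon v
    have h2 := card_union_le X (J ∪ (O ∪ AI))
    have h3 := card_union_le J (O ∪ AI)
    have h4 := card_union_le O AI
    rw [card_univ] at h1
    omega
  simp only [mem_union, not_or] at hz0
  obtain ⟨hz1, hz2, hz3, hz4⟩ := hz0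
  have hQc : ({z0} : Finset V).card = 1 := card_singleton z0
  have hXQ : Disjoint X {z0} := disjoint_singleton_right.2 hz1
  have hJQ : Disjoint J {z0} := disjoint_singleton_right.2 hz2
  have hOQ : Disjoint O {z0} := disjoint_singleton_right.2 hz3
  have hIQ : Disjoint AI {z0} := disjoint_singleton_right.2 hz4
  set F : Finset V := X ∪ (J ∪ (O ∪ (AI ∪ {z0}))) with hF
  have hXF : X ⊆ F := subset_union_left
  have hJF : J ⊆ F := fun v hv => by simp [hF, hv]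
  have hOF : O ⊆ F := fun v hv => by simp [hF, hv]
  have hIF : AI ⊆ F := fun v hv => by simp [hF, hv]
  have hQF : {z0} ⊆ F := fun v hv => by rw [mem_singleton] at hv; simp [hF, hv]
  have hFc : F.card ≤ 3 * X.card + 1 := by
    have h2 := card_union_le X (J ∪ (O ∪ (AI ∪ {z0})))
    have h3 := card_union_le J (O ∪ (AI ∪ {z0}))
    have h4 := card_union_le O (AI ∪ {z0})
    have h5 := card_union_le AI ({z0} : Finset V)
    rw [hQc] at h5
    rw [hF]
    omega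
  obtain ⟨g, hg, hgF⟩ := hHUB V D a (110000 * a * l) X.card F hK1 hA hX1 (by rw [h110]; omega)
  obtain ⟨hoc, hic, hoi, hoV, hiV, hVc⟩ := hHC V D X.card g hg hX1
  set Z : Finset V := hubV X.card g ∪ F with hZ
  have hHZ : hubV X.card g ⊆ Z := subset_union_left
  have hFZ : F ⊆ Z := subset_union_right
  have hZc : Z.card ≤ 8 * a := by
    have := card_union_le (hubV X.card g) F
    rw [hZ]
    omega
  obtain ⟨Om, hZO, hOmc, hRob⟩ := hOME V D a (110000 * a * l) Z hK1 hA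
  have hOm30 := CLB.num_om ha hal hZc hOmc
  obtain ⟨Vs, hVs1, hVs2, hVs3⟩ := hSPL V D Z Om 3 a (X.card + 1) (30 * l)
    ((X.card + 1) + 30 * l * ((X.card + 1) + a + 2) + 14) (110000 * a * l) hA hZO (by norm_num)
    hOm30 (by omega) (CLB.num_spl ha hl hXa hZc) hRob
  have hZV : ∀ i, Disjoint Z (Vs i) := fun i =>
    (disjoint_sdiff (s := Z) (t := Om)).mono_right (hVs1 i)
  have hVO : ∀ i, Vs i ⊆ Om := fun i => (hVs1 i).trans sdiff_subset
  have hhX : Disjoint (hubV X.card g) X := hgF.mono_right hXF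
  have hhJ : Disjoint (hubV X.card g) J := hgF.mono_right hJF
  have hhO : Disjoint (hubV X.card g) O := hgF.mono_right hOF
  have hhI : Disjoint (hubV X.card g) AI := hgF.mono_right hIF
  have hhQ : Disjoint (hubV X.card g) {z0} := hgF.mono_right hQF
  -- the linkages
  obtain ⟨W1, hW1, f1, psi1, hL1⟩ := hRLK V D Z (Vs 0) (hout X.card g) ((J ∪ O) ∪ {z0})
    (X.card + 1) (hZV 0) (hVs3 0) (hoV.trans hHZ)
    (union_subset (union_subset (hJF.trans hFZ) (hOF.trans hFZ)) (hQF.trans hFZ))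
    (by
      rw [disjoint_union_right, disjoint_union_right]
      exact ⟨⟨hhJ.mono_left hoV, hhO.mono_left hoV⟩, hhQ.mono_left hoV⟩)
    (by
      rw [hoc, card_union_of_disjoint (disjoint_union_left.2 ⟨hJQ, hOQ⟩),
        card_union_of_disjoint hJO, hQc, hXJO])
    (by rw [hoc])
  obtain ⟨W2, hW2, f2, psi2, hL2⟩ := hRLK V D Z (Vs 1) (X ∪ {z0}) (hin X.card g)
    (X.card + 1) (hZV 1) (hVs3 1) (union_subset (hXF.trans hFZ) (hQF.trans hFZ)) (hiV.trans hHZ)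
    (by
      rw [disjoint_union_left]
      exact ⟨(hhX.mono_left hiV).symm, (hhQ.mono_left hiV).symm⟩)
    (by rw [hic, card_union_of_disjoint hXQ, hQc])
    (by rw [card_union_of_disjoint hXQ, hQc])
  obtain ⟨W3, hW3, f3, psi3, hL3⟩ := hRLK V D Z (Vs 2) AI X
    (X.card + 1) (hZV 2) (hVs3 2) (hIF.trans hFZ) (hXF.trans hFZ) hXI.symm hAI (by omega)
  obtain ⟨mid, hmid1, hmid2⟩ := hMID V D O AI Om (by
    intro o ho i hi
    exact (CLB.num_mid ha hal hOm30 (by omega) (by omega)).trans (hcod o ho i hi))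
  -- disjointness from the linkages
  have hSW : ∀ S ⊆ Z, Disjoint S W1 ∧ Disjoint S W2 ∧ Disjoint S W3 := fun S hS =>
    ⟨((hZV 0).mono_left hS).mono_right hW1, ((hZV 1).mono_left hS).mono_right hW2,
      ((hZV 2).mono_left hS).mono_right hW3⟩
  have h12 : Disjoint W1 W2 := ((hVs2 0 1 (by decide)).mono_left hW1).mono_right hW2
  have h13 : Disjoint W1 W3 := ((hVs2 0 2 (by decide)).mono_left hW1).mono_right hW3
  have h23 : Disjoint W2 W3 := ((hVs2 1 2 (by decide)).mono_left hW2).mono_right hW3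
  obtain ⟨a1, a2, a3⟩ := hSW _ hHZ
  obtain ⟨b1, b2, b3⟩ := hSW _ (hXF.trans hFZ)
  obtain ⟨c1, c2, c3⟩ := hSW _ (hJF.trans hFZ)
  obtain ⟨d1, d2, d3⟩ := hSW _ (hOF.trans hFZ)
  obtain ⟨e1, e2, e3⟩ := hSW _ (hIF.trans hFZ)
  obtain ⟨q1, q2, q3⟩ := hSW _ (hQF.trans hFZ)
  refine ⟨X.card, g, X, J, O, AI, {z0}, W1, W2, W3, Om, f1, f2, f3, psi1, psi2, psi3, mid, ?_⟩
  refine ⟨hX1, hg, ?_, ?_, hXJO, hAI, stX, stJ, mxX, mxJ, hL1, hL2, hL3, hmid1, hmid2⟩
  · simp only [List.pairwise_cons, List.mem_cons, List.not_mem_nil, or_false, forall_eq_or_imp,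
      forall_eq, IsEmpty.forall_iff, implies_true, List.Pairwise.nil, and_true]
    exact ⟨⟨hhX, hhJ, hhO, hhQ, a1, a2, hhI, a3⟩, ⟨hXJ, hXO, hXQ, b1, b2, hXI, b3⟩,
      ⟨hJO, hJQ, c1, c2, hJI, c3⟩, ⟨hOQ, d1, d2, hOI, d3⟩, ⟨q1, q2, hIQ.symm, q3⟩,
      ⟨h12, e1.symm, h13⟩, ⟨e2.symm, h23⟩, e3⟩
  · refine union_subset (hHZ.trans hZO) (union_subset ((hXF.trans hFZ).trans hZO) (union_subset
      ((hJF.trans hFZ).trans hZO) (union_subset ((hOF.trans hFZ).trans hZO) (union_subset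
      ((hQF.trans hFZ).trans hZO) (union_subset (hW1.trans (hVO 0)) (union_subset
      (hW2.trans (hVO 1)) (union_subset ((hIF.trans hFZ).trans hZO) (hW3.trans (hVO 2)))))))))

end JON
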