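import Pool.Agent.Work.MP_a7fe73_nl.Interface

set_option autoImplicit false
set_option linter.unusedSectionVars false

/-! Block CON: many disjoint connectors (helper25). -/

namespace JON
open scoped Classical
open Finset

noncomputable section

/-- the two vertices of a pair other than `u`, `v` -/
def CON.e2 {V : Type} (u v : V) (p : V × V) : Finset V :=
  ({p.1, p.2} : Finset V).filter (fun z => z ≠ u ∧ z ≠ v)

theorem CON.mem_e2 {V : Type} {u v : V} {p : V × V} {z : V} :
    z ∈ CON.e2 u v p ↔ (z = p.1 ∨ z = p.2) ∧ z ≠ u ∧ z ≠ v := by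
  unfold CON.e2; simp

theorem CON.card_e2 {V : Type} (u v : V) (p : V × V) : (CON.e2 u v p).card ≤ 2 :=
  (Finset.card_filter_le _ _).trans Finset.card_le_two

theorem p_CON : Stmt_CON := by
  intro V D Z Om K u v S C P hZ hRob hu hv huv hnadj hS hP
  obtain ⟨Reg, hReg⟩ : ∃ Reg : V → Prop, Reg = fun z => z ∈ Om \ Z ∧ z ∉ C := ⟨_, rfl⟩
  have hRegd : ∀ z, Reg z ↔ (z ∈ Om ∧ z ∉ Z) ∧ z ∉ C := by
    intro z
    rw [hReg]
    simp only [mem_sdiff]
  -- the family
  obtain ⟨Good, hGood⟩ : ∃ Good : Finset (V × V) → Prop, ∀ E, Good E ↔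
      (∀ p ∈ E, IsCon D Reg (S \ C) P u v p) ∧
      ∀ p ∈ E, ∀ p' ∈ E, p ≠ p' → Disjoint (CON.e2 u v p) (CON.e2 u v p') :=
    ⟨_, fun _ => Iff.rfl⟩
  obtain ⟨Fam, hFam⟩ : ∃ Fam : Finset (Finset (V × V)), Fam = (Om ×ˢ Om).powerset.filter Good :=
    ⟨_, rfl⟩
  have hne : Fam.Nonempty := by
    refine ⟨∅, ?_⟩
    rw [hFam, mem_filter, mem_powerset, hGood]
    refine ⟨Finset.empty_subset _, ?_, ?_⟩
    · intro p hp
      exact absurd hp (Finset.notMem_empty p)
    · intro p hp
      exact absurd hp (Finset.notMem_empty p)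
  obtain ⟨E, hE, hmax⟩ := Finset.exists_max_image Fam (fun E => E.card) hne
  have hE' := hE
  rw [hFam, mem_filter, mem_powerset, hGood] at hE'
  obtain ⟨hEsub, hEcon, hEdis⟩ := hE'
  refine ⟨E, ?_, ?_, ?_⟩
  · intro p hp
    have h := hEcon p hp
    rw [hReg] at h
    exact h
  · intro p hp p' hp' hpp
    refine Finset.disjoint_left.2 fun z hz hz' => ?_
    have h1 : z ∈ CON.e2 u v p := by
      rw [CON.mem_e2]
      rw [mem_ec] at hz
      exact ⟨hz.1, hz.2.1, hz.2.2.1⟩
    have h2 : z ∈ CON.e2 u v p' := by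
      rw [CON.mem_e2]
      rw [mem_ec] at hz'
      exact ⟨hz'.1, hz'.2.1, hz'.2.2.1⟩
    exact Finset.disjoint_left.1 (hEdis p hp p' hp' hpp) h1 h2
  · by_contra hbig
    push Not at hbig
    obtain ⟨Rem, hRem⟩ : ∃ Rem : Finset V, Rem = ((C \ {u, v}) ∪ Ms D (Om \ Z) (S \ C)) ∪
        ((Z \ {u, v}) ∪ E.biUnion (CON.e2 u v)) := ⟨_, rfl⟩
    have hRcard : Rem.card < K := by
      have h1 : (C \ {u, v}).card ≤ C.card := Finset.card_le_card Finset.sdiff_subset
      have h2 : (Z \ {u, v}).card ≤ Z.card := Finset.card_le_card Finset.sdiff_subset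
      have h3 : (E.biUnion (CON.e2 u v)).card ≤ E.card * 2 :=
        Finset.card_biUnion_le_card_mul _ _ _ fun p _ => CON.card_e2 u v p
      have h4 := Finset.card_union_le ((C \ {u, v}) ∪ Ms D (Om \ Z) (S \ C))
        ((Z \ {u, v}) ∪ E.biUnion (CON.e2 u v))
      have h5 := Finset.card_union_le (C \ {u, v}) (Ms D (Om \ Z) (S \ C))
      have h6 := Finset.card_union_le (Z \ {u, v}) (E.biUnion (CON.e2 u v))
      rw [← hRem] at h4
      omega
    have hmemR : ∀ z, z ∈ Rem ↔ ((z ∈ C ∧ ¬ (z = u ∨ z = v)) ∨ z ∈ Ms D (Om \ Z) (S \ C)) ∨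
        ((z ∈ Z ∧ ¬ (z = u ∨ z = v)) ∨ ∃ p ∈ E, z ∈ CON.e2 u v p) := by
      intro z
      rw [hRem]
      simp only [mem_union, mem_sdiff, mem_insert, mem_singleton, mem_biUnion]
    have huR : u ∉ Rem := by
      rw [hmemR]
      rintro ((h | h) | (h | ⟨p, _, h⟩))
      · exact h.2 (Or.inl rfl)
      · exact (mem_sdiff.1 (mem_Ms.1 h).1).2 hu
      · exact h.2 (Or.inl rfl)
      · exact (CON.mem_e2.1 h).2.1 rfl
    have hvR : v ∉ Rem := by
      rw [hmemR]
      rintro ((h | h) | (h | ⟨p, _, h⟩))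
      · exact h.2 (Or.inr rfl)
      · exact (mem_sdiff.1 (mem_Ms.1 h).1).2 hv
      · exact h.2 (Or.inr rfl)
      · exact (CON.mem_e2.1 h).2.2 rfl
    obtain ⟨x0, hx0, hx0v⟩ := hRob u hu v hv huv Rem hRcard huR hvR
    -- the labels
    obtain ⟨Lp, hLp⟩ : ∃ Lp : V → Prop, Lp = fun z => z = u ∨ (z ≠ v ∧ Reg z ∧ lamP D (S \ C) P z) :=
      ⟨_, rfl⟩
    have hLpd : ∀ z, Lp z ↔ (z = u ∨ (z ≠ v ∧ Reg z ∧ lamP D (S \ C) P z)) := by
      intro z
      rw [hLp]
    have hLpv : ¬ Lp v := by
      rw [hLpd]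
      rintro (h | h)
      · exact huv h.symm
      · exact h.1 rfl
    -- the step
    have hstep : ∃ x y : V, D.Adj x y ∧ Lp x ∧ (x = u ∨ (x ∈ Om ∧ x ∉ Rem)) ∧ ¬ Lp y ∧
        (y = v ∨ (y ∈ Om ∧ y ∉ Rem)) := by
      have h1 : ∀ z, Relation.ReflTransGen (fun a b => D.Adj a b ∧ (b ∈ Om ∧ b ∉ Rem)) u z →
          (Lp z ∧ (z = u ∨ (z ∈ Om ∧ z ∉ Rem))) ∨ ∃ x y : V, D.Adj x y ∧ Lp x ∧
          (x = u ∨ (x ∈ Om ∧ x ∉ Rem)) ∧ ¬ Lp y ∧ (y = v ∨ (y ∈ Om ∧ y ∉ Rem)) := by
        intro z hz
        induction hz with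
        | refl => exact Or.inl ⟨(hLpd u).2 (Or.inl rfl), Or.inl rfl⟩
        | @tail b c _ hbc ih =>
          rcases ih with ih | ih
          · by_cases hc : Lp c
            · exact Or.inl ⟨hc, Or.inr hbc.2⟩
            · exact Or.inr ⟨b, c, hbc.1, ih.1, ih.2, hc, Or.inr hbc.2⟩
          · exact Or.inr ih
      rcases h1 x0 hx0 with h2 | h2
      · exact ⟨x0, v, hx0v, h2.1, h2.2, hLpv, Or.inl rfl⟩
      · exact h2
    obtain ⟨x, y, hxy, hLx, hxR, hLy, hyR⟩ := hstep
    have hyu : y ≠ u := fun h => hLy ((hLpd y).2 (Or.inl h))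
    -- it is a connector
    have hcon : IsCon D Reg (S \ C) P u v (x, y) := by
      refine ⟨hxy, ?_, ?_⟩
      · rcases (hLpd x).1 hLx with h | h
        · exact Or.inl h
        · exact Or.inr h.2
      · by_cases hyv : y = v
        · exact Or.inl hyv
        · right
          have h1 : y ∈ Om ∧ y ∉ Rem := by
            rcases hyR with h | h
            · exact absurd h hyv
            · exact h
          have hnuv : ¬ (y = u ∨ y = v) := by
            rintro (h | h)
            · exact hyu h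
            · exact hyv h
          have h2 : y ∉ Z := fun h => h1.2 ((hmemR y).2 (Or.inr (Or.inl ⟨h, hnuv⟩)))
          have h3 : y ∉ C := fun h => h1.2 ((hmemR y).2 (Or.inl (Or.inl ⟨h, hnuv⟩)))
          have h4 : y ∉ Ms D (Om \ Z) (S \ C) := fun h => h1.2 ((hmemR y).2 (Or.inl (Or.inr h)))
          have hRy : Reg y := (hRegd y).2 ⟨⟨h1.1, h2⟩, h3⟩
          refine ⟨hRy, ?_⟩
          have hnl : ¬ lamP D (S \ C) P y := fun h => hLy ((hLpd y).2 (Or.inr ⟨hyv, hRy, h⟩))
          change lamQ D (S \ C) P y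
          by_cases hyS : y ∈ S \ C
          · exact Or.inl ⟨hyS, fun h => hnl (Or.inl h)⟩
          · right
            refine ⟨hyS, ?_⟩
            rw [mem_Ms] at h4
            have h5 : ¬ ∀ z ∈ S \ C, ¬ Dg D y z := by
              intro h5
              exact h4 ⟨mem_sdiff.2 ⟨h1.1, h2⟩, hyS, h5⟩
            push Not at h5
            obtain ⟨z, hz, hyz⟩ := h5
            exact ⟨z, hz, fun h => hnl (Or.inr ⟨hyS, z, h, hyz⟩), hyz⟩
    -- elements of its support are not in `Rem`
    have hsup : ∀ z ∈ CON.e2 u v (x, y), z ∉ Rem := by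
      intro z hz
      obtain ⟨h1, h2, h3⟩ := CON.mem_e2.1 hz
      rcases h1 with h1 | h1
      · rcases hxR with h4 | h4
        · exact absurd (h1.trans h4) h2
        · rw [h1]
          exact h4.2
      · rcases hyR with h4 | h4
        · exact absurd (h1.trans h4) h3
        · rw [h1]
          exact h4.2
    have hnemp : ∃ z, z ∈ CON.e2 u v (x, y) := by
      by_cases hxu : x = u
      · refine ⟨y, CON.mem_e2.2 ⟨Or.inr rfl, hyu, ?_⟩⟩
        intro h
        rw [hxu, h] at hxy
        exact hnadj hxy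
      · refine ⟨x, CON.mem_e2.2 ⟨Or.inl rfl, hxu, ?_⟩⟩
        rcases (hLpd x).1 hLx with h | h
        · exact absurd h hxu
        · exact h.1
    have hdis : ∀ p ∈ E, Disjoint (CON.e2 u v (x, y)) (CON.e2 u v p) := by
      intro p hp
      refine Finset.disjoint_left.2 fun z hz hz' => ?_
      exact hsup z hz ((hmemR z).2 (Or.inr (Or.inr ⟨p, hp, hz'⟩)))
    have hnE : (x, y) ∉ E := by
      intro h
      obtain ⟨z, hz⟩ := hnemp
      exact Finset.disjoint_left.1 (hdis (x, y) h) hz hz
    have hins : insert (x, y) E ∈ Fam := by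
      rw [hFam, mem_filter, mem_powerset, hGood]
      refine ⟨?_, ?_, ?_⟩
      · intro p hp
        rw [mem_insert] at hp
        rcases hp with hp | hp
        · rw [hp, mem_product]
          constructor
          · rcases hxR with h | h
            · change x ∈ Om
              rw [h]
              exact hZ hu
            · exact h.1
          · rcases hyR with h | h
            · change y ∈ Om
              rw [h]
              exact hZ hv
            · exact h.1
        · exact hEsub hp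
      · intro p hp
        rw [mem_insert] at hp
        rcases hp with hp | hp
        · rw [hp]
          exact hcon
        · exact hEcon p hp
      · intro p hp p' hp' hpp
        rw [mem_insert] at hp hp'
        rcases hp with hp | hp
        · rcases hp' with hp' | hp'
          · exact absurd (hp.trans hp'.symm) hpp
          · rw [hp]
            exact hdis p' hp'
        · rcases hp' with hp' | hp'
          · rw [hp']
            exact (hdis p hp).symm
          · exact hEdis p hp p' hp' hpp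
    have h1 := hmax _ hins
    rw [Finset.card_insert_of_notMem hnE] at h1
    omega

end

end JON
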