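import Pool.Agent.Work.MP_a7fe73_nl.Interface

set_option autoImplicit false

namespace JON
open scoped Classical
open Finset

namespace CSA

theorem hub_card {V : Type} (m : ℕ) (g : ℕ → Fin 4 → V) : (hubV m g).card ≤ 4 * m := by
  unfold hubV
  have h1 := card_biUnion_le_card_mul (range m) (fun i => (univ : Finset (Fin 4)).image (g i)) 4
    (fun i _ => by
      have := card_image_le (s := (univ : Finset (Fin 4))) (f := g i)
      simpa using this)
  rw [card_range] at h1
  omega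

end CSA

theorem p_CSA : Stmt_PRE → Stmt_HUB → Stmt_CSA := by
  intro hPRE hHUB V _ D a k l hKS hAlp ha hl hk
  have hla : l * a ≤ l ^ 2 * a := by
    apply Nat.mul_le_mul_right
    rw [sq]
    exact Nat.le_mul_of_pos_left l hl
  have hla1 : 1 ≤ l * a := Nat.mul_pos hl ha
  have hlaa : a ≤ l * a := Nat.le_mul_of_pos_left a hl
  have e1 : 200000 * l ^ 2 * a = 200000 * (l ^ 2 * a) := by ring
  have e2 : 70 * l * a = 70 * (l * a) := by ring
  rw [e1] at hk
  have hV : k + 1 ≤ Fintype.card V := hKS.1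
  obtain ⟨W, Q, N, g, hWQ, hW, hN, hNT, hQ1, hQ2, hg, hgi, hlev⟩ :=
    hPRE V D a (70 * l) hAlp (by omega) (by rw [e2]; omega)
  rw [e2] at hNT hQ2
  set M : Finset V := W.image g with hM
  have hMc : M.card = 2 * N := by
    rw [hM, card_image_of_injOn, hW]
    intro x hx y hy hxy
    exact hgi x hx y hy hxy
  have hWM : Disjoint W M := by
    rw [disjoint_right]
    intro y hy
    obtain ⟨w, hw, rfl⟩ := mem_image.1 hy
    exact (hg w hw).1
  have hQM : Disjoint Q M := by
    rw [disjoint_right]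
    intro y hy
    obtain ⟨w, hw, rfl⟩ := mem_image.1 hy
    exact (hg w hw).2.1
  have hF : (W ∪ (Q ∪ M)).card ≤ 4 * N + Q.card := by
    have h1 := card_union_le W (Q ∪ M)
    have h2 := card_union_le Q M
    omega
  obtain ⟨g0, hg0, hd0⟩ := hHUB V D a k (N + Q.card - 1) (W ∪ (Q ∪ M)) hKS hAlp (by omega) (by omega)
  have hc0 := CSA.hub_card (N + Q.card - 1) g0
  have hF' : (hubV (N + Q.card - 1) g0 ∪ (W ∪ (Q ∪ M))).card ≤
      4 * (N + Q.card - 1) + (4 * N + Q.card) := by
    have h1 := card_union_le (hubV (N + Q.card - 1) g0) (W ∪ (Q ∪ M))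
    omega
  obtain ⟨g1, hg1, hd1⟩ := hHUB V D a k (2 * N - 1) (hubV (N + Q.card - 1) g0 ∪ (W ∪ (Q ∪ M)))
    hKS hAlp (by omega) (by omega)
  rw [disjoint_union_right, disjoint_union_right] at hd0
  rw [disjoint_union_right, disjoint_union_right, disjoint_union_right] at hd1
  refine ⟨W, Q, M, N, g, g0, g1, hN, hW, hQ1, by rw [e2]; exact hNT, by rw [e2]; exact hQ2,
    fun w hw => ⟨mem_image_of_mem g hw, (hg w hw).2.2⟩, hgi, hMc, hg0, hg1, ?_, hlev⟩
  simp only [List.pairwise_cons, List.mem_cons, List.not_mem_nil, or_false, forall_eq_or_imp,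
    forall_eq, List.Pairwise.nil, and_true, false_imp_iff, implies_true]
  exact ⟨⟨hd1.1.symm, hd0.1, hd0.2.1, hd0.2.2⟩, ⟨hd1.2.1, hd1.2.2.1, hd1.2.2.2⟩, ⟨hWQ, hWM⟩, hQM⟩

end JON
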