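import Pool.Agent.Work.MP_a7fe73_nl.Interface

/-! Block CSB (helper83): first stage of the case of few vertices -/

set_option autoImplicit false
set_option linter.unusedSectionVars false

namespace JON
open scoped Classical
open Finset

namespace CSB

theorem num {l a n q z k : ℕ} (ha : 1 ≤ a) (hl : 1 ≤ l) (hn : 2 * n ≤ 70 * l * a)
    (hq : q ≤ 2 * (70 * l * a) + 2) (hz : z ≤ 18 * (70 * l * a) + 10) (hk : 200000 * l ^ 2 * a ≤ k) :
    (2 * n + q) + 4 * 5 * ((2 * n + q) + l * ((2 * n + q) + a + 2) + 4 * 5 + 2) + z +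
      16 * 5 ^ 2 * ((2 * n + q) + l * ((2 * n + q) + a + 2) + 4 * 5 + 2) ≤ k := by
  set s : ℕ := l * a with hs
  have hs1 : 1 ≤ s := Nat.mul_pos hl ha
  have e1 : 70 * l * a = 70 * s := by rw [hs]; ring
  have e2 : 200000 * l ^ 2 * a = 200000 * (l * s) := by rw [hs]; ring
  rw [e1] at hn hq hz
  rw [e2] at hk
  have h1 : (2 * n + q) + a + 2 ≤ 215 * s := by
    have : a ≤ s := Nat.le_mul_of_pos_left a hl
    omega
  have h2 : l * ((2 * n + q) + a + 2) ≤ 215 * (l * s) := by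
    calc l * ((2 * n + q) + a + 2) ≤ l * (215 * s) := Nat.mul_le_mul_left _ h1
      _ = 215 * (l * s) := by ring
  have h3 : s ≤ l * s := Nat.le_mul_of_pos_left s hl
  set y : ℕ := l * s with hy
  omega

end CSB

theorem p_CSB (hCSA : Stmt_CSA) (hROBS : Stmt_ROBS) (hSPL : Stmt_SPL) (hHC : Stmt_HCARD) :
    Stmt_CSB := by
  intro V _ D a k l hKS hA ha hl hV hk
  obtain ⟨W, Q, M, N, gw, g0, g1, hN, hWc, hQ1, hNt, hQt, hgM, hgi, hMc, hg0, hg1, hdis, hlev⟩ :=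
    hCSA V D a k l hKS hA ha hl hk
  set Z : Finset V := hubV (N + Q.card - 1) g0 ∪ (hubV (2 * N - 1) g1 ∪ (W ∪ (Q ∪ M))) with hZ
  obtain ⟨-, -, -, -, -, hc0⟩ := hHC V D (N + Q.card - 1) g0 hg0 (by omega)
  obtain ⟨-, -, -, -, -, hc1⟩ := hHC V D (2 * N - 1) g1 hg1 (by omega)
  have hZc : Z.card ≤ 18 * (70 * l * a) + 10 := by
    have h1 := card_union_le (hubV (N + Q.card - 1) g0) (hubV (2 * N - 1) g1 ∪ (W ∪ (Q ∪ M)))
    have h2 := card_union_le (hubV (2 * N - 1) g1) (W ∪ (Q ∪ M))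
    have h3 := card_union_le W (Q ∪ M)
    have h4 := card_union_le Q M
    rw [hZ]
    omega
  obtain ⟨Vs, hVs1, hVs2, hVs3⟩ := hSPL V D Z univ 5 a (2 * N + Q.card) l
    ((2 * N + Q.card) + l * ((2 * N + Q.card) + a + 2) + 4 * 5 + 2) k hA (subset_univ _)
    (by norm_num) (by rw [card_univ]; exact hV) le_rfl (CSB.num ha hl hNt hQt hZc hk)
    (hROBS V D k Z hKS)
  exact ⟨W, Q, M, N, gw, g0, g1, Vs, hN, hWc, hQ1, hgM, hgi, hMc, hg0, hg1, hdis, hVs2,
    fun i => (disjoint_sdiff (s := Z) (t := univ)).mono_right (hVs1 i), hVs3, hlev⟩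

end JON
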