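import Pool.Agent.Work.MP_a7fe73_nl.Interface

set_option autoImplicit false

namespace JON
open scoped Classical
open Finset

theorem p_CSF (hCSB : Stmt_CSB) (hCSD : Stmt_CSD) (hCSE : Stmt_CSE) : Stmt_CSF := by
  intro V _ D a k l hKS hA ha hl hV hk
  obtain ⟨W, Q, M, N, gw, g0, g1, Vs, hS⟩ := hCSB V D a k l hKS hA ha hl hV hk
  obtain ⟨X, Y, W1, W2, WL, f1, f2, f3, psi1, psi2, psi3, c, L, pos, hT⟩ :=
    hCSD V D l W Q M N gw g0 g1 Vs hl hV hS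
  exact hCSE V D (N + Q.card - 1) g0 X Y Q W1 W2 WL f1 f2 f3 psi1 psi2 psi3 c L pos hT

end JON
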