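import Pool.Agent.Work.MP_a7fe73_nl.Interface3

set_option autoImplicit false
set_option linter.unusedSectionVars false

/-! Block CT3: coarse and fine labellings (helper25). -/

namespace JON
open scoped Classical
open Finset

noncomputable section

/-- the number of labellings with prescribed values on `H` -/
theorem CT3.card_C {V : Type} [Fintype V] (H : Finset V) (c0 : V → Fin 3) :
    3 ^ Fintype.card V = 3 ^ H.card *
      (Fintype.piFinset (fun y : V => if y ∈ H then {c0 y} else (univ : Finset (Fin 3)))).card := by
  rw [Fintype.card_piFinset]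
  have h1 : ∀ y : V, (if y ∈ H then {c0 y} else (univ : Finset (Fin 3))).card =
      if y ∈ H then 1 else 3 := by
    intro y
    split_ifs
    · exact card_singleton _
    · simp
  have h2 : (∏ y : V, (if y ∈ H then 3 else 1)) = 3 ^ H.card := by
    rw [Finset.prod_ite_mem, Finset.univ_inter, Finset.prod_const]
  rw [← h2, Finset.prod_congr rfl fun y _ => h1 y, ← Finset.prod_mul_distrib]
  have h3 : ∀ y : V, (if y ∈ H then 3 else 1) * (if y ∈ H then 1 else 3) = 3 := by
    intro y
    split_ifs <;> rfl
  rw [Finset.prod_congr rfl fun y _ => h3 y, Finset.prod_const, Finset.card_univ]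

theorem p_CT3 : Stmt_CT3 := by
  intro V _ q m P F hPF
  have hq : ∀ z : Fin (3 * q), z.val / 3 < q := by
    intro z
    have := z.2
    omega
  obtain ⟨cr, hcr⟩ : ∃ cr : (V → Fin (3 * q)) → (V → Fin q),
      ∀ om, cr om = fun y => ⟨(om y).val / 3, hq (om y)⟩ := ⟨_, fun _ => rfl⟩
  -- one fibre
  have hfib : ∀ om0 ∈ (univ : Finset (V → Fin q)).filter P, 3 ^ Fintype.card V ≤
      3 ^ m * (((univ : Finset (V → Fin (3 * q))).filter (fun om => F om ∧ cr om = om0)).card) := by
    intro om0 hom0
    obtain ⟨H, c0, hHm, hH⟩ := hPF om0 (mem_filter.1 hom0).2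
    rw [CT3.card_C H c0]
    apply Nat.mul_le_mul (Nat.pow_le_pow_right (by norm_num) hHm)
    have hb : ∀ (c : V → Fin 3) (y : V), 3 * (om0 y).val + (c y).val < 3 * q := by
      intro c y
      have h1 := (om0 y).2
      have h2 := (c y).2
      omega
    refine Finset.card_le_card_of_injOn
      (fun c : V → Fin 3 => fun y : V => (⟨3 * (om0 y).val + (c y).val, hb c y⟩ : Fin (3 * q)))
      ?_ ?_
    · intro c hc
      have hc' := Fintype.mem_piFinset.1 (Finset.mem_coe.1 hc)
      rw [Finset.mem_coe, mem_filter]
      refine ⟨mem_univ _, hH _ ?_ ?_, ?_⟩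
      · intro y
        have h2 := (c y).2
        show (3 * (om0 y).val + (c y).val) / 3 = (om0 y).val
        omega
      · intro y hy
        have h2 := (c y).2
        have h3 := hc' y
        rw [if_pos hy, mem_singleton] at h3
        show (3 * (om0 y).val + (c y).val) % 3 = (c0 y).val
        rw [← h3]
        omega
      · rw [hcr]
        funext y
        apply Fin.ext
        have h2 := (c y).2
        show (3 * (om0 y).val + (c y).val) / 3 = (om0 y).val
        omega
    · intro c _ c' _ h
      funext y
      apply Fin.ext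
      have h1 := congrArg Fin.val (congrFun h y)
      have h2 : 3 * (om0 y).val + (c y).val = 3 * (om0 y).val + (c' y).val := h1
      omega
  -- sum over the fibres
  have hsum : ∑ om0 ∈ (univ : Finset (V → Fin q)).filter P,
      (((univ : Finset (V → Fin (3 * q))).filter (fun om => F om ∧ cr om = om0)).card) ≤
      ((univ : Finset (V → Fin (3 * q))).filter F).card := by
    rw [← Finset.card_biUnion]
    · apply Finset.card_le_card
      intro om hom
      rw [mem_biUnion] at hom
      obtain ⟨om0, _, h⟩ := hom
      rw [mem_filter] at h ⊢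
      exact ⟨mem_univ _, h.2.1⟩
    · intro om0 _ om0' _ hne
      refine Finset.disjoint_left.2 fun om h h' => ?_
      rw [mem_filter] at h h'
      exact hne (h.2.2.symm.trans h'.2.2)
  calc 3 ^ Fintype.card V * ((univ : Finset (V → Fin q)).filter P).card =
      ∑ om0 ∈ (univ : Finset (V → Fin q)).filter P, 3 ^ Fintype.card V := by
        rw [Finset.sum_const, smul_eq_mul, mul_comm]
    _ ≤ ∑ om0 ∈ (univ : Finset (V → Fin q)).filter P,
      3 ^ m * (((univ : Finset (V → Fin (3 * q))).filter (fun om => F om ∧ cr om = om0)).card) :=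
        Finset.sum_le_sum hfib
    _ = 3 ^ m * ∑ om0 ∈ (univ : Finset (V → Fin q)).filter P,
      (((univ : Finset (V → Fin (3 * q))).filter (fun om => F om ∧ cr om = om0)).card) := by
        rw [Finset.mul_sum]
    _ ≤ _ := Nat.mul_le_mul_left _ hsum

end

end JON
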