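import Pool.Agent.Work.MP_a7fe73_nl.Interface

set_option autoImplicit false
set_option linter.unusedSectionVars false

/-! Block CTA (helper54): exponential moment. -/

namespace JON
open scoped Classical
open Finset

noncomputable section

namespace CTA

/-- the fibres of the overwriting map are small -/
theorem fibre {U : Type} [Fintype U] (b d : ℕ) (t : U → Fin b) (F : Finset (U → Fin b))
    (e : Finset U) (hb : 1 ≤ b) (he : e.card ≤ d) (om' : U → Fin b) :
    (F.filter (fun om => ovw om t e = om')).card ≤ b ^ d := by
  have h1 : (F.filter (fun om => ovw om t e = om')).card ≤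
      (univ : Finset (e → Fin b)).card := by
    refine Finset.card_le_card_of_injOn (fun om => fun y : e => om y.1) (fun _ _ => mem_univ _) ?_
    intro om1 h1 om2 h2 h
    have h1' := (Finset.mem_filter.1 (Finset.mem_coe.1 h1)).2
    have h2' := (Finset.mem_filter.1 (Finset.mem_coe.1 h2)).2
    funext x
    by_cases hx : x ∈ e
    · exact congrFun h ⟨x, hx⟩
    · have e1 := congrFun h1' x
      have e2 := congrFun h2' x
      unfold ovw at e1 e2
      rw [if_neg hx] at e1 e2
      rw [e1, e2]
  refine h1.trans ?_
  rw [Finset.card_univ, Fintype.card_fun, Fintype.card_fin, Fintype.card_coe]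
  exact Nat.pow_le_pow_right hb he

end CTA

theorem p_CTA : Stmt_CTA := by
  intro U ι _ b d t F J e hb
  have hbd : (1 : ℝ) ≤ (b : ℝ) ^ d := one_le_pow₀ (by exact_mod_cast hb)
  induction J using Finset.induction_on with
  | empty =>
    intro _ _ _
    simp
  | insert j0 J hj0 ih =>
    intro hcard hdis hF
    have ih' := ih (fun j hj => hcard j (Finset.mem_insert_of_mem hj))
      (fun i hi j hj => hdis i (Finset.mem_insert_of_mem hi) j (Finset.mem_insert_of_mem hj))
      (fun om hom j hj => hF om hom j (Finset.mem_insert_of_mem hj))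
    set w : (U → Fin b) → ℝ := fun om =>
      (1 / 2 : ℝ) ^ (J.filter (fun j => ∀ y ∈ e j, om y = t y)).card with hw
    have hw0 : ∀ om, 0 ≤ w om := fun om => by rw [hw]; positivity
    set A : Finset (U → Fin b) := F.filter (fun om => ∀ y ∈ e j0, om y = t y) with hA
    have hj0' : j0 ∈ insert j0 J := Finset.mem_insert_self _ _
    -- the new sum
    have h1 : ∑ om ∈ F, (1 / 2 : ℝ) ^ ((insert j0 J).filter (fun j => ∀ y ∈ e j, om y = t y)).card =
        ∑ om ∈ F, w om - (1 / 2) * ∑ om ∈ A, w om := by
      rw [hA, Finset.sum_filter, Finset.mul_sum, ← Finset.sum_sub_distrib]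
      refine Finset.sum_congr rfl fun om _ => ?_
      rw [Finset.filter_insert]
      split_ifs with h
      · rw [Finset.card_insert_of_notMem (fun h' => hj0 (Finset.mem_filter.1 h').1), pow_succ]
        simp only [hw]
        ring
      · simp only [hw]
        ring
    -- the claim
    have hr : ∀ om ∈ F, ovw om t (e j0) ∈ A := by
      intro om hom
      rw [hA, Finset.mem_filter]
      refine ⟨hF om hom j0 hj0', fun y hy => ?_⟩
      unfold ovw
      rw [if_pos hy]
    have hwr : ∀ om, w (ovw om t (e j0)) = w om := by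
      intro om
      simp only [hw]
      congr 2
      refine Finset.filter_congr fun j hj => ?_
      have hne : j ≠ j0 := fun h => hj0 (h ▸ hj)
      have hd := hdis j (Finset.mem_insert_of_mem hj) j0 hj0' hne
      refine forall_congr' fun y => imp_congr_right fun hy => ?_
      have hy0 : y ∉ e j0 := Finset.disjoint_left.1 hd hy
      unfold ovw
      rw [if_neg hy0]
    have h2 : ∑ om ∈ F, w om ≤ (b : ℝ) ^ d * ∑ om ∈ A, w om := by
      calc ∑ om ∈ F, w om = ∑ om ∈ F, w (ovw om t (e j0)) :=
            Finset.sum_congr rfl fun om _ => (hwr om).symm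
        _ = ∑ om' ∈ A, ∑ om ∈ F.filter (fun om => ovw om t (e j0) = om'), w (ovw om t (e j0)) :=
            (Finset.sum_fiberwise_of_maps_to hr _).symm
        _ ≤ ∑ om' ∈ A, (b : ℝ) ^ d * w om' := by
            refine Finset.sum_le_sum fun om' _ => ?_
            have h3 : ∑ om ∈ F.filter (fun om => ovw om t (e j0) = om'), w (ovw om t (e j0)) =
                ((F.filter (fun om => ovw om t (e j0) = om')).card : ℝ) * w om' := by
              rw [← nsmul_eq_mul, ← Finset.sum_const]
              refine Finset.sum_congr rfl fun om hom => ?_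
              rw [(Finset.mem_filter.1 hom).2]
            rw [h3]
            apply mul_le_mul_of_nonneg_right _ (hw0 om')
            have := CTA.fibre b d t F (e j0) hb (hcard j0 hj0') om'
            exact_mod_cast this
        _ = (b : ℝ) ^ d * ∑ om ∈ A, w om := by rw [Finset.mul_sum]
    have hB : 0 < (b : ℝ) ^ d := by linarith
    have h3 : (∑ om ∈ F, w om) / (b : ℝ) ^ d ≤ ∑ om ∈ A, w om := by
      rw [div_le_iff₀ hB]
      linarith
    have h4 : 0 ≤ 1 - 1 / (2 * (b : ℝ) ^ d) := by
      rw [sub_nonneg, div_le_one (by positivity)]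
      linarith
    rw [h1, Finset.card_insert_of_notMem hj0, pow_succ]
    have h5 : ∑ om ∈ F, w om - (1 / 2) * ∑ om ∈ A, w om ≤
        (∑ om ∈ F, w om) * (1 - 1 / (2 * (b : ℝ) ^ d)) := by
      have h6 : (∑ om ∈ F, w om) * (1 - 1 / (2 * (b : ℝ) ^ d)) =
          ∑ om ∈ F, w om - (1 / 2) * ((∑ om ∈ F, w om) / (b : ℝ) ^ d) := by
        field_simp
      rw [h6]
      linarith
    refine h5.trans ?_
    rw [← mul_assoc]
    exact mul_le_mul_of_nonneg_right ih' h4

end

end JON
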