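import Pool.Agent.Work.MP_a7fe73_nl.Interface

set_option autoImplicit false

open scoped Classical

namespace JON

open Finset

theorem CUT.claim {V : Type} (D : Digraph V) (P : V → Prop) (u v : V) (x : V)
    (h : Relation.ReflTransGen (fun a b => D.Adj a b ∧ P b) u x) :
    Thru D (fun z => P z ∧ z ≠ u ∧ z ≠ v) u v ∨
      Relation.ReflTransGen (fun a b => D.Adj a b ∧ (P b ∧ b ≠ u ∧ b ≠ v)) u x := by
  induction h with
  | refl => exact Or.inr Relation.ReflTransGen.refl
  | @tail b c _ hab ih =>
    rcases ih with ih | ih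
    · exact Or.inl ih
    · by_cases hcu : c = u
      · subst hcu
        exact Or.inr Relation.ReflTransGen.refl
      · by_cases hcv : c = v
        · subst hcv
          exact Or.inl ⟨b, ih, hab.1⟩
        · exact Or.inr (ih.tail ⟨hab.1, hab.2, hcu, hcv⟩)

theorem p_CUT : Stmt_CUT := by
  intro V D P u v _ h
  obtain ⟨x, hx, hxv⟩ := h
  rcases CUT.claim D P u v x hx with h1 | h1
  · exact h1
  · exact ⟨x, h1, hxv⟩

end JON
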