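import Pool.Agent.Work.MP_a7fe73_nl.Interface2

set_option autoImplicit false

/-! Block FI2 of MP_a7fe73_nl: the theorem for permutations, one logarithm -/

open scoped Classical

namespace JON
open Finset

theorem p_FI2 (h1 : Stmt_CB2) (h2 : Stmt_CSD) (h3 : Stmt_CSE) (h4 : Stmt_CLB) (h5 : Stmt_CLC) : Stmt_FI2 := by
  intro V _ D a k hk hA ha hak
  have hl1 : 1 ≤ Nat.clog 2 (a + 1) := Nat.clog_pos (by norm_num) (by omega)
  have hl2 : a + 1 ≤ 2 ^ Nat.clog 2 (a + 1) := Nat.le_pow_clog (by norm_num) _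
  generalize Nat.clog 2 (a + 1) = l at hak hl1 hl2
  have hal : 1 * 1 ≤ a * l := Nat.mul_le_mul ha hl1
  by_cases hV : 2 ^ (44 * l) ≤ Fintype.card V
  · have hq : 110000 * a * l ≤ k := by
      refine le_trans ?_ hak
      rw [mul_assoc, mul_assoc]
      exact Nat.mul_le_mul_right _ (by norm_num)
    obtain ⟨m, g, X, J, O, AI, Q, W1, W2, W3, Om, f1, f2, f3, psi1, psi2, psi3, mid, hS⟩ :=
      h4 V D a k l hk hA ha hl2 hq hV
    exact h5 V D m g X J O AI Q W1 W2 W3 Om f1 f2 f3 psi1 psi2 psi3 mid hS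
  · have hV' : Fintype.card V + 1 ≤ 2 ^ (44 * l) := by omega
    have hl44 : 1 ≤ 44 * l := by omega
    have hq : 26000 * (44 * l) * a ≤ k := by
      refine le_trans ?_ hak
      have : 26000 * (44 * l) * a = 1144000 * (a * l) := by ring
      rw [this, mul_assoc]
      exact Nat.mul_le_mul_right _ (by norm_num)
    obtain ⟨W, Q, M, N, gw, g0, g1, Vs, hS⟩ := h1 V D a k (44 * l) hk hA ha hl44 hV' hq
    obtain ⟨X, Y, W1, W2, WL, f1, f2, f3, psi1, psi2, psi3, c, L, pos, hT⟩ :=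
      h2 V D (44 * l) W Q M N gw g0 g1 Vs hl44 hV' hS
    exact h3 V D _ g0 X Y Q W1 W2 WL f1 f2 f3 psi1 psi2 psi3 c L pos hT

end JON
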