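import Pool.Agent.Work.MP_a7fe73_nl.Interface

set_option autoImplicit false

namespace JON
open scoped Classical
open Finset

theorem p_FIN (hCSF : Stmt_CSF) (hCLB : Stmt_CLB) (hCLC : Stmt_CLC) : Stmt_FIN := by
  intro V _ D a k hKS hA ha hk
  obtain ⟨l, hl⟩ : ∃ l, l = Nat.clog 2 (a + 1) := ⟨_, rfl⟩
  have h1 : a + 1 ≤ 2 ^ l := by
    rw [hl]
    exact Nat.le_pow_clog (by norm_num) _
  have h2 : 1 ≤ l := by
    rw [hl]
    exact Nat.clog_pos (by norm_num) (by omega)
  rw [← hl] at hk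
  by_cases hV : 2 ^ (44 * l) ≤ Fintype.card V
  · have h3 : 110000 * a * l ≤ k := by
      refine le_trans ?_ hk
      have h4 : a * l ≤ a * l ^ 2 := Nat.mul_le_mul_left a (by nlinarith)
      nlinarith
    obtain ⟨m, g, X, J, O, AI, Q, W1, W2, W3, Om, f1, f2, f3, psi1, psi2, psi3, mid, hS⟩ :=
      hCLB V D a k l hKS hA ha h1 h3 hV
    exact hCLC V D m g X J O AI Q W1 W2 W3 Om f1 f2 f3 psi1 psi2 psi3 mid hS
  · refine hCSF V D a k (44 * l) hKS hA ha (by omega) (by omega) ?_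
    refine le_trans ?_ hk
    have h4 : 200000 * (44 * l) ^ 2 * a = 387200000 * (a * l ^ 2) := by ring
    have h5 : 400000000 * a * l ^ 2 = 400000000 * (a * l ^ 2) := by ring
    rw [h4, h5]
    exact Nat.mul_le_mul_right _ (by norm_num)

end JON
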