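import Pool.Agent.Work.MP_a7fe73_nl.Interface

set_option autoImplicit false

namespace JON
open scoped Classical
open Finset

/-- GEN: closed sets have small generating sets -/
theorem p_GEN : Stmt_GEN := by
  intro V D a S P hA hPS hcl
  have hclP : ∀ I ⊆ P, Cl D S I ⊆ P := by
    intro I hI y hy
    obtain ⟨hyS, x, hxI, hxS, hw⟩ := mem_Cl.mp hy
    have hxP : x ∈ P := hI hxI
    clear hy hyS
    induction hw with
    | refl => exact hxP
    | tail _ hab ih => exact hcl _ ih _ hab.2 hab.1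
  have hex : ∃ n, ∃ I ⊆ P, Cl D S I = P ∧ I.card = n := by
    refine ⟨P.card, P, Subset.refl _, ?_, rfl⟩
    refine Subset.antisymm (hclP P (Subset.refl _)) ?_
    intro y hy
    exact mem_Cl.mpr ⟨hPS hy, y, hy, hPS hy, Relation.ReflTransGen.refl⟩
  obtain ⟨I, hI, hCl, hcard⟩ := Nat.find_spec hex
  refine ⟨I, hI, ?_, hCl⟩
  refine hA I ?_
  intro x hx y hy hxy
  have hlt : (I.erase y).card < Nat.find hex := by
    rw [← hcard]; exact card_erase_lt_of_mem hy
  refine Nat.find_min hex hlt ⟨I.erase y, (erase_subset _ _).trans hI, ?_, rfl⟩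
  refine Subset.antisymm (hclP _ ((erase_subset _ _).trans hI)) ?_
  rw [← hCl]
  intro z hz
  obtain ⟨hzS, w, hwI, hwS, hwz⟩ := mem_Cl.mp hz
  by_cases hwy : w = y
  · subst hwy
    refine mem_Cl.mpr ⟨hzS, x, mem_erase.mpr ⟨hxy.1, hx⟩, hPS (hI hx), ?_⟩
    exact Relation.ReflTransGen.head ⟨hxy.2.1, hwS⟩ hwz
  · exact mem_Cl.mpr ⟨hzS, w, mem_erase.mpr ⟨hwy, hwI⟩, hwS, hwz⟩

end JON
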