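import Pool.Agent.Work.MP_a7fe73_nl.Interface

set_option autoImplicit false

namespace JON
open scoped Classical
open Finset

theorem p_GRD : Stmt_GRD := by
  intro V X bad b s hsym hb hdeg hcard
  induction s generalizing X with
  | zero => exact ⟨∅, empty_subset _, card_empty, fun x hx => absurd hx (notMem_empty x)⟩
  | succ s ih =>
    have h1 : (s + 1) * b = s * b + b := by ring
    have h2 : 0 < X.card := by omega
    obtain ⟨x, hx⟩ := card_pos.1 h2
    have h3 : X ⊆ (X.filter (fun y => y ≠ x ∧ ¬ bad x y)) ∪
        insert x (X.filter (fun y => y ≠ x ∧ bad x y)) := by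
      intro y hy
      by_cases hyx : y = x
      · exact mem_union_right _ (mem_insert.2 (Or.inl hyx))
      · by_cases hbad : bad x y
        · exact mem_union_right _ (mem_insert_of_mem (mem_filter.2 ⟨hy, hyx, hbad⟩))
        · exact mem_union_left _ (mem_filter.2 ⟨hy, hyx, hbad⟩)
    have h4 := (card_le_card h3).trans (card_union_le _ _)
    have h5 := card_insert_le x (X.filter (fun y => y ≠ x ∧ bad x y))
    have h6 := hdeg x hx
    obtain ⟨A, hA, hAc, hAb⟩ := ih (X.filter (fun y => y ≠ x ∧ ¬ bad x y)) (by
      intro z hz
      refine lt_of_le_of_lt (card_le_card ?_) (hdeg z (mem_filter.1 hz).1)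
      exact filter_subset_filter _ (filter_subset _ _)) (by omega)
    have h7 : x ∉ A := fun h => (mem_filter.1 (hA h)).2.1 rfl
    refine ⟨insert x A, ?_, ?_, ?_⟩
    · intro y hy
      rcases mem_insert.1 hy with h | h
      · rw [h]; exact hx
      · exact (mem_filter.1 (hA h)).1
    · rw [card_insert_of_notMem h7, hAc]
    · intro y hy z hz hyz
      rcases mem_insert.1 hy with h | h
      · rcases mem_insert.1 hz with h' | h'
        · exact absurd (h.trans h'.symm) hyz
        · rw [h]
          exact (mem_filter.1 (hA h')).2.2
      · rcases mem_insert.1 hz with h' | h'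
        · rw [h']
          intro hcon
          exact (mem_filter.1 (hA h)).2.2 (hsym _ _ hcon)
        · exact hAb y h z h' hyz

end JON
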