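import Pool.Agent.Work.MP_a7fe73_nl.Interface

set_option autoImplicit false

/-! Block LEV: levels. -/

namespace JON
open scoped Classical
open Finset

theorem LEV_max {V : Type} [Fintype V] (D : Digraph V) (Lv : Finset V) :
    ∃ L : Finset V, Disjoint L Lv ∧ Stab D L ∧ ∀ L' : Finset V, Disjoint L' Lv → Stab D L' → L'.card ≤ L.card := by
  obtain ⟨L, hL, hmax⟩ := Finset.exists_max_image
    ((univ : Finset (Finset V)).filter (fun L => Disjoint L Lv ∧ Stab D L)) Finset.card
    ⟨∅, by
      rw [mem_filter]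
      refine ⟨mem_univ _, Finset.disjoint_empty_left _, ?_⟩
      intro u hu
      simp at hu⟩
  rw [mem_filter] at hL
  exact ⟨L, hL.2.1, hL.2.2, fun L' h1 h2 => hmax L' (by rw [mem_filter]; exact ⟨mem_univ _, h1, h2⟩)⟩

theorem LEV_step {V : Type} (D : Digraph V) (Lv L R : Finset V) (hL1 : Disjoint L Lv) (hL2 : Stab D L)
    (hmax : ∀ L' : Finset V, Disjoint L' Lv → Stab D L' → L'.card ≤ L.card) (hR1 : Disjoint R Lv)
    (hR2 : Disjoint R L) (hR3 : Stab D R) : R.card ≤ (nbr D L R).card := by
  have h1 : Disjoint ((L \ nbr D L R) ∪ R) Lv := by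
    rw [Finset.disjoint_union_left]
    exact ⟨Finset.disjoint_of_subset_left sdiff_subset hL1, hR1⟩
  have h2 : Stab D ((L \ nbr D L R) ∪ R) := by
    intro u hu v hv hd
    rw [mem_union, mem_sdiff, mem_nbr] at hu hv
    rcases hu with hu | hu <;> rcases hv with hv | hv
    · exact hL2 u hu.1 v hv.1 hd
    · exact hu.2 ⟨hu.1, v, hv, hd⟩
    · exact hv.2 ⟨hv.1, u, hu, hd.symm⟩
    · exact hR3 u hu v hv hd
  have h3 := hmax _ h1 h2
  have h4 : Disjoint (L \ nbr D L R) R := Finset.disjoint_of_subset_left sdiff_subset hR2.symm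
  have h6 : nbr D L R ⊆ L := filter_subset _ _
  rw [card_union_of_disjoint h4, card_sdiff_of_subset h6] at h3
  have h5 : (nbr D L R).card ≤ L.card := card_le_card (filter_subset _ _)
  omega

theorem p_LEV : Stmt_LEV := by
  intro V _ D a T hA
  induction T with
  | zero => exact ⟨∅, by simp, fun R _ _ => by simp⟩
  | succ T ih =>
    obtain ⟨Lv, hc, hLv⟩ := ih
    obtain ⟨L, hL1, hL2, hmax⟩ := LEV_max D Lv
    refine ⟨Lv ∪ L, ?_, ?_⟩
    · have h1 := card_union_le Lv L
      have h2 := hA L hL2
      nlinarith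
    · intro R hR hRs
      rw [Finset.disjoint_union_right] at hR
      have h1 := hLv R hR.1 hRs
      have h2 := LEV_step D Lv L R hL1 hL2 hmax hR.1 hR.2 hRs
      have h3 : nbr D (Lv ∪ L) R = nbr D Lv R ∪ nbr D L R := by
        unfold nbr
        rw [filter_union]
      have h4 : Disjoint (nbr D Lv R) (nbr D L R) :=
        Finset.disjoint_of_subset_left (filter_subset _ _)
          (Finset.disjoint_of_subset_right (filter_subset _ _) hL1.symm)
      rw [h3, card_union_of_disjoint h4, add_mul, one_mul]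
      omega

end JON
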