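import Pool.Agent.Work.MP_a7fe73_nl.Interface

set_option autoImplicit false

/-! Block LKS: the interior sets of a linkage. -/

namespace JON
open scoped Classical
open Finset

theorem LKS_cancel {V : Type} {A W : Finset V} {f : V → V}
    (inj : ∀ u v, u ∈ A ∨ u ∈ W → v ∈ A ∨ v ∈ W → f u = f v → u = v) {a a' : V} :
    ∀ j j' : ℕ, j ≤ j' → (∀ i < j, f^[i] a ∈ A ∨ f^[i] a ∈ W) → (∀ i < j', f^[i] a' ∈ A ∨ f^[i] a' ∈ W) →
      f^[j] a = f^[j'] a' → a = f^[j' - j] a' := by
  intro j
  induction j with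
  | zero =>
    intro j' _ _ _ h
    simpa using h
  | succ j ih =>
    intro j' hj h1 h2 h
    obtain ⟨j'', rfl⟩ : ∃ j'', j' = j'' + 1 := ⟨j' - 1, by omega⟩
    rw [Function.iterate_succ_apply', Function.iterate_succ_apply'] at h
    have h3 : f^[j] a = f^[j''] a' := inj _ _ (h1 j (by omega)) (h2 j'' (by omega)) h
    have h4 := ih j'' (by omega) (fun i hi => h1 i (by omega)) (fun i hi => h2 i (by omega)) h3
    rw [show j'' + 1 - (j + 1) = j'' - j by omega]
    exact h4

theorem p_LKS : Stmt_LKS := by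
  intro V D A B W f psi hAB hAW hBW hL
  refine ⟨fun a => W.filter (fun w => ∃ j, 1 ≤ j ∧ f^[j] a = w ∧ ∀ i, 1 ≤ i → i ≤ j → f^[i] a ∈ W), ?_, ?_, ?_⟩
  · intro a _
    exact filter_subset _ _
  · intro a ha a' ha' hne
    rw [Finset.disjoint_left]
    intro w hw hw'
    rw [mem_filter] at hw hw'
    obtain ⟨_, j, hj1, hj2, hj3⟩ := hw
    obtain ⟨_, j', hj1', hj2', hj3'⟩ := hw'
    have key : ∀ (b b' : V) (k k' : ℕ), b ∈ A → b' ∈ A → k ≤ k' → 1 ≤ k →
        (∀ i, 1 ≤ i → i ≤ k → f^[i] b ∈ W) → (∀ i, 1 ≤ i → i ≤ k' → f^[i] b' ∈ W) →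
        f^[k] b = f^[k'] b' → b = b' := by
      intro b b' k k' hb hb' hkk hk h1 h2 h
      have h3 := LKS_cancel hL.inj k k' hkk (fun i hi => by
        rcases Nat.eq_zero_or_pos i with h0 | h0
        · subst h0
          exact Or.inl hb
        · exact Or.inr (h1 i h0 (by omega))) (fun i hi => by
        rcases Nat.eq_zero_or_pos i with h0 | h0
        · subst h0
          exact Or.inl hb'
        · exact Or.inr (h2 i h0 (by omega))) h
      rcases Nat.eq_zero_or_pos (k' - k) with h0 | h0
      · rw [h0] at h3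
        simpa using h3
      · exfalso
        have h4 : f^[k' - k] b' ∈ W := h2 _ h0 (by omega)
        rw [← h3] at h4
        exact Finset.disjoint_left.mp hAW hb h4
    rcases le_total j j' with hle | hle
    · exact hne (key a a' j j' ha ha' hle hj1 hj3 hj3' (hj2.trans hj2'.symm))
    · exact hne (key a' a j' j ha' ha hle hj1' hj3' hj3 (hj2'.trans hj2.symm)).symm
  · intro a ha
    -- some iterate leaves W
    have hex : ∃ n, 1 ≤ n ∧ f^[n] a ∉ W := by
      by_contra hcon
      have hcon' : ∀ n, 1 ≤ n → f^[n] a ∈ W := by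
        intro n hn
        by_contra h
        exact hcon ⟨n, hn, h⟩
      have hdec : ∀ n, psi (f^[n] a) + n ≤ psi a := by
        intro n
        induction n with
        | zero => simp
        | succ n ih =>
          have h1 : f^[n] a ∈ A ∨ f^[n] a ∈ W := by
            rcases Nat.eq_zero_or_pos n with h0 | h0
            · subst h0
              exact Or.inl ha
            · exact Or.inr (hcon' n h0)
          have h2 := hL.dec _ h1
          rw [Function.iterate_succ_apply']
          omega
      have := hdec (psi a + 1)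
      omega
    obtain ⟨n, ⟨hn1, hn2⟩, hmin⟩ : ∃ n, (1 ≤ n ∧ f^[n] a ∉ W) ∧ ∀ m, m < n → ¬ (1 ≤ m ∧ f^[m] a ∉ W) :=
      ⟨Nat.find hex, Nat.find_spec hex, fun m hm => Nat.find_min hex hm⟩
    have hW : ∀ i, 1 ≤ i → i < n → f^[i] a ∈ W := by
      intro i h1 h2
      by_contra h
      exact hmin i h2 ⟨h1, h⟩
    have hAW' : ∀ i, i < n → f^[i] a ∈ A ∨ f^[i] a ∈ W := by
      intro i hi
      rcases Nat.eq_zero_or_pos i with h0 | h0
      · subst h0
        exact Or.inl ha
      · exact Or.inr (hW i h0 hi)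
    obtain ⟨m, rfl⟩ : ∃ m, n = m + 1 := ⟨n - 1, by omega⟩
    have hfin : f^[m + 1] a ∈ B := by
      have h1 := hL.maps _ (hAW' m (by omega))
      rw [Function.iterate_succ_apply'] at hn2 ⊢
      rcases h1 with h1 | h1
      · exact absurd h1 hn2
      · exact h1
    refine ⟨f^[m + 1] a, hfin, f^[m] a, ?_, ?_⟩
    · have hr : ∀ i, i ≤ m → Relation.ReflTransGen (fun x y => D.Adj x y ∧
          y ∈ W.filter (fun w => ∃ j, 1 ≤ j ∧ f^[j] a = w ∧ ∀ i, 1 ≤ i → i ≤ j → f^[i] a ∈ W)) a (f^[i] a) := by
        intro i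
        induction i with
        | zero => intro _; exact Relation.ReflTransGen.refl
        | succ i ih =>
          intro hi
          refine (ih (by omega)).tail ⟨?_, ?_⟩
          · rw [Function.iterate_succ_apply']
            exact hL.arc _ (hAW' i (by omega))
          · rw [mem_filter]
            exact ⟨hW _ (by omega) (by omega), i + 1, by omega, rfl, fun k hk1 hk2 => hW k hk1 (by omega)⟩
      exact hr m le_rfl
    · rw [Function.iterate_succ_apply']
      exact hL.arc _ (hAW' m (by omega))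

end JON
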