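import Pool.Agent.Work.MP_a7fe73_nl.Interface

set_option autoImplicit false

namespace JON
open scoped Classical
open Finset

/-- MSB: few vertices have no G-neighbour in S minus C -/
theorem p_MSB : Stmt_MSB := by
  intro V D a k K R S C hA hSR hC hbig
  by_contra hcon
  have hK : K ≤ (Ms D R (S \ C)).card := not_lt.mp hcon
  set M := Ms D R (S \ C) with hM
  have hne : (M.powerset.filter (fun A => Stab D A)).Nonempty := by
    refine ⟨∅, mem_filter.mpr ⟨mem_powerset.mpr (empty_subset _), ?_⟩⟩
    intro u hu; exact absurd hu (notMem_empty u)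
  obtain ⟨A, hAm, hmax⟩ := exists_max_image _ (fun A : Finset V => A.card) hne
  obtain ⟨hAM, hAS⟩ := mem_filter.mp hAm
  have hAM := mem_powerset.mp hAM
  have hAR : A ⊆ R := fun x hx => (mem_Ms.mp (hAM hx)).1
  have hMN : M ⊆ NB D R A := by
    intro w hw
    refine mem_NB.mpr ⟨(mem_Ms.mp hw).1, ?_⟩
    by_contra hcon2
    have hwA : w ∉ A := fun h => hcon2 (Or.inl h)
    have hno : ∀ x ∈ A, ¬ Dg D x w := fun x hx h => hcon2 (Or.inr ⟨x, hx, h⟩)
    have hins : insert w A ∈ M.powerset.filter (fun A => Stab D A) := by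
      refine mem_filter.mpr ⟨mem_powerset.mpr (insert_subset hw hAM), ?_⟩
      intro u hu v hv huv
      rcases mem_insert.mp hu with hu1 | hu1
      · rcases mem_insert.mp hv with hv1 | hv1
        · rw [hu1, hv1] at huv; exact huv.irrefl
        · rw [hu1] at huv; exact hno v hv1 huv.symm
      · rcases mem_insert.mp hv with hv1 | hv1
        · rw [hv1] at huv; exact hno u hu1 huv
        · exact hAS u hu1 v hv1 huv
    have h1 := hmax _ hins
    rw [card_insert_of_notMem hwA] at h1
    omega
  have h2 := hbig A hAR (hA A hAS) (hK.trans (card_le_card hMN))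
  have h3 : (NB D R A).filter (fun v => v ∈ S) ⊆ C := by
    intro v hv
    obtain ⟨hvN, hvS⟩ := mem_filter.mp hv
    by_contra hvC
    have hvSC : v ∈ S \ C := mem_sdiff.mpr ⟨hvS, hvC⟩
    rcases (mem_NB.mp hvN).2 with hvA | ⟨x, hxA, hxv⟩
    · exact (mem_Ms.mp (hAM hvA)).2.1 hvSC
    · exact (mem_Ms.mp (hAM hxA)).2.2 v hvSC hxv
  have h4 := card_le_card h3
  omega

end JON
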