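import Pool.Agent.Work.MP_a7fe73_nl.Interface

set_option autoImplicit false
set_option linter.unusedSectionVars false

/-! Block MUV: the theorem of Menger for two vertices (helper25). -/

namespace JON
open scoped Classical
open Finset

noncomputable section

/-- the digraph with `k` copies of `u` and `k` copies of `v` -/
def MUV.DD {V : Type} (D : Digraph V) (k : ℕ) (u v : V) : Digraph (V ⊕ (Fin k ⊕ Fin k)) where
  Adj := fun a b => match a, b with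
    | Sum.inl x, Sum.inl y => D.Adj x y
    | Sum.inr (Sum.inl _), Sum.inl y => D.Adj u y
    | Sum.inl x, Sum.inr (Sum.inr _) => D.Adj x v
    | _, _ => False

theorem p_MUV (hCUT : Stmt_CUT) (hLINKH : Stmt_LINKH) (hLINKC : Stmt_LINKC) (hLKS : Stmt_LKS) :
    Stmt_MUV := by
  intro V _ D k u v hKS huv hnadj
  obtain ⟨D', hD'⟩ : ∃ D' : Digraph (V ⊕ (Fin k ⊕ Fin k)), D' = MUV.DD D k u v := ⟨_, rfl⟩
  have adj_ll : ∀ x y : V, D'.Adj (Sum.inl x) (Sum.inl y) ↔ D.Adj x y := by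
    intro x y; rw [hD']; exact Iff.rfl
  have adj_rl : ∀ (i : Fin k) (y : V), D'.Adj (Sum.inr (Sum.inl i)) (Sum.inl y) ↔ D.Adj u y := by
    intro x y; rw [hD']; exact Iff.rfl
  have adj_lr : ∀ (x : V) (j : Fin k), D'.Adj (Sum.inl x) (Sum.inr (Sum.inr j)) ↔ D.Adj x v := by
    intro x y; rw [hD']; exact Iff.rfl
  have adj_rr : ∀ (i j : Fin k), ¬ D'.Adj (Sum.inr (Sum.inl i)) (Sum.inr (Sum.inr j)) := by
    intro i j h; rw [hD'] at h; exact h
  obtain ⟨A, hA⟩ : ∃ A : Finset (V ⊕ (Fin k ⊕ Fin k)), A = (univ : Finset (Fin k)).image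
      (fun i => Sum.inr (Sum.inl i)) := ⟨_, rfl⟩
  obtain ⟨B, hB⟩ : ∃ B : Finset (V ⊕ (Fin k ⊕ Fin k)), B = (univ : Finset (Fin k)).image
      (fun i => Sum.inr (Sum.inr i)) := ⟨_, rfl⟩
  obtain ⟨W, hW⟩ : ∃ W : Finset (V ⊕ (Fin k ⊕ Fin k)), W =
      ((univ : Finset V).filter (fun z => z ≠ u ∧ z ≠ v)).image (fun z => Sum.inl z) := ⟨_, rfl⟩
  have mA : ∀ a, a ∈ A ↔ ∃ i : Fin k, a = Sum.inr (Sum.inl i) := by
    intro a
    rw [hA]
    simp only [mem_image, mem_univ, true_and]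
    exact ⟨fun ⟨i, h⟩ => ⟨i, h.symm⟩, fun ⟨i, h⟩ => ⟨i, h.symm⟩⟩
  have mB : ∀ a, a ∈ B ↔ ∃ i : Fin k, a = Sum.inr (Sum.inr i) := by
    intro a
    rw [hB]
    simp only [mem_image, mem_univ, true_and]
    exact ⟨fun ⟨i, h⟩ => ⟨i, h.symm⟩, fun ⟨i, h⟩ => ⟨i, h.symm⟩⟩
  have mW : ∀ a, a ∈ W ↔ ∃ z : V, (z ≠ u ∧ z ≠ v) ∧ a = Sum.inl z := by
    intro a
    rw [hW]
    simp only [mem_image, mem_filter, mem_univ, true_and]
    exact ⟨fun ⟨i, h1, h⟩ => ⟨i, h1, h.symm⟩, fun ⟨i, h1, h⟩ => ⟨i, h1, h.symm⟩⟩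
  have cA : A.card = k := by
    rw [hA, Finset.card_image_of_injective _ (fun a b h => by simpa using h)]
    simp
  have cB : B.card = k := by
    rw [hB, Finset.card_image_of_injective _ (fun a b h => by simpa using h)]
    simp
  have dAB : Disjoint A B := by
    refine Finset.disjoint_left.2 fun z h1 h2 => ?_
    obtain ⟨i, rfl⟩ := (mA z).1 h1
    obtain ⟨j, h⟩ := (mB _).1 h2
    simp at h
  have dAW : Disjoint A W := by
    refine Finset.disjoint_left.2 fun z h1 h2 => ?_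
    obtain ⟨i, rfl⟩ := (mA z).1 h1
    obtain ⟨j, _, h⟩ := (mW _).1 h2
    simp at h
  have dBW : Disjoint B W := by
    refine Finset.disjoint_left.2 fun z h1 h2 => ?_
    obtain ⟨i, rfl⟩ := (mB z).1 h1
    obtain ⟨j, _, h⟩ := (mW _).1 h2
    simp at h
  have hsep : ∀ C : Finset (V ⊕ (Fin k ⊕ Fin k)), C.card < A.card → ∃ a ∈ A, ∃ b ∈ B, a ∉ C ∧ b ∉ C ∧
      Thru D' (fun z => z ∈ W ∧ z ∉ C) a b := by
    intro C hC
    obtain ⟨a, ha, haC⟩ := Finset.exists_mem_notMem_of_card_lt_card hC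
    obtain ⟨b, hb, hbC⟩ := Finset.exists_mem_notMem_of_card_lt_card (s := C) (t := B) (by omega)
    refine ⟨a, ha, b, hb, haC, hbC, ?_⟩
    obtain ⟨i, rfl⟩ := (mA a).1 ha
    obtain ⟨j, rfl⟩ := (mB b).1 hb
    obtain ⟨C0, hC0⟩ : ∃ C0 : Finset V, C0 = (univ : Finset V).filter
        (fun z => (Sum.inl z : V ⊕ (Fin k ⊕ Fin k)) ∈ C ∧ z ≠ u ∧ z ≠ v) := ⟨_, rfl⟩
    have mC0 : ∀ z, z ∈ C0 ↔ (Sum.inl z : V ⊕ (Fin k ⊕ Fin k)) ∈ C ∧ z ≠ u ∧ z ≠ v := by
      intro z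
      rw [hC0, mem_filter]
      simp
    have hC0c : C0.card ≤ C.card := by
      refine Finset.card_le_card_of_injOn (fun z => (Sum.inl z : V ⊕ (Fin k ⊕ Fin k))) ?_ ?_
      · intro z hz
        exact ((mC0 z).1 (Finset.mem_coe.1 hz)).1
      · intro z _ z' _ h
        simpa using h
    have hRT := hKS.2 C0 (by omega) u v (fun h => ((mC0 u).1 h).2.1 rfl)
      (fun h => ((mC0 v).1 h).2.2 rfl)
    have hThru : Thru D (fun z => z ∉ C0) u v := by
      rcases hRT.cases_tail with h | ⟨x, hx, hxv⟩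
      · exact absurd h.symm huv
      · refine ⟨x, ?_, hxv.2.2⟩
        clear hxv hRT
        induction hx with
        | refl => exact Relation.ReflTransGen.refl
        | tail _ hab ih => exact ih.tail ⟨hab.2.2, hab.2.1⟩
    obtain ⟨x, hx, hxv⟩ := hCUT V D _ u v huv hThru
    have hlift : ∀ z, Relation.ReflTransGen (fun a b => D.Adj a b ∧ (b ∉ C0 ∧ b ≠ u ∧ b ≠ v)) u z →
        z = u ∨ Relation.ReflTransGen (fun a b => D'.Adj a b ∧ (b ∈ W ∧ b ∉ C))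
          (Sum.inr (Sum.inl i)) (Sum.inl z) := by
      intro z hz
      induction hz with
      | refl => exact Or.inl rfl
      | @tail b c _ hbc ih =>
        right
        obtain ⟨h1, h2, h3, h4⟩ := hbc
        have hcW : (Sum.inl c : V ⊕ (Fin k ⊕ Fin k)) ∈ W := (mW _).2 ⟨c, ⟨h3, h4⟩, rfl⟩
        have hcC : (Sum.inl c : V ⊕ (Fin k ⊕ Fin k)) ∉ C := fun h => h2 ((mC0 c).2 ⟨h, h3, h4⟩)
        rcases ih with ih | ih
        · rw [ih] at h1
          exact Relation.ReflTransGen.single ⟨(adj_rl i c).2 h1, hcW, hcC⟩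
        · exact ih.tail ⟨(adj_ll b c).2 h1, hcW, hcC⟩
    rcases hlift x hx with h | h
    · rw [h] at hxv
      exact absurd hxv hnadj
    · exact ⟨Sum.inl x, h, (adj_lr x j).2 hxv⟩
  obtain ⟨h, hh1, hh2⟩ := hLINKH _ D' A B W dAB dAW dBW hsep
  obtain ⟨W', hW', psi, hLk⟩ := hLINKC _ D' A B W h dAB dAW dBW hh1 hh2
  have dAW' : Disjoint A W' := Finset.disjoint_of_subset_right hW' dAW
  have dBW' : Disjoint B W' := Finset.disjoint_of_subset_right hW' dBW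
  obtain ⟨S', hS1, hS2, hS3⟩ := hLKS _ D' A B W' h psi dAB dAW' dBW' hLk
  obtain ⟨S, hS⟩ : ∃ S : Fin k → Finset V, ∀ i z, z ∈ S i ↔
      (Sum.inl z : V ⊕ (Fin k ⊕ Fin k)) ∈ S' (Sum.inr (Sum.inl i)) := by
    refine ⟨fun i => (univ : Finset V).filter
      (fun z => (Sum.inl z : V ⊕ (Fin k ⊕ Fin k)) ∈ S' (Sum.inr (Sum.inl i))), ?_⟩
    intro i z
    rw [mem_filter]
    simp
  refine ⟨S, ?_, ?_⟩
  · intro i j hij
    refine Finset.disjoint_left.2 fun z h1 h2 => ?_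
    rw [hS] at h1 h2
    have h3 := hS2 (Sum.inr (Sum.inl i)) ((mA _).2 ⟨i, rfl⟩) (Sum.inr (Sum.inl j))
      ((mA _).2 ⟨j, rfl⟩) (by
        intro h4
        apply hij
        simpa using h4)
    exact Finset.disjoint_left.1 h3 h1 h2
  · intro i
    have hai : (Sum.inr (Sum.inl i) : V ⊕ (Fin k ⊕ Fin k)) ∈ A := (mA _).2 ⟨i, rfl⟩
    obtain ⟨b, hb, y, hy, hyb⟩ := hS3 (Sum.inr (Sum.inl i)) hai
    obtain ⟨j, rfl⟩ := (mB b).1 hb
    have hproj : ∀ y, Relation.ReflTransGen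
        (fun a b => D'.Adj a b ∧ b ∈ S' (Sum.inr (Sum.inl i))) (Sum.inr (Sum.inl i)) y →
        y = Sum.inr (Sum.inl i) ∨ ∃ z, y = Sum.inl z ∧
          Relation.ReflTransGen (fun a b => D.Adj a b ∧ b ∈ S i) u z := by
      intro y hy
      induction hy with
      | refl => exact Or.inl rfl
      | @tail b c _ hbc ih =>
        right
        obtain ⟨h1, h2⟩ := hbc
        obtain ⟨z, _, rfl⟩ := (mW c).1 (hW' (hS1 _ hai h2))
        have hz : z ∈ S i := (hS i z).2 h2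
        refine ⟨z, rfl, ?_⟩
        rcases ih with ih | ⟨z', rfl, ih⟩
        · rw [ih] at h1
          exact Relation.ReflTransGen.single ⟨(adj_rl i z).1 h1, hz⟩
        · exact ih.tail ⟨(adj_ll z' z).1 h1, hz⟩
    rcases hproj y hy with h1 | ⟨z, rfl, h1⟩
    · rw [h1] at hyb
      exact absurd hyb (adj_rr i j)
    · exact ⟨z, h1, (adj_lr z j).1 hyb⟩

end

end JON
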