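import Pool.Agent.Work.MP_a7fe73_nl.Interface

set_option autoImplicit false
set_option linter.unusedSectionVars false

namespace JON
open scoped Classical
open Finset

noncomputable section

theorem p_OME (hMUV : Stmt_MUV) (hSHO : Stmt_SHO) : Stmt_OME := by
  intro V _ D a K Z hKS hA
  have hG : ∀ u v : V, ∃ G : Fin K → Finset V, (∀ i, (G i).card ≤ 2 * a) ∧
      (u ≠ v → ¬ D.Adj u v → (∀ i j, i ≠ j → Disjoint (G i) (G j)) ∧
        ∀ i, Thru D (fun z => z ∈ G i) u v) := by
    intro u v
    by_cases huv : u ≠ v ∧ ¬ D.Adj u v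
    · obtain ⟨S, hS1, hS2⟩ := hMUV V D K u v hKS huv.1 huv.2
      have h : ∀ i, ∃ G : Finset V, G.card ≤ 2 * a ∧ (∀ z ∈ G, z ∈ S i) ∧
          Thru D (fun z => z ∈ G) u v := fun i =>
        hSHO V D a (fun z => z ∈ S i) u v hA huv.1 (hS2 i)
      choose G h1 h2 h3 using h
      refine ⟨G, h1, fun _ _ => ⟨fun i j hij => ?_, h3⟩⟩
      rw [Finset.disjoint_left]
      intro z hz hz'
      exact (Finset.disjoint_left.1 (hS1 i j hij)) (h2 i z hz) (h2 j z hz')
    · refine ⟨fun _ => ∅, fun i => by simp, fun h1 h2 => absurd ⟨h1, h2⟩ huv⟩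
  choose G hGc hG2 using hG
  refine ⟨Z ∪ Z.biUnion (fun u => Z.biUnion (fun v => univ.biUnion (G u v))), subset_union_left, ?_, ?_⟩
  · refine (card_union_le _ _).trans (Nat.add_le_add_left ?_ _)
    have h1 : ∀ u ∈ Z, (Z.biUnion (fun v => univ.biUnion (G u v))).card ≤ Z.card * (K * (2 * a)) := by
      intro u _
      apply card_biUnion_le_card_mul
      intro v _
      have h2 := card_biUnion_le_card_mul (univ : Finset (Fin K)) (G u v) (2 * a)
        (fun i _ => hGc u v i)
      rw [card_univ, Fintype.card_fin] at h2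
      exact h2
    refine (card_biUnion_le_card_mul _ _ _ h1).trans (le_of_eq ?_)
    ring
  · intro u hu v hv huv C hC huC hvC
    by_cases had : D.Adj u v
    · exact Thru.of_adj had
    obtain ⟨h1, h2⟩ := hG2 u v huv had
    have h3 : ∃ i, Disjoint (G u v i) C := by
      by_contra hcon
      push Not at hcon
      have h4 : ∀ i, ∃ z, z ∈ G u v i ∧ z ∈ C := by
        intro i
        have h5 := hcon i
        rw [Finset.not_disjoint_iff] at h5
        exact h5
      choose z hz1 hz2 using h4
      have h6 : (univ : Finset (Fin K)).card ≤ C.card := by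
        apply Finset.card_le_card_of_injOn z
        · intro i _
          exact hz2 i
        · intro i _ j _ hij
          by_contra hne
          exact (Finset.disjoint_left.1 (h1 i j hne)) (hz1 i) (by rw [hij]; exact hz1 j)
      rw [card_univ, Fintype.card_fin] at h6
      omega
    obtain ⟨i, hi⟩ := h3
    refine (h2 i).mono ?_
    intro z hz
    refine ⟨?_, Finset.disjoint_left.1 hi hz⟩
    rw [mem_union]
    right
    rw [mem_biUnion]
    refine ⟨u, hu, ?_⟩
    rw [mem_biUnion]
    refine ⟨v, hv, ?_⟩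
    rw [mem_biUnion]
    exact ⟨i, mem_univ _, hz⟩

end

end JON
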