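import Pool.Agent.Work.MP_a7fe73_nl.Interface

set_option autoImplicit false
set_option linter.unusedSectionVars false

/-! Block SHO: short walks. -/

namespace JON
open scoped Classical
open Finset

noncomputable section

/-- a walk of length n given by a function -/
def ShoW {V : Type} (D : Digraph V) (P : V → Prop) (u v : V) (n : ℕ) (w : ℕ → V) : Prop :=
  w 0 = u ∧ (∀ i < n, D.Adj (w i) (w (i + 1)) ∧ P (w (i + 1))) ∧ D.Adj (w n) v

theorem sho_exists {V : Type} (D : Digraph V) (P : V → Prop) (u x : V)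
    (h : Relation.ReflTransGen (fun a b => D.Adj a b ∧ P b) u x) :
    ∃ (n : ℕ) (w : ℕ → V), w 0 = u ∧ w n = x ∧ ∀ i < n, D.Adj (w i) (w (i + 1)) ∧ P (w (i + 1)) := by
  induction h with
  | refl => exact ⟨0, fun _ => u, rfl, rfl, fun i hi => absurd hi (Nat.not_lt_zero i)⟩
  | @tail b c _ hbc ih =>
    obtain ⟨n, w, h0, hn, hw⟩ := ih
    refine ⟨n + 1, fun i => if i ≤ n then w i else c, by simp [h0], by simp, ?_⟩
    intro i hi
    rcases Nat.lt_or_ge i n with h1 | h1
    · have h2 : i ≤ n := h1.le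
      have h3 : i + 1 ≤ n := h1
      simp only [h2, h3, if_true]
      exact hw i h1
    · have h2 : i = n := by omega
      subst h2
      have h3 : ¬ (i + 1 ≤ i) := by omega
      simp only [le_refl, if_true, h3, if_false]
      rw [hn]
      exact hbc

theorem sho_cut {V : Type} (D : Digraph V) (P : V → Prop) (u v : V) (n : ℕ) (w : ℕ → V)
    (h : ShoW D P u v n w) (i j : ℕ) (hij : i + 2 ≤ j) (hj : j ≤ n) (ha : D.Adj (w i) (w j)) (hP : P (w j)) :
    ∃ m < n, ∃ w' : ℕ → V, ShoW D P u v m w' := by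
  obtain ⟨h0, h1, h2⟩ := h
  refine ⟨n - (j - i - 1), by omega, fun m => if m ≤ i then w m else w (m + (j - i - 1)), ?_, ?_, ?_⟩
  · simp [h0]
  · intro m hm
    rcases Nat.lt_trichotomy m i with hmi | hmi | hmi
    · have e1 : m ≤ i := hmi.le
      have e2 : m + 1 ≤ i := hmi
      simp only [e1, e2, if_true]
      exact h1 m (by omega)
    · subst hmi
      have e2 : ¬ (m + 1 ≤ m) := by omega
      simp only [le_refl, if_true, e2, if_false]
      have e3 : m + 1 + (j - m - 1) = j := by omega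
      rw [e3]
      exact ⟨ha, hP⟩
    · have e1 : ¬ (m ≤ i) := by omega
      have e2 : ¬ (m + 1 ≤ i) := by omega
      simp only [e1, e2, if_false]
      have e3 : m + 1 + (j - i - 1) = (m + (j - i - 1)) + 1 := by omega
      rw [e3]
      exact h1 _ (by omega)
  · have e1 : ¬ (n - (j - i - 1) ≤ i) := by omega
    simp only [e1, if_false]
    have e3 : n - (j - i - 1) + (j - i - 1) = n := by omega
    rw [e3]
    exact h2

theorem sho_reach {V : Type} (D : Digraph V) (w : ℕ → V) (S : Finset V) :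
    ∀ n : ℕ, (∀ i < n, D.Adj (w i) (w (i + 1)) ∧ w (i + 1) ∈ S) →
    Relation.ReflTransGen (fun a b => D.Adj a b ∧ b ∈ S) (w 0) (w n) := by
  intro n
  induction n with
  | zero => intro _; exact Relation.ReflTransGen.refl
  | succ n ih =>
    intro h
    exact (ih (fun i hi => h i (by omega))).tail (h n (by omega))

theorem p_SHO : Stmt_SHO := by
  intro V _ D a P u v hA _ hT
  obtain ⟨x, hx, hxv⟩ := hT
  obtain ⟨n0, w0, hw0, hwn, hww⟩ := sho_exists D P u x hx
  have hex : ∃ n : ℕ, ∃ w : ℕ → V, ShoW D P u v n w := ⟨n0, w0, hw0, hww, by rw [hwn]; exact hxv⟩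
  obtain ⟨w, hw⟩ := Nat.find_spec hex
  have hmin : ∀ m < Nat.find hex, ¬ ∃ w : ℕ → V, ShoW D P u v m w := fun m hm => Nat.find_min hex hm
  set n := Nat.find hex with hn
  -- shortcuts are impossible
  have key : ∀ i j, 1 ≤ i → 1 ≤ j → i ≤ n → j ≤ n → i % 2 = j % 2 → ¬ Dg D (w i) (w j) := by
    intro i j hi hj hin hjn hpar hdg
    obtain ⟨_, h1, _⟩ := id hw
    rcases Nat.lt_trichotomy i j with hlt | heq | hgt
    · obtain ⟨m, hm, w', hw'⟩ := sho_cut D P u v n w hw i j (by omega) hjn hdg.2.1 (by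
        have := (h1 (j - 1) (by omega)).2
        rwa [show j - 1 + 1 = j by omega] at this)
      exact hmin m hm ⟨w', hw'⟩
    · subst heq; exact hdg.irrefl
    · obtain ⟨m, hm, w', hw'⟩ := sho_cut D P u v n w hw j i (by omega) hin hdg.2.2 (by
        have := (h1 (i - 1) (by omega)).2
        rwa [show i - 1 + 1 = i by omega] at this)
      exact hmin m hm ⟨w', hw'⟩
  have hst : ∀ r : ℕ, Stab D (((Finset.Icc 1 n).filter (fun i => i % 2 = r)).image w) := by
    intro r p hp q hq
    rw [Finset.mem_image] at hp hq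
    obtain ⟨i, hi, rfl⟩ := hp
    obtain ⟨j, hj, rfl⟩ := hq
    rw [Finset.mem_filter, Finset.mem_Icc] at hi hj
    exact key i j hi.1.1 hj.1.1 hi.1.2 hj.1.2 (by omega)
  obtain ⟨h0, h1, h2⟩ := hw
  refine ⟨(Finset.Icc 1 n).image w, ?_, ?_, ?_⟩
  · have hsub : (Finset.Icc 1 n).image w ⊆ (((Finset.Icc 1 n).filter (fun i => i % 2 = 0)).image w) ∪
        (((Finset.Icc 1 n).filter (fun i => i % 2 = 1)).image w) := by
      intro z hz
      rw [Finset.mem_image] at hz
      obtain ⟨i, hi, rfl⟩ := hz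
      rw [Finset.mem_union, Finset.mem_image, Finset.mem_image]
      rcases Nat.mod_two_eq_zero_or_one i with hp | hp
      · left; exact ⟨i, Finset.mem_filter.2 ⟨hi, hp⟩, rfl⟩
      · right; exact ⟨i, Finset.mem_filter.2 ⟨hi, hp⟩, rfl⟩
    calc ((Finset.Icc 1 n).image w).card ≤ _ := Finset.card_le_card hsub
      _ ≤ _ := Finset.card_union_le _ _
      _ ≤ a + a := Nat.add_le_add (hA _ (hst 0)) (hA _ (hst 1))
      _ = 2 * a := by ring
  · intro z hz
    rw [Finset.mem_image] at hz
    obtain ⟨i, hi, rfl⟩ := hz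
    rw [Finset.mem_Icc] at hi
    have := (h1 (i - 1) (by omega)).2
    rwa [show i - 1 + 1 = i by omega] at this
  · refine ⟨w n, ?_, h2⟩
    have := sho_reach D w ((Finset.Icc 1 n).image w) n (fun i hi =>
      ⟨(h1 i hi).1, Finset.mem_image.2 ⟨i + 1, Finset.mem_Icc.2 ⟨by omega, by omega⟩, rfl⟩⟩)
    rw [h0] at this
    exact this

end

end JON
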