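import Pool.Agent.Work.MP_a7fe73_nl.Interface

set_option autoImplicit false
set_option linter.unusedSectionVars false

namespace JON
open scoped Classical
open Finset

theorem p_SPD (hGEN : Stmt_GEN) (hMSB : Stmt_MSB) (hALV : Stmt_ALV) : Stmt_SPD := by
  intro V D Z Om b a k K K1 m con om l0 l1 hA hZ hl hcon hK hB1 hB2 u hu v hv huv C hC huC hvC
  by_contra hnot
  obtain ⟨R, hR⟩ : ∃ R, R = Om \ Z := ⟨_, rfl⟩
  rw [← hR] at hcon hB1 hB2 hnot
  obtain ⟨S, hS⟩ : ∃ S, S = lab om R l0 := ⟨_, rfl⟩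
  obtain ⟨S1, hS1⟩ : ∃ S1, S1 = lab om R l1 := ⟨_, rfl⟩
  rw [← hS, ← hS1] at hnot
  have hSR : S ⊆ R := by
    intro z hz
    rw [hS, mem_lab] at hz
    exact hz.1
  have huR : u ∉ R := by
    rw [hR, mem_sdiff]
    exact fun h => h.2 hu
  have hvR : v ∉ R := by
    rw [hR, mem_sdiff]
    exact fun h => h.2 hv
  have hnot' : ¬ Thru D (fun z => (z ∈ S ∨ z ∈ S1) ∧ z ∉ C) u v := by
    intro h
    apply hnot
    refine h.mono fun z hz => ⟨mem_union.2 hz.1, hz.2⟩
  have hadj : ¬ D.Adj u v := fun h => hnot' (Thru.of_adj h)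
  have hPsub : P0 D S S1 C u ⊆ S \ C := by
    intro y hy
    rw [mem_P0] at hy
    exact mem_sdiff.2 hy.1
  have hPcl : ∀ x ∈ P0 D S S1 C u, ∀ y ∈ S \ C, D.Adj x y → y ∈ P0 D S S1 C u := by
    intro x hx y hy hxy
    rw [mem_P0] at hx ⊢
    rw [mem_sdiff] at hy
    exact ⟨hy, hx.2.tail ⟨hxy, Or.inl hy.1, hy.2⟩⟩
  obtain ⟨I, hIP, hIa, hICl⟩ := hGEN V D a (S \ C) (P0 D S S1 C u) hA hPsub hPcl
  have hsd : S \ (C ∩ S) = S \ C := by
    ext z
    simp only [mem_sdiff, mem_inter]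
    tauto
  have hIR : I ⊆ R := fun z hz => hSR (mem_sdiff.1 (hPsub (hIP hz))).1
  have hC2R : C ∩ S ⊆ R := fun z hz => hSR (mem_inter.1 hz).2
  have hC2 : (C ∩ S).card ≤ C.card := card_le_card inter_subset_left
  have hMs := hMSB V D a k K R S C hA hSR hC (by
    intro A hAR hAa hAK
    by_contra hlt
    push Not at hlt
    apply hB1
    refine ⟨l0, A, hAR, hAa, hAK, ?_⟩
    refine lt_of_le_of_lt (card_le_card ?_) hlt
    intro z hz
    rw [mem_filter] at hz ⊢
    refine ⟨hz.1, ?_⟩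
    rw [hS, mem_lab]
    exact ⟨(mem_NB.1 hz.1).1, hz.2⟩)
  have spec := hcon u hu v hv huv hadj S hSR (C ∩ S) I
  rw [hsd, hICl] at spec
  have hbig := spec.big
  rw [hsd] at hbig
  have hmE : m ≤ (con u v S (C ∩ S) I).card := by omega
  have hk : k ≤ ((con u v S (C ∩ S) I).filter (fun p => ∀ z ∈ ec u v (S \ (C ∩ S)) p, om z = l1)).card := by
    by_contra hlt
    push Not at hlt
    apply hB2
    refine ⟨l0, l1, hl, u, hu, v, hv, C ∩ S, hC2R, by omega, I, hIR, hIa, ?_, ?_⟩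
    · rw [← hS]
      exact hmE
    · rw [← hS]
      exact hlt
  rw [hsd] at hk
  -- every alive connector contains an element of C
  have hz : ∀ p ∈ (con u v S (C ∩ S) I).filter (fun p => ∀ z ∈ ec u v (S \ C) p, om z = l1),
      ∃ z ∈ ec u v (S \ C) p, z ∈ C := by
    intro p hp
    rw [mem_filter] at hp
    have hcp := spec.con p hp.1
    rw [hsd] at hcp
    have hcp' : IsCon D (fun z => z ∈ R) (S \ C) (P0 D S S1 C u) u v p := by
      refine ⟨hcp.1, ?_, ?_⟩
      · rcases hcp.2.1 with h | h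
        · exact Or.inl h
        · exact Or.inr ⟨h.1.1, h.2⟩
      · rcases hcp.2.2 with h | h
        · exact Or.inl h
        · exact Or.inr ⟨h.1.1, h.2⟩
    refine hALV V D R S S1 C u v p huR hvR hSR hnot' hcp' ?_
    intro z hz
    rw [hS1, mem_lab]
    refine ⟨?_, hp.2 z hz⟩
    rw [mem_ec] at hz
    obtain ⟨h1 | h1, h2, h3, h4⟩ := hz
    · rcases hcp'.2.1 with h | h
      · exact absurd (h1.trans h) h2
      · rw [h1]
        exact h.1
    · rcases hcp'.2.2 with h | h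
      · exact absurd (h1.trans h) h3
      · rw [h1]
        exact h.1
  have hle : ((con u v S (C ∩ S) I).filter (fun p => ∀ z ∈ ec u v (S \ C) p, om z = l1)).card ≤
      C.card := by
    have : Nonempty V := ⟨u⟩
    choose! zf hzf1 hzf2 using hz
    refine card_le_card_of_injOn zf ?_ ?_
    · intro p hp
      exact Finset.mem_coe.2 (hzf2 p (Finset.mem_coe.1 hp))
    · intro p hp p' hp' he
      by_contra hne
      have h1 := Finset.mem_coe.1 hp
      have h1' := Finset.mem_coe.1 hp'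
      have hd := spec.dis p (mem_filter.1 h1).1 p' (mem_filter.1 h1').1 hne
      rw [hsd] at hd
      have h2 := hzf1 p h1
      have h2' := hzf1 p' h1'
      rw [he] at h2
      exact Finset.disjoint_left.1 hd h2 h2'
  omega

end JON

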