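import Pool.Agent.Work.MP_a7fe73_nl.Interface

set_option autoImplicit false
set_option linter.unusedSectionVars false

namespace JON
open scoped Classical
open Finset

theorem SPL.num (q k a l x r z : ℕ) (hq : 1 ≤ q) (hr : r ≤ 2 ^ l) (hz : z ≤ 2 ^ l)
    (hx : k + l * (k + a + 2) + 4 * q + 2 ≤ x) :
    (2 * q * r ^ a + (2 * q) ^ 2 * z ^ 2 * r ^ (k + a)) * 2 ^ k < 2 ^ x := by
  have h1 : 2 * q * r ^ a ≤ (2 * q) ^ 2 * 2 ^ (l * (k + a + 2)) := by
    have a1 : r ^ a ≤ 2 ^ (l * (k + a + 2)) := by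
      calc r ^ a ≤ (2 ^ l) ^ a := Nat.pow_le_pow_left hr _
        _ = 2 ^ (l * a) := by rw [← pow_mul]
        _ ≤ _ := Nat.pow_le_pow_right (by norm_num) (Nat.mul_le_mul_left _ (by omega))
    exact Nat.mul_le_mul (by nlinarith) a1
  have h2 : (2 * q) ^ 2 * z ^ 2 * r ^ (k + a) ≤ (2 * q) ^ 2 * 2 ^ (l * (k + a + 2)) := by
    have a1 : z ^ 2 * r ^ (k + a) ≤ 2 ^ (l * (k + a + 2)) := by
      calc z ^ 2 * r ^ (k + a) ≤ (2 ^ l) ^ 2 * (2 ^ l) ^ (k + a) :=
            Nat.mul_le_mul (Nat.pow_le_pow_left hz _) (Nat.pow_le_pow_left hr _)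
        _ = 2 ^ (l * (k + a + 2)) := by rw [← pow_add, ← pow_mul]; congr 1; ring
    rw [mul_assoc]
    exact Nat.mul_le_mul_left _ a1
  have h3 : 2 * (2 * q) ^ 2 < 2 ^ (4 * q + 2) := by
    have a1 : q < 2 ^ q := Nat.lt_two_pow_self
    have a2 : q ^ 2 < (2 ^ q) ^ 2 := Nat.pow_lt_pow_left a1 (by norm_num)
    have a3 : 8 * (2 ^ q) ^ 2 ≤ 2 ^ (4 * q + 2) := by
      rw [← pow_mul, show (8 : ℕ) = 2 ^ 3 by norm_num, ← pow_add]
      exact Nat.pow_le_pow_right (by norm_num) (by omega)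
    nlinarith
  calc (2 * q * r ^ a + (2 * q) ^ 2 * z ^ 2 * r ^ (k + a)) * 2 ^ k
      ≤ ((2 * q) ^ 2 * 2 ^ (l * (k + a + 2)) + (2 * q) ^ 2 * 2 ^ (l * (k + a + 2))) * 2 ^ k :=
        Nat.mul_le_mul_right _ (Nat.add_le_add h1 h2)
    _ = 2 * (2 * q) ^ 2 * (2 ^ (l * (k + a + 2)) * 2 ^ k) := by ring
    _ < 2 ^ (4 * q + 2) * (2 ^ (l * (k + a + 2)) * 2 ^ k) :=
        Nat.mul_lt_mul_of_pos_right h3 (by positivity)
    _ = 2 ^ (k + l * (k + a + 2) + 4 * q + 2) := by rw [← pow_add, ← pow_add]; congr 1; ring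
    _ ≤ 2 ^ x := Nat.pow_le_pow_right (by norm_num) hx

theorem p_SPL (hCON : Stmt_CON) (hBDA : Stmt_BDA) (hBDB : Stmt_BDB) (hSPD : Stmt_SPD) :
    Stmt_SPL := by
  intro V _ D Z Om q a k l x K1 hA hZ hq hOm hx hK1 hRob
  have hcon : ∀ (u v : V) (S C I : Finset V), ∃ E : Finset (V × V),
      ((u ∈ Z ∧ v ∈ Z ∧ u ≠ v ∧ ¬ D.Adj u v ∧ S ⊆ Om \ Z) →
        ConSpec D (Om \ Z) Z K1 u v S C (Cl D (S \ C) I) E) ∧
      (¬ (u ∈ Z ∧ v ∈ Z ∧ u ≠ v ∧ ¬ D.Adj u v ∧ S ⊆ Om \ Z) → E = ∅) := by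
    intro u v S C I
    by_cases h : u ∈ Z ∧ v ∈ Z ∧ u ≠ v ∧ ¬ D.Adj u v ∧ S ⊆ Om \ Z
    · obtain ⟨E, hE⟩ := hCON V D Z Om K1 u v S C (Cl D (S \ C) I) hZ hRob h.1 h.2.1 h.2.2.1
        h.2.2.2.1 h.2.2.2.2 (by unfold Cl; exact filter_subset _ _)
      exact ⟨E, fun _ => hE, fun h' => absurd h h'⟩
    · exact ⟨∅, fun h' => absurd h' h, fun _ => rfl⟩
  choose con hcon1 hcon2 using hcon
  have hb : 1 ≤ 2 * q := by omega
  have hA1 := hBDA V D (Om \ Z) (2 * q) a k x (4 * q * x) hb (by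
    have : 2 * (2 * q) * x = 4 * q * x := by ring
    omega)
  have hB1 := hBDB V (Om \ Z) Z (2 * q) a k x con hb (by
    intro u v S C I p hp
    by_cases h : u ∈ Z ∧ v ∈ Z ∧ u ≠ v ∧ ¬ D.Adj u v ∧ S ⊆ Om \ Z
    · have hE := hcon1 u v S C I h
      obtain ⟨-, e1, e2⟩ := hE.con p hp
      rw [Finset.disjoint_left]
      intro z hz hzS
      obtain ⟨m1, m2, m3, m4⟩ := mem_ec.1 hz
      rw [mem_sdiff] at m4
      have hzC : z ∉ C := by
        rcases m1 with rfl | rfl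
        · rcases e1 with e1 | e1
          · exact absurd e1 m2
          · exact e1.1.2
        · rcases e2 with e2 | e2
          · exact absurd e2 m3
          · exact e2.1.2
      exact m4 ⟨hzS, hzC⟩
    · rw [hcon2 u v S C I h] at hp
      exact absurd hp (notMem_empty _)) (by
    intro u v S C I p hp p' hp' hne
    by_cases h : u ∈ Z ∧ v ∈ Z ∧ u ≠ v ∧ ¬ D.Adj u v ∧ S ⊆ Om \ Z
    · exact (hcon1 u v S C I h).dis p hp p' hp' hne
    · rw [hcon2 u v S C I h] at hp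
      exact absurd hp (notMem_empty _))
  have hRc : (Om \ Z).card + 1 ≤ 2 ^ l := by
    have := card_le_card (sdiff_subset : Om \ Z ⊆ Om)
    omega
  have hZc : Z.card ≤ 2 ^ l := by
    have := card_le_card hZ
    omega
  have hnum := SPL.num q k a l x ((Om \ Z).card + 1) Z.card hq hRc hZc hx
  -- a good labelling
  obtain ⟨om, hom1, hom2⟩ : ∃ om : V → Fin (2 * q), ¬ Bad1 D (Om \ Z) (2 * q) a k (4 * q * x) om ∧
      ¬ Bad2 (Om \ Z) Z (2 * q) a k (2 * (2 * q) ^ 2 * x) con om := by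
    by_contra hcontra
    push Not at hcontra
    set B1 := (univ : Finset (V → Fin (2 * q))).filter (Bad1 D (Om \ Z) (2 * q) a k (4 * q * x))
      with hB1d
    set B2 := (univ : Finset (V → Fin (2 * q))).filter
      (Bad2 (Om \ Z) Z (2 * q) a k (2 * (2 * q) ^ 2 * x) con) with hB2d
    have h1 : (univ : Finset (V → Fin (2 * q))) ⊆ B1 ∪ B2 := by
      intro om _
      by_cases h : Bad1 D (Om \ Z) (2 * q) a k (4 * q * x) om
      · exact mem_union_left _ (mem_filter.2 ⟨mem_univ _, h⟩)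
      · exact mem_union_right _ (mem_filter.2 ⟨mem_univ _, hcontra om h⟩)
    have h2 := (card_le_card h1).trans (card_union_le _ _)
    rw [card_univ, Fintype.card_fun, Fintype.card_fin] at h2
    have h3 : 0 < (2 * q) ^ Fintype.card V := by positivity
    have h4 : 2 ^ x * (2 * q) ^ Fintype.card V ≤
        (2 * q * ((Om \ Z).card + 1) ^ a + (2 * q) ^ 2 * Z.card ^ 2 *
          ((Om \ Z).card + 1) ^ (k + a)) * 2 ^ k * (2 * q) ^ Fintype.card V := by
      calc 2 ^ x * (2 * q) ^ Fintype.card V ≤ 2 ^ x * (B1.card + B2.card) :=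
            Nat.mul_le_mul_left _ h2
        _ = 2 ^ x * B1.card + 2 ^ x * B2.card := by ring
        _ ≤ _ := Nat.add_le_add hA1 hB1
        _ = _ := by ring
    have h5 := Nat.le_of_mul_le_mul_right h4 h3
    omega
  let la : Fin q → Fin (2 * q) := fun i => ⟨2 * i.1, by omega⟩
  let lb : Fin q → Fin (2 * q) := fun i => ⟨2 * i.1 + 1, by omega⟩
  refine ⟨fun i => lab om (Om \ Z) (la i) ∪ lab om (Om \ Z) (lb i), ?_, ?_, ?_⟩
  · intro i v hv
    rcases mem_union.1 hv with h | h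
    · exact (mem_lab.1 h).1
    · exact (mem_lab.1 h).1
  · intro i j hij
    have hij' : i.1 ≠ j.1 := fun h => hij (Fin.ext h)
    rw [Finset.disjoint_left]
    intro v hv hv'
    rcases mem_union.1 hv with h | h <;> rcases mem_union.1 hv' with h' | h' <;>
    · have e := (mem_lab.1 h).2.symm.trans (mem_lab.1 h').2
      have e2 := congrArg Fin.val e
      simp only [la, lb] at e2
      omega
  · intro i
    refine hSPD V D Z Om (2 * q) a k (4 * q * x) K1 (2 * (2 * q) ^ 2 * x) con om (la i) (lb i) hA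
      hZ ?_ ?_ ?_ hom1 hom2
    · intro e
      have e2 := congrArg Fin.val e
      simp only [la, lb] at e2
      omega
    · intro u hu v hv hne hadj S hS C I
      exact hcon1 u v S C I ⟨hu, hv, hne, hadj, hS⟩
    · have e : 2 * (2 * (2 * q) ^ 2 * x) = 16 * q ^ 2 * x := by ring
      rw [e]
      omega

end JON
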