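import Pool.Agent.Work.MP_a7fe73_nl.Interface

set_option autoImplicit false

namespace JON
open scoped Classical
open Finset

theorem p_TYP (hSLT : Stmt_SLT) (hBAL : Stmt_BAL) (hTYB : Stmt_TYB) : Stmt_TYP := by
  intro V _ D W U0 pos L N T l hN hW hpos hL hl hV hT hR
  obtain ⟨sl, par, hs⟩ := hSLT V W pos N hN hW hpos
  obtain ⟨om, hom⟩ := hTYB V D W U0 pos L N T l sl par hs hL hl hV hT hR
  obtain ⟨h1, h2, h3, h4, h5⟩ := hBAL V W pos N sl par om hs
  exact ⟨TX W sl par om, TY W sl par om, h1, h2, h3, h4, h5, hom⟩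

end JON
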