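import Mathlib

set_option autoImplicit false
set_option linter.unusedSectionVars false

/-! Jackson and Ordaz: digraphs whose connectivity is nearly linear in the oriented stability number have a directed
Hamilton circuit (row MP_a7fe73_co, theorem NearLinear).  Definitions.  The complete proofs of the blocks are the
hints in table jo_blocks. -/

namespace JON
open scoped Classical
open Finset

noncomputable section

variable {V : Type}

/-- u and v are joined by arcs in both directions (the graph G of the directed 2-circuits) -/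
def Dg (D : Digraph V) (u v : V) : Prop := u ≠ v ∧ D.Adj u v ∧ D.Adj v u

theorem Dg.symm {D : Digraph V} {u v : V} (h : Dg D u v) : Dg D v u := ⟨h.1.symm, h.2.2, h.2.1⟩

theorem Dg.irrefl {D : Digraph V} {u : V} (h : Dg D u u) : False := h.1 rfl

/-- oriented-stable sets: independent sets of G -/
def Stab (D : Digraph V) (S : Finset V) : Prop := ∀ u ∈ S, ∀ v ∈ S, ¬ Dg D u v

theorem Stab.mono {D : Digraph V} {S T : Finset V} (h : Stab D T) (hST : S ⊆ T) : Stab D S :=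
  fun u hu v hv => h u (hST hu) v (hST hv)

/-- the oriented stability number is at most a -/
def Alp (D : Digraph V) (a : ℕ) : Prop := ∀ S : Finset V, Stab D S → S.card ≤ a

/-- k-strong digraphs -/
def KS [Fintype V] (D : Digraph V) (k : ℕ) : Prop := k + 1 ≤ Fintype.card V ∧
  ∀ X : Finset V, X.card < k → ∀ u v : V, u ∉ X → v ∉ X →
    Relation.ReflTransGen (fun a b => a ∉ X ∧ b ∉ X ∧ D.Adj a b) u v

/-- there is a directed walk from u to v whose interior vertices satisfy P -/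
def Thru (D : Digraph V) (P : V → Prop) (u v : V) : Prop :=
  ∃ x, Relation.ReflTransGen (fun a b => D.Adj a b ∧ P b) u x ∧ D.Adj x v

theorem Thru.of_adj {D : Digraph V} {P : V → Prop} {u v : V} (h : D.Adj u v) : Thru D P u v :=
  ⟨u, Relation.ReflTransGen.refl, h⟩

theorem Thru.mono {D : Digraph V} {P Q : V → Prop} {u v : V} (h : Thru D P u v) (hPQ : ∀ x, P x → Q x) :
    Thru D Q u v := by
  obtain ⟨x, h1, h2⟩ := h
  refine ⟨x, ?_, h2⟩
  clear h2
  induction h1 with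
  | refl => exact Relation.ReflTransGen.refl
  | tail _ hab ih => exact ih.tail ⟨hab.1, hPQ _ hab.2⟩

/-- fewer than k vertices of W never separate two vertices of Z (robust reachability through W) -/
def Rob (D : Digraph V) (Z W : Finset V) (k : ℕ) : Prop := ∀ u ∈ Z, ∀ v ∈ Z, u ≠ v → ∀ C : Finset V,
  C.card < k → u ∉ C → v ∉ C → Thru D (fun z => z ∈ W ∧ z ∉ C) u v

/-- f is a system of disjoint directed paths starting in all vertices of A, ending in B, with set of interior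
vertices W; psi decreases along the paths -/
structure Lk (D : Digraph V) (A B W : Finset V) (f : V → V) (psi : V → ℕ) : Prop where
  maps : ∀ v, v ∈ A ∨ v ∈ W → f v ∈ W ∨ f v ∈ B
  inj : ∀ u v, u ∈ A ∨ u ∈ W → v ∈ A ∨ v ∈ W → f u = f v → u = v
  arc : ∀ v, v ∈ A ∨ v ∈ W → D.Adj v (f v)
  dec : ∀ v, v ∈ A ∨ v ∈ W → psi (f v) < psi v

/-- image of S in B under a relation -/
def img (r : V → V → Prop) (B S : Finset V) : Finset V := B.filter (fun h => ∃ s ∈ S, r s h)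

theorem mem_img {r : V → V → Prop} {B S : Finset V} {h : V} : h ∈ img r B S ↔ h ∈ B ∧ ∃ s ∈ S, r s h := by
  unfold img; rw [mem_filter]

/-- out-neighbours -/
def outN [Fintype V] (D : Digraph V) (v : V) : Finset V := univ.filter (fun w => w ≠ v ∧ D.Adj v w)

theorem mem_outN [Fintype V] {D : Digraph V} {v w : V} : w ∈ outN D v ↔ w ≠ v ∧ D.Adj v w := by
  unfold outN; simp

/-- vertices of W with a G-neighbour in R -/
def nbr (D : Digraph V) (W R : Finset V) : Finset V := W.filter (fun w => ∃ r ∈ R, Dg D w r)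

theorem mem_nbr {D : Digraph V} {W R : Finset V} {w : V} : w ∈ nbr D W R ↔ w ∈ W ∧ ∃ r ∈ R, Dg D w r := by
  unfold nbr; rw [mem_filter]

/-! ### the hub: gadgets p = g i 0, q = g i 1, r = g i 2, s = g i 3 -/

structure Hub (D : Digraph V) (m : ℕ) (g : ℕ → Fin 4 → V) : Prop where
  inj : ∀ i < m, ∀ j < m, ∀ c d, g i c = g j d → i = j ∧ c = d
  arcs : ∀ i < m, D.Adj (g i 0) (g i 2) ∧ D.Adj (g i 0) (g i 3) ∧ D.Adj (g i 1) (g i 2) ∧ D.Adj (g i 1) (g i 3)
  link : ∀ i, i + 1 < m → D.Adj (g i 2) (g (i + 1) 0)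

def hubV (m : ℕ) (g : ℕ → Fin 4 → V) : Finset V := (range m).biUnion fun i => univ.image (g i)

theorem mem_hubV {m : ℕ} {g : ℕ → Fin 4 → V} {v : V} : v ∈ hubV m g ↔ ∃ i < m, ∃ c, g i c = v := by
  unfold hubV; simp

/-- the outputs s_0, ..., s_(m-1), r_(m-1) -/
def hout (m : ℕ) (g : ℕ → Fin 4 → V) : Finset V := insert (g (m - 1) 2) ((range m).image fun i => g i 3)

theorem mem_hout {m : ℕ} {g : ℕ → Fin 4 → V} {v : V} :
    v ∈ hout m g ↔ v = g (m - 1) 2 ∨ ∃ i < m, g i 3 = v := by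
  unfold hout; simp

/-- the inputs q_0, ..., q_(m-1), p_0 -/
def hin (m : ℕ) (g : ℕ → Fin 4 → V) : Finset V := insert (g 0 0) ((range m).image fun i => g i 1)

theorem mem_hin {m : ℕ} {g : ℕ → Fin 4 → V} {v : V} : v ∈ hin m g ↔ v = g 0 0 ∨ ∃ i < m, g i 1 = v := by
  unfold hin; simp

/-- hypotheses of the assembly lemma: hub, strands from the outputs to the inputs.  L1: hout -> Y and Q; matching F:
from Y and U to U and X; L2: X and Q -> hin -/
structure Asm (D : Digraph V) (m : ℕ) (g : ℕ → Fin 4 → V) (X Y Q U W1 W2 : Finset V) (f1 f2 F : V → V)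
    (psi1 psi2 psi : V → ℕ) : Prop where
  hm : 1 ≤ m
  hub : Hub D m g
  dis : List.Pairwise Disjoint [hubV m g, X, Y, Q, U, W1, W2]
  l1 : Lk D (hout m g) (Y ∪ Q) W1 f1 psi1
  l2 : Lk D (X ∪ Q) (hin m g) W2 f2 psi2
  Fm : ∀ v, v ∈ Y ∨ v ∈ U → (F v ∈ U ∨ F v ∈ X) ∧ D.Adj v (F v)
  Fi : ∀ u v, u ∈ Y ∨ u ∈ U → v ∈ Y ∨ v ∈ U → F u = F v → u = v
  Fd : ∀ v ∈ U, F v ∈ U → psi (F v) < psi v

/-- the set of all vertices of the assembly -/
def Sp (m : ℕ) (g : ℕ → Fin 4 → V) (X Y Q U W1 W2 : Finset V) : Finset V :=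
  hubV m g ∪ (X ∪ (Y ∪ (Q ∪ (U ∪ (W1 ∪ W2)))))

/-! ### random labels -/

/-- overwrite the values of om on e by those of t -/
def ovw {U : Type} {b : ℕ} (om t : U → Fin b) (e : Finset U) : U → Fin b := fun x => if x ∈ e then t x else om x

/-- the vertices of R with label l -/
def lab {b : ℕ} (om : V → Fin b) (R : Finset V) (l : Fin b) : Finset V := R.filter (fun v => om v = l)

theorem mem_lab {b : ℕ} {om : V → Fin b} {R : Finset V} {l : Fin b} {v : V} :
    v ∈ lab om R l ↔ v ∈ R ∧ om v = l := by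
  unfold lab; rw [mem_filter]

/-- closed G-neighbourhood of A in R -/
def NB (D : Digraph V) (R A : Finset V) : Finset V := R.filter (fun w => w ∈ A ∨ ∃ x ∈ A, Dg D x w)

theorem mem_NB {D : Digraph V} {R A : Finset V} {w : V} :
    w ∈ NB D R A ↔ w ∈ R ∧ (w ∈ A ∨ ∃ x ∈ A, Dg D x w) := by
  unfold NB; rw [mem_filter]

/-- vertices of R outside S without G-neighbour in S -/
def Ms (D : Digraph V) (R S : Finset V) : Finset V := R.filter (fun w => w ∉ S ∧ ∀ z ∈ S, ¬ Dg D w z)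

theorem mem_Ms {D : Digraph V} {R S : Finset V} {w : V} :
    w ∈ Ms D R S ↔ w ∈ R ∧ w ∉ S ∧ ∀ z ∈ S, ¬ Dg D w z := by
  unfold Ms; rw [mem_filter]

/-- the vertices of S which can be reached from vertices of I inside S -/
def Cl (D : Digraph V) (S I : Finset V) : Finset V := S.filter (fun y => ∃ x ∈ I, x ∈ S ∧
  Relation.ReflTransGen (fun a b => D.Adj a b ∧ b ∈ S) x y)

theorem mem_Cl {D : Digraph V} {S I : Finset V} {y : V} : y ∈ Cl D S I ↔ y ∈ S ∧ ∃ x ∈ I, x ∈ S ∧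
    Relation.ReflTransGen (fun a b => D.Adj a b ∧ b ∈ S) x y := by
  unfold Cl; rw [mem_filter]

/-- label P (with respect to S and P0 inside S) -/
def lamP (D : Digraph V) (S P : Finset V) (x : V) : Prop := x ∈ P ∨ (x ∉ S ∧ ∃ z ∈ P, Dg D x z)

/-- label Q -/
def lamQ (D : Digraph V) (S P : Finset V) (y : V) : Prop := (y ∈ S ∧ y ∉ P) ∨ (y ∉ S ∧ ∃ z ∈ S, z ∉ P ∧ Dg D y z)

/-- connectors from u to v in the region Reg (outside u, v) with respect to S and P -/
def IsCon (D : Digraph V) (Reg : V → Prop) (S P : Finset V) (u v : V) (p : V × V) : Prop :=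
  D.Adj p.1 p.2 ∧ (p.1 = u ∨ (Reg p.1 ∧ lamP D S P p.1)) ∧ (p.2 = v ∨ (Reg p.2 ∧ lamQ D S P p.2))

/-- the support of a connector outside u, v and S -/
def ec (u v : V) (S : Finset V) (p : V × V) : Finset V :=
  ({p.1, p.2} : Finset V).filter (fun z => z ≠ u ∧ z ≠ v ∧ z ∉ S)

theorem mem_ec {u v : V} {S : Finset V} {p : V × V} {z : V} :
    z ∈ ec u v S p ↔ (z = p.1 ∨ z = p.2) ∧ z ≠ u ∧ z ≠ v ∧ z ∉ S := by
  unfold ec; simp

/-! ### patterns -/

/-- boundary of a set T of positions in 0, ..., L - 1 (the end of a run at L - 1 counts) -/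
def bd (L : ℕ) (T : Finset ℕ) : Finset ℕ := (range L).filter (fun i => ¬ (i ∈ T ↔ i + 1 ∈ T))

theorem mem_bd {L : ℕ} {T : Finset ℕ} {i : ℕ} : i ∈ bd L T ↔ i < L ∧ ¬ (i ∈ T ↔ i + 1 ∈ T) := by
  unfold bd; simp

/-- the mismatches -/
def mis (D : Digraph V) (X Y R : Finset V) (pos : V → ℕ) (T : Finset ℕ) : Finset V :=
  (nbr D (X ∪ Y) R).filter (fun w => (w ∈ X ∧ pos w ∉ T) ∨ (w ∈ Y ∧ pos w ∈ T))

theorem mem_mis {D : Digraph V} {X Y R : Finset V} {pos : V → ℕ} {T : Finset ℕ} {w : V} :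
    w ∈ mis D X Y R pos T ↔ (∃ r ∈ R, Dg D w r) ∧ ((w ∈ X ∧ pos w ∉ T) ∨ (w ∈ Y ∧ pos w ∈ T)) := by
  unfold mis nbr
  simp only [mem_filter, mem_union]
  tauto

/-- number of elements of A with position less than i -/
def cb (A : Finset V) (pos : V → ℕ) (i : ℕ) : ℕ := (A.filter (fun w => pos w < i)).card

/-- X and Y alternate in pairs: the numbers of elements before any position differ by at most one -/
def Bal (X Y : Finset V) (pos : V → ℕ) : Prop := ∀ i, cb Y pos i ≤ cb X pos i + 1 ∧ cb X pos i ≤ cb Y pos i + 1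

/-- property (star) -/
def Star (D : Digraph V) (U X Y : Finset V) (pos : V → ℕ) (L : ℕ) : Prop := ∀ R ⊆ U, Stab D R → R.Nonempty →
  ∀ T ⊆ range L, (bd L T).card ≤ 2 * R.card → 3 * R.card ≤ (mis D X Y R pos T).card

/-- the matching graph: from v in Y or U to h in U or X, arcs inside U only downwards in psi -/
def MG (D : Digraph V) (U : Finset V) (psi : V → ℕ) (v h : V) : Prop :=
  D.Adj v h ∧ (v ∈ U → h ∈ U → psi h < psi v)

/-- the conclusion of the matching lemmas -/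
def Match (D : Digraph V) (X Y U : Finset V) (psi : V → ℕ) : Prop := ∃ F : V → V,
  (∀ v, v ∈ Y ∨ v ∈ U → (F v ∈ U ∨ F v ∈ X) ∧ D.Adj v (F v)) ∧
  (∀ u v, u ∈ Y ∨ u ∈ U → v ∈ Y ∨ v ∈ U → F u = F v → u = v) ∧
  (∀ v ∈ U, F v ∈ U → psi (F v) < psi v)

/-- spine: the path c 0, ..., c (L - 1) in U, decreasing in psi -/
structure Spine (D : Digraph V) (U : Finset V) (psi : V → ℕ) (c : ℕ → V) (L : ℕ) : Prop where
  inj : ∀ i < L, ∀ j < L, c i = c j → i = j
  mem : ∀ i < L, c i ∈ U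
  arc : ∀ i, i + 1 < L → D.Adj (c i) (c (i + 1)) ∧ psi (c (i + 1)) < psi (c i)

/-- number of G-common neighbours -/
def codeg [Fintype V] (D : Digraph V) (x y : V) : ℕ := (univ.filter (fun v => Dg D x v ∧ Dg D y v)).card

/-- the part of S reachable from u inside S and S1, avoiding C -/
def P0 (D : Digraph V) (S S1 C : Finset V) (u : V) : Finset V := (S \ C).filter (fun y =>
  Relation.ReflTransGen (fun a b => D.Adj a b ∧ (b ∈ S ∨ b ∈ S1) ∧ b ∉ C) u y)

theorem mem_P0 {D : Digraph V} {S S1 C : Finset V} {u y : V} : y ∈ P0 D S S1 C u ↔ (y ∈ S ∧ y ∉ C) ∧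
    Relation.ReflTransGen (fun a b => D.Adj a b ∧ (b ∈ S ∨ b ∈ S1) ∧ b ∉ C) u y := by
  unfold P0; rw [mem_filter, mem_sdiff]

/-- specification of a family of connectors -/
structure ConSpec (D : Digraph V) (R Z : Finset V) (K : ℕ) (u v : V) (S C P : Finset V) (E : Finset (V × V)) :
    Prop where
  con : ∀ p ∈ E, IsCon D (fun z => z ∈ R ∧ z ∉ C) (S \ C) P u v p
  dis : ∀ p ∈ E, ∀ p' ∈ E, p ≠ p' → Disjoint (ec u v (S \ C) p) (ec u v (S \ C) p')
  big : K ≤ C.card + (Ms D R (S \ C)).card + Z.card + 2 * E.card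

/-- first bad event: some large closed G-neighbourhood contains fewer than k vertices with label l -/
def Bad1 (D : Digraph V) (R : Finset V) (b a k K : ℕ) (om : V → Fin b) : Prop := ∃ l : Fin b, ∃ A ⊆ R, A.card ≤ a ∧
  K ≤ (NB D R A).card ∧ ((NB D R A).filter (fun v => om v = l)).card < k

/-- second bad event: a large family of connectors with fewer than k alive members -/
def Bad2 (R Z : Finset V) (b a k m : ℕ) (con : V → V → Finset V → Finset V → Finset V → Finset (V × V))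
    (om : V → Fin b) : Prop := ∃ l0 l1 : Fin b, l0 ≠ l1 ∧ ∃ u ∈ Z, ∃ v ∈ Z, ∃ C ⊆ R, C.card ≤ k ∧
  ∃ I ⊆ R, I.card ≤ a ∧ m ≤ (con u v (lab om R l0) C I).card ∧
  ((con u v (lab om R l0) C I).filter (fun p => ∀ z ∈ ec u v (lab om R l0 \ C) p, om z = l1)).card < k

/-! ### types -/

/-- slots: W is partitioned into N pairs of elements consecutive for pos; par distinguishes the two elements -/
structure Slots (W : Finset V) (pos : V → ℕ) (N : ℕ) (sl : V → Fin N) (par : V → Fin 2) : Prop where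
  inj : ∀ w ∈ W, ∀ w' ∈ W, sl w = sl w' → par w = par w' → w = w'
  sur : ∀ i : Fin N, ∀ p : Fin 2, ∃ w ∈ W, sl w = i ∧ par w = p
  mono : ∀ w ∈ W, ∀ w' ∈ W, sl w < sl w' → pos w < pos w'

/-- elements of type X -/
def TX {N : ℕ} (W : Finset V) (sl : V → Fin N) (par : V → Fin 2) (om : Fin N → Fin 2) : Finset V :=
  W.filter (fun w => om (sl w) = par w)

/-- elements of type Y -/
def TY {N : ℕ} (W : Finset V) (sl : V → Fin N) (par : V → Fin 2) (om : Fin N → Fin 2) : Finset V :=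
  W.filter (fun w => om (sl w) ≠ par w)

theorem mem_TX {N : ℕ} {W : Finset V} {sl : V → Fin N} {par : V → Fin 2} {om : Fin N → Fin 2} {w : V} :
    w ∈ TX W sl par om ↔ w ∈ W ∧ om (sl w) = par w := by
  unfold TX; rw [mem_filter]

theorem mem_TY {N : ℕ} {W : Finset V} {sl : V → Fin N} {par : V → Fin 2} {om : Fin N → Fin 2} {w : V} :
    w ∈ TY W sl par om ↔ w ∈ W ∧ om (sl w) ≠ par w := by
  unfold TY; rw [mem_filter]

/-! ### the neighbourhood of a set of tails in the matching graph -/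

/-- N(S) -/
def NS (D : Digraph V) (X U : Finset V) (psi : V → ℕ) (S : Finset V) : Finset V := img (MG D U psi) (U ∪ X) S

theorem mem_NS {D : Digraph V} {X U : Finset V} {psi : V → ℕ} {S : Finset V} {h : V} :
    h ∈ NS D X U psi S ↔ (h ∈ U ∨ h ∈ X) ∧ ∃ s ∈ S, D.Adj s h ∧ (s ∈ U → h ∈ U → psi h < psi s) := by
  unfold NS MG; rw [mem_img, mem_union]

/-- R = the elements of S in U which are not in N(S) -/
def RS (D : Digraph V) (X U : Finset V) (psi : V → ℕ) (S : Finset V) : Finset V := (S ∩ U) \ NS D X U psi S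

/-- B = the elements of N(S) in U which are not in S -/
def BS (D : Digraph V) (X U : Finset V) (psi : V → ℕ) (S : Finset V) : Finset V := (NS D X U psi S ∩ U) \ S

/-- elements of A on the spine -/
def onc (c : ℕ → V) (L : ℕ) (A : Finset V) : Finset V := A.filter (fun v => ∃ i < L, c i = v)

/-- positions of S on the spine -/
def tc (c : ℕ → V) (L : ℕ) (S : Finset V) : Finset ℕ := (range L).filter (fun i => c i ∈ S)

theorem mem_RS {D : Digraph V} {X U : Finset V} {psi : V → ℕ} {S : Finset V} {v : V} :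
    v ∈ RS D X U psi S ↔ (v ∈ S ∧ v ∈ U) ∧ v ∉ NS D X U psi S := by
  unfold RS; rw [mem_sdiff, mem_inter]

theorem mem_BS {D : Digraph V} {X U : Finset V} {psi : V → ℕ} {S : Finset V} {v : V} :
    v ∈ BS D X U psi S ↔ (v ∈ NS D X U psi S ∧ v ∈ U) ∧ v ∉ S := by
  unfold BS; rw [mem_sdiff, mem_inter]

theorem mem_onc {c : ℕ → V} {L : ℕ} {A : Finset V} {v : V} : v ∈ onc c L A ↔ v ∈ A ∧ ∃ i < L, c i = v := by
  unfold onc; rw [mem_filter]

theorem mem_tc {c : ℕ → V} {L : ℕ} {S : Finset V} {i : ℕ} : i ∈ tc c L S ↔ i < L ∧ c i ∈ S := by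
  unfold tc; rw [mem_filter, mem_range]

/-! ### the data of the two cases -/

/-- first stage of the case of few vertices -/
structure SetupS [Fintype V] (D : Digraph V) (W Q M : Finset V) (N T : ℕ) (gw : V → V) (g0 g1 : ℕ → Fin 4 → V)
    (Vs : Fin 5 → Finset V) : Prop where
  hN : 1 ≤ N
  cW : W.card = 2 * N
  cQ : 1 ≤ Q.card
  gwM : ∀ w ∈ W, gw w ∈ M ∧ Dg D w (gw w)
  gwi : ∀ w ∈ W, ∀ w' ∈ W, gw w = gw w' → w = w'
  cM : M.card = 2 * N
  hub0 : Hub D (N + Q.card - 1) g0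
  hub1 : Hub D (2 * N - 1) g1
  dis : List.Pairwise Disjoint [hubV (N + Q.card - 1) g0, hubV (2 * N - 1) g1, W, Q, M]
  vd : ∀ i j, i ≠ j → Disjoint (Vs i) (Vs j)
  vz : ∀ i, Disjoint (hubV (N + Q.card - 1) g0 ∪ (hubV (2 * N - 1) g1 ∪ (W ∪ (Q ∪ M)))) (Vs i)
  rob : ∀ i, Rob D (hubV (N + Q.card - 1) g0 ∪ (hubV (2 * N - 1) g1 ∪ (W ∪ (Q ∪ M)))) (Vs i) (2 * N + Q.card)
  lev : ∀ R : Finset V, Disjoint R (W ∪ Q) → Stab D R → T * R.card ≤ (nbr D W R).card + 2

/-- second stage of the case of few vertices -/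
structure StageS [Fintype V] (D : Digraph V) (m : ℕ) (g : ℕ → Fin 4 → V) (X Y Q W1 W2 WL : Finset V)
    (f1 f2 f3 : V → V) (psi1 psi2 psi3 : V → ℕ) (c : ℕ → V) (L : ℕ) (pos : V → ℕ) : Prop where
  hm : 1 ≤ m
  hub : Hub D m g
  dis : List.Pairwise Disjoint [hubV m g, X, Y, Q, W1, W2, WL]
  cdis : ∀ i < L, c i ∉ hubV m g ∪ (X ∪ (Y ∪ (Q ∪ (W1 ∪ (W2 ∪ WL)))))
  l1 : Lk D (hout m g) (Y ∪ Q) W1 f1 psi1
  l2 : Lk D (X ∪ Q) (hin m g) W2 f2 psi2
  l3 : Lk D Y X WL f3 psi3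
  ci : ∀ i < L, ∀ j < L, c i = c j → i = j
  ca : ∀ i, i + 1 < L → D.Adj (c i) (c (i + 1))
  po : ∀ w ∈ X ∪ Y, pos w < L ∧ Dg D w (c (pos w))
  pi : ∀ w ∈ X ∪ Y, ∀ w' ∈ X ∪ Y, pos w = pos w' → w = w'
  bal : Bal X Y pos
  cXY : X.card = Y.card
  star : Star D (univ \ (X ∪ (Y ∪ Q))) X Y pos L

/-- the data of the case of many vertices -/
structure SetupL [Fintype V] (D : Digraph V) (m : ℕ) (g : ℕ → Fin 4 → V) (X J O AI Q W1 W2 W3 Om : Finset V)
    (f1 f2 f3 : V → V) (psi1 psi2 psi3 : V → ℕ) (mid : V → V → V) : Prop where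
  hm : 1 ≤ m
  hub : Hub D m g
  dis : List.Pairwise Disjoint [hubV m g, X, J, O, Q, W1, W2, AI, W3]
  sub : hubV m g ∪ (X ∪ (J ∪ (O ∪ (Q ∪ (W1 ∪ (W2 ∪ (AI ∪ W3))))))) ⊆ Om
  cX : X.card = J.card + O.card
  cA : AI.card = X.card
  stX : Stab D X
  stJ : Stab D J
  mxX : ∀ S : Finset V, Stab D S → S.card ≤ X.card
  mxJ : ∀ S : Finset V, Stab D S → Disjoint S X → S.card ≤ J.card
  l1 : Lk D (hout m g) ((J ∪ O) ∪ Q) W1 f1 psi1
  l2 : Lk D (X ∪ Q) (hin m g) W2 f2 psi2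
  l3 : Lk D AI X W3 f3 psi3
  midm : ∀ o ∈ O, ∀ l ∈ AI, mid o l ∉ Om ∧ Dg D o (mid o l) ∧ Dg D (mid o l) l
  midi : ∀ o ∈ O, ∀ l ∈ AI, ∀ o' ∈ O, ∀ l' ∈ AI, mid o l = mid o' l' → o = o' ∧ l = l'

end

end JON
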