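import Pool.Agent.Work.MP_a7fe73_nl.Defs

set_option autoImplicit false
set_option linter.unusedSectionVars false

/-! Jackson and Ordaz, nearly linear connectivity (row MP_a7fe73_co, theorem NearLinear): the statements of the blocks.
The complete proofs are the hints in table jo_blocks. -/

namespace JON
open scoped Classical
open Finset

noncomputable section

/-! ### Part 1: tools -/

/-- HALL: the theorem of Hall for finite sets -/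
def Stmt_HALL : Prop := ∀ (V : Type) (r : V → V → Prop) (A B : Finset V),
  (∀ S ⊆ A, S.card ≤ (img r B S).card) →
  ∃ F : V → V, (∀ v ∈ A, F v ∈ B ∧ r v (F v)) ∧ ∀ u ∈ A, ∀ v ∈ A, F u = F v → u = v

/-- DEG: out-degrees -/
def Stmt_DEG : Prop := ∀ (V : Type) [Fintype V] (D : Digraph V) (k : ℕ), KS D k → ∀ v, k ≤ (outN D v).card

/-- ROBS: a k-strong digraph is robust -/
def Stmt_ROBS : Prop := ∀ (V : Type) [Fintype V] (D : Digraph V) (k : ℕ) (Z : Finset V), KS D k → Rob D Z univ k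

/-- CUT: walks avoiding their ends -/
def Stmt_CUT : Prop := ∀ (V : Type) (D : Digraph V) (P : V → Prop) (u v : V), u ≠ v → Thru D P u v →
  Thru D (fun z => P z ∧ z ≠ u ∧ z ≠ v) u v

/-- CHE: cherries of G -/
def Stmt_CHE : Prop := ∀ (V : Type) (D : Digraph V) (a : ℕ) (T : Finset V), (∀ S ⊆ T, Stab D S → S.card ≤ a) →
  2 * a < T.card → ∃ q ∈ T, ∃ r ∈ T, ∃ s ∈ T, r ≠ s ∧ Dg D q r ∧ Dg D q s

/-- HUB: hubs exist -/
def Stmt_HUB : Prop := ∀ (V : Type) [Fintype V] (D : Digraph V) (a k m : ℕ) (F : Finset V), KS D k → Alp D a →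
  1 ≤ m → F.card + 4 * m + 2 * a + 2 ≤ k → ∃ g : ℕ → Fin 4 → V, Hub D m g ∧ Disjoint (hubV m g) F

/-- HCARD: outputs and inputs of a hub -/
def Stmt_HCARD : Prop := ∀ (V : Type) (D : Digraph V) (m : ℕ) (g : ℕ → Fin 4 → V), Hub D m g → 1 ≤ m →
  (hout m g).card = m + 1 ∧ (hin m g).card = m + 1 ∧ Disjoint (hout m g) (hin m g) ∧ hout m g ⊆ hubV m g ∧
  hin m g ⊆ hubV m g ∧ (hubV m g).card = 4 * m

/-- LINKH: the matching behind the theorem of Menger -/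
def Stmt_LINKH : Prop := ∀ (V : Type) (D : Digraph V) (A B W : Finset V), Disjoint A B → Disjoint A W →
  Disjoint B W → (∀ C : Finset V, C.card < A.card → ∃ u ∈ A, ∃ v ∈ B, u ∉ C ∧ v ∉ C ∧
    Thru D (fun z => z ∈ W ∧ z ∉ C) u v) →
  ∃ h : V → V, (∀ v, v ∈ A ∨ v ∈ W → (h v ∈ W ∨ h v ∈ B) ∧ (h v = v ∨ D.Adj v (h v))) ∧
    ∀ u v, u ∈ A ∨ u ∈ W → v ∈ A ∨ v ∈ W → h u = h v → u = v

/-- LINKC: removing the closed circuits -/
def Stmt_LINKC : Prop := ∀ (V : Type) (D : Digraph V) (A B W : Finset V) (h : V → V), Disjoint A B → Disjoint A W →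
  Disjoint B W → (∀ v, v ∈ A ∨ v ∈ W → (h v ∈ W ∨ h v ∈ B) ∧ (h v = v ∨ D.Adj v (h v))) →
  (∀ u v, u ∈ A ∨ u ∈ W → v ∈ A ∨ v ∈ W → h u = h v → u = v) → ∃ W' ⊆ W, ∃ psi : V → ℕ, Lk D A B W' h psi

/-- RLK: linkages between subsets of Z -/
def Stmt_RLK : Prop := ∀ (V : Type) (D : Digraph V) (Z W A B : Finset V) (k : ℕ), Disjoint Z W → Rob D Z W k →
  A ⊆ Z → B ⊆ Z → Disjoint A B → A.card = B.card → A.card ≤ k →
  ∃ W' ⊆ W, ∃ (f : V → V) (psi : V → ℕ), Lk D A B W' f psi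

/-- PSI: injective refinement of a potential -/
def Stmt_PSI : Prop := ∀ (V : Type) [Fintype V] (psi0 : V → ℕ), ∃ psi : V → ℕ, Function.Injective psi ∧
  ∀ u v, psi0 u < psi0 v → psi u < psi v

/-! ### Part 2: assembly of a circuit -/

/-- ASA: the permutation -/
def Stmt_ASA : Prop := ∀ (V : Type) [Fintype V] (D : Digraph V) (m : ℕ) (g : ℕ → Fin 4 → V)
  (X Y Q U W1 W2 : Finset V) (f1 f2 F : V → V) (psi1 psi2 psi : V → ℕ),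
  Asm D m g X Y Q U W1 W2 f1 f2 F psi1 psi2 psi → ∃ σ : Equiv.Perm V,
  (∀ i < m, σ (g i 0) = g i 2 ∧ σ (g i 1) = g i 3) ∧ (∀ i, i + 1 < m → σ (g i 2) = g (i + 1) 0) ∧
  (∀ v, v ∈ hout m g ∨ v ∈ W1 → σ v = f1 v) ∧ (∀ v, v ∈ X ∪ Q ∨ v ∈ W2 → σ v = f2 v) ∧
  (∀ v, v ∈ Y ∨ v ∈ U → σ v = F v)

/-- ASB: arcs, and every vertex is in the circuit of a vertex of the hub -/
def Stmt_ASB : Prop := ∀ (V : Type) [Fintype V] (D : Digraph V) (m : ℕ) (g : ℕ → Fin 4 → V)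
  (X Y Q U W1 W2 : Finset V) (f1 f2 F : V → V) (psi1 psi2 psi : V → ℕ) (σ : Equiv.Perm V),
  Asm D m g X Y Q U W1 W2 f1 f2 F psi1 psi2 psi →
  (∀ i < m, σ (g i 0) = g i 2 ∧ σ (g i 1) = g i 3) → (∀ i, i + 1 < m → σ (g i 2) = g (i + 1) 0) →
  (∀ v, v ∈ hout m g ∨ v ∈ W1 → σ v = f1 v) → (∀ v, v ∈ X ∪ Q ∨ v ∈ W2 → σ v = f2 v) →
  (∀ v, v ∈ Y ∨ v ∈ U → σ v = F v) →
  (∀ v ∈ Sp m g X Y Q U W1 W2, σ v ∈ Sp m g X Y Q U W1 W2 ∧ D.Adj v (σ v)) ∧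
  ∀ v ∈ Sp m g X Y Q U W1 W2, ∃ h ∈ hubV m g, σ.SameCycle v h

/-- ASC: merging the circuits with the switches -/
def Stmt_ASC : Prop := ∀ (V : Type) [Fintype V] (D : Digraph V) (m : ℕ) (g : ℕ → Fin 4 → V) (S : Finset V)
  (σ : Equiv.Perm V), Hub D m g → 1 ≤ m → hubV m g ⊆ S → (∀ v ∈ S, σ v ∈ S ∧ D.Adj v (σ v)) →
  (∀ i < m, σ (g i 0) = g i 2 ∧ σ (g i 1) = g i 3) → (∀ i, i + 1 < m → σ (g i 2) = g (i + 1) 0) →
  (∀ v ∈ S, ∃ h ∈ hubV m g, σ.SameCycle v h) →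
  ∃ τ : Equiv.Perm V, (∀ v ∈ S, τ v ∈ S ∧ D.Adj v (τ v)) ∧ ∀ u ∈ S, ∀ v ∈ S, τ.SameCycle u v

/-- ASM: assembly lemma -/
def Stmt_ASM : Prop := ∀ (V : Type) [Fintype V] (D : Digraph V) (m : ℕ) (g : ℕ → Fin 4 → V)
  (X Y Q U W1 W2 : Finset V) (f1 f2 F : V → V) (psi1 psi2 psi : V → ℕ),
  Asm D m g X Y Q U W1 W2 f1 f2 F psi1 psi2 psi → ∃ τ : Equiv.Perm V,
  (∀ v ∈ Sp m g X Y Q U W1 W2, τ v ∈ Sp m g X Y Q U W1 W2 ∧ D.Adj v (τ v)) ∧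
  ∀ u ∈ Sp m g X Y Q U W1 W2, ∀ v ∈ Sp m g X Y Q U W1 W2, τ.SameCycle u v

/-- PTC: a circuit cut open -/
def Stmt_PTC : Prop := ∀ (V : Type) [Fintype V] (D : Digraph V) (τ : Equiv.Perm V) (S : Finset V), S.Nonempty →
  (∀ v ∈ S, τ v ∈ S ∧ D.Adj v (τ v)) → (∀ u ∈ S, ∀ v ∈ S, τ.SameCycle u v) →
  ∃ c : ℕ → V, (∀ i < S.card, ∀ j < S.card, c i = c j → i = j) ∧ (∀ i < S.card, c i ∈ S) ∧
  (∀ v ∈ S, ∃ i < S.card, c i = v) ∧ ∀ i, i + 1 < S.card → D.Adj (c i) (c (i + 1))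

/-- SPN: the spine -/
def Stmt_SPN : Prop := ∀ (V : Type) [Fintype V] (D : Digraph V) (m : ℕ) (g : ℕ → Fin 4 → V) (M W1 W2 : Finset V)
  (f1 f2 : V → V) (psi1 psi2 : V → ℕ), 1 ≤ m → Hub D m g → List.Pairwise Disjoint [hubV m g, M, W1, W2] →
  Lk D (hout m g) M W1 f1 psi1 → Lk D M (hin m g) W2 f2 psi2 → ∃ (c : ℕ → V) (L : ℕ),
  (∀ i < L, ∀ j < L, c i = c j → i = j) ∧ (∀ i < L, c i ∈ hubV m g ∪ (M ∪ (W1 ∪ W2))) ∧
  (∀ v ∈ M, ∃ i < L, c i = v) ∧ ∀ i, i + 1 < L → D.Adj (c i) (c (i + 1))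

/-! ### Part 3: random splitting -/

/-- CTA: exponential moment -/
def Stmt_CTA : Prop := ∀ (U ι : Type) [Fintype U] (b d : ℕ) (t : U → Fin b) (F : Finset (U → Fin b)) (J : Finset ι)
  (e : ι → Finset U), 1 ≤ b → (∀ j ∈ J, (e j).card ≤ d) → (∀ i ∈ J, ∀ j ∈ J, i ≠ j → Disjoint (e i) (e j)) →
  (∀ om ∈ F, ∀ j ∈ J, ovw om t (e j) ∈ F) →
  ∑ om ∈ F, (1 / 2 : ℝ) ^ (J.filter (fun j => ∀ y ∈ e j, om y = t y)).card ≤
    (F.card : ℝ) * (1 - 1 / (2 * (b : ℝ) ^ d)) ^ J.card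

/-- CTB: few labellings have fewer than k alive members -/
def Stmt_CTB : Prop := ∀ (U ι : Type) [Fintype U] (b d : ℕ) (t : U → Fin b) (F : Finset (U → Fin b)) (J : Finset ι)
  (e : ι → Finset U), 1 ≤ b → (∀ j ∈ J, (e j).card ≤ d) → (∀ i ∈ J, ∀ j ∈ J, i ≠ j → Disjoint (e i) (e j)) →
  (∀ om ∈ F, ∀ j ∈ J, ovw om t (e j) ∈ F) → ∀ k x : ℕ, 2 * b ^ d * x ≤ J.card →
  2 ^ x * (F.filter (fun om => (J.filter (fun j => ∀ y ∈ e j, om y = t y)).card < k)).card ≤ 2 ^ k * F.card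

/-- SUB: number of small subsets -/
def Stmt_SUB : Prop := ∀ (V : Type) (R : Finset V) (k : ℕ),
  (R.powerset.filter (fun C => C.card ≤ k)).card ≤ (R.card + 1) ^ k

/-- GEN: closed sets have small generating sets -/
def Stmt_GEN : Prop := ∀ (V : Type) (D : Digraph V) (a : ℕ) (S P : Finset V), Alp D a → P ⊆ S →
  (∀ x ∈ P, ∀ y ∈ S, D.Adj x y → y ∈ P) → ∃ I ⊆ P, I.card ≤ a ∧ Cl D S I = P

/-- MSB: few vertices have no G-neighbour in S minus C -/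
def Stmt_MSB : Prop := ∀ (V : Type) (D : Digraph V) (a k K : ℕ) (R S C : Finset V), Alp D a → S ⊆ R → C.card < k →
  (∀ A ⊆ R, A.card ≤ a → K ≤ (NB D R A).card → k ≤ ((NB D R A).filter (fun v => v ∈ S)).card) →
  (Ms D R (S \ C)).card < K

/-- CON: many disjoint connectors -/
def Stmt_CON : Prop := ∀ (V : Type) (D : Digraph V) (Z Om : Finset V) (K : ℕ) (u v : V) (S C P : Finset V),
  Z ⊆ Om → Rob D Z Om K → u ∈ Z → v ∈ Z → u ≠ v → ¬ D.Adj u v → S ⊆ Om \ Z → P ⊆ S \ C →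
  ∃ E : Finset (V × V), ConSpec D (Om \ Z) Z K u v S C P E

/-- BDA: the first bad event has small probability -/
def Stmt_BDA : Prop := ∀ (V : Type) [Fintype V] (D : Digraph V) (R : Finset V) (b a k x K : ℕ), 1 ≤ b →
  2 * b * x ≤ K →
  2 ^ x * ((univ : Finset (V → Fin b)).filter (Bad1 D R b a k K)).card ≤
    b * (R.card + 1) ^ a * (2 ^ k * b ^ Fintype.card V)

/-- BDX: the second bad event for fixed parameters -/
def Stmt_BDX : Prop := ∀ (V : Type) [Fintype V] (R : Finset V) (b k x : ℕ) (l0 l1 : Fin b)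
  (cf : Finset V → Finset (V × V)) (ef : Finset V → V × V → Finset V), 1 ≤ b → l0 ≠ l1 →
  (∀ S, ∀ p ∈ cf S, Disjoint (ef S p) S ∧ (ef S p).card ≤ 2) →
  (∀ S, ∀ p ∈ cf S, ∀ p' ∈ cf S, p ≠ p' → Disjoint (ef S p) (ef S p')) →
  2 ^ x * ((univ : Finset (V → Fin b)).filter (fun om => 2 * b ^ 2 * x ≤ (cf (lab om R l0)).card ∧
    ((cf (lab om R l0)).filter (fun p => ∀ z ∈ ef (lab om R l0) p, om z = l1)).card < k)).card ≤
    2 ^ k * b ^ Fintype.card V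

/-- BDB: the second bad event has small probability -/
def Stmt_BDB : Prop := ∀ (V : Type) [Fintype V] (R Z : Finset V) (b a k x : ℕ)
  (con : V → V → Finset V → Finset V → Finset V → Finset (V × V)), 1 ≤ b →
  (∀ u v S C I, ∀ p ∈ con u v S C I, Disjoint (ec u v (S \ C) p) S) →
  (∀ u v S C I, ∀ p ∈ con u v S C I, ∀ p' ∈ con u v S C I, p ≠ p' →
    Disjoint (ec u v (S \ C) p) (ec u v (S \ C) p')) →
  2 ^ x * ((univ : Finset (V → Fin b)).filter (Bad2 R Z b a k (2 * b ^ 2 * x) con)).card ≤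
    b ^ 2 * Z.card ^ 2 * (R.card + 1) ^ (k + a) * (2 ^ k * b ^ Fintype.card V)

/-- ALV: alive connectors are hit by every separator -/
def Stmt_ALV : Prop := ∀ (V : Type) (D : Digraph V) (R S S1 C : Finset V) (u v : V) (p : V × V), u ∉ R → v ∉ R →
  S ⊆ R → ¬ Thru D (fun z => (z ∈ S ∨ z ∈ S1) ∧ z ∉ C) u v →
  IsCon D (fun z => z ∈ R) (S \ C) (P0 D S S1 C u) u v p → (∀ z ∈ ec u v (S \ C) p, z ∈ S1) →
  ∃ z ∈ ec u v (S \ C) p, z ∈ C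

/-- SPD: a labelling without bad events has robust parts -/
def Stmt_SPD : Prop := ∀ (V : Type) (D : Digraph V) (Z Om : Finset V) (b a k K K1 m : ℕ)
  (con : V → V → Finset V → Finset V → Finset V → Finset (V × V)) (om : V → Fin b) (l0 l1 : Fin b),
  Alp D a → Z ⊆ Om → l0 ≠ l1 →
  (∀ u ∈ Z, ∀ v ∈ Z, u ≠ v → ¬ D.Adj u v → ∀ S ⊆ Om \ Z, ∀ C I, ConSpec D (Om \ Z) Z K1 u v S C (Cl D (S \ C) I)
    (con u v S C I)) →
  k + K + Z.card + 2 * m ≤ K1 + 2 → ¬ Bad1 D (Om \ Z) b a k K om → ¬ Bad2 (Om \ Z) Z b a k m con om →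
  Rob D Z (lab om (Om \ Z) l0 ∪ lab om (Om \ Z) l1) k

/-- SPL: random splitting -/
def Stmt_SPL : Prop := ∀ (V : Type) [Fintype V] (D : Digraph V) (Z Om : Finset V) (q a k l x K1 : ℕ), Alp D a →
  Z ⊆ Om → 1 ≤ q → Om.card + 1 ≤ 2 ^ l → k + l * (k + a + 2) + 4 * q + 2 ≤ x →
  k + 4 * q * x + Z.card + 16 * q ^ 2 * x ≤ K1 → Rob D Z Om K1 →
  ∃ Vs : Fin q → Finset V, (∀ i, Vs i ⊆ Om \ Z) ∧ (∀ i j, i ≠ j → Disjoint (Vs i) (Vs j)) ∧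
    ∀ i, Rob D Z (Vs i) k

/-! ### Part 4: levels and types -/

/-- LEV: levels -/
def Stmt_LEV : Prop := ∀ (V : Type) [Fintype V] (D : Digraph V) (a T : ℕ), Alp D a → ∃ Lv : Finset V,
  Lv.card ≤ T * a ∧ ∀ R : Finset V, Disjoint R Lv → Stab D R → T * R.card ≤ (nbr D Lv R).card

/-- DUL: the critical set and the injection -/
def Stmt_DUL : Prop := ∀ (V : Type) [Fintype V] (D : Digraph V) (Lv : Finset V), ∃ K ⊆ Lv, ∃ Q : Finset V,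
  Disjoint Q Lv ∧ Q.card ≤ K.card ∧ (∀ v, v ∉ Lv → (∃ w ∈ K, Dg D w v) → v ∈ Q) ∧
  ∃ g : V → V, (∀ w ∈ Lv, w ∉ K → g w ∉ Lv ∧ g w ∉ Q ∧ Dg D w (g w)) ∧
    ∀ w ∈ Lv, ∀ w' ∈ Lv, w ∉ K → w' ∉ K → g w = g w' → w = w'

/-- PRE: the sets W and Q -/
def Stmt_PRE : Prop := ∀ (V : Type) [Fintype V] (D : Digraph V) (a T : ℕ), Alp D a → 3 ≤ T →
  2 * (T * a) < Fintype.card V → ∃ (W Q : Finset V) (N : ℕ) (g : V → V), Disjoint W Q ∧ W.card = 2 * N ∧ 1 ≤ N ∧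
  2 * N ≤ T * a ∧ 1 ≤ Q.card ∧ Q.card ≤ 2 * (T * a) + 2 ∧ (∀ w ∈ W, g w ∉ W ∧ g w ∉ Q ∧ Dg D w (g w)) ∧
  (∀ w ∈ W, ∀ w' ∈ W, g w = g w' → w = w') ∧
  ∀ R : Finset V, Disjoint R (W ∪ Q) → Stab D R → T * R.card ≤ (nbr D W R).card + 2

/-- SLT: slots exist -/
def Stmt_SLT : Prop := ∀ (V : Type) (W : Finset V) (pos : V → ℕ) (N : ℕ), 1 ≤ N → W.card = 2 * N →
  (∀ w ∈ W, ∀ w' ∈ W, pos w = pos w' → w = w') → ∃ (sl : V → Fin N) (par : V → Fin 2), Slots W pos N sl par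

/-- BAL: balance of the types -/
def Stmt_BAL : Prop := ∀ (V : Type) (W : Finset V) (pos : V → ℕ) (N : ℕ) (sl : V → Fin N) (par : V → Fin 2)
  (om : Fin N → Fin 2), Slots W pos N sl par → Disjoint (TX W sl par om) (TY W sl par om) ∧
  TX W sl par om ∪ TY W sl par om = W ∧ (TX W sl par om).card = N ∧ (TY W sl par om).card = N ∧
  Bal (TX W sl par om) (TY W sl par om) pos

/-- TYA: types bad for one pair R, T -/
def Stmt_TYA : Prop := ∀ (V : Type) (D : Digraph V) (W : Finset V) (pos : V → ℕ) (N : ℕ) (sl : V → Fin N)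
  (par : V → Fin 2) (R : Finset V) (T : Finset ℕ) (x r : ℕ), Slots W pos N sl par → 8 * x ≤ (nbr D W R).card →
  2 ^ x * ((univ : Finset (Fin N → Fin 2)).filter (fun om =>
    (mis D (TX W sl par om) (TY W sl par om) R pos T).card < r)).card ≤ 2 ^ r * 2 ^ N

/-- BDC: number of patterns with small boundary -/
def Stmt_BDC : Prop := ∀ (L r : ℕ), ((range L).powerset.filter (fun T => (bd L T).card ≤ r)).card ≤ (L + 1) ^ r

/-- TYB: union bound for the types -/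
def Stmt_TYB : Prop := ∀ (V : Type) [Fintype V] (D : Digraph V) (W U0 : Finset V) (pos : V → ℕ) (L N T l : ℕ)
  (sl : V → Fin N) (par : V → Fin 2), Slots W pos N sl par → L ≤ Fintype.card V → 1 ≤ l →
  Fintype.card V + 1 ≤ 2 ^ l → 70 * l ≤ T →
  (∀ R ⊆ U0, Stab D R → T * R.card ≤ (nbr D W R).card + 2) →
  ∃ om : Fin N → Fin 2, Star D U0 (TX W sl par om) (TY W sl par om) pos L

/-- TYP: the types -/
def Stmt_TYP : Prop := ∀ (V : Type) [Fintype V] (D : Digraph V) (W U0 : Finset V) (pos : V → ℕ) (L N T l : ℕ),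
  1 ≤ N → W.card = 2 * N → (∀ w ∈ W, ∀ w' ∈ W, pos w = pos w' → w = w') → L ≤ Fintype.card V → 1 ≤ l →
  Fintype.card V + 1 ≤ 2 ^ l → 70 * l ≤ T →
  (∀ R ⊆ U0, Stab D R → T * R.card ≤ (nbr D W R).card + 2) →
  ∃ X Y : Finset V, Disjoint X Y ∧ X ∪ Y = W ∧ X.card = N ∧ Y.card = N ∧ Bal X Y pos ∧ Star D U0 X Y pos L

/-! ### Part 5: the matching lemma for few vertices -/

/-- HSA: the identity for violating sets -/
def Stmt_HSA : Prop := ∀ (V : Type) (D : Digraph V) (X Y U : Finset V) (psi : V → ℕ) (S : Finset V), Disjoint X Y →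
  Disjoint X U → Disjoint Y U → (∀ u ∈ U, ∀ v ∈ U, psi u = psi v → u = v) → (∀ s ∈ S, s ∈ Y ∨ s ∈ U) →
  Stab D (RS D X U psi S) ∧
  (NS D X U psi S).card + (S ∩ Y).card + (RS D X U psi S).card =
    (NS D X U psi S ∩ X).card + (BS D X U psi S).card + S.card

/-- HSB: the linkage bounds the number of tails -/
def Stmt_HSB : Prop := ∀ (V : Type) (D : Digraph V) (X Y U WL : Finset V) (psi : V → ℕ) (f : V → V) (S : Finset V),
  Disjoint X Y → Disjoint X U → Disjoint Y U → WL ⊆ U →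
  (∀ v, v ∈ Y ∨ v ∈ WL → (f v ∈ WL ∨ f v ∈ X) ∧ D.Adj v (f v)) →
  (∀ u v, u ∈ Y ∨ u ∈ WL → v ∈ Y ∨ v ∈ WL → f u = f v → u = v) →
  (∀ v ∈ WL, f v ∈ WL → psi (f v) < psi v) →
  (S ∩ Y).card ≤ (NS D X U psi S ∩ X).card + (BS D X U psi S ∩ WL).card

/-- HSC: boundary of the pattern of S on the spine -/
def Stmt_HSC : Prop := ∀ (V : Type) (D : Digraph V) (X U : Finset V) (psi : V → ℕ) (c : ℕ → V) (L : ℕ)
  (S : Finset V), Spine D U psi c L →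
  (bd L (tc c L S)).card ≤ 2 * (onc c L (BS D X U psi S)).card + 2

/-- ABL: summation by parts -/
def Stmt_ABL : Prop := ∀ (V : Type) (X Y : Finset V) (pos : V → ℕ) (L : ℕ) (T : Finset ℕ), T ⊆ range L →
  Bal X Y pos →
  (Y.filter (fun w => pos w ∈ T)).card ≤ (X.filter (fun w => pos w ∈ T)).card + (bd L T).card

/-- HSD: the main inequality -/
def Stmt_HSD : Prop := ∀ (V : Type) (D : Digraph V) (X Y U : Finset V) (psi : V → ℕ) (c : ℕ → V) (L : ℕ)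
  (pos : V → ℕ) (S : Finset V), Disjoint X Y → Disjoint X U → Disjoint Y U → Spine D U psi c L →
  (∀ w ∈ X ∪ Y, pos w < L ∧ Dg D w (c (pos w))) → (∀ w ∈ X ∪ Y, ∀ w' ∈ X ∪ Y, pos w = pos w' → w = w') →
  Bal X Y pos →
  (S ∩ Y).card + (mis D X Y (RS D X U psi S) pos (tc c L S)).card ≤
    (NS D X U psi S ∩ X).card + (bd L (tc c L S)).card + (onc c L (BS D X U psi S)).card

/-- HLS: the matching lemma for few vertices -/
def Stmt_HLS : Prop := ∀ (V : Type) (D : Digraph V) (X Y U WL : Finset V) (psi : V → ℕ) (f : V → V) (c : ℕ → V)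
  (L : ℕ) (pos : V → ℕ), Disjoint X Y → Disjoint X U → Disjoint Y U →
  (∀ u ∈ U, ∀ v ∈ U, psi u = psi v → u = v) → WL ⊆ U →
  (∀ v, v ∈ Y ∨ v ∈ WL → (f v ∈ WL ∨ f v ∈ X) ∧ D.Adj v (f v)) →
  (∀ u v, u ∈ Y ∨ u ∈ WL → v ∈ Y ∨ v ∈ WL → f u = f v → u = v) →
  (∀ v ∈ WL, f v ∈ WL → psi (f v) < psi v) →
  Spine D U psi c L → (∀ i < L, c i ∉ WL) →
  (∀ w ∈ X ∪ Y, pos w < L ∧ Dg D w (c (pos w))) → (∀ w ∈ X ∪ Y, ∀ w' ∈ X ∪ Y, pos w = pos w' → w = w') →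
  Bal X Y pos → Star D U X Y pos L → Match D X Y U psi

/-! ### Part 6: few vertices -/

/-- CSA: first stage, part 1: W, Q and the two hubs -/
def Stmt_CSA : Prop := ∀ (V : Type) [Fintype V] (D : Digraph V) (a k l : ℕ), KS D k → Alp D a → 1 ≤ a → 1 ≤ l →
  200000 * l ^ 2 * a ≤ k → ∃ (W Q M : Finset V) (N : ℕ) (gw : V → V) (g0 g1 : ℕ → Fin 4 → V), 1 ≤ N ∧
  W.card = 2 * N ∧ 1 ≤ Q.card ∧ 2 * N ≤ 70 * l * a ∧ Q.card ≤ 2 * (70 * l * a) + 2 ∧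
  (∀ w ∈ W, gw w ∈ M ∧ Dg D w (gw w)) ∧ (∀ w ∈ W, ∀ w' ∈ W, gw w = gw w' → w = w') ∧ M.card = 2 * N ∧
  Hub D (N + Q.card - 1) g0 ∧ Hub D (2 * N - 1) g1 ∧
  List.Pairwise Disjoint [hubV (N + Q.card - 1) g0, hubV (2 * N - 1) g1, W, Q, M] ∧
  ∀ R : Finset V, Disjoint R (W ∪ Q) → Stab D R → 70 * l * R.card ≤ (nbr D W R).card + 2

/-- CSB: first stage -/
def Stmt_CSB : Prop := ∀ (V : Type) [Fintype V] (D : Digraph V) (a k l : ℕ), KS D k → Alp D a → 1 ≤ a → 1 ≤ l →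
  Fintype.card V + 1 ≤ 2 ^ l → 200000 * l ^ 2 * a ≤ k →
  ∃ (W Q M : Finset V) (N : ℕ) (gw : V → V) (g0 g1 : ℕ → Fin 4 → V) (Vs : Fin 5 → Finset V),
  SetupS D W Q M N (70 * l) gw g0 g1 Vs

/-- CSC: second stage, part 1: the spine and the types -/
def Stmt_CSC : Prop := ∀ (V : Type) [Fintype V] (D : Digraph V) (l : ℕ) (W Q M : Finset V) (N : ℕ) (gw : V → V)
  (g0 g1 : ℕ → Fin 4 → V) (Vs : Fin 5 → Finset V), 1 ≤ l → Fintype.card V + 1 ≤ 2 ^ l →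
  SetupS D W Q M N (70 * l) gw g0 g1 Vs →
  ∃ (X Y : Finset V) (c : ℕ → V) (L : ℕ) (pos : V → ℕ), Disjoint X Y ∧ X ∪ Y = W ∧ X.card = N ∧ Y.card = N ∧
  Bal X Y pos ∧ Star D (univ \ (X ∪ (Y ∪ Q))) X Y pos L ∧
  (∀ i < L, c i ∈ hubV (2 * N - 1) g1 ∪ (M ∪ (Vs 3 ∪ Vs 4))) ∧ (∀ i < L, ∀ j < L, c i = c j → i = j) ∧
  (∀ i, i + 1 < L → D.Adj (c i) (c (i + 1))) ∧ (∀ w ∈ X ∪ Y, pos w < L ∧ Dg D w (c (pos w))) ∧
  ∀ w ∈ X ∪ Y, ∀ w' ∈ X ∪ Y, pos w = pos w' → w = w'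

/-- CSD: second stage -/
def Stmt_CSD : Prop := ∀ (V : Type) [Fintype V] (D : Digraph V) (l : ℕ) (W Q M : Finset V) (N : ℕ) (gw : V → V)
  (g0 g1 : ℕ → Fin 4 → V) (Vs : Fin 5 → Finset V), 1 ≤ l → Fintype.card V + 1 ≤ 2 ^ l →
  SetupS D W Q M N (70 * l) gw g0 g1 Vs →
  ∃ (X Y W1 W2 WL : Finset V) (f1 f2 f3 : V → V) (psi1 psi2 psi3 : V → ℕ) (c : ℕ → V) (L : ℕ) (pos : V → ℕ),
  StageS D (N + Q.card - 1) g0 X Y Q W1 W2 WL f1 f2 f3 psi1 psi2 psi3 c L pos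

/-- CSE: third stage -/
def Stmt_CSE : Prop := ∀ (V : Type) [Fintype V] (D : Digraph V) (m : ℕ) (g : ℕ → Fin 4 → V)
  (X Y Q W1 W2 WL : Finset V) (f1 f2 f3 : V → V) (psi1 psi2 psi3 : V → ℕ) (c : ℕ → V) (L : ℕ) (pos : V → ℕ),
  StageS D m g X Y Q W1 W2 WL f1 f2 f3 psi1 psi2 psi3 c L pos →
  ∃ τ : Equiv.Perm V, (∀ u v, τ.SameCycle u v) ∧ ∀ v, D.Adj v (τ v)

/-- CSF: few vertices -/
def Stmt_CSF : Prop := ∀ (V : Type) [Fintype V] (D : Digraph V) (a k l : ℕ), KS D k → Alp D a → 1 ≤ a → 1 ≤ l →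
  Fintype.card V + 1 ≤ 2 ^ l → 200000 * l ^ 2 * a ≤ k →
  ∃ τ : Equiv.Perm V, (∀ u v, τ.SameCycle u v) ∧ ∀ v, D.Adj v (τ v)

/-! ### Part 7: many vertices -/

/-- SHO: short walks -/
def Stmt_SHO : Prop := ∀ (V : Type) [Fintype V] (D : Digraph V) (a : ℕ) (P : V → Prop) (u v : V), Alp D a → u ≠ v →
  Thru D P u v → ∃ S : Finset V, S.card ≤ 2 * a ∧ (∀ z ∈ S, P z) ∧ Thru D (fun z => z ∈ S) u v

/-- LKS: the vertex sets of the paths of a linkage -/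
def Stmt_LKS : Prop := ∀ (V : Type) (D : Digraph V) (A B W : Finset V) (f : V → V) (psi : V → ℕ), Disjoint A B →
  Disjoint A W → Disjoint B W → Lk D A B W f psi → ∃ S : V → Finset V, (∀ a ∈ A, S a ⊆ W) ∧
  (∀ a ∈ A, ∀ a' ∈ A, a ≠ a' → Disjoint (S a) (S a')) ∧ ∀ a ∈ A, ∃ b ∈ B, Thru D (fun z => z ∈ S a) a b

/-- MUV: the theorem of Menger for two vertices -/
def Stmt_MUV : Prop := ∀ (V : Type) [Fintype V] (D : Digraph V) (k : ℕ) (u v : V), KS D k → u ≠ v → ¬ D.Adj u v →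
  ∃ S : Fin k → Finset V, (∀ i j, i ≠ j → Disjoint (S i) (S j)) ∧ ∀ i, Thru D (fun z => z ∈ S i) u v

/-- OME: a small robust set -/
def Stmt_OME : Prop := ∀ (V : Type) [Fintype V] (D : Digraph V) (a K : ℕ) (Z : Finset V), KS D K → Alp D a →
  ∃ Om : Finset V, Z ⊆ Om ∧ Om.card ≤ Z.card + Z.card ^ 2 * (K * (2 * a)) ∧ Rob D Z Om K

/-- GRD: greedy choice -/
def Stmt_GRD : Prop := ∀ (V : Type) (X : Finset V) (bad : V → V → Prop) (b s : ℕ), (∀ x y, bad x y → bad y x) →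
  1 ≤ b → (∀ x ∈ X, (X.filter (fun y => y ≠ x ∧ bad x y)).card < b) → s * b ≤ X.card →
  ∃ A ⊆ X, A.card = s ∧ ∀ x ∈ A, ∀ y ∈ A, x ≠ y → ¬ bad x y

/-- LOW: few vertices of low G-degree -/
def Stmt_LOW : Prop := ∀ (V : Type) [Fintype V] (D : Digraph V) (a dl : ℕ), Alp D a → 1 ≤ dl →
  ((univ : Finset V).filter (fun v => ((univ : Finset V).filter (fun w => Dg D v w)).card < dl)).card <
    (a + 1) * dl

/-- DRA: a vertex whose neighbourhood is large and has few bad pairs -/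
def Stmt_DRA : Prop := ∀ (V : Type) [Fintype V] (D : Digraph V) (a Dl : ℕ), Alp D a → 1 ≤ a →
  4 * a ≤ Fintype.card V →
  ∃ v : V, Fintype.card V / (4 * a) ≤ ((univ : Finset V).filter (fun w => Dg D v w)).card ∧
  ((((univ : Finset V).filter (fun w => Dg D v w)) ×ˢ ((univ : Finset V).filter (fun w => Dg D v w))).filter
    (fun p => p.1 ≠ p.2 ∧ codeg D p.1 p.2 < Dl)).card ≤ 2 * Fintype.card V * Dl

/-- DRC: dependent random choice -/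
def Stmt_DRC : Prop := ∀ (V : Type) [Fintype V] (D : Digraph V) (a Dl s : ℕ), Alp D a → 1 ≤ a → 1 ≤ Dl → 1 ≤ s →
  256 * a ^ 2 * Dl * s ≤ Fintype.card V → ∃ A : Finset V, A.card = s ∧
  ∀ x ∈ A, ∀ y ∈ A, x ≠ y → Dl ≤ codeg D x y

/-- MID: the middle vertices -/
def Stmt_MID : Prop := ∀ (V : Type) [Fintype V] (D : Digraph V) (O A Om : Finset V),
  (∀ o ∈ O, ∀ l ∈ A, Om.card + O.card * A.card ≤ codeg D o l) → ∃ mid : V → V → V,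
  (∀ o ∈ O, ∀ l ∈ A, mid o l ∉ Om ∧ Dg D o (mid o l) ∧ Dg D (mid o l) l) ∧
  ∀ o ∈ O, ∀ l ∈ A, ∀ o' ∈ O, ∀ l' ∈ A, mid o l = mid o' l' → o = o' ∧ l = l'

/-- FAN: the fan of a vertex of O -/
def Stmt_FAN : Prop := ∀ (V : Type) (D : Digraph V) (X Y U AI W3 M : Finset V) (psi : V → ℕ) (f h : V → V) (o : V)
  (S : Finset V), Disjoint X Y → Disjoint X U → Disjoint Y U → o ∈ Y → o ∈ S → AI ⊆ U → W3 ⊆ U →
  Disjoint AI W3 → (∀ v, v ∈ AI ∨ v ∈ W3 → (f v ∈ W3 ∨ f v ∈ X) ∧ D.Adj v (f v) ∧ (f v ∈ U → psi (f v) < psi v)) →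
  (∀ u v, u ∈ AI ∨ u ∈ W3 → v ∈ AI ∨ v ∈ W3 → f u = f v → u = v) → M ⊆ U → Disjoint M AI → Disjoint M W3 →
  M.card = X.card → (∀ z ∈ M, D.Adj o z ∧ h z ∈ AI ∧ D.Adj z (h z) ∧ psi (h z) < psi z) →
  (∀ z ∈ M, ∀ z' ∈ M, h z = h z' → z = z') →
  X.card ≤ (NS D X U psi S ∩ X).card + (BS D X U psi S).card

/-- HLL: the matching lemma for many vertices -/
def Stmt_HLL : Prop := ∀ (V : Type) (D : Digraph V) (X J O U : Finset V) (psi : V → ℕ),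
  List.Pairwise Disjoint [X, J, O, U] → X.card = J.card + O.card →
  (∀ u ∈ U, ∀ v ∈ U, psi u = psi v → u = v) → Stab D X → Stab D J →
  (∀ S : Finset V, Stab D S → S.card ≤ X.card) → (∀ S : Finset V, Stab D S → Disjoint S X → S.card ≤ J.card) →
  (∀ o ∈ O, ∀ S : Finset V, o ∈ S → X.card ≤ (NS D X U psi S ∩ X).card + (BS D X U psi S).card) →
  Match D X (J ∪ O) U psi

/-- CLA: first stage, part 1: the stable sets and the sets O, AI -/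
def Stmt_CLA : Prop := ∀ (V : Type) [Fintype V] (D : Digraph V) (a Dl : ℕ), Alp D a → 1 ≤ a → 1 ≤ Dl →
  1024 * a ^ 3 * Dl ≤ Fintype.card V → ∃ X J O AI : Finset V, List.Pairwise Disjoint [X, J, O, AI] ∧
  X.card = J.card + O.card ∧ AI.card = X.card ∧ 1 ≤ X.card ∧ X.card ≤ a ∧ Stab D X ∧ Stab D J ∧
  (∀ S : Finset V, Stab D S → S.card ≤ X.card) ∧ (∀ S : Finset V, Stab D S → Disjoint S X → S.card ≤ J.card) ∧
  ∀ o ∈ O, ∀ l ∈ AI, Dl ≤ codeg D o l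

/-- CLB: first stage -/
def Stmt_CLB : Prop := ∀ (V : Type) [Fintype V] (D : Digraph V) (a k l : ℕ), KS D k → Alp D a → 1 ≤ a →
  a + 1 ≤ 2 ^ l → 110000 * a * l ≤ k → 2 ^ (44 * l) ≤ Fintype.card V →
  ∃ (m : ℕ) (g : ℕ → Fin 4 → V) (X J O AI Q W1 W2 W3 Om : Finset V) (f1 f2 f3 : V → V) (psi1 psi2 psi3 : V → ℕ)
  (mid : V → V → V), SetupL D m g X J O AI Q W1 W2 W3 Om f1 f2 f3 psi1 psi2 psi3 mid

/-- CLC: second stage -/
def Stmt_CLC : Prop := ∀ (V : Type) [Fintype V] (D : Digraph V) (m : ℕ) (g : ℕ → Fin 4 → V)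
  (X J O AI Q W1 W2 W3 Om : Finset V) (f1 f2 f3 : V → V) (psi1 psi2 psi3 : V → ℕ) (mid : V → V → V),
  SetupL D m g X J O AI Q W1 W2 W3 Om f1 f2 f3 psi1 psi2 psi3 mid →
  ∃ τ : Equiv.Perm V, (∀ u v, τ.SameCycle u v) ∧ ∀ v, D.Adj v (τ v)

/-- FIN: the theorem for permutations -/
def Stmt_FIN : Prop := ∀ (V : Type) [Fintype V] (D : Digraph V) (a k : ℕ), KS D k → Alp D a → 1 ≤ a →
  400000000 * a * (Nat.clog 2 (a + 1)) ^ 2 ≤ k →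
  ∃ τ : Equiv.Perm V, (∀ u v, τ.SameCycle u v) ∧ ∀ v, D.Adj v (τ v)

end

end JON
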