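import Pool.Agent.Work.MP_a7fe73_nl.Interface

set_option autoImplicit false
set_option linter.unusedSectionVars false

/-! Jackson and Ordaz (row MP_a7fe73_co, theorem NearLinear), second version: ONE logarithm.  The random splitting lemma
needs a union bound over pairs of stable sets only. -/

namespace JON
open scoped Classical
open Finset

noncomputable section

variable {V : Type}

/-- label P: in the closed G-neighbourhood of I, not in that of J -/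
def AP (D : Digraph V) (R I J : Finset V) : Finset V := NB D R I \ NB D R J

/-- the vertices of R without label -/
def Rst (D : Digraph V) (R I J : Finset V) : Finset V := R \ (AP D R I J ∪ AP D R J I)

/-- the support of a pair outside u and v -/
def e2 (u v : V) (p : V × V) : Finset V := ({p.1, p.2} : Finset V) \ {u, v}

theorem mem_AP {D : Digraph V} {R I J : Finset V} {w : V} : w ∈ AP D R I J ↔ w ∈ NB D R I ∧ w ∉ NB D R J := by
  unfold AP; rw [mem_sdiff]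

theorem mem_Rst {D : Digraph V} {R I J : Finset V} {w : V} :
    w ∈ Rst D R I J ↔ w ∈ R ∧ w ∉ AP D R I J ∧ w ∉ AP D R J I := by
  unfold Rst; rw [mem_sdiff, mem_union]; tauto

theorem mem_e2 {u v : V} {p : V × V} {z : V} : z ∈ e2 u v p ↔ (z = p.1 ∨ z = p.2) ∧ z ≠ u ∧ z ≠ v := by
  unfold e2; simp

/-- specification of a family of connectors from label P (or u) to label Q (or v) -/
structure CS2 (D : Digraph V) (R Z : Finset V) (K : ℕ) (u v : V) (I J : Finset V) (E : Finset (V × V)) : Prop where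
  con : ∀ p ∈ E, D.Adj p.1 p.2 ∧ (p.1 = u ∨ p.1 ∈ AP D R I J) ∧ (p.2 = v ∨ p.2 ∈ AP D R J I)
  dis : ∀ p ∈ E, ∀ p' ∈ E, p ≠ p' → Disjoint (e2 u v p) (e2 u v p')
  big : K ≤ (Rst D R I J).card + Z.card + 2 * E.card

/-- bad labellings -/
def Bad (D : Digraph V) (R Z : Finset V) (b a k x : ℕ) (con : V → V → Finset V → Finset V → Finset (V × V))
    (om : V → Fin b) : Prop := ∃ l : Fin b, ∃ I ⊆ R, I.card ≤ a ∧ ∃ J ⊆ R, J.card ≤ a ∧
  ((2 * b * x ≤ (Rst D R I J).card ∧ ((Rst D R I J).filter (fun v => om v = l)).card < k) ∨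
   ∃ u ∈ Z, ∃ v ∈ Z, 2 * b ^ 2 * x ≤ (con u v I J).card ∧
     ((con u v I J).filter (fun p => ∀ z ∈ e2 u v p, om z = l)).card < k)

/-- CO2: many disjoint connectors -/
def Stmt_CO2 : Prop := ∀ (V : Type) (D : Digraph V) (Z Om : Finset V) (K : ℕ) (u v : V) (I J : Finset V),
  Z ⊆ Om → Rob D Z Om K → u ∈ Z → v ∈ Z → u ≠ v → ¬ D.Adj u v →
  ∃ E : Finset (V × V), CS2 D (Om \ Z) Z K u v I J E

/-- BD2: few labellings are bad -/
def Stmt_BD2 : Prop := ∀ (V : Type) [Fintype V] (D : Digraph V) (R Z : Finset V) (b a k x : ℕ)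
  (con : V → V → Finset V → Finset V → Finset (V × V)), 1 ≤ b →
  (∀ u v I J, ∀ p ∈ con u v I J, ∀ p' ∈ con u v I J, p ≠ p' → Disjoint (e2 u v p) (e2 u v p')) →
  2 ^ x * ((univ : Finset (V → Fin b)).filter (Bad D R Z b a k x con)).card ≤
    b * (R.card + 1) ^ (2 * a) * (1 + Z.card ^ 2) * (2 ^ k * b ^ Fintype.card V)

/-- SD2: a labelling which is not bad has robust parts -/
def Stmt_SD2 : Prop := ∀ (V : Type) (D : Digraph V) (Z Om : Finset V) (b a k x K1 : ℕ)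
  (con : V → V → Finset V → Finset V → Finset (V × V)) (om : V → Fin b) (l : Fin b),
  Alp D a → Z ⊆ Om → (∀ u ∈ Z, ∀ v ∈ Z, u ≠ v → ¬ D.Adj u v → ∀ I J, CS2 D (Om \ Z) Z K1 u v I J (con u v I J)) →
  2 * b * x + Z.card + 4 * b ^ 2 * x ≤ K1 → ¬ Bad D (Om \ Z) Z b a k x con om → Rob D Z (lab om (Om \ Z) l) k

/-- SP2: random splitting with one union bound over stable sets -/
def Stmt_SP2 : Prop := ∀ (V : Type) [Fintype V] (D : Digraph V) (Z Om : Finset V) (q a k l x K1 : ℕ), Alp D a →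
  Z ⊆ Om → 1 ≤ q → Om.card + 1 ≤ 2 ^ l → k + l * (2 * a + 2) + q + 3 ≤ x →
  2 * q * x + Z.card + 4 * q ^ 2 * x ≤ K1 → Rob D Z Om K1 →
  ∃ Vs : Fin q → Finset V, (∀ i, Vs i ⊆ Om \ Z) ∧ (∀ i j, i ≠ j → Disjoint (Vs i) (Vs j)) ∧
    ∀ i, Rob D Z (Vs i) k

/-- CA2: first stage, part 1 -/
def Stmt_CA2 : Prop := ∀ (V : Type) [Fintype V] (D : Digraph V) (a k l : ℕ), KS D k → Alp D a → 1 ≤ a → 1 ≤ l →
  26000 * l * a ≤ k → ∃ (W Q M : Finset V) (N : ℕ) (gw : V → V) (g0 g1 : ℕ → Fin 4 → V), 1 ≤ N ∧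
  W.card = 2 * N ∧ 1 ≤ Q.card ∧ 2 * N ≤ 70 * l * a ∧ Q.card ≤ 2 * (70 * l * a) + 2 ∧
  (∀ w ∈ W, gw w ∈ M ∧ Dg D w (gw w)) ∧ (∀ w ∈ W, ∀ w' ∈ W, gw w = gw w' → w = w') ∧ M.card = 2 * N ∧
  Hub D (N + Q.card - 1) g0 ∧ Hub D (2 * N - 1) g1 ∧
  List.Pairwise Disjoint [hubV (N + Q.card - 1) g0, hubV (2 * N - 1) g1, W, Q, M] ∧
  ∀ R : Finset V, Disjoint R (W ∪ Q) → Stab D R → 70 * l * R.card ≤ (nbr D W R).card + 2

/-- CB2: first stage -/
def Stmt_CB2 : Prop := ∀ (V : Type) [Fintype V] (D : Digraph V) (a k l : ℕ), KS D k → Alp D a → 1 ≤ a → 1 ≤ l →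
  Fintype.card V + 1 ≤ 2 ^ l → 26000 * l * a ≤ k →
  ∃ (W Q M : Finset V) (N : ℕ) (gw : V → V) (g0 g1 : ℕ → Fin 4 → V) (Vs : Fin 5 → Finset V),
  SetupS D W Q M N (70 * l) gw g0 g1 Vs

/-- FI2: the theorem for permutations, one logarithm -/
def Stmt_FI2 : Prop := ∀ (V : Type) [Fintype V] (D : Digraph V) (a k : ℕ), KS D k → Alp D a → 1 ≤ a →
  1200000 * a * Nat.clog 2 (a + 1) ≤ k →
  ∃ τ : Equiv.Perm V, (∀ u v, τ.SameCycle u v) ∧ ∀ v, D.Adj v (τ v)

end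

end JON
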