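import Pool.Agent.Work.MP_a7fe73_nl.Interface2

set_option autoImplicit false
set_option linter.unusedSectionVars false

/-! Jackson and Ordaz (row MP_a7fe73_co, theorem NearLinear), third part: NO logarithm if the digraph has many vertices.
The random splitting lemma with a union bound over the branches of a greedy procedure. -/

namespace JON
open scoped Classical
open Finset

noncomputable section

variable {V : Type}

/-- state of the greedy procedure: chosen vertices of kind P, of kind Q, deleted vertices, exposed vertices -/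
structure Gst (V : Type) where
  I : Finset V
  J : Finset V
  C : Finset V
  E : Finset V

/-- y has a G-neighbour among the chosen vertices -/
def dom (D : Digraph V) (st : Gst V) (y : V) : Prop := ∃ x, (x ∈ st.I ∨ x ∈ st.J) ∧ Dg D x y

/-- one step for the coarse label l: a dominated vertex is skipped, another vertex is exposed; with fine label 3l, 3l+1,
3l+2 it becomes chosen of kind P, chosen of kind Q, deleted -/
def gstep (D : Digraph V) {b : ℕ} (l : ℕ) (om : V → Fin b) (st : Gst V) (y : V) : Gst V :=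
  if dom D st y then st else
    ⟨if (om y).val = 3 * l then insert y st.I else st.I, if (om y).val = 3 * l + 1 then insert y st.J else st.J,
      if (om y).val = 3 * l + 2 then insert y st.C else st.C, insert y st.E⟩

/-- the greedy procedure along a list -/
def grun (D : Digraph V) {b : ℕ} (l : ℕ) (om : V → Fin b) (L : List V) : Gst V :=
  L.foldl (gstep D l om) ⟨∅, ∅, ∅, ∅⟩

/-- bad fine labellings for l, u, v -/
def Bad3 (D : Digraph V) (R : Finset V) (b l k m x : ℕ) (u v : V)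
    (con : V → V → Finset V → Finset V → Finset V → Finset (V × V)) (om : V → Fin b) : Prop :=
  ((grun D l om R.toList).E.filter (fun y => (om y).val = 3 * l)).card ≤ m ∧
  (2 * b * x ≤ (grun D l om R.toList).E.card ∨
   (2 * b * x ≤ (Rst D (R \ (grun D l om R.toList).E) (grun D l om R.toList).I (grun D l om R.toList).J).card ∧
     ((Rst D (R \ (grun D l om R.toList).E) (grun D l om R.toList).I (grun D l om R.toList).J).filter
       (fun y => (om y).val = 3 * l)).card < k) ∨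
   (2 * b ^ 2 * x ≤ (con u v (grun D l om R.toList).I (grun D l om R.toList).J (grun D l om R.toList).E).card ∧
     ((con u v (grun D l om R.toList).I (grun D l om R.toList).J (grun D l om R.toList).E).filter
       (fun p => ∀ z ∈ e2 u v p, (om z).val = 3 * l)).card < k))

/-- GRA: the procedure depends only on the labels of the exposed vertices -/
def Stmt_GRA : Prop := ∀ (V : Type) (D : Digraph V) (b l : ℕ) (om om' : V → Fin b) (L : List V),
  (∀ y ∈ (grun D l om L).E, ∀ j < 3, ((om' y).val = 3 * l + j ↔ (om y).val = 3 * l + j)) →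
  grun D l om' L = grun D l om L

/-- GRB: properties of the final state -/
def Stmt_GRB : Prop := ∀ (V : Type) (D : Digraph V) (b l : ℕ) (om : V → Fin b) (L : List V),
  (∀ y ∈ L, y ∈ (grun D l om L).E ∨ dom D (grun D l om L) y) ∧ (∀ y ∈ (grun D l om L).E, y ∈ L) ∧
  (∀ y, y ∈ (grun D l om L).I ↔ y ∈ (grun D l om L).E ∧ (om y).val = 3 * l) ∧
  (∀ y, y ∈ (grun D l om L).J ↔ y ∈ (grun D l om L).E ∧ (om y).val = 3 * l + 1) ∧
  (∀ y, y ∈ (grun D l om L).C ↔ y ∈ (grun D l om L).E ∧ (om y).val = 3 * l + 2) ∧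
  Stab D ((grun D l om L).I ∪ (grun D l om L).J)

/-- STA: change of measure on a self-determined set of coordinates -/
def Stmt_STA : Prop := ∀ (U : Type) [Fintype U] (b : ℕ) (Ex : (U → Fin b) → Finset U) (w : Fin b → ℝ), 1 ≤ b →
  (∀ om om' : U → Fin b, (∀ y ∈ Ex om, om' y = om y) → Ex om' = Ex om) → ∑ x, w x = (b : ℝ) →
  ∑ om : U → Fin b, ∏ y ∈ Ex om, w (om y) = (b : ℝ) ^ Fintype.card U

/-- STB: a large self-determined set with few values t is unlikely -/
def Stmt_STB : Prop := ∀ (U : Type) [Fintype U] (b : ℕ) (t : Fin b) (Ex : (U → Fin b) → Finset U) (m x M : ℕ),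
  1 ≤ b → (∀ om om' : U → Fin b, (∀ y ∈ Ex om, om' y = om y) → Ex om' = Ex om) → 2 * b * x ≤ M →
  2 ^ x * ((univ : Finset (U → Fin b)).filter (fun om => M ≤ (Ex om).card ∧
    ((Ex om).filter (fun y => om y = t)).card ≤ m)).card ≤ 2 ^ m * b ^ Fintype.card U

/-- BD3: few fine labellings are bad -/
def Stmt_BD3 : Prop := ∀ (V : Type) [Fintype V] (D : Digraph V) (R : Finset V) (b l k m x : ℕ) (u v : V)
  (con : V → V → Finset V → Finset V → Finset V → Finset (V × V)), 3 * l < b →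
  (∀ I J E, ∀ p ∈ con u v I J E, Disjoint (e2 u v p) E) →
  (∀ I J E, ∀ p ∈ con u v I J E, ∀ p' ∈ con u v I J E, p ≠ p' → Disjoint (e2 u v p) (e2 u v p')) →
  2 ^ x * ((univ : Finset (V → Fin b)).filter (Bad3 D R b l k m x u v con)).card ≤
    (2 ^ m + 2 * 2 ^ k) * b ^ Fintype.card V

/-- SD3: if a part of the coarse labelling is not robust then many fine labellings are bad -/
def Stmt_SD3 : Prop := ∀ (V : Type) (D : Digraph V) (Z Om : Finset V) (q a k x K1 : ℕ)
  (con : V → V → Finset V → Finset V → Finset V → Finset (V × V)) (om0 : V → Fin q) (l : Fin q),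
  Alp D a → Z ⊆ Om →
  (∀ u ∈ Z, ∀ v ∈ Z, u ≠ v → ¬ D.Adj u v → ∀ I J, ∀ E ⊆ Om \ Z,
    CS2 D ((Om \ Z) \ E) Z (K1 - E.card) u v I J (con u v I J E)) →
  12 * q * x + Z.card + 36 * q ^ 2 * x ≤ K1 → ¬ Rob D Z (lab om0 (Om \ Z) l) k →
  ∃ u ∈ Z, ∃ v ∈ Z, ∃ (H : Finset V) (c0 : V → Fin 3), H.card ≤ a + k ∧ ∀ om : V → Fin (3 * q),
    (∀ y, (om y).val / 3 = (om0 y).val) → (∀ y ∈ H, (om y).val % 3 = (c0 y).val) →
    Bad3 D (Om \ Z) (3 * q) l.val k (a + k) x u v con om

/-- CT3: coarse and fine labellings -/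
def Stmt_CT3 : Prop := ∀ (V : Type) [Fintype V] (q m : ℕ) (P : (V → Fin q) → Prop) (F : (V → Fin (3 * q)) → Prop),
  (∀ om0, P om0 → ∃ (H : Finset V) (c0 : V → Fin 3), H.card ≤ m ∧ ∀ om : V → Fin (3 * q),
    (∀ y, (om y).val / 3 = (om0 y).val) → (∀ y ∈ H, (om y).val % 3 = (c0 y).val) → F om) →
  3 ^ Fintype.card V * ((univ : Finset (V → Fin q)).filter P).card ≤
    3 ^ m * ((univ : Finset (V → Fin (3 * q))).filter F).card

/-- SP3: random splitting without logarithm -/
def Stmt_SP3 : Prop := ∀ (V : Type) [Fintype V] (D : Digraph V) (Z Om : Finset V) (q a k x K1 : ℕ), Alp D a →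
  Z ⊆ Om → 1 ≤ q → 3 * (a + k) + 2 * Z.card + q + 2 ≤ x → 12 * q * x + Z.card + 36 * q ^ 2 * x ≤ K1 →
  Rob D Z Om K1 →
  ∃ Vs : Fin q → Finset V, (∀ i, Vs i ⊆ Om \ Z) ∧ (∀ i j, i ≠ j → Disjoint (Vs i) (Vs j)) ∧
    ∀ i, Rob D Z (Vs i) k

/-- SHM: shortcuts in a linkage -/
def Stmt_SHM : Prop := ∀ (V : Type) (D : Digraph V) (A B W : Finset V) (f : V → V) (psi : V → ℕ) (x : V) (j : ℕ),
  Disjoint A B → Disjoint A W → Disjoint B W → Lk D A B W f psi → (x ∈ A ∨ x ∈ W) → 2 ≤ j →
  (∀ i, 1 ≤ i → i < j → f^[i] x ∈ W) → (f^[j] x ∈ W ∨ f^[j] x ∈ B) → D.Adj x (f^[j] x) →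
  ∃ W' ⊆ W, W'.card < W.card ∧ ∃ f' : V → V, Lk D A B W' f' psi

/-- SHL: short linkages -/
def Stmt_SHL : Prop := ∀ (V : Type) (D : Digraph V) (a : ℕ) (A B W : Finset V) (f : V → V) (psi : V → ℕ), Alp D a →
  Disjoint A B → Disjoint A W → Disjoint B W → A.card = B.card → Lk D A B W f psi →
  ∃ W' ⊆ W, ∃ (f' : V → V) (psi' : V → ℕ), Lk D A B W' f' psi' ∧ W'.card ≤ 2 * a * A.card

/-- CL3: first stage for many vertices, linear connectivity -/
def Stmt_CL3 : Prop := ∀ (V : Type) [Fintype V] (D : Digraph V) (a k : ℕ), KS D k → Alp D a → 1 ≤ a →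
  12000 * a ≤ k → 22528 * a ^ 5 ≤ Fintype.card V →
  ∃ (m : ℕ) (g : ℕ → Fin 4 → V) (X J O AI Q W1 W2 W3 Om : Finset V) (f1 f2 f3 : V → V) (psi1 psi2 psi3 : V → ℕ)
  (mid : V → V → V), SetupL D m g X J O AI Q W1 W2 W3 Om f1 f2 f3 psi1 psi2 psi3 mid

/-- FI3: the theorem for permutations, final form -/
def Stmt_FI3 : Prop := ∀ (V : Type) [Fintype V] (D : Digraph V) (a k : ℕ), KS D k → Alp D a → 1 ≤ a →
  12000 * a ≤ k → (22528 * a ^ 5 ≤ Fintype.card V ∨ 520000 * a * Nat.clog 2 (a + 1) ≤ k) →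
  ∃ τ : Equiv.Perm V, (∀ u v, τ.SameCycle u v) ∧ ∀ v, D.Adj v (τ v)

end

end JON
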